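import Mathlib

/-!
# Castelnuovo-Mumford regularity by Cech cochains, and the curves of the theorem

The polynomial ring is `ℂ[x_0, …, x_{n-1}]`, `n = r + 1`. All graded pieces of the localizations
`S_{x_T}`, `T` a set of variables, lie in the ring `Lau n` of Laurent polynomials.
-/

set_option autoImplicit false

namespace Pool.Agent.RegRed

open MvPolynomial

noncomputable section

/-- The ring `ℂ[x_0^{±1}, …, x_{n-1}^{±1}]` of Laurent polynomials. -/
abbrev Lau (n : ℕ) : Type := AddMonoidAlgebra ℂ (Fin n → ℤ)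

/-- The Laurent monomial `x^e`. -/
def mono {n : ℕ} (e : Fin n → ℤ) : Lau n := AddMonoidAlgebra.single e 1

/-- The inclusion of the polynomial ring in the Laurent polynomial ring: `X i ↦ x_i`. -/
def incl (n : ℕ) : MvPolynomial (Fin n) ℂ →ₐ[ℂ] Lau n := aeval fun i => mono (Pi.single i 1)

/-- The degree `d` part of the localization `J_{x_T}` of the ideal `J`, `x_T = ∏_{i ∈ T} x_i`:
the Laurent polynomials `f`, homogeneous of degree `d`, with `x_T^N f ∈ J` for some `N`. -/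
def Loc {n : ℕ} (J : Ideal (MvPolynomial (Fin n) ℂ)) (T : Finset (Fin n)) (d : ℤ) :
    Set (Lau n) :=
  {f | (∀ e ∈ f.coeff.support, ∑ i, e i = d) ∧
    ∃ N : ℕ, ∃ g ∈ J, mono (fun i => if i ∈ T then (N : ℤ) else 0) * f = incl n g}

/-- The sign of `i` in `T`: `(-1)^{#{j ∈ T, j < i}}`. -/
def sgn {n : ℕ} (i : Fin n) (T : Finset (Fin n)) : ℂ := (-1) ^ (T.filter (· < i)).card

/-- The Cech coboundary: `(δ c)(T) = ∑_{i ∈ T} (-1)^{#{j ∈ T, j < i}} c(T \ {i})`. -/
def delta {n : ℕ} {M : Type} [AddCommGroup M] [Module ℂ M] (c : Finset (Fin n) → M)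
    (T : Finset (Fin n)) : M :=
  ∑ i ∈ T, sgn i T • c (T.erase i)

/-- `H^p(ℙ^{n-1}, J~(d)) = 0`, for `p ≥ 1`: every Cech `p`-cocycle of the sheaf of the homogeneous
ideal `J`, in degree `d`, for the covering by the sets `x_i ≠ 0`, is a coboundary. A `p`-cochain
gives an element of `(J_{x_T})_d` for every set `T` of `p + 1` variables. -/
def CohVanish {n : ℕ} (J : Ideal (MvPolynomial (Fin n) ℂ)) (p : ℕ) (d : ℤ) : Prop :=
  ∀ c : Finset (Fin n) → Lau n, (∀ T, T.card = p + 1 → c T ∈ Loc J T d) →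
    (∀ T, T.card = p + 2 → delta c T = 0) →
    ∃ b : Finset (Fin n) → Lau n, (∀ T, T.card = p → b T ∈ Loc J T d) ∧
      ∀ T, T.card = p + 1 → delta b T = c T

/-- The subscheme of `ℙ^{n-1}` defined by the homogeneous ideal `J` is `m`-regular. -/
def IsReg {n : ℕ} (J : Ideal (MvPolynomial (Fin n) ℂ)) (m : ℤ) : Prop :=
  ∀ i : ℕ, 1 ≤ i → CohVanish J i (m - i)

/-- The ideal `J` is homogeneous: it contains the homogeneous components of its elements. -/
def IsHomog {n : ℕ} (J : Ideal (MvPolynomial (Fin n) ℂ)) : Prop :=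
  ∀ f ∈ J, ∀ d : ℕ, homogeneousComponent d f ∈ J

/-- The variable `w_j`, `0 ≤ j ≤ k`; the variables of `ℙ^{k+2}` are `t = x_0`, `y = x_1` and
`w_j = x_{j+2}`. -/
def w (k : ℕ) (j : Fin (k + 1)) : Fin (k + 3) := j.succ.succ

/-- The form `w_{j+1}^{b_j} - w_j t^{b_j - 1}`, `0 ≤ j < k`. -/
def chainForm (k : ℕ) (b : ℕ → ℕ) (j : Fin k) : MvPolynomial (Fin (k + 3)) ℂ :=
  X (w k j.succ) ^ b j - X (w k j.castSucc) * X 0 ^ (b j - 1)

/-- The form `y^a w_k - w_0^a t`. -/
def lastForm (k a : ℕ) : MvPolynomial (Fin (k + 3)) ℂ :=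
  X 1 ^ a * X (w k (Fin.last k)) - X (w k 0) ^ a * X 0

/-- The ideal generated by the forms `w_{j+1}^{b_j} - w_j t^{b_j - 1}`, `0 ≤ j < k`, and
`y^a w_k - w_0^a t`. -/
def curveIdeal (k a : ℕ) (b : ℕ → ℕ) : Ideal (MvPolynomial (Fin (k + 3)) ℂ) :=
  Ideal.span (Set.range (chainForm k b) ∪ {lastForm k a})

end

end Pool.Agent.RegRed
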