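import Mathlib
import Pool.Agent.Lib.MP_724d4c_ag.Defs

/-! Row CE: formal properties of `delta` (for cochains with values in any complex vector space). -/

set_option autoImplicit false

namespace Pool.Agent.RegRed

open MvPolynomial

noncomputable section

variable {n : ℕ} {M : Type} [AddCommGroup M] [Module ℂ M]

/-- The contraction with `v`. -/
def kap (v : Fin n) (c : Finset (Fin n) → M) (T : Finset (Fin n)) : M :=
  if v ∈ T then 0 else sgn v (insert v T) • c (insert v T)

theorem sgn_mul_self (i : Fin n) (T : Finset (Fin n)) : sgn i T * sgn i T = 1 := by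
  unfold sgn
  rw [← pow_add, ← two_mul, pow_mul]
  simp

private theorem Cech_sgn_lt (i j : Fin n) (T : Finset (Fin n)) (hi : i ∈ T) (h : i < j) :
    sgn j T = - sgn j (T.erase i) := by
  unfold sgn
  have h1 : (T.erase i).filter (· < j) = (T.filter (· < j)).erase i := by
    ext x
    simp only [Finset.mem_filter, Finset.mem_erase]
    tauto
  have h2 : i ∈ T.filter (· < j) := Finset.mem_filter.2 ⟨hi, h⟩
  have h3 : (T.filter (· < j)).card = ((T.filter (· < j)).erase i).card + 1 :=
    (Finset.card_erase_add_one h2).symm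
  rw [h1, h3, pow_succ]
  ring

private theorem Cech_sgn_gt (i j : Fin n) (T : Finset (Fin n)) (h : i < j) :
    sgn i (T.erase j) = sgn i T := by
  unfold sgn
  congr 2
  ext x
  simp only [Finset.mem_filter, Finset.mem_erase]
  constructor
  · rintro ⟨⟨_, h1⟩, h2⟩
    exact ⟨h1, h2⟩
  · rintro ⟨h1, h2⟩
    exact ⟨⟨fun e => absurd h2 (by rw [e]; exact not_lt.2 h.le), h1⟩, h2⟩

/-- The sign rule. -/
theorem sgn_erase (i j : Fin n) (T : Finset (Fin n)) (hi : i ∈ T) (hj : j ∈ T) (hij : i ≠ j) :
    sgn i T * sgn j (T.erase i) = - (sgn j T * sgn i (T.erase j)) := by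
  rcases lt_or_gt_of_ne hij with h | h
  · rw [Cech_sgn_lt i j T hi h, Cech_sgn_gt i j T h]
    ring
  · rw [Cech_sgn_lt j i T hj h, Cech_sgn_gt j i T h]
    ring

theorem delta_delta (c : Finset (Fin n) → M) (T : Finset (Fin n)) : delta (delta c) T = 0 := by
  classical
  have h0 : delta (delta c) T = ∑ p ∈ T.sigma (fun i => T.erase i),
      (sgn p.1 T * sgn p.2 (T.erase p.1)) • c ((T.erase p.1).erase p.2) := by
    rw [Finset.sum_sigma]
    unfold delta
    refine Finset.sum_congr rfl fun i _ => ?_
    rw [Finset.smul_sum]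
    refine Finset.sum_congr rfl fun j _ => ?_
    rw [smul_smul]
  rw [h0]
  refine Finset.sum_involution (fun p _ => ⟨p.2, p.1⟩) ?_ ?_ ?_ ?_
  · rintro ⟨i, j⟩ hp
    rw [Finset.mem_sigma] at hp
    obtain ⟨hi, hj⟩ := hp
    obtain ⟨hne, hj'⟩ := Finset.mem_erase.1 hj
    simp only
    rw [sgn_erase i j T hi hj' (Ne.symm hne), Finset.erase_right_comm, ← add_smul]
    simp
  · rintro ⟨i, j⟩ hp _ he
    rw [Finset.mem_sigma] at hp
    obtain ⟨_, hj⟩ := hp
    obtain ⟨hne, _⟩ := Finset.mem_erase.1 hj
    simp only [Sigma.mk.injEq] at he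
    exact hne he.1
  · rintro ⟨i, j⟩ hp
    rw [Finset.mem_sigma] at hp ⊢
    obtain ⟨hi, hj⟩ := hp
    obtain ⟨hne, hj'⟩ := Finset.mem_erase.1 hj
    exact ⟨hj', Finset.mem_erase.2 ⟨Ne.symm hne, hi⟩⟩
  · rintro ⟨i, j⟩ _
    rfl

/-- The homotopy identity. -/
theorem delta_kap (v : Fin n) (c : Finset (Fin n) → M) (T : Finset (Fin n)) :
    delta (kap v c) T + kap v (delta c) T = c T := by
  classical
  by_cases hv : v ∈ T
  · have h1 : kap v (delta c) T = 0 := by
      unfold kap
      rw [if_pos hv]
    have h2 : delta (kap v c) T = sgn v T • kap v c (T.erase v) := by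
      unfold delta
      refine Finset.sum_eq_single v ?_ ?_
      · intro i _ hiv
        unfold kap
        rw [if_pos (Finset.mem_erase.2 ⟨Ne.symm hiv, hv⟩), smul_zero]
      · intro h
        exact absurd hv h
    rw [h1, h2, add_zero]
    unfold kap
    rw [if_neg (Finset.notMem_erase v T), Finset.insert_erase hv, smul_smul, sgn_mul_self, one_smul]
  · have h1 : kap v (delta c) T = c T + ∑ i ∈ T,
        (sgn v (insert v T) * sgn i (insert v T)) • c ((insert v T).erase i) := by
      unfold kap
      rw [if_neg hv]
      unfold delta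
      rw [Finset.sum_insert hv, smul_add, smul_smul, sgn_mul_self, one_smul,
        Finset.erase_insert hv, Finset.smul_sum]
      congr 1
      refine Finset.sum_congr rfl fun i _ => ?_
      rw [smul_smul]
    have h2 : delta (kap v c) T = ∑ i ∈ T,
        (-(sgn v (insert v T) * sgn i (insert v T))) • c ((insert v T).erase i) := by
      unfold delta
      refine Finset.sum_congr rfl fun i hi => ?_
      have hiv : i ≠ v := fun e => hv (e ▸ hi)
      have he : insert v (T.erase i) = (insert v T).erase i :=
        (Finset.erase_insert_of_ne (Ne.symm hiv)).symm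
      unfold kap
      rw [if_neg (fun h => hv (Finset.mem_of_mem_erase h)), smul_smul, he]
      congr 1
      have h3 := sgn_erase i v (insert v T) (Finset.mem_insert_of_mem hi)
        (Finset.mem_insert_self v T) hiv
      rw [Finset.erase_insert hv] at h3
      have h4 := sgn_mul_self i (insert v T)
      have h5 := sgn_mul_self i T
      calc sgn i T * sgn v ((insert v T).erase i)
          = (sgn i (insert v T) * sgn i (insert v T)) *
            (sgn i T * sgn v ((insert v T).erase i)) := by rw [h4, one_mul]
        _ = sgn i (insert v T) * sgn i T *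
            (sgn i (insert v T) * sgn v ((insert v T).erase i)) := by ring
        _ = sgn i (insert v T) * sgn i T * (-(sgn v (insert v T) * sgn i T)) := by rw [h3]
        _ = -(sgn v (insert v T) * sgn i (insert v T)) * (sgn i T * sgn i T) := by ring
        _ = -(sgn v (insert v T) * sgn i (insert v T)) := by rw [h5, mul_one]
    rw [h1, h2, add_left_comm, ← Finset.sum_add_distrib]
    rw [Finset.sum_eq_zero, add_zero]
    intro i _
    rw [← add_smul, neg_add_cancel, zero_smul]

end

end Pool.Agent.RegRed
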