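import Mathlib

/-! Row NZ: polynomials monic in one variable are nonzerodivisors. -/

set_option autoImplicit false

namespace Pool.Agent.RegRed

open MvPolynomial

noncomputable section

variable {σ : Type}

open Classical in
private def nzPhi (v : σ) : MvPolynomial σ ℂ →ₐ[ℂ] Polynomial (MvPolynomial σ ℂ) :=
  MvPolynomial.aeval (fun i => if i = v then Polynomial.X else Polynomial.C (X i))

private lemma nzPhi_of_notMem (v : σ) {g : MvPolynomial σ ℂ} (hg : v ∉ g.vars) :
    nzPhi v g = Polynomial.C g := by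
  have h := MvPolynomial.hom_congr_vars (f₁ := (nzPhi v : MvPolynomial σ ℂ →+* Polynomial (MvPolynomial σ ℂ)))
    (f₂ := (Polynomial.C : MvPolynomial σ ℂ →+* Polynomial (MvPolynomial σ ℂ))) (p₁ := g) (p₂ := g) ?_ ?_ rfl
  · exact h
  · ext a
    simp [nzPhi]
  · intro i hi _
    have hne : i ≠ v := fun h => hg (h ▸ hi)
    simp [nzPhi, hne]

private lemma nzPhi_X (v : σ) : nzPhi v (X v) = Polynomial.X := by
  simp [nzPhi]

private lemma nzPhi_eval (v : σ) (g : MvPolynomial σ ℂ) : (nzPhi v g).eval (X v) = g := by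
  have h : ((Polynomial.evalRingHom (X v : MvPolynomial σ ℂ)).comp
      (nzPhi v : MvPolynomial σ ℂ →+* Polynomial (MvPolynomial σ ℂ))) = RingHom.id _ := by
    apply MvPolynomial.ringHom_ext
    · intro a
      have : (nzPhi v) (C a) = Polynomial.C (C a) := by
        simp [nzPhi]
      simp [this]
    · intro i
      by_cases hi : i = v
      · subst hi
        simp [nzPhi]
      · simp [nzPhi, hi]
  exact congrArg (fun f : MvPolynomial σ ℂ →+* MvPolynomial σ ℂ => f g) h

private lemma nzPhi_mem (v : σ) (A : Set (MvPolynomial σ ℂ)) (hA : ∀ g ∈ A, v ∉ g.vars)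
    {g : MvPolynomial σ ℂ} (hg : g ∈ Ideal.span A) :
    nzPhi v g ∈ (Ideal.span A).map (Polynomial.C : MvPolynomial σ ℂ →+* Polynomial (MvPolynomial σ ℂ)) := by
  have h1 : Ideal.map (nzPhi v : MvPolynomial σ ℂ →+* Polynomial (MvPolynomial σ ℂ)) (Ideal.span A) ≤
      (Ideal.span A).map Polynomial.C := by
    rw [Ideal.map_span, Ideal.span_le]
    rintro _ ⟨a, ha, rfl⟩
    have : (nzPhi v : MvPolynomial σ ℂ →+* Polynomial (MvPolynomial σ ℂ)) a = Polynomial.C a :=
      nzPhi_of_notMem v (hA a ha)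
    rw [this]
    exact Ideal.mem_map_of_mem _ (Ideal.subset_span ha)
  exact h1 (Ideal.mem_map_of_mem _ hg)

private lemma eval_mem_of_coeff {K : Ideal (MvPolynomial σ ℂ)} {p : Polynomial (MvPolynomial σ ℂ)}
    (hp : ∀ n, p.coeff n ∈ K) (x : MvPolynomial σ ℂ) : p.eval x ∈ K := by
  rw [Polynomial.eval_eq_sum, Polynomial.sum]
  exact Ideal.sum_mem _ (fun n _ => Ideal.mul_mem_right _ _ (hp n))

private lemma map_mk_eq_zero_iff {K : Ideal (MvPolynomial σ ℂ)} {p : Polynomial (MvPolynomial σ ℂ)} :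
    p.map (Ideal.Quotient.mk K) = 0 ↔ ∀ n, p.coeff n ∈ K := by
  constructor
  · intro h n
    have := congrArg (fun q => Polynomial.coeff q n) h
    simp only [Polynomial.coeff_map, Polynomial.coeff_zero] at this
    exact Ideal.Quotient.eq_zero_iff_mem.mp this
  · intro h
    ext n
    rw [Polynomial.coeff_map, Polynomial.coeff_zero]
    exact Ideal.Quotient.eq_zero_iff_mem.mpr (h n)

private lemma nzPhi_map_zero (v : σ) (A : Set (MvPolynomial σ ℂ)) (hA : ∀ g ∈ A, v ∉ g.vars)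
    {g : MvPolynomial σ ℂ} (hg : g ∈ Ideal.span A) :
    (nzPhi v g).map (Ideal.Quotient.mk (Ideal.span A)) = 0 :=
  map_mk_eq_zero_iff.mpr (Ideal.mem_map_C_iff.mp (nzPhi_mem v A hA hg))

/-- Proof: let `Φ : S → S[Z]` be the `ℂ`-algebra map with `X v ↦ Z`, `X i ↦ C (X i)`. Then `Φ g = C g` for `g`
without `v`, so `Φ(K) ⊆ K.map C`, and `Φ (X v ^ b - f0) = Z^b - C f0` is monic, so it is a nonzerodivisor in
`(S/K)[Z]`; evaluate at `Z = X v` to come back. -/
theorem nzd_monic (v : σ) (A : Set (MvPolynomial σ ℂ)) (hA : ∀ g ∈ A, v ∉ g.vars)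
    (f0 : MvPolynomial σ ℂ) (hf0 : v ∉ f0.vars) (b : ℕ) (hb : 1 ≤ b) (g : MvPolynomial σ ℂ)
    (hg : (X v ^ b - f0) * g ∈ Ideal.span A) : g ∈ Ideal.span A := by
  have h := nzPhi_map_zero v A hA hg
  rw [map_mul, map_sub, map_pow, nzPhi_X, nzPhi_of_notMem v hf0, Polynomial.map_mul, Polynomial.map_sub,
    Polynomial.map_pow, Polynomial.map_X, Polynomial.map_C] at h
  have hm : (Polynomial.X ^ b - Polynomial.C (Ideal.Quotient.mk (Ideal.span A) f0)).Monic :=
    Polynomial.monic_X_pow_sub_C _ (by omega)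
  have h2 : (nzPhi v g).map (Ideal.Quotient.mk (Ideal.span A)) = 0 := by
    have := hm.isRegular.left
    exact this (by simpa using h)
  have h3 := eval_mem_of_coeff (map_mk_eq_zero_iff.mp h2) (X v)
  rwa [nzPhi_eval] at h3

/-- A polynomial `G` without `v` that is a nonzerodivisor modulo `K = (A)` is a nonzerodivisor modulo
`K + (X v ^ b - f0)`. Proof: same `Φ`, division by the monic polynomial in `(S/K)[Z]`. -/
theorem nzd_adjoin (v : σ) (A : Set (MvPolynomial σ ℂ)) (hA : ∀ g ∈ A, v ∉ g.vars)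
    (f0 : MvPolynomial σ ℂ) (hf0 : v ∉ f0.vars) (b : ℕ) (hb : 1 ≤ b)
    (G : MvPolynomial σ ℂ) (hG : v ∉ G.vars)
    (hn : ∀ g, G * g ∈ Ideal.span A → g ∈ Ideal.span A) (g : MvPolynomial σ ℂ)
    (hg : G * g ∈ Ideal.span A ⊔ Ideal.span {X v ^ b - f0}) :
    g ∈ Ideal.span A ⊔ Ideal.span {X v ^ b - f0} := by
  obtain ⟨k, hk, y, hy, hky⟩ := Submodule.mem_sup.mp hg
  obtain ⟨c, rfl⟩ := Ideal.mem_span_singleton'.mp hy
  set mk := Ideal.Quotient.mk (Ideal.span A) with hmk
  set m : Polynomial (MvPolynomial σ ℂ ⧸ Ideal.span A) := Polynomial.X ^ b - Polynomial.C (mk f0) with hmdef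
  have hm : m.Monic := Polynomial.monic_X_pow_sub_C _ (by omega)
  have h1 : (nzPhi v (G * g)).map mk = (nzPhi v c).map mk * m := by
    rw [← hky, map_add, Polynomial.map_add, nzPhi_map_zero v A hA hk, zero_add, map_mul, map_sub, map_pow,
      nzPhi_X, nzPhi_of_notMem v hf0, Polynomial.map_mul, Polynomial.map_sub,
      Polynomial.map_pow, Polynomial.map_X, Polynomial.map_C]
  have h2 : (mk G) • ((nzPhi v g).map mk) = (nzPhi v c).map mk * m := by
    rw [← h1, map_mul, nzPhi_of_notMem v hG, Polynomial.map_mul, Polynomial.map_C, Polynomial.smul_eq_C_mul]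
  have h3 : (mk G) • (((nzPhi v g).map mk) %ₘ m) = 0 := by
    rw [← Polynomial.smul_modByMonic, h2]
    exact (Polynomial.modByMonic_eq_zero_iff_dvd hm).mpr (dvd_mul_left m _)
  have h4 : ((nzPhi v g).map mk) %ₘ m = 0 := by
    ext n
    have := congrArg (fun q => Polynomial.coeff q n) h3
    simp only [Polynomial.coeff_smul, Polynomial.coeff_zero, smul_eq_mul] at this
    obtain ⟨r, hr⟩ := Ideal.Quotient.mk_surjective ((((nzPhi v g).map mk) %ₘ m).coeff n)
    rw [← hr] at this ⊢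
    rw [← map_mul] at this
    rw [Polynomial.coeff_zero]
    exact Ideal.Quotient.eq_zero_iff_mem.mpr (hn r (Ideal.Quotient.eq_zero_iff_mem.mp this))
  obtain ⟨q, hq⟩ := (Polynomial.modByMonic_eq_zero_iff_dvd hm).mp h4
  obtain ⟨q', rfl⟩ := Polynomial.map_surjective mk Ideal.Quotient.mk_surjective q
  have h5 : (nzPhi v g - (Polynomial.X ^ b - Polynomial.C f0) * q').map mk = 0 := by
    rw [Polynomial.map_sub, Polynomial.map_mul, Polynomial.map_sub, Polynomial.map_pow, Polynomial.map_X,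
      Polynomial.map_C, hq, sub_self]
  have h6 := eval_mem_of_coeff (map_mk_eq_zero_iff.mp h5) (X v)
  rw [Polynomial.eval_sub, nzPhi_eval, Polynomial.eval_mul, Polynomial.eval_sub, Polynomial.eval_pow,
    Polynomial.eval_X, Polynomial.eval_C] at h6
  refine Submodule.mem_sup.mpr ⟨_, h6, (X v ^ b - f0) * q'.eval (X v), ?_, by ring⟩
  exact Ideal.mul_mem_right _ _ (Ideal.subset_span rfl)

end

end Pool.Agent.RegRed
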