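import Mathlib
import Pool.Agent.Lib.MP_724d4c_ag.Defs

/-! Row LO: closure properties of `Loc`. -/

set_option autoImplicit false

namespace Pool.Agent.RegRed

open MvPolynomial

noncomputable section

variable {n : ℕ}

theorem LA_mono_add (e e' : Fin n → ℤ) : mono (e + e') = mono e * mono e' := by
  simp [mono, AddMonoidAlgebra.single_mul_single]

theorem LA_mono_zero : mono (0 : Fin n → ℤ) = 1 := rfl

theorem LA_mono_nsmul (e : Fin n → ℤ) (k : ℕ) : mono e ^ k = mono (k • e) := by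
  induction k with
  | zero => rw [pow_zero, zero_smul, LA_mono_zero]
  | succ k ih => rw [pow_succ, ih, ← LA_mono_add, succ_nsmul]

theorem LA_mono_sum (s : Finset (Fin n)) (f : Fin n → Fin n → ℤ) :
    ∏ i ∈ s, mono (f i) = mono (∑ i ∈ s, f i) := by
  classical
  induction s using Finset.induction_on with
  | empty => rw [Finset.prod_empty, Finset.sum_empty, LA_mono_zero]
  | insert a s ha ih => rw [Finset.prod_insert ha, Finset.sum_insert ha, ih, LA_mono_add]

theorem incl_monomial (e : Fin n →₀ ℕ) (c : ℂ) :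
    incl n (monomial e c) = AddMonoidAlgebra.single (fun i => (e i : ℤ)) c := by
  have h1 : (e.prod fun i k => (mono (Pi.single i 1) : Lau n) ^ k) =
      mono (fun i => (e i : ℤ)) := by
    rw [Finsupp.prod_fintype _ _ (fun i => pow_zero _)]
    rw [Finset.prod_congr rfl fun i _ => LA_mono_nsmul (Pi.single i 1) (e i), LA_mono_sum]
    congr 1
    funext j
    rw [Finset.sum_apply, Finset.sum_eq_single j]
    · simp
    · intro i _ hij
      simp [Ne.symm hij]
    · intro h
      exact absurd (Finset.mem_univ j) h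
  rw [incl, aeval_monomial, h1, mono]
  rw [AddMonoidAlgebra.coe_algebraMap]
  simp [AddMonoidAlgebra.single_mul_single]

theorem incl_coeff (f : MvPolynomial (Fin n) ℂ) (e : Fin n →₀ ℕ) :
    (incl n f).coeff (fun i => (e i : ℤ)) = f.coeff e := by
  classical
  induction f using MvPolynomial.induction_on' with
  | monomial u a =>
    rw [incl_monomial, AddMonoidAlgebra.coeff_single, Finsupp.single_apply, coeff_monomial]
    by_cases h : u = e
    · subst h
      rw [if_pos rfl, if_pos rfl]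
    · rw [if_neg h, if_neg]
      intro h'
      apply h
      ext i
      have := congrFun h' i
      exact_mod_cast this
  | add p q hp hq =>
    rw [map_add, AddMonoidAlgebra.coeff_add, Finsupp.add_apply, hp, hq, coeff_add]

theorem incl_support (f : MvPolynomial (Fin n) ℂ) (e : Fin n → ℤ) (h : (incl n f).coeff e ≠ 0) :
    ∃ e' : Fin n →₀ ℕ, e' ∈ f.support ∧ e = fun i => (e' i : ℤ) := by
  classical
  by_contra hcon
  push Not at hcon
  apply h
  rw [f.as_sum, map_sum, AddMonoidAlgebra.coeff_sum, Finset.sum_apply']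
  refine Finset.sum_eq_zero fun e' he' => ?_
  rw [incl_monomial, AddMonoidAlgebra.coeff_single, Finsupp.single_apply, if_neg]
  intro h'
  exact hcon e' he' h'.symm

theorem incl_injective : Function.Injective (incl n) := by
  intro f g h
  ext e
  rw [← incl_coeff, ← incl_coeff, h]

theorem mono_mul_mono (e e' : Fin n → ℤ) : mono e * mono e' = mono (e + e') := by
  simp [mono]

/-- Multiplication by a monomial shifts the coefficients. -/
theorem mono_mul_coeff (e e' : Fin n → ℤ) (f : Lau n) : (mono e * f).coeff (e + e') = f.coeff e' := by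
  rw [mono, AddMonoidAlgebra.coeff_single_mul_apply, one_mul, neg_add_cancel_left]

theorem mono_mul_cancel (e : Fin n → ℤ) (f g : Lau n) (h : mono e * f = mono e * g) : f = g := by
  have h1 : mono (-e) * (mono e * f) = mono (-e) * (mono e * g) := by rw [h]
  rwa [← mul_assoc, ← mul_assoc, mono_mul_mono, neg_add_cancel, LA_mono_zero, one_mul,
    one_mul] at h1

/-- the exponent `N` on `T` -/
def LA_ex (T : Finset (Fin n)) (N : ℕ) : Fin n → ℤ := fun i => if i ∈ T then (N : ℤ) else 0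

theorem LA_ex_add (T : Finset (Fin n)) (N M : ℕ) : LA_ex T (N + M) = LA_ex T N + LA_ex T M := by
  funext i
  by_cases h : i ∈ T <;> simp [LA_ex, h]

/-- multiplication by `x_T ^ N` in the polynomial ring -/
theorem LA_incl_ex (T : Finset (Fin n)) (N : ℕ) :
    ∃ q : MvPolynomial (Fin n) ℂ, incl n q = mono (LA_ex T N) := by
  refine ⟨monomial (Finsupp.equivFunOnFinite.symm fun i => if i ∈ T then N else 0) 1, ?_⟩
  rw [incl_monomial, mono]
  congr 1
  funext i
  by_cases h : i ∈ T <;> simp [LA_ex, h]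

theorem LA_mem {J : Ideal (MvPolynomial (Fin n) ℂ)} {T : Finset (Fin n)} {d : ℤ} {f : Lau n} :
    f ∈ Loc J T d ↔ (∀ e, f.coeff e ≠ 0 → ∑ i, e i = d) ∧
      ∃ N : ℕ, ∃ g ∈ J, mono (LA_ex T N) * f = incl n g := by
  refine and_congr ?_ Iff.rfl
  simp only [Finsupp.mem_support_iff]

theorem LA_up {J : Ideal (MvPolynomial (Fin n) ℂ)} {T : Finset (Fin n)} {f : Lau n} {N : ℕ}
    (M : ℕ) (h : ∃ g ∈ J, mono (LA_ex T N) * f = incl n g) :
    ∃ g ∈ J, mono (LA_ex T (M + N)) * f = incl n g := by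
  obtain ⟨g, hg, e⟩ := h
  obtain ⟨q, hq⟩ := LA_incl_ex T M
  refine ⟨q * g, J.mul_mem_left q hg, ?_⟩
  rw [LA_ex_add, LA_mono_add, mul_assoc, e, map_mul, hq]

theorem Loc_zero (J : Ideal (MvPolynomial (Fin n) ℂ)) (T : Finset (Fin n)) (d : ℤ) :
    (0 : Lau n) ∈ Loc J T d := by
  refine LA_mem.mpr ⟨fun e he => absurd rfl he, 0, 0, J.zero_mem, ?_⟩
  rw [mul_zero, map_zero]

theorem Loc_add {J : Ideal (MvPolynomial (Fin n) ℂ)} {T : Finset (Fin n)} {d : ℤ} {f g : Lau n}
    (hf : f ∈ Loc J T d) (hg : g ∈ Loc J T d) : f + g ∈ Loc J T d := by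
  obtain ⟨h1, N, hN⟩ := LA_mem.mp hf
  obtain ⟨h2, M, hM⟩ := LA_mem.mp hg
  refine LA_mem.mpr ⟨fun e he => ?_, M + N, ?_⟩
  · by_cases h3 : f.coeff e = 0
    · refine h2 e fun h4 => he ?_
      rw [AddMonoidAlgebra.coeff_add, Finsupp.add_apply, h3, h4, add_zero]
    · exact h1 e h3
  · obtain ⟨p, hp, e1⟩ := LA_up M hN
    obtain ⟨q, hq, e2⟩ := LA_up N hM
    rw [add_comm N M] at e2
    exact ⟨p + q, J.add_mem hp hq, by rw [mul_add, e1, e2, map_add]⟩

theorem Loc_smul {J : Ideal (MvPolynomial (Fin n) ℂ)} {T : Finset (Fin n)} {d : ℤ} {f : Lau n}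
    (c : ℂ) (hf : f ∈ Loc J T d) : c • f ∈ Loc J T d := by
  obtain ⟨h1, N, g, hg, e⟩ := LA_mem.mp hf
  refine LA_mem.mpr ⟨fun e' he => h1 e' fun h3 => he ?_, N, c • g, ?_, ?_⟩
  · rw [AddMonoidAlgebra.coeff_smul, Finsupp.smul_apply, h3, smul_zero]
  · rw [MvPolynomial.smul_eq_C_mul]
    exact J.mul_mem_left _ hg
  · rw [mul_smul_comm, e, map_smul]

theorem Loc_neg {J : Ideal (MvPolynomial (Fin n) ℂ)} {T : Finset (Fin n)} {d : ℤ} {f : Lau n}
    (hf : f ∈ Loc J T d) : -f ∈ Loc J T d := by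
  have := Loc_smul (-1) hf
  rwa [neg_one_smul] at this

theorem Loc_sub {J : Ideal (MvPolynomial (Fin n) ℂ)} {T : Finset (Fin n)} {d : ℤ} {f g : Lau n}
    (hf : f ∈ Loc J T d) (hg : g ∈ Loc J T d) : f - g ∈ Loc J T d := by
  rw [sub_eq_add_neg]
  exact Loc_add hf (Loc_neg hg)

theorem Loc_sum {ι : Type} {J : Ideal (MvPolynomial (Fin n) ℂ)} {T : Finset (Fin n)} {d : ℤ}
    (s : Finset ι) (f : ι → Lau n) (hf : ∀ i ∈ s, f i ∈ Loc J T d) : ∑ i ∈ s, f i ∈ Loc J T d := by
  classical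
  induction s using Finset.induction_on with
  | empty => rw [Finset.sum_empty]; exact Loc_zero J T d
  | insert a s ha ih =>
    rw [Finset.sum_insert ha]
    exact Loc_add (hf a (Finset.mem_insert_self a s))
      (ih fun i hi => hf i (Finset.mem_insert_of_mem hi))

theorem Loc_mono {J K : Ideal (MvPolynomial (Fin n) ℂ)} {T T' : Finset (Fin n)} {d : ℤ} {f : Lau n}
    (hJ : J ≤ K) (hT : T ⊆ T') (hf : f ∈ Loc J T d) : f ∈ Loc K T' d := by
  obtain ⟨h1, N, g, hg, e⟩ := LA_mem.mp hf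
  obtain ⟨q, hq⟩ := LA_incl_ex (T' \ T) N
  refine LA_mem.mpr ⟨h1, N, q * g, K.mul_mem_left q (hJ hg), ?_⟩
  have h2 : LA_ex T' N = LA_ex (T' \ T) N + LA_ex T N := by
    funext i
    by_cases h3 : i ∈ T
    · simp [LA_ex, h3, hT h3]
    · by_cases h4 : i ∈ T' <;> simp [LA_ex, h3, h4]
  rw [h2, LA_mono_add, mul_assoc, e, map_mul, hq]

theorem Loc_bot {T : Finset (Fin n)} {d : ℤ} {f : Lau n} (hf : f ∈ Loc ⊥ T d) : f = 0 := by
  obtain ⟨h1, N, g, hg, e⟩ := LA_mem.mp hf
  rw [Ideal.mem_bot] at hg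
  subst hg
  refine mono_mul_cancel (LA_ex T N) f 0 ?_
  rw [e, map_zero, mul_zero]

theorem LB_single_mem {T : Finset (Fin n)} {d : ℤ} (e : Fin n → ℤ) (c : ℂ)
    (h : ∀ i, i ∉ T → 0 ≤ e i) (hd : ∑ i, e i = d) :
    (AddMonoidAlgebra.single e c : Lau n) ∈ Loc ⊤ T d := by
  classical
  refine LA_mem.mpr ⟨fun e' he' => ?_, ∑ i, (e i).natAbs,
    monomial (Finsupp.equivFunOnFinite.symm fun i =>
      (LA_ex T (∑ i, (e i).natAbs) i + e i).toNat) c, Submodule.mem_top, ?_⟩
  · rw [AddMonoidAlgebra.coeff_single, Finsupp.single_apply] at he'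
    by_cases h1 : e = e'
    · rw [← h1, hd]
    · rw [if_neg h1] at he'
      exact absurd rfl he'
  · rw [incl_monomial, mono, AddMonoidAlgebra.single_mul_single, one_mul]
    congr 1
    funext i
    rw [Pi.add_apply, Finsupp.equivFunOnFinite_symm_apply_apply, Int.toNat_of_nonneg]
    by_cases h1 : i ∈ T
    · have h2 : (e i).natAbs ≤ ∑ i, (e i).natAbs :=
        Finset.single_le_sum (f := fun i => (e i).natAbs) (fun _ _ => Nat.zero_le _)
          (Finset.mem_univ i)
      have h3 : LA_ex T (∑ i, (e i).natAbs) i = ((∑ i, (e i).natAbs : ℕ) : ℤ) := by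
        simp [LA_ex, h1]
      rw [h3]
      omega
    · have h3 : LA_ex T (∑ i, (e i).natAbs) i = 0 := by simp [LA_ex, h1]
      rw [h3, zero_add]
      exact h i h1

/-- The elements of `(S_{x_T})_d`: exponents outside `T` are nonnegative, the degree is `d`. -/
theorem mem_Loc_top {T : Finset (Fin n)} {d : ℤ} {f : Lau n} :
    f ∈ Loc ⊤ T d ↔ ∀ e ∈ f.coeff.support, (∀ i, i ∉ T → 0 ≤ e i) ∧ ∑ i, e i = d := by
  classical
  constructor
  · intro hf e he
    rw [Finsupp.mem_support_iff] at he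
    obtain ⟨h1, N, g, _, h2⟩ := LA_mem.mp hf
    refine ⟨fun i hi => ?_, h1 e he⟩
    have h3 : (incl n g).coeff (LA_ex T N + e) ≠ 0 := by
      rw [← h2, mono_mul_coeff]
      exact he
    obtain ⟨e', _, h4⟩ := incl_support g _ h3
    have h5 := congrFun h4 i
    rw [Pi.add_apply] at h5
    have h6 : LA_ex T N i = 0 := by simp [LA_ex, hi]
    rw [h6, zero_add] at h5
    rw [h5]
    exact Int.natCast_nonneg _
  · intro hf
    have h1 : f = ∑ e ∈ f.coeff.support, AddMonoidAlgebra.single e (f.coeff e) := by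
      conv_lhs => rw [← AddMonoidAlgebra.sum_coeff_single f]
      rfl
    rw [h1]
    exact Loc_sum _ _ fun e he => LB_single_mem e _ (hf e he).1 (hf e he).2

theorem delta_mem {J : Ideal (MvPolynomial (Fin n) ℂ)} {p : ℕ} {d : ℤ} (c : Finset (Fin n) → Lau n)
    (hc : ∀ T, T.card = p → c T ∈ Loc J T d) (T : Finset (Fin n)) (hT : T.card = p + 1) :
    delta c T ∈ Loc J T d := by
  unfold delta
  refine Loc_sum _ _ fun i hi => Loc_smul _ (Loc_mono le_rfl (Finset.erase_subset i T) (hc _ ?_))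
  rw [Finset.card_erase_of_mem hi, hT, Nat.add_sub_cancel]

theorem LB_deg {d : ℤ} {e : ℕ} {f : MvPolynomial (Fin n) ℂ} (hf : f.IsHomogeneous e) {a : Lau n}
    (ha : ∀ e, a.coeff e ≠ 0 → ∑ i, e i = d) (e' : Fin n → ℤ)
    (h : (incl n f * a).coeff e' ≠ 0) : ∑ i, e' i = d + e := by
  classical
  have h1 := AddMonoidAlgebra.support_coeff_mul_subset (incl n f) a (Finsupp.mem_support_iff.mpr h)
  obtain ⟨e1, he1, e2, he2, h2⟩ := Finset.mem_image₂.mp h1
  rw [Finsupp.mem_support_iff] at he1 he2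
  obtain ⟨e3, he3, h3⟩ := incl_support f e1 he1
  have h4 : e3.degree = e := by
    have h := hf (mem_support_iff.mp he3)
    rw [Finsupp.weight_apply, Finsupp.sum_fintype] at h
    · rw [Finsupp.degree_eq_sum, ← h]
      simp
    · simp
  have h5 : ∑ i, e1 i = e := by
    rw [h3, ← h4, Finsupp.degree_eq_sum]
    push_cast
    rfl
  rw [← h2, ← ha e2 he2, ← h5, add_comm, ← Finset.sum_add_distrib]
  rfl

/-- Multiplication by a form. -/
theorem Loc_mul {J : Ideal (MvPolynomial (Fin n) ℂ)} {T : Finset (Fin n)} {d : ℤ} {e : ℕ}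
    {f : MvPolynomial (Fin n) ℂ} (hf : f.IsHomogeneous e) {a : Lau n} (ha : a ∈ Loc J T d) :
    incl n f * a ∈ Loc J T (d + e) := by
  obtain ⟨h1, N, g, hg, h2⟩ := LA_mem.mp ha
  refine LA_mem.mpr ⟨LB_deg hf h1, N, f * g, J.mul_mem_left f hg, ?_⟩
  rw [mul_left_comm, h2, map_mul]

theorem Loc_mul_self {T : Finset (Fin n)} {d : ℤ} {e : ℕ} {f : MvPolynomial (Fin n) ℂ}
    (hf : f.IsHomogeneous e) {a : Lau n} (ha : a ∈ Loc ⊤ T d) :
    incl n f * a ∈ Loc (Ideal.span {f}) T (d + e) := by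
  obtain ⟨h1, N, g, hg, h2⟩ := LA_mem.mp ha
  refine LA_mem.mpr ⟨LB_deg hf h1, N, f * g,
    Ideal.mul_mem_right g _ (Ideal.subset_span (Set.mem_singleton f)), ?_⟩
  rw [mul_left_comm, h2, map_mul]

/-- A nonzerodivisor modulo `J` is one modulo `J_{x_T}`. -/
theorem Loc_nzd {J : Ideal (MvPolynomial (Fin n) ℂ)} {T : Finset (Fin n)} {d : ℤ} {e : ℕ}
    {f : MvPolynomial (Fin n) ℂ} (hn : ∀ g, f * g ∈ J → g ∈ J) {a : Lau n}
    (ha : a ∈ Loc ⊤ T d) (hfa : incl n f * a ∈ Loc J T (d + e)) : a ∈ Loc J T d := by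
  obtain ⟨h1, N, hN⟩ := LA_mem.mp ha
  obtain ⟨_, M, hM⟩ := LA_mem.mp hfa
  obtain ⟨g, _, h2⟩ := LA_up M hN
  obtain ⟨h, hh, h3⟩ := LA_up N hM
  rw [add_comm N M] at h3
  refine LA_mem.mpr ⟨h1, M + N, g, hn g ?_, h2⟩
  have h4 : f * g = h := by
    apply incl_injective
    rw [map_mul, ← h2, ← h3, mul_left_comm]
  rw [h4]
  exact hh

/-- If `x_T^m x = g` with `x` homogeneous then `g` is homogeneous. -/
theorem degree_of_incl {d : ℤ} {m : Fin n → ℤ} {x : Lau n} {g : MvPolynomial (Fin n) ℂ}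
    (hx : ∀ e ∈ x.coeff.support, ∑ i, e i = d) (h : mono m * x = incl n g)
    (e : Fin n →₀ ℕ) (he : e ∈ g.support) : ∑ i, (e i : ℤ) = d + ∑ i, m i := by
  have h1 : (incl n g).coeff (fun i => (e i : ℤ)) ≠ 0 := by
    rw [incl_coeff]
    exact MvPolynomial.mem_support_iff.mp he
  have h2 : (fun i => (e i : ℤ)) = m + ((fun i => (e i : ℤ)) - m) := by
    rw [add_sub_cancel]
  rw [← h, h2, mono_mul_coeff] at h1
  have h3 := hx _ (Finsupp.mem_support_iff.mpr h1)
  simp only [Pi.sub_apply, Finset.sum_sub_distrib] at h3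
  linarith

theorem weight_one_sum (e : Fin n →₀ ℕ) : Finsupp.weight (1 : Fin n → ℕ) e = ∑ i, e i := by
  rw [Finsupp.weight_apply, Finsupp.sum_fintype]
  · simp
  · simp

theorem degree_of_support {g : MvPolynomial (Fin n) ℂ} {D : ℕ} (hg : g.IsHomogeneous D)
    (e : Fin n →₀ ℕ) (he : e ∈ g.support) : ∑ i, (e i : ℤ) = D := by
  have h1 := hg (MvPolynomial.mem_support_iff.mp he)
  rw [weight_one_sum] at h1
  rw [← h1]
  push_cast
  rfl

theorem hc_mul {f : MvPolynomial (Fin n) ℂ} {e : ℕ} (hf : f.IsHomogeneous e)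
    (q : MvPolynomial (Fin n) ℂ) (D : ℕ) :
    homogeneousComponent (D + e) (f * q) = f * homogeneousComponent D q := by
  have h1 : q = ∑ i ∈ Finset.range (q.totalDegree + 1), homogeneousComponent i q :=
    (sum_homogeneousComponent q).symm
  have h2 : ∀ i, homogeneousComponent (D + e) (f * homogeneousComponent i q) =
      if i = D then f * homogeneousComponent D q else 0 := by
    intro i
    have h3 : (f * homogeneousComponent i q) ∈ homogeneousSubmodule (Fin n) ℂ (e + i) :=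
      (mem_homogeneousSubmodule _ _).mpr (hf.mul (homogeneousComponent_isHomogeneous i q))
    rw [homogeneousComponent_of_mem h3]
    by_cases hi : i = D
    · subst hi
      rw [if_pos (by ring), if_pos rfl]
    · rw [if_neg (by omega), if_neg hi]
  conv_lhs => rw [h1]
  rw [Finset.mul_sum, map_sum]
  simp only [h2]
  rw [Finset.sum_ite_eq']
  split_ifs with h
  · rfl
  · rw [Finset.mem_range, not_lt] at h
    rw [homogeneousComponent_eq_zero _ _ (by omega), mul_zero]

theorem hc_mul_lt {f : MvPolynomial (Fin n) ℂ} {e : ℕ} (hf : f.IsHomogeneous e)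
    (q : MvPolynomial (Fin n) ℂ) {D : ℕ} (hD : D < e) :
    homogeneousComponent D (f * q) = 0 := by
  have h1 : q = ∑ i ∈ Finset.range (q.totalDegree + 1), homogeneousComponent i q :=
    (sum_homogeneousComponent q).symm
  rw [h1, Finset.mul_sum, map_sum]
  refine Finset.sum_eq_zero (fun i _ => ?_)
  have h3 : (f * homogeneousComponent i q) ∈ homogeneousSubmodule (Fin n) ℂ (e + i) :=
    (mem_homogeneousSubmodule _ _).mpr (hf.mul (homogeneousComponent_isHomogeneous i q))
  rw [homogeneousComponent_of_mem h3, if_neg (by omega)]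

/-- The quotient of a homogeneous polynomial by a monomial lies in `Loc`. -/
theorem Loc_of_homog {J : Ideal (MvPolynomial (Fin n) ℂ)} {T : Finset (Fin n)} {d : ℤ} {D N : ℕ}
    {g : MvPolynomial (Fin n) ℂ} (hg : g.IsHomogeneous D) (hgJ : g ∈ J)
    (hD : (D : ℤ) = d + ∑ i, (if i ∈ T then (N : ℤ) else 0)) :
    mono (fun i => -(if i ∈ T then (N : ℤ) else 0)) * incl n g ∈ Loc J T d ∧
      mono (fun i => if i ∈ T then (N : ℤ) else 0) *
        (mono (fun i => -(if i ∈ T then (N : ℤ) else 0)) * incl n g) = incl n g := by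
  have hcan : mono (fun i => if i ∈ T then (N : ℤ) else 0) *
        (mono (fun i => -(if i ∈ T then (N : ℤ) else 0)) * incl n g) = incl n g := by
    rw [← mul_assoc, mono_mul_mono]
    have h1 : (fun i => if i ∈ T then (N : ℤ) else 0) +
        (fun i => -(if i ∈ T then (N : ℤ) else 0)) = (0 : Fin n → ℤ) := by
      funext i
      simp
    rw [h1]
    have h2 : (mono (0 : Fin n → ℤ) : Lau n) = 1 := rfl
    rw [h2, one_mul]
  refine ⟨⟨?_, N, g, hgJ, hcan⟩, hcan⟩
  intro e he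
  set m : Fin n → ℤ := fun i => if i ∈ T then (N : ℤ) else 0 with hm
  have h1 := Finsupp.mem_support_iff.mp he
  have h2 : (mono m * (mono (fun i => -(if i ∈ T then (N : ℤ) else 0)) * incl n g)).coeff
      (m + e) ≠ 0 := by
    rw [mono_mul_coeff]
    exact h1
  rw [hcan] at h2
  obtain ⟨e', he', hee'⟩ := incl_support g (m + e) h2
  have h3 := degree_of_support hg e' he'
  have h4 : ∑ i, (m i + e i) = ∑ i, (e' i : ℤ) := by
    refine Finset.sum_congr rfl (fun i _ => ?_)
    exact congrFun hee' i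
  rw [h3, hD, Finset.sum_add_distrib] at h4
  linarith

/-- Decomposition of the elements of `(J + (f))_{x_T}`. -/
theorem Loc_decomp {J : Ideal (MvPolynomial (Fin n) ℂ)}
    (hJ : IsHomog J) {T : Finset (Fin n)} {d : ℤ} {e : ℕ}
    {f : MvPolynomial (Fin n) ℂ} (hf : f.IsHomogeneous e) {x : Lau n}
    (hx : x ∈ Loc (J ⊔ Ideal.span {f}) T d) :
    ∃ a ∈ Loc J T d, ∃ b ∈ Loc ⊤ T (d - e), x = a + incl n f * b := by
  obtain ⟨hdeg, N, g, hg, hgx⟩ := hx
  set m : Fin n → ℤ := fun i => if i ∈ T then (N : ℤ) else 0 with hm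
  have hgdeg := degree_of_incl hdeg hgx
  by_cases hg0 : g = 0
  · refine ⟨0, Loc_zero J T d, 0, Loc_zero ⊤ T (d - e), ?_⟩
    rw [mul_zero, add_zero]
    apply mono_mul_cancel m
    rw [hgx, hg0, map_zero, mul_zero]
  -- the degree of `g`
  obtain ⟨D, hD⟩ : ∃ D : ℕ, (D : ℤ) = d + ∑ i, m i := by
    obtain ⟨e₀, he₀⟩ := MvPolynomial.support_nonempty.mpr hg0
    refine ⟨∑ i, e₀ i, ?_⟩
    rw [← hgdeg e₀ he₀]
    push_cast
    rfl
  have hghom : g.IsHomogeneous D := by
    intro e' he'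
    rw [weight_one_sum]
    have h1 := hgdeg e' (MvPolynomial.mem_support_iff.mpr he')
    rw [← hD] at h1
    exact_mod_cast h1
  obtain ⟨g₁, hg₁, y, hy, hsum⟩ := Submodule.mem_sup.mp hg
  obtain ⟨q, rfl⟩ := Ideal.mem_span_singleton'.mp hy
  have hgc : homogeneousComponent D g = g := by
    have h3 : g ∈ homogeneousSubmodule (Fin n) ℂ D := (mem_homogeneousSubmodule _ _).mpr hghom
    rw [homogeneousComponent_of_mem h3, if_pos rfl]
  have hcomp : g = homogeneousComponent D g₁ + homogeneousComponent D (f * q) := by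
    conv_lhs => rw [← hgc, ← hsum]
    rw [map_add, mul_comm q f]
  obtain ⟨ha, ha'⟩ := Loc_of_homog (J := J) (T := T) (d := d) (N := N)
    (homogeneousComponent_isHomogeneous D g₁) (hJ g₁ hg₁ D) hD
  by_cases hDe : e ≤ D
  · obtain ⟨D', rfl⟩ : ∃ D', D = D' + e := ⟨D - e, (Nat.sub_add_cancel hDe).symm⟩
    rw [hc_mul hf q D'] at hcomp
    obtain ⟨hb, hb'⟩ := Loc_of_homog (J := (⊤ : Ideal (MvPolynomial (Fin n) ℂ))) (T := T)
      (d := d - e) (N := N) (homogeneousComponent_isHomogeneous D' q) Submodule.mem_top (by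
        push_cast at hD
        linarith)
    refine ⟨_, ha, _, hb, ?_⟩
    apply mono_mul_cancel m
    rw [hgx, mul_add, ha', mul_left_comm, hb', ← map_mul, ← map_add]
    exact congrArg (incl n) hcomp
  · rw [hc_mul_lt hf q (not_le.mp hDe), add_zero] at hcomp
    refine ⟨_, ha, 0, Loc_zero ⊤ T (d - e), ?_⟩
    apply mono_mul_cancel m
    rw [hgx, mul_zero, add_zero, ha']
    exact congrArg (incl n) hcomp

end

end Pool.Agent.RegRed
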