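import Mathlib
import Pool.Agent.Lib.MP_724d4c_ag.Cech
import Pool.Agent.Lib.MP_724d4c_ag.LocB

/-! Row SE: the augmented Cech complex of the polynomial ring is exact, except in top degree. -/

set_option autoImplicit false

namespace Pool.Agent.RegRed

open MvPolynomial

noncomputable section

variable {n : ℕ}

/-- the coefficient of the contraction of `g` at `e` -/
def serrePhi (g : Finset (Fin n) → Lau n) (T : Finset (Fin n)) (e : Fin n → ℤ) : ℂ :=
  if h : ∃ i, 0 ≤ e i then kap h.choose (fun T' => (g T').coeff e) T else 0

theorem serrePhi_ne {g : Finset (Fin n) → Lau n} {T : Finset (Fin n)} {e : Fin n → ℤ}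
    (h : serrePhi g T e ≠ 0) : ∃ v, v ∉ T ∧ 0 ≤ e v ∧ (g (insert v T)).coeff e ≠ 0 := by
  unfold serrePhi at h
  split_ifs at h with h1
  · refine ⟨h1.choose, ?_, h1.choose_spec, ?_⟩
    · intro hT
      apply h
      simp only [kap, if_pos hT]
    · intro h0
      apply h
      unfold kap
      split_ifs with h2
      · rfl
      · change sgn _ _ • (g (insert h1.choose T)).coeff e = 0
        rw [h0, smul_zero]
  · exact absurd rfl h

/-- the contraction of `g` -/
def serreH (g : Finset (Fin n) → Lau n) (T : Finset (Fin n)) : Lau n :=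
  AddMonoidAlgebra.ofCoeff (Finsupp.onFinset
    (Finset.univ.biUnion fun i => (g (insert i T)).coeff.support) (serrePhi g T) (by
      intro e he
      obtain ⟨v, _, _, h⟩ := serrePhi_ne he
      exact Finset.mem_biUnion.mpr ⟨v, Finset.mem_univ _, Finsupp.mem_support_iff.mpr h⟩))

theorem serreH_coeff (g : Finset (Fin n) → Lau n) (T : Finset (Fin n)) (e : Fin n → ℤ) :
    (serreH g T).coeff e = serrePhi g T e := rfl

theorem delta_coeff (c : Finset (Fin n) → Lau n) (T : Finset (Fin n)) (e : Fin n → ℤ) :
    (delta c T).coeff e = delta (fun T' => (c T').coeff e) T := by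
  unfold delta
  rw [AddMonoidAlgebra.coeff_sum, Finsupp.finsetSum_apply]
  rfl

/-- Serre. Proof: for an exponent `e` let `v(e)` be the least index with `0 ≤ e v`; contract with `v(e)`:
`h(T) = ∑_{i ∉ T} sgn i (insert i T) • filter (v(e) = i) (g (insert i T))`; use `delta_kap` for the scalar
cochains `T ↦ (g T).coeff e`. If all entries of `e` are negative, `e` occurs in `g T` only for `T = univ`, and then
`p = n` and `d ≤ -n`. -/
theorem serre {p : ℕ} {d : ℤ} (hp : 1 ≤ p) (hd : p = n → 0 < (n : ℤ) + d)
    (g : Finset (Fin n) → Lau n) (hg : ∀ T, T.card = p → g T ∈ Loc ⊤ T d)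
    (hδ : ∀ T, T.card = p + 1 → delta g T = 0) :
    ∃ h : Finset (Fin n) → Lau n, (∀ T, T.card + 1 = p → h T ∈ Loc ⊤ T d) ∧
      ∀ T, T.card = p → delta h T = g T := by
  refine ⟨serreH g, fun T hT => ?_, fun T hT => ?_⟩
  · rw [mem_Loc_top]
    intro e he
    rw [Finsupp.mem_support_iff, serreH_coeff] at he
    obtain ⟨v, hvT, hv, hne⟩ := serrePhi_ne he
    have hcard : (insert v T).card = p := by
      rw [Finset.card_insert_of_notMem hvT]
      exact hT
    obtain ⟨h1, h2⟩ := mem_Loc_top.mp (hg _ hcard) e (Finsupp.mem_support_iff.mpr hne)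
    refine ⟨fun i hi => ?_, h2⟩
    by_cases hiv : i = v
    · rw [hiv]
      exact hv
    · exact h1 i (by
        rw [Finset.mem_insert]
        rintro (h | h)
        · exact hiv h
        · exact hi h)
  · apply AddMonoidAlgebra.coeff_injective
    ext e
    rw [delta_coeff]
    by_cases hex : ∃ i, 0 ≤ e i
    · have h1 : (fun T' => (serreH g T').coeff e) =
          kap hex.choose (fun T' => (g T').coeff e) := by
        funext T'
        rw [serreH_coeff]
        unfold serrePhi
        rw [dif_pos hex]
      have h2 := delta_kap hex.choose (fun T' => (g T').coeff e) T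
      have h3 : kap hex.choose (delta (fun T' => (g T').coeff e)) T = 0 := by
        unfold kap
        split_ifs with h4
        · rfl
        · rw [← delta_coeff, hδ _ (by rw [Finset.card_insert_of_notMem h4, hT])]
          simp
      rw [h1, ← h2, h3, add_zero]
    · have h1 : (fun T' => (serreH g T').coeff e) = fun _ => (0 : ℂ) := by
        funext T'
        rw [serreH_coeff]
        unfold serrePhi
        rw [dif_neg hex]
      rw [h1]
      have h2 : delta (fun _ => (0 : ℂ)) T = 0 := by
        unfold delta
        simp
      rw [h2]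
      by_contra hne
      push Not at hex
      have hsup : e ∈ (g T).coeff.support := Finsupp.mem_support_iff.mpr (Ne.symm hne)
      obtain ⟨h3, h4⟩ := mem_Loc_top.mp (hg _ hT) e hsup
      have h5 : T = Finset.univ := by
        rw [Finset.eq_univ_iff_forall]
        intro i
        by_contra hi
        have := h3 i hi
        have := hex i
        omega
      have h6 : p = n := by
        rw [← hT, h5, Finset.card_univ, Fintype.card_fin]
      have h7 := hd h6
      have h8 : ∑ i, e i ≤ ∑ i : Fin n, (-1 : ℤ) :=
        Finset.sum_le_sum fun i _ => by have := hex i; omega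
      rw [h4] at h8
      simp at h8
      omega

end

end Pool.Agent.RegRed
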