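import Mathlib
import Pool.Agent.Lib.MP_724d4c_ag.Serre

/-! Row ST: the quotient by a nonzerodivisor, and regularity. -/

set_option autoImplicit false

namespace Pool.Agent.RegRed

open MvPolynomial

noncomputable section

variable {n : ℕ}

theorem ST_delta_sub {M : Type} [AddCommGroup M] [Module ℂ M] (a b : Finset (Fin n) → M)
    (T : Finset (Fin n)) : delta (fun T => a T - b T) T = delta a T - delta b T := by
  simp only [delta, smul_sub, Finset.sum_sub_distrib]

theorem ST_delta_add {M : Type} [AddCommGroup M] [Module ℂ M] (a b : Finset (Fin n) → M)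
    (T : Finset (Fin n)) : delta (fun T => a T + b T) T = delta a T + delta b T := by
  simp only [delta, smul_add, Finset.sum_add_distrib]

theorem ST_delta_mul (x : Lau n) (a : Finset (Fin n) → Lau n)
    (T : Finset (Fin n)) : delta (fun T => x * a T) T = x * delta a T := by
  simp only [delta, Finset.mul_sum, mul_smul_comm]

theorem ST_delta_congr {M : Type} [AddCommGroup M] [Module ℂ M] {a b : Finset (Fin n) → M}
    {p : ℕ} (h : ∀ T, T.card = p → a T = b T) {T : Finset (Fin n)} (hT : T.card = p + 1) :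
    delta a T = delta b T := by
  refine Finset.sum_congr rfl fun i hi => ?_
  rw [h _ (by rw [Finset.card_erase_of_mem hi, hT]; rfl)]

/-- `H^{p-1}((S/J)~(d)) = 0` in the augmented Cech complex (the local cohomology `H^p_m(S/J)_d`). -/
def Van (J : Ideal (MvPolynomial (Fin n) ℂ)) (p : ℕ) (d : ℤ) : Prop :=
  ∀ g : Finset (Fin n) → Lau n, (∀ T, T.card = p → g T ∈ Loc ⊤ T d) →
    (∀ T, T.card = p + 1 → delta g T ∈ Loc J T d) →
    ∃ h : Finset (Fin n) → Lau n, (∀ T, T.card + 1 = p → h T ∈ Loc ⊤ T d) ∧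
      ∀ T, T.card = p → g T - delta h T ∈ Loc J T d

/-- From `serre` and `Loc_bot`; for `p > n` there is nothing to prove. -/
theorem van_bot {p : ℕ} {d : ℤ} (hp : 1 ≤ p) (hd : 1 ≤ p + d) :
    Van (⊥ : Ideal (MvPolynomial (Fin n) ℂ)) p d := by
  intro g hg hδ
  obtain ⟨h, h1, h2⟩ := serre hp (fun e => by rw [← e]; omega) g hg
    (fun T hT => Loc_bot (hδ T hT))
  refine ⟨h, h1, fun T hT => ?_⟩
  rw [h2 T hT, sub_self]
  exact Loc_zero _ _ _

/-- Proof: `δ g = a + f b` on `p + 1` (`Loc_decomp`), `f δ b = -δ a ∈ J`, so `δ b ∈ J` (`Loc_nzd`),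
`b = δ e + b'` by `h1`, `g - f e` has coboundary `a + f b' ∈ J`, then `h2`. -/
theorem van_step {J : Ideal (MvPolynomial (Fin n) ℂ)}
    (hJ : IsHomog J) {f : MvPolynomial (Fin n) ℂ} {e : ℕ}
    (hf : f.IsHomogeneous e) (hn : ∀ g, f * g ∈ J → g ∈ J) {p : ℕ} {d : ℤ}
    (h1 : Van J (p + 1) (d - e)) (h2 : Van J p d) : Van (J ⊔ Ideal.span {f}) p d := by
  intro g hg hδ
  have hdec : ∀ T : Finset (Fin n), ∃ a b : Lau n, T.card = p + 1 → a ∈ Loc J T d ∧
      b ∈ Loc ⊤ T (d - e) ∧ delta g T = a + incl n f * b := by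
    intro T
    by_cases hT : T.card = p + 1
    · obtain ⟨a, ha, b, hb, hab⟩ := Loc_decomp hJ hf (hδ T hT)
      exact ⟨a, b, fun _ => ⟨ha, hb, hab⟩⟩
    · exact ⟨0, 0, fun h => absurd h hT⟩
  choose a b hab using hdec
  have hde : d - (e : ℤ) + e = d := by ring
  have hb : ∀ T, T.card = p + 1 + 1 → delta b T ∈ Loc J T (d - e) := by
    intro T hT
    have h3 : delta (delta g) T = 0 := delta_delta g T
    have h4 : delta (delta g) T = delta a T + incl n f * delta b T := by
      rw [ST_delta_congr (b := fun T => a T + incl n f * b T) (fun T hT => (hab T hT).2.2) hT,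
        ST_delta_add, ST_delta_mul]
    refine Loc_nzd (e := e) hn (delta_mem b (fun T hT => (hab T hT).2.1) T hT) ?_
    rw [hde]
    have h5 : incl n f * delta b T = - delta a T := by
      rw [h4] at h3
      exact (neg_eq_of_add_eq_zero_right h3).symm
    rw [h5]
    exact Loc_neg (delta_mem a (fun T hT => (hab T hT).1) T hT)
  obtain ⟨h, h3, h4⟩ := h1 b (fun T hT => (hab T hT).2.1) hb
  have hmem : ∀ T, T.card = p → incl n f * h T ∈ Loc ⊤ T d := by
    intro T hT
    have := Loc_mul hf (h3 T (by rw [hT]))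
    rwa [hde] at this
  obtain ⟨k, hk1, hk2⟩ := h2 (fun T => g T - incl n f * h T)
    (fun T hT => Loc_sub (hg T hT) (hmem T hT)) (by
      intro T hT
      rw [ST_delta_sub, ST_delta_mul, (hab T hT).2.2]
      have h5 : a T + incl n f * b T - incl n f * delta h T =
          a T + incl n f * (b T - delta h T) := by ring
      rw [h5]
      refine Loc_add (hab T hT).1 ?_
      have := Loc_mul hf (h4 T hT)
      rwa [hde] at this)
  refine ⟨k, hk1, fun T hT => ?_⟩
  have h5 : g T - delta k T = (g T - incl n f * h T - delta k T) + incl n f * h T := by ring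
  rw [h5]
  refine Loc_add (Loc_mono le_sup_left (Finset.Subset.refl T) (hk2 T hT))
    (Loc_mono le_sup_right (Finset.Subset.refl T) ?_)
  have := Loc_mul_self hf (h3 T (by rw [hT]))
  rwa [hde] at this

attribute [local instance] MvPolynomial.gradedAlgebra

theorem ST_isHomog_iff {J : Ideal (MvPolynomial (Fin n) ℂ)} :
    IsHomog J ↔ J.IsHomogeneous (homogeneousSubmodule (Fin n) ℂ) := by
  constructor
  · intro h i f hf
    have := h f hf i
    rwa [← decomposition.decompose'_apply] at this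
  · intro h f hf i
    have := h i hf
    rw [← decomposition.decompose'_apply]
    exact this

theorem ST_isHomog_sup {J : Ideal (MvPolynomial (Fin n) ℂ)} (hJ : IsHomog J)
    {f : MvPolynomial (Fin n) ℂ} {e : ℕ} (hf : f.IsHomogeneous e) :
    IsHomog (J ⊔ Ideal.span {f}) := by
  rw [ST_isHomog_iff] at hJ ⊢
  refine hJ.sup (Ideal.homogeneous_span _ _ ?_)
  rintro x rfl
  exact ⟨e, (mem_homogeneousSubmodule _ _).mpr hf⟩

theorem ST_isHomog_bot : IsHomog (⊥ : Ideal (MvPolynomial (Fin n) ℂ)) := by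
  intro f hf d
  rw [Ideal.mem_bot] at hf ⊢
  rw [hf, map_zero]

/-- The vanishing for an ideal generated by a regular sequence `f 0, …, f (m-1)`. -/
theorem van_seq (f : ℕ → MvPolynomial (Fin n) ℂ) (e : ℕ → ℕ)
    (J : ℕ → Ideal (MvPolynomial (Fin n) ℂ)) (m : ℕ) (h0 : J 0 = ⊥)
    (hs : ∀ i, i < m → J (i + 1) = J i ⊔ Ideal.span {f i})
    (hf : ∀ i, i < m → (f i).IsHomogeneous (e i)) (he : ∀ i, i < m → 1 ≤ e i)
    (hn : ∀ i, i < m → ∀ g, f i * g ∈ J i → g ∈ J i) {p : ℕ} {d : ℤ} (hp : 1 ≤ p)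
    (hd : 1 + ∑ i ∈ Finset.range m, ((e i : ℤ) - 1) ≤ p + d) : Van (J m) p d := by
  have hhom : ∀ i, i ≤ m → IsHomog (J i) := by
    intro i
    induction i with
    | zero =>
      intro _
      rw [h0]
      exact ST_isHomog_bot
    | succ i ih =>
      intro hi
      rw [hs i (by omega)]
      exact ST_isHomog_sup (ih (by omega)) (hf i (by omega))
  have key : ∀ k, k ≤ m → ∀ (p : ℕ) (d : ℤ), 1 ≤ p →
      1 + ∑ i ∈ Finset.range k, ((e i : ℤ) - 1) ≤ p + d → Van (J k) p d := by
    intro k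
    induction k with
    | zero =>
      intro _ p d hp hd
      rw [h0]
      refine van_bot hp ?_
      simpa using hd
    | succ k ih =>
      intro hk p d hp hd
      rw [Finset.sum_range_succ] at hd
      have hek := he k (by omega)
      rw [hs k (by omega)]
      refine van_step (hhom k (by omega)) (hf k (by omega)) (hn k (by omega))
        (ih (by omega) _ _ (by omega) ?_) (ih (by omega) _ _ hp ?_)
      · push_cast
        linarith
      · have : (1 : ℤ) ≤ (e k : ℤ) := by exact_mod_cast hek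
        linarith
  exact key m le_rfl p d hp hd

/-- Proof: a cocycle `c` of `J` is `δ h` for `h` with values in `S` (`serre`), and `h = δ h' + b` with `b` in `J`
by `hv`. -/
theorem isReg_of_van {J : Ideal (MvPolynomial (Fin n) ℂ)} {s m : ℤ} (hs : 1 ≤ s)
    (hv : ∀ (p : ℕ) (d : ℤ), 1 ≤ p → s ≤ p + d → Van J p d) (hm : s ≤ m) : IsReg J m := by
  intro i hi c hc hδ
  obtain ⟨h, h1, h2⟩ := serre (p := i + 1) (d := m - i) (by omega)
    (fun e => by rw [← e]; push_cast; linarith) c
    (fun T hT => Loc_mono le_top (Finset.Subset.refl T) (hc T hT)) hδ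
  obtain ⟨h', h3, h4⟩ := hv i (m - i) hi (by linarith) h
    (fun T hT => h1 T (by rw [hT])) (fun T hT => by rw [h2 T hT]; exact hc T hT)
  refine ⟨fun T => h T - delta h' T, fun T hT => h4 T hT, fun T hT => ?_⟩
  rw [ST_delta_sub, delta_delta, sub_zero, h2 T hT]

end

end Pool.Agent.RegRed
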