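import Mathlib
import Pool.Agent.Lib.MP_724d4c_ag.Step
import Pool.Agent.Lib.MP_724d4c_ag.Nzd

/-! Row CHA: the first part of Chain.lean. -/

set_option autoImplicit false

namespace Pool.Agent.RegRed

open MvPolynomial

noncomputable section

/-- The first `i` chain forms. -/
def chainSet (k : ℕ) (b : ℕ → ℕ) (i : ℕ) : Set (MvPolynomial (Fin (k + 3)) ℂ) :=
  {g | ∃ j : Fin k, (j : ℕ) < i ∧ g = chainForm k b j}

theorem chainForm_hom (k : ℕ) (b : ℕ → ℕ) (hb : ∀ j, 1 ≤ b j) (j : Fin k) :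
    (chainForm k b j).IsHomogeneous (b j) := by
  have h1 : (X (w k j.succ) ^ b j : MvPolynomial (Fin (k + 3)) ℂ).IsHomogeneous (b j) := by
    have h := (isHomogeneous_X ℂ (w k j.succ)).pow (b j)
    rwa [one_mul] at h
  have h2 : (X (w k j.castSucc) * X 0 ^ (b j - 1) :
      MvPolynomial (Fin (k + 3)) ℂ).IsHomogeneous (b j) := by
    have h := (isHomogeneous_X ℂ (w k j.castSucc)).mul
      ((isHomogeneous_X ℂ (0 : Fin (k + 3))).pow (b j - 1))
    rw [one_mul, Nat.add_sub_cancel' (hb j)] at h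
    exact h
  exact h1.sub h2

theorem lastForm_hom (k a : ℕ) : (lastForm k a).IsHomogeneous (a + 1) := by
  have h1 := ((isHomogeneous_X ℂ (1 : Fin (k + 3))).pow a).mul
    (isHomogeneous_X ℂ (w k (Fin.last k)))
  have h2 := ((isHomogeneous_X ℂ (w k 0)).pow a).mul (isHomogeneous_X ℂ (0 : Fin (k + 3)))
  rw [one_mul] at h1 h2
  exact h1.sub h2

attribute [local instance] MvPolynomial.gradedAlgebra in
theorem curveIdeal_hom (k a : ℕ) (b : ℕ → ℕ) (hb : ∀ j, 1 ≤ b j) :
    IsHomog (curveIdeal k a b) := by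
  have h : (curveIdeal k a b).IsHomogeneous (homogeneousSubmodule (Fin (k + 3)) ℂ) := by
    refine Ideal.homogeneous_span _ _ ?_
    rintro x (⟨j, rfl⟩ | hx)
    · exact ⟨b j, chainForm_hom k b hb j⟩
    · rw [Set.mem_singleton_iff] at hx
      subst hx
      exact ⟨a + 1, lastForm_hom k a⟩
  intro f hf d
  exact homogeneousComponent_mem_of_mem h hf d

private theorem CHA_vars {k : ℕ} (b : ℕ → ℕ) (j : Fin k) {v : Fin (k + 3)}
    (h : v ∈ (chainForm k b j).vars) : v = w k j.succ ∨ v = w k j.castSucc ∨ v = 0 := by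
  classical
  have h1 := vars_sub_subset _ h
  rw [Finset.mem_union] at h1
  rcases h1 with h1 | h1
  · have h2 := vars_pow _ _ h1
    rw [vars_X, Finset.mem_singleton] at h2
    exact Or.inl h2
  · have h2 := vars_mul _ _ h1
    rw [Finset.mem_union] at h2
    rcases h2 with h2 | h2
    · rw [vars_X, Finset.mem_singleton] at h2
      exact Or.inr (Or.inl h2)
    · have h3 := vars_pow _ _ h2
      rw [vars_X, Finset.mem_singleton] at h3
      exact Or.inr (Or.inr h3)

private theorem CHA_vars2 {k : ℕ} (b : ℕ → ℕ) (j : Fin k) :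
    w k j.succ ∉ (X (w k j.castSucc) * X 0 ^ (b j - 1) : MvPolynomial (Fin (k + 3)) ℂ).vars := by
  classical
  intro h
  have h2 := vars_mul _ _ h
  rw [Finset.mem_union] at h2
  rcases h2 with h2 | h2
  · rw [vars_X, Finset.mem_singleton] at h2
    have h3 : (w k j.succ : ℕ) = (w k j.castSucc : ℕ) := congrArg Fin.val h2
    simp [w] at h3
  · have h3 := vars_pow _ _ h2
    rw [vars_X, Finset.mem_singleton] at h3
    have h4 : (w k j.succ : ℕ) = ((0 : Fin (k + 3)) : ℕ) := congrArg Fin.val h3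
    simp [w] at h4

private theorem CHA_notMem {k : ℕ} (b : ℕ → ℕ) (j : Fin k) :
    ∀ g ∈ chainSet k b j, w k j.succ ∉ g.vars := by
  rintro g ⟨i, hi, rfl⟩ h
  rcases CHA_vars b i h with h1 | h1 | h1
  · have h3 : (w k j.succ : ℕ) = (w k i.succ : ℕ) := congrArg Fin.val h1
    simp [w] at h3
    omega
  · have h3 : (w k j.succ : ℕ) = (w k i.castSucc : ℕ) := congrArg Fin.val h1
    simp [w] at h3
    omega
  · have h4 : (w k j.succ : ℕ) = ((0 : Fin (k + 3)) : ℕ) := congrArg Fin.val h1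
    simp [w] at h4

/-- `chainForm k b j` is a nonzerodivisor modulo the forms with smaller index (`nzd_monic`, `v = w_{j+1}`). -/
theorem chain_nzd (k : ℕ) (b : ℕ → ℕ) (hb : ∀ j, 1 ≤ b j) (j : Fin k)
    (g : MvPolynomial (Fin (k + 3)) ℂ) (hg : chainForm k b j * g ∈ Ideal.span (chainSet k b j)) :
    g ∈ Ideal.span (chainSet k b j) :=
  nzd_monic (w k j.succ) (chainSet k b j) (CHA_notMem b j)
    (X (w k j.castSucc) * X 0 ^ (b j - 1)) (CHA_vars2 b j) (b j) (hb j) g hg

/-- A nonzero polynomial in `t, y, w_0` is a nonzerodivisor modulo the chain forms (`nzd_adjoin`, induction). -/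
theorem base_nzd (k : ℕ) (b : ℕ → ℕ) (hb : ∀ j, 1 ≤ b j) (G : MvPolynomial (Fin (k + 3)) ℂ)
    (hG : ∀ j : Fin k, w k j.succ ∉ G.vars) (hG0 : G ≠ 0) (i : ℕ) (hi : i ≤ k)
    (g : MvPolynomial (Fin (k + 3)) ℂ) (hg : G * g ∈ Ideal.span (chainSet k b i)) :
    g ∈ Ideal.span (chainSet k b i) := by
  induction i generalizing g with
  | zero =>
    have h0 : chainSet k b 0 = ∅ := by
      ext x
      simp [chainSet]
    rw [h0, Ideal.span_empty, Ideal.mem_bot] at hg ⊢
    exact (mul_eq_zero.1 hg).resolve_left hG0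
  | succ i ih =>
    have hik : i < k := hi
    have h1 : chainSet k b (i + 1) = chainSet k b i ∪ {chainForm k b ⟨i, hik⟩} := by
      ext x
      constructor
      · rintro ⟨j, hj, rfl⟩
        rcases Nat.lt_succ_iff_lt_or_eq.1 hj with h | h
        · exact Or.inl ⟨j, h, rfl⟩
        · right
          have h2 : j = ⟨i, hik⟩ := Fin.ext h
          rw [h2]
          rfl
      · rintro (⟨j, hj, rfl⟩ | h)
        · exact ⟨j, Nat.lt_succ_of_lt hj, rfl⟩
        · exact ⟨⟨i, hik⟩, Nat.lt_succ_self i, h⟩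
    rw [h1, Ideal.span_union] at hg ⊢
    exact nzd_adjoin (w k (⟨i, hik⟩ : Fin k).succ) (chainSet k b i) (CHA_notMem b ⟨i, hik⟩)
      (X (w k (⟨i, hik⟩ : Fin k).castSucc) * X 0 ^ (b i - 1)) (CHA_vars2 b ⟨i, hik⟩) (b i) (hb i)
      G (hG ⟨i, hik⟩) (fun g hg => ih (Nat.le_of_succ_le hi) g hg) g hg

end

end Pool.Agent.RegRed
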