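import Mathlib
import Pool.Agent.Lib.MP_724d4c_ag.ChainA

/-! Row CH: the forms of the curve are a regular sequence; the upper bound for the regularity. -/

set_option autoImplicit false

namespace Pool.Agent.RegRed

open MvPolynomial

noncomputable section

/-- `w_j^{B_j} ≡ w_0 t^{B_j - 1}` modulo the chain forms, `B_j = ∏_{i < j} b_i`. -/
theorem chain_pow (k : ℕ) (b : ℕ → ℕ) (hb : ∀ j, 1 ≤ b j) (j : Fin (k + 1)) :
    X (w k j) ^ (∏ i ∈ Finset.range j, b i) - X (w k 0) * X 0 ^ ((∏ i ∈ Finset.range j, b i) - 1) ∈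
      Ideal.span (Set.range (chainForm k b)) := by
  obtain ⟨j, hj⟩ := j
  induction j with
  | zero =>
    have : (⟨0, hj⟩ : Fin (k + 1)) = 0 := rfl
    simp [this]
  | succ j ih =>
    have hj' : j < k := by omega
    have h1 := ih (by omega)
    have h2 : X (w k ⟨j + 1, hj⟩) ^ b j - X (w k ⟨j, by omega⟩) * X 0 ^ (b j - 1) ∈
        Ideal.span (Set.range (chainForm k b)) :=
      Ideal.subset_span ⟨⟨j, hj'⟩, rfl⟩
    simp only at h1 ⊢
    rw [Finset.prod_range_succ]
    set B := ∏ i ∈ Finset.range j, b i with hB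
    have hB1 : 1 ≤ B := by
      rw [hB]
      exact Nat.succ_le_of_lt (Finset.prod_pos fun i _ => hb i)
    have hbj := hb j
    rw [← Ideal.Quotient.eq] at h1 h2 ⊢
    simp only [map_pow, map_mul] at h1 h2 ⊢
    rw [mul_comm B (b j), pow_mul, h2, mul_pow, h1, ← pow_mul, mul_assoc, ← pow_add]
    congr 2
    have e3 : (b j - 1) * B = b j * B - B := by
      rw [Nat.sub_mul, one_mul]
    have e4 : B ≤ b j * B := Nat.le_mul_of_pos_left B hbj
    omega

/-- `lastForm` is a nonzerodivisor modulo the chain forms: it divides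
`(y^a w_k)^B - (w_0^a t)^B ≡ w_0 t^{B-1} (y^{aB} - w_0^{aB-1} t)`, a nonzero polynomial in `t, y, w_0`. -/
theorem last_nzd (k a : ℕ) (ha : 1 ≤ a) (b : ℕ → ℕ) (hb : ∀ j, 1 ≤ b j)
    (g : MvPolynomial (Fin (k + 3)) ℂ)
    (hg : lastForm k a * g ∈ Ideal.span (Set.range (chainForm k b))) :
    g ∈ Ideal.span (Set.range (chainForm k b)) := by
  have hset : chainSet k b k = Set.range (chainForm k b) := by
    ext q
    constructor
    · rintro ⟨j, _, rfl⟩
      exact ⟨j, rfl⟩
    · rintro ⟨j, rfl⟩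
      exact ⟨j, j.2, rfl⟩
  have hpow := chain_pow k b hb (Fin.last k)
  simp only [Fin.val_last] at hpow
  set B := ∏ i ∈ Finset.range k, b i with hB
  have hB1 : 1 ≤ B := by
    rw [hB]
    exact Nat.succ_le_of_lt (Finset.prod_pos fun i _ => hb i)
  have haB : 1 ≤ a * B := Nat.mul_pos ha hB1
  set G : MvPolynomial (Fin (k + 3)) ℂ :=
    X (w k 0) * X 0 ^ (B - 1) * (X 1 ^ (a * B) - X (w k 0) ^ (a * B - 1) * X 0) with hG
  have h1 : (X 1 ^ a * X (w k (Fin.last k))) ^ B - (X (w k 0) ^ a * X 0) ^ B - G =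
      X 1 ^ (a * B) * (X (w k (Fin.last k)) ^ B - X (w k 0) * X 0 ^ (B - 1)) := by
    obtain ⟨c, hc⟩ : ∃ c, a * B = c + 1 := ⟨a * B - 1, by omega⟩
    obtain ⟨e, he⟩ : ∃ e, B = e + 1 := ⟨B - 1, by omega⟩
    rw [hG, mul_pow, mul_pow, ← pow_mul, ← pow_mul, hc]
    simp only [Nat.add_sub_cancel]
    have he' : B - 1 = e := by omega
    rw [he']
    have h0 : (X 0 : MvPolynomial (Fin (k + 3)) ℂ) ^ B = X 0 ^ e * X 0 := by rw [he, pow_succ]
    rw [h0]
    ring
  have h2 : lastForm k a ∣ (X 1 ^ a * X (w k (Fin.last k))) ^ B - (X (w k 0) ^ a * X 0) ^ B :=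
    sub_dvd_pow_sub_pow _ _ B
  have h3 : G * g ∈ Ideal.span (chainSet k b k) := by
    rw [hset]
    obtain ⟨q, hq⟩ := h2
    have h4 : G * g = q * (lastForm k a * g) -
        X 1 ^ (a * B) * g * (X (w k (Fin.last k)) ^ B - X (w k 0) * X 0 ^ (B - 1)) := by
      have h5 : G = lastForm k a * q -
          X 1 ^ (a * B) * (X (w k (Fin.last k)) ^ B - X (w k 0) * X 0 ^ (B - 1)) := by
        rw [← h1, ← hq]
        ring
      rw [h5]
      ring
    rw [h4]
    exact Ideal.sub_mem _ (Ideal.mul_mem_left _ _ hg) (Ideal.mul_mem_left _ _ hpow)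
  have h6 : G ∈ supported ℂ ({0, 1, w k 0} : Set (Fin (k + 3))) := by
    have x0 : (X 0 : MvPolynomial (Fin (k + 3)) ℂ) ∈
        supported ℂ ({0, 1, w k 0} : Set (Fin (k + 3))) := X_mem_supported.mpr (by simp)
    have x1 : (X 1 : MvPolynomial (Fin (k + 3)) ℂ) ∈
        supported ℂ ({0, 1, w k 0} : Set (Fin (k + 3))) := X_mem_supported.mpr (by simp)
    have x2 : (X (w k 0) : MvPolynomial (Fin (k + 3)) ℂ) ∈
        supported ℂ ({0, 1, w k 0} : Set (Fin (k + 3))) := X_mem_supported.mpr (by simp)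
    exact mul_mem (mul_mem x2 (pow_mem x0 _))
      (sub_mem (pow_mem x1 _) (mul_mem (pow_mem x2 _) x0))
  have h7 : ∀ j : Fin k, w k j.succ ∉ G.vars := by
    intro j hj
    have h8 := (mem_supported.mp h6) (Finset.mem_coe.mpr hj)
    simp only [Set.mem_insert_iff, Set.mem_singleton_iff, w, Fin.ext_iff, Fin.val_succ,
      Fin.val_zero, Fin.val_one] at h8
    omega
  have h9 : G ≠ 0 := by
    intro h0
    have h10 := congrArg (eval (fun i : Fin (k + 3) => if i = 1 then (0 : ℂ) else 1)) h0
    have e0 : ¬ ((0 : Fin (k + 3)) = 1) := by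
      simp
    have e1 : ¬ (w k 0 = (1 : Fin (k + 3))) := by
      intro h
      have h' := congrArg Fin.val h
      have h2' : ((w k 0 : Fin (k + 3)) : ℕ) = 2 := rfl
      have h3' : ((1 : Fin (k + 3)) : ℕ) = 1 := rfl
      omega
    rw [hG] at h10
    simp only [map_mul, map_sub, map_pow, eval_X, e0, e1, if_false, if_true, one_pow, mul_one,
      one_mul, map_zero, zero_pow (show a * B ≠ 0 by omega)] at h10
    norm_num at h10
  have h11 := base_nzd k b hb G h7 h9 k le_rfl g h3
  rwa [hset] at h11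

/-- The upper bound. -/
theorem curve_reg (k a : ℕ) (ha : 1 ≤ a) (b : ℕ → ℕ) (hb : ∀ j, 1 ≤ b j) (m : ℤ)
    (hm : ∑ j ∈ Finset.range k, ((b j : ℤ) - 1) + a + 1 ≤ m) : IsReg (curveIdeal k a b) m := by
  have hset : chainSet k b k = Set.range (chainForm k b) := by
    ext q
    constructor
    · rintro ⟨j, _, rfl⟩
      exact ⟨j, rfl⟩
    · rintro ⟨j, rfl⟩
      exact ⟨j, j.2, rfl⟩
  have hcur : curveIdeal k a b = Ideal.span (chainSet k b k) ⊔ Ideal.span {lastForm k a} := by
    unfold curveIdeal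
    rw [Ideal.span_union, hset]
  have hsum : 0 ≤ ∑ j ∈ Finset.range k, ((b j : ℤ) - 1) := by
    refine Finset.sum_nonneg fun j _ => ?_
    have := hb j
    omega
  refine isReg_of_van (s := ∑ j ∈ Finset.range k, ((b j : ℤ) - 1) + a + 1) (by omega) ?_ hm
  intro p d hp hd
  have key := van_seq (n := k + 3)
    (fun i => if h : i < k then chainForm k b ⟨i, h⟩ else lastForm k a)
    (fun i => if i < k then b i else a + 1)
    (fun i => if i ≤ k then Ideal.span (chainSet k b i) else curveIdeal k a b) (k + 1)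
    (p := p) (d := d) ?_ ?_ ?_ ?_ ?_ hp ?_
  · simpa using key
  · have h0 : chainSet k b 0 = ∅ := by
      ext q
      simp [chainSet]
    simp [h0]
  · intro i hi
    rcases Nat.lt_or_ge i k with h | h
    · have e1 : i + 1 ≤ k := h
      have e2 : i ≤ k := h.le
      simp only [e1, e2, h, if_true, dif_pos]
      rw [← Ideal.span_union]
      congr 1
      ext q
      constructor
      · rintro ⟨j, hj, rfl⟩
        rcases Nat.lt_or_ge (j : ℕ) i with h' | h'
        · exact Or.inl ⟨j, h', rfl⟩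
        · refine Or.inr ?_
          have : j = ⟨i, h⟩ := Fin.ext (by simp; omega)
          rw [this]
          rfl
      · rintro (⟨j, hj, rfl⟩ | hq)
        · exact ⟨j, by omega, rfl⟩
        · rw [Set.mem_singleton_iff] at hq
          exact ⟨⟨i, h⟩, by simp, hq⟩
    · have e : i = k := by omega
      subst e
      simp only [le_refl, lt_irrefl, if_true, dif_neg, not_false_eq_true,
        show ¬ (i + 1 ≤ i) by omega, if_false]
      exact hcur
  · intro i hi
    by_cases h : i < k
    · simp only [h, dif_pos, if_true]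
      exact chainForm_hom k b hb ⟨i, h⟩
    · simp only [h, dif_neg, if_false, not_false_eq_true]
      exact lastForm_hom k a
  · intro i hi
    by_cases h : i < k
    · simp only [h, if_true]
      exact hb i
    · simp only [h, if_false]
      omega
  · intro i hi g hg
    rcases Nat.lt_or_ge i k with h | h
    · have e2 : i ≤ k := h.le
      simp only [e2, h, if_true, dif_pos] at hg ⊢
      exact chain_nzd k b hb ⟨i, h⟩ g hg
    · have e : i = k := by omega
      subst e
      simp only [le_refl, lt_irrefl, if_true, dif_neg, not_false_eq_true, hset] at hg ⊢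
      exact last_nzd i a ha b hb g hg
  · rw [Finset.sum_range_succ]
    have e1 : ∑ i ∈ Finset.range k, (((if i < k then b i else a + 1 : ℕ) : ℤ) - 1) =
        ∑ j ∈ Finset.range k, ((b j : ℤ) - 1) := by
      refine Finset.sum_congr rfl fun i hi => ?_
      rw [if_pos (Finset.mem_range.mp hi)]
    rw [e1]
    simp only [lt_irrefl, if_false]
    push_cast
    omega

end

end Pool.Agent.RegRed
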