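import Mathlib
import Pool.Agent.Lib.MP_724d4c_ag.LocB

set_option autoImplicit false

namespace Pool.Agent.RegRed

open MvPolynomial

noncomputable section

/-- `R_j = ∏_{j ≤ i < k} b_i`. -/
def Rr (k : ℕ) (b : ℕ → ℕ) (j : ℕ) : ℕ := ∏ i ∈ Finset.Ico j k, b i

/-- `D = a R_0`. -/
def Dd (k a : ℕ) (b : ℕ → ℕ) : ℕ := a * Rr k b 0

/-- The exponents of `u`: `t ↦ 0`, `y ↦ D - 1`, `w_j ↦ a R_j`. -/
def wU (k a : ℕ) (b : ℕ → ℕ) : Fin (k + 3) → ℤ :=
  Fin.cons 0 (Fin.cons ((Dd k a b : ℤ) - 1) fun j : Fin (k + 1) => (a * Rr k b j : ℕ))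

/-- The exponents of `v`: `t ↦ D`, `y ↦ 1`, `w_j ↦ D - a R_j`. -/
def wV (k a : ℕ) (b : ℕ → ℕ) : Fin (k + 3) → ℤ :=
  Fin.cons (Dd k a b : ℤ) (Fin.cons 1 fun j : Fin (k + 1) => (Dd k a b : ℤ) - (a * Rr k b j : ℕ))

/-- The exponents of `(u, v)` in the restriction of `x^e` to the curve. -/
def pie (k a : ℕ) (b : ℕ → ℕ) : (Fin (k + 3) → ℤ) →+ ℤ × ℤ where
  toFun e := (∑ i, e i * wU k a b i, ∑ i, e i * wV k a b i)
  map_zero' := by simp
  map_add' e e' := by simp [add_mul, Finset.sum_add_distrib]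

/-- The restriction of Laurent polynomials to the curve. -/
def phiL (k a : ℕ) (b : ℕ → ℕ) : Lau (k + 3) →+* AddMonoidAlgebra ℂ (ℤ × ℤ) :=
  AddMonoidAlgebra.mapDomainRingHom ℂ (pie k a b)

theorem phiL_mono (k a : ℕ) (b : ℕ → ℕ) (e : Fin (k + 3) → ℤ) :
    phiL k a b (mono e) = AddMonoidAlgebra.single (pie k a b e) 1 := by
  simp [phiL, mono]

theorem phiL_coeff (k a : ℕ) (b : ℕ → ℕ) (f : Lau (k + 3)) (c : ℤ × ℤ)
    (h : (phiL k a b f).coeff c ≠ 0) : ∃ e ∈ f.coeff.support, pie k a b e = c := by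
  classical
  have h1 : (phiL k a b f).coeff = Finsupp.mapDomain (pie k a b) f.coeff := rfl
  rw [h1] at h
  have h2 : c ∈ (Finsupp.mapDomain (pie k a b) f.coeff).support := Finsupp.mem_support_iff.mpr h
  have h3 := Finsupp.mapDomain_support h2
  rw [Finset.mem_image] at h3
  exact h3

theorem Rr_succ (k : ℕ) (b : ℕ → ℕ) (j : ℕ) (hj : j < k) : Rr k b j = b j * Rr k b (j + 1) := by
  unfold Rr
  rw [Finset.prod_eq_prod_Ico_succ_bot hj]

theorem Rr_self (k : ℕ) (b : ℕ → ℕ) : Rr k b k = 1 := by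
  simp [Rr]

theorem pie_X (k a : ℕ) (b : ℕ → ℕ) (i : Fin (k + 3)) :
    pie k a b (Pi.single i 1) = (wU k a b i, wV k a b i) := by
  classical
  change (∑ j, (Pi.single i 1 : Fin (k + 3) → ℤ) j * wU k a b j, ∑ j, (Pi.single i 1 : Fin (k + 3) → ℤ) j * wV k a b j) = _
  simp [Pi.single_apply]

theorem phiL_X (k a : ℕ) (b : ℕ → ℕ) (i : Fin (k + 3)) :
    phiL k a b (incl (k + 3) (X i)) = AddMonoidAlgebra.single (wU k a b i, wV k a b i) 1 := by
  rw [incl, aeval_X, phiL_mono, pie_X]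

theorem phiL_chain (k a : ℕ) (b : ℕ → ℕ) (hb : ∀ j, 1 ≤ b j) (j : Fin k) :
    phiL k a b (incl (k + 3) (chainForm k b j)) = 0 := by
  have e1 : wU k a b (w k j.succ) = (a * Rr k b (j + 1) : ℕ) := rfl
  have e2 : wV k a b (w k j.succ) = (Dd k a b : ℤ) - (a * Rr k b (j + 1) : ℕ) := rfl
  have e3 : wU k a b (w k j.castSucc) = (a * Rr k b j : ℕ) := rfl
  have e4 : wV k a b (w k j.castSucc) = (Dd k a b : ℤ) - (a * Rr k b j : ℕ) := rfl
  have e5 : wU k a b 0 = 0 := rfl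
  have e6 : wV k a b 0 = (Dd k a b : ℤ) := rfl
  have hR := Rr_succ k b j j.2
  unfold chainForm
  rw [map_sub, map_sub, map_pow, map_pow, map_mul, map_mul, map_pow, map_pow, phiL_X, phiL_X, phiL_X,
    AddMonoidAlgebra.single_pow, AddMonoidAlgebra.single_pow, AddMonoidAlgebra.single_mul_single,
    one_pow, one_pow, one_mul, e1, e2, e3, e4, e5, e6, sub_eq_zero]
  congr 1
  have hbj : ((b j - 1 : ℕ) : ℤ) = (b j : ℤ) - 1 := by
    have := hb j
    omega
  rw [hR]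
  ext
  · simp only [Prod.fst_add, Prod.smul_fst]
    simp only [nsmul_eq_mul]
    push_cast
    ring
  · simp only [Prod.snd_add, Prod.smul_snd]
    simp only [nsmul_eq_mul]
    rw [hbj]
    push_cast
    ring

theorem phiL_last (k a : ℕ) (b : ℕ → ℕ) :
    phiL k a b (incl (k + 3) (lastForm k a)) = 0 := by
  have e1 : wU k a b (w k (Fin.last k)) = (a * Rr k b k : ℕ) := rfl
  have e2 : wV k a b (w k (Fin.last k)) = (Dd k a b : ℤ) - (a * Rr k b k : ℕ) := rfl
  have e3 : wU k a b (w k 0) = (a * Rr k b 0 : ℕ) := rfl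
  have e4 : wV k a b (w k 0) = (Dd k a b : ℤ) - (a * Rr k b 0 : ℕ) := rfl
  have e5 : wU k a b 0 = 0 := rfl
  have e6 : wV k a b 0 = (Dd k a b : ℤ) := rfl
  have e7 : wU k a b 1 = (Dd k a b : ℤ) - 1 := rfl
  have e8 : wV k a b 1 = 1 := rfl
  unfold lastForm
  rw [map_sub, map_sub, map_mul, map_mul, map_mul, map_mul, map_pow, map_pow, map_pow, map_pow,
    phiL_X, phiL_X, phiL_X, phiL_X,
    AddMonoidAlgebra.single_pow, AddMonoidAlgebra.single_pow, AddMonoidAlgebra.single_mul_single,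
    AddMonoidAlgebra.single_mul_single,
    one_pow, one_mul, e1, e2, e3, e4, e5, e6, e7, e8, Rr_self, sub_eq_zero]
  congr 1
  unfold Dd
  ext
  · simp only [Prod.fst_add, Prod.smul_fst]
    simp only [nsmul_eq_mul]
    push_cast
    ring
  · simp only [Prod.snd_add, Prod.smul_snd]
    simp only [nsmul_eq_mul]
    push_cast
    ring

theorem phiL_ideal (k a : ℕ) (b : ℕ → ℕ) (hb : ∀ j, 1 ≤ b j) (g : MvPolynomial (Fin (k + 3)) ℂ)
    (hg : g ∈ curveIdeal k a b) : phiL k a b (incl (k + 3) g) = 0 := by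
  have h : curveIdeal k a b ≤ RingHom.ker ((phiL k a b).comp (incl (k + 3)).toRingHom) := by
    unfold curveIdeal
    rw [Ideal.span_le]
    rintro x (⟨j, rfl⟩ | hx)
    · exact phiL_chain k a b hb j
    · rw [Set.mem_singleton_iff] at hx
      rw [hx]
      exact phiL_last k a b
  exact h hg

/-- The curve lies in the zero set of the ideal: the restriction kills the radical, and its localizations. -/
theorem phiL_kill (k a : ℕ) (b : ℕ → ℕ) (ha : 1 ≤ a) (hb : ∀ j, 1 ≤ b j) (T : Finset (Fin (k + 3)))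
    (d : ℤ) (f : Lau (k + 3)) (hf : f ∈ Loc (curveIdeal k a b).radical T d) : phiL k a b f = 0 := by
  obtain ⟨-, N, g, ⟨m, hm⟩, hg⟩ := hf
  have h1 : phiL k a b (incl (k + 3) g) = 0 := by
    have h2 := phiL_ideal k a b hb _ hm
    rw [map_pow, map_pow] at h2
    exact eq_zero_of_pow_eq_zero h2
  have h2 := congrArg (phiL k a b) hg
  rw [map_mul, h1, phiL_mono] at h2
  have h3 : AddMonoidAlgebra.single (-(pie k a b (fun i => if i ∈ T then (N : ℤ) else 0))) (1 : ℂ) *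
      (AddMonoidAlgebra.single (pie k a b (fun i => if i ∈ T then (N : ℤ) else 0)) (1 : ℂ) *
        phiL k a b f) = 0 := by
    rw [h2, mul_zero]
  rw [← mul_assoc, AddMonoidAlgebra.single_mul_single, neg_add_cancel, one_mul] at h3
  rw [← AddMonoidAlgebra.one_def, one_mul] at h3
  exact h3

end

end Pool.Agent.RegRed
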