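import Mathlib
import Pool.Agent.Lib.MP_724d4c_ag.CurveA

/-! The points of the zero set of the curve ideal. -/

set_option autoImplicit false

namespace Pool.Agent.RegRed

open MvPolynomial

noncomputable section

theorem CUB_chain {k a : ℕ} {b : ℕ → ℕ} {p : Fin (k + 3) → ℂ}
    (hp : ∀ f ∈ curveIdeal k a b, eval p f = 0) (j : Fin k) :
    p (w k j.succ) ^ b j = p (w k j.castSucc) * p 0 ^ (b j - 1) := by
  have h := hp (chainForm k b j) (Ideal.subset_span (Or.inl ⟨j, rfl⟩))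
  simp only [chainForm, map_sub, map_mul, map_pow, eval_X] at h
  exact sub_eq_zero.mp h

theorem CUB_last {k a : ℕ} {b : ℕ → ℕ} {p : Fin (k + 3) → ℂ}
    (hp : ∀ f ∈ curveIdeal k a b, eval p f = 0) :
    p 1 ^ a * p (w k (Fin.last k)) = p (w k 0) ^ a * p 0 := by
  have h := hp (lastForm k a) (Ideal.subset_span (Or.inr rfl))
  simp only [lastForm, map_sub, map_mul, map_pow, eval_X] at h
  exact sub_eq_zero.mp h

/-- Every index is `0`, `1` or some `w_j`. -/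
theorem CUB_cases {k : ℕ} (i : Fin (k + 3)) : i = 0 ∨ i = 1 ∨ ∃ j, i = w k j := by
  refine Fin.cases (Or.inl rfl) (fun i => ?_) i
  refine Fin.cases (Or.inr (Or.inl rfl)) (fun j => ?_) i
  exact Or.inr (Or.inr ⟨j, rfl⟩)

/-- If `w_0 = 0` then all `w_j = 0`. -/
theorem CUB_zero {k a : ℕ} {b : ℕ → ℕ} {p : Fin (k + 3) → ℂ}
    (hp : ∀ f ∈ curveIdeal k a b, eval p f = 0) (h0 : p (w k 0) = 0)
    (hb : ∀ j, 1 ≤ b j) (j : Fin (k + 1)) : p (w k j) = 0 := by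
  induction j using Fin.induction with
  | zero => exact h0
  | succ j ih =>
    have h := CUB_chain hp j
    rw [ih, zero_mul] at h
    exact pow_eq_zero_iff (by have := hb j; omega) |>.mp h

/-- If `t = 0` then all `w_j = 0`, `j ≥ 1`. -/
theorem CUB_t {k a : ℕ} {b : ℕ → ℕ} {p : Fin (k + 3) → ℂ}
    (hp : ∀ f ∈ curveIdeal k a b, eval p f = 0) (h0 : p 0 = 0)
    (hb : ∀ j, 1 ≤ b j) (hb0 : 2 ≤ b 0) (n : ℕ) (hn : n < k) :
    p (w k (⟨n, hn⟩ : Fin k).succ) = 0 := by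
  induction n with
  | zero =>
    have h := CUB_chain hp ⟨0, hn⟩
    rw [h0, zero_pow (by show b 0 - 1 ≠ 0; omega), mul_zero] at h
    exact pow_eq_zero_iff (by show b 0 ≠ 0; omega) |>.mp h
  | succ n ih =>
    have h := CUB_chain hp ⟨n + 1, hn⟩
    have e : (⟨n + 1, hn⟩ : Fin k).castSucc = (⟨n, by omega⟩ : Fin k).succ := rfl
    rw [e, ih (by omega), zero_mul] at h
    exact pow_eq_zero_iff (by have := hb (n + 1); show b (n + 1) ≠ 0; omega) |>.mp h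

/-- If `t w_0 ≠ 0` then all `w_j ≠ 0`. -/
theorem CUB_ne {k a : ℕ} {b : ℕ → ℕ} {p : Fin (k + 3) → ℂ}
    (hp : ∀ f ∈ curveIdeal k a b, eval p f = 0) (h0 : p (w k 0) ≠ 0) (ht : p 0 ≠ 0)
    (hb : ∀ j, 1 ≤ b j) (j : Fin (k + 1)) : p (w k j) ≠ 0 := by
  induction j using Fin.induction with
  | zero => exact h0
  | succ j ih =>
    have h := CUB_chain hp j
    intro h1
    rw [h1, zero_pow (by have := hb j; omega)] at h
    exact mul_ne_zero ih (pow_ne_zero _ ht) h.symm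

/-- The points of the zero set: points of the torus, and points with `w_1 = … = w_k = 0` and `t w_0 = 0`. -/
theorem zero_dichotomy (k a : ℕ) (b : ℕ → ℕ) (ha : 1 ≤ a) (hb : ∀ j, 1 ≤ b j) (hb0 : 2 ≤ b 0)
    (p : Fin (k + 3) → ℂ) (hp : ∀ f ∈ curveIdeal k a b, eval p f = 0) :
    (∀ i, p i ≠ 0) ∨ ((∀ j : Fin k, p (w k j.succ) = 0) ∧ (p 0 = 0 ∨ p (w k 0) = 0)) := by
  by_cases ht : p 0 = 0
  · exact Or.inr ⟨fun j => CUB_t hp ht hb hb0 j j.2, Or.inl ht⟩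
  by_cases hw : p (w k 0) = 0
  · exact Or.inr ⟨fun j => CUB_zero hp hw hb j.succ, Or.inr hw⟩
  left
  intro i
  rcases CUB_cases i with rfl | rfl | ⟨j, rfl⟩
  · exact ht
  · intro h1
    have h := CUB_last hp
    rw [h1, zero_pow (by omega), zero_mul] at h
    exact mul_ne_zero (pow_ne_zero _ hw) ht h.symm
  · exact CUB_ne hp hw ht hb j

/-- `(w_{n}/t) = (w_k/t)^{R_n}`. -/
theorem CUB_pow {k a : ℕ} {b : ℕ → ℕ} {p : Fin (k + 3) → ℂ}
    (hp : ∀ f ∈ curveIdeal k a b, eval p f = 0) (ht : p 0 ≠ 0) (hb : ∀ j, 1 ≤ b j)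
    (m : ℕ) (n : ℕ) (hn : n < k + 1) (hm : n + m = k) :
    p (w k ⟨n, hn⟩) / p 0 = (p (w k (Fin.last k)) / p 0) ^ Rr k b n := by
  induction m generalizing n with
  | zero =>
    obtain rfl : n = k := by omega
    simp only [Rr, Finset.Ico_self, Finset.prod_empty, pow_one]
    rfl
  | succ m ih =>
    have hn' : n < k := by omega
    have h := CUB_chain hp ⟨n, hn'⟩
    have h1 := ih (n + 1) (by omega) (by omega)
    have hR : Rr k b n = Rr k b (n + 1) * b n := by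
      rw [Rr, Rr, Finset.prod_eq_prod_Ico_succ_bot hn', mul_comm]
    have e : (⟨n, hn'⟩ : Fin k).succ = (⟨n + 1, by omega⟩ : Fin (k + 1)) := rfl
    have e' : (⟨n, hn'⟩ : Fin k).castSucc = (⟨n, hn⟩ : Fin (k + 1)) := rfl
    rw [e, e'] at h
    have hbn : b n ≠ 0 := by have := hb n; omega
    rw [hR, pow_mul, ← h1, div_pow]
    simp only at h
    rw [h]
    obtain ⟨c, hc⟩ : ∃ c, b n = c + 1 := Nat.exists_eq_succ_of_ne_zero hbn
    rw [hc, Nat.add_sub_cancel, pow_succ]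
    field_simp

/-- The points of the zero set in the torus are on the parametrized curve. -/
theorem torus_param (k a : ℕ) (b : ℕ → ℕ) (ha : 1 ≤ a) (hb : ∀ j, 1 ≤ b j)
    (p : Fin (k + 3) → ℂ) (hp : ∀ f ∈ curveIdeal k a b, eval p f = 0) (h0 : ∀ i, p i ≠ 0) :
    ∃ u v : ℂ, u ≠ 0 ∧ v ≠ 0 ∧ ∀ i, p i = u ^ wU k a b i * v ^ wV k a b i := by
  have hR : ∀ n, 1 ≤ Rr k b n := fun n => Nat.succ_le_of_lt (Finset.prod_pos (s := Finset.Ico n k) (f := b) (fun i _ => hb i))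
  have hD : 1 ≤ Dd k a b := Nat.mul_pos ha (hR 0)
  obtain ⟨v, hv⟩ := IsAlgClosed.exists_pow_nat_eq (p 0) (n := Dd k a b) hD
  have hv0 : v ≠ 0 := by
    rintro rfl
    rw [zero_pow (by omega)] at hv
    exact h0 0 hv.symm
  set c : ℂ := p (w k (Fin.last k)) / p 0 with hc
  have hc0 : c ≠ 0 := div_ne_zero (h0 _) (h0 _)
  set η : ℂ := p 1 / p 0 with hη
  have hη0 : η ≠ 0 := div_ne_zero (h0 _) (h0 _)
  have hw0 : p (w k 0) / p 0 = c ^ Rr k b 0 := CUB_pow hp (h0 0) hb k 0 (by omega) (by omega)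
  have hlast : η ^ a * c = (c ^ Rr k b 0) ^ a := by
    rw [← hw0, hη, hc, div_pow, div_pow]
    have h := CUB_last hp
    have := h0 0
    field_simp
    linear_combination h
  set ρ : ℂ := c ^ Rr k b 0 / η with hρ
  have hρ0 : ρ ≠ 0 := div_ne_zero (pow_ne_zero _ hc0) hη0
  have hρa : ρ ^ a = c := by
    rw [hρ, div_pow, ← hlast]
    field_simp
  have hρD : ρ ^ Dd k a b = η * ρ := by
    rw [Dd, pow_mul, hρa, hρ]
    field_simp
  refine ⟨ρ * v, v, mul_ne_zero hρ0 hv0, hv0, fun i => ?_⟩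
  rcases CUB_cases i with rfl | rfl | ⟨j, rfl⟩
  · show p 0 = (ρ * v) ^ (0 : ℤ) * v ^ ((Dd k a b : ℕ) : ℤ)
    rw [zpow_zero, one_mul, zpow_natCast, hv]
  · show p 1 = (ρ * v) ^ ((Dd k a b : ℤ) - 1) * v ^ (1 : ℤ)
    have hρ1 : ρ ^ ((Dd k a b : ℤ) - 1) = η := by
      rw [zpow_sub₀ hρ0, zpow_natCast, hρD, zpow_one]
      field_simp
    rw [mul_zpow, hρ1, mul_assoc, ← zpow_add₀ hv0, sub_add_cancel, zpow_natCast, hv, hη]
    have := h0 0
    field_simp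
  · show p (w k j) = (ρ * v) ^ (((a * Rr k b j : ℕ) : ℤ)) *
      v ^ ((Dd k a b : ℤ) - ((a * Rr k b j : ℕ) : ℤ))
    have hj : p (w k j) / p 0 = c ^ Rr k b j :=
      CUB_pow hp (h0 0) hb (k - j) j j.2 (by have := j.2; omega)
    rw [mul_zpow, mul_assoc, ← zpow_add₀ hv0, add_sub_cancel, zpow_natCast, zpow_natCast, hv,
      pow_mul, hρa, ← hj]
    have := h0 0
    field_simp

end

end Pool.Agent.RegRed
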