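import Mathlib
import Pool.Agent.Lib.MP_724d4c_ag.Curve

/-! 724-CUC: crit, with two helper lemmas exp_bound, eval_torus; to be pasted into Curve.lean in place of crit (compiled against the skeleton under the name crit'). -/

set_option autoImplicit false

namespace Pool.Agent.RegRed

open MvPolynomial

noncomputable section

theorem exp_bound {n : ℕ} (e : Fin n → ℤ) : ∃ N : ℕ, ∀ i, 0 < e i + N := by
  classical
  refine ⟨∑ i, (|e i|.toNat + 1), fun i => ?_⟩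
  have h1 : |e i|.toNat + 1 ≤ ∑ i, (|e i|.toNat + 1) :=
    Finset.single_le_sum (f := fun i => |e i|.toNat + 1) (fun _ _ => Nat.zero_le _) (Finset.mem_univ i)
  have h2 : ((|e i|.toNat + 1 : ℕ) : ℤ) ≤ ((∑ i, (|e i|.toNat + 1) : ℕ) : ℤ) := by exact_mod_cast h1
  have h3 : -e i ≤ |e i| := neg_le_abs (e i)
  have h4 : ((|e i|.toNat + 1 : ℕ) : ℤ) = |e i| + 1 := by
    rw [Nat.cast_add, Nat.cast_one, Int.toNat_of_nonneg (abs_nonneg _)]
  rw [h4] at h2
  linarith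

theorem eval_torus (k a : ℕ) (b : ℕ → ℕ) (u v : ℂ) (hu : u ≠ 0) (hv : v ≠ 0)
    (e : Fin (k + 3) → ℕ) :
    ∏ i, (u ^ wU k a b i * v ^ wV k a b i) ^ e i =
      u ^ (pie k a b (fun i => (e i : ℤ))).1 * v ^ (pie k a b (fun i => (e i : ℤ))).2 := by
  classical
  have h1 : ∀ (z : ℂ) (_ : z ≠ 0) (f : Fin (k + 3) → ℤ) (s : Finset (Fin (k + 3))),
      ∏ i ∈ s, z ^ f i = z ^ (∑ i ∈ s, f i) := by
    intro z hz f s
    induction s using Finset.induction_on with
    | empty => simp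
    | insert i s hi ih => rw [Finset.prod_insert hi, Finset.sum_insert hi, zpow_add₀ hz, ih]
  change _ = u ^ (∑ i, (e i : ℤ) * wU k a b i) * v ^ (∑ i, (e i : ℤ) * wV k a b i)
  rw [← h1 u hu, ← h1 v hv, ← Finset.prod_mul_distrib]
  refine Finset.prod_congr rfl fun i _ => ?_
  rw [mul_pow, ← zpow_natCast, ← zpow_natCast, ← zpow_mul, ← zpow_mul, mul_comm (e i : ℤ),
    mul_comm (e i : ℤ)]

/-- The local criterion: a difference of two Laurent monomials with the same restriction to the curve is in the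
localized radical, if `x_T ≠ 0` meets only the torus points of the zero set, or if both monomials vanish at the other
points. -/
theorem crit (k a : ℕ) (b : ℕ → ℕ) (ha : 1 ≤ a) (hb : ∀ j, 1 ≤ b j) (hb0 : 2 ≤ b 0)
    (T : Finset (Fin (k + 3))) (d : ℤ) (e1 e2 : Fin (k + 3) → ℤ)
    (h1 : ∀ i, i ∉ T → 0 ≤ e1 i) (h2 : ∀ i, i ∉ T → 0 ≤ e2 i) (hd1 : ∑ i, e1 i = d)
    (hd2 : ∑ i, e2 i = d) (hpi : pie k a b e1 = pie k a b e2)
    (hT : (∃ j : Fin k, w k j.succ ∈ T) ∨ (0 ∈ T ∧ w k 0 ∈ T) ∨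
      ((∃ j : Fin k, 0 < e1 (w k j.succ)) ∧ ∃ j : Fin k, 0 < e2 (w k j.succ))) :
    mono e1 - mono e2 ∈ Loc (curveIdeal k a b).radical T d := by
  classical
  obtain ⟨N1, hN1⟩ := exp_bound e1
  obtain ⟨N2, hN2⟩ := exp_bound e2
  obtain ⟨N, hN⟩ : ∃ N : ℕ, N = N1 + N2 := ⟨_, rfl⟩
  obtain ⟨s, hs⟩ : ∃ s : Fin (k + 3) → ℤ, s = fun i => if i ∈ T then (N : ℤ) else 0 := ⟨_, rfl⟩
  have hs0 : ∀ i, 0 ≤ s i := by
    intro i
    rw [hs]
    change 0 ≤ if i ∈ T then (N : ℤ) else 0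
    split_ifs <;> omega
  -- the shifted exponents
  have key : ∀ e : Fin (k + 3) → ℤ, (∀ i, i ∉ T → 0 ≤ e i) → (∀ i, 0 < e i + N) →
      (∀ i, i ∈ T → 0 < (s + e) i) ∧ ∀ i, 0 ≤ (s + e) i := by
    intro e he he'
    have hA : ∀ i, i ∈ T → 0 < (s + e) i := by
      intro i hi
      rw [Pi.add_apply, hs]
      change 0 < (if i ∈ T then (N : ℤ) else 0) + e i
      rw [if_pos hi]
      have := he' i
      omega
    refine ⟨hA, fun i => ?_⟩
    by_cases hi : i ∈ T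
    · exact (hA i hi).le
    · rw [Pi.add_apply]
      exact add_nonneg (hs0 i) (he i hi)
  obtain ⟨a1, a2⟩ := key e1 h1 (fun i => by have := hN1 i; omega)
  obtain ⟨b1, b2⟩ := key e2 h2 (fun i => by have := hN2 i; omega)
  have hx : ∀ e : Fin (k + 3) → ℤ, (∀ i, 0 ≤ (s + e) i) →
      ∃ m : Fin (k + 3) →₀ ℕ, (fun i => (m i : ℤ)) = s + e := by
    intro e he
    refine ⟨Finsupp.equivFunOnFinite.symm fun i => ((s + e) i).toNat, ?_⟩
    funext i
    change ((((s + e) i).toNat : ℕ) : ℤ) = _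
    rw [Int.toNat_of_nonneg (he i)]
  obtain ⟨m1, hm1⟩ := hx e1 a2
  obtain ⟨m2, hm2⟩ := hx e2 b2
  refine ⟨?_, N, monomial m1 1 - monomial m2 1, ?_, ?_⟩
  · intro e he
    rw [Finsupp.mem_support_iff] at he
    by_cases c1 : e = e1
    · rw [c1, hd1]
    by_cases c2 : e = e2
    · rw [c2, hd2]
    exfalso
    apply he
    change (mono e1 - mono e2).coeff e = 0
    rw [AddMonoidAlgebra.coeff_sub]
    have hm : (mono e1 : Lau (k + 3)).coeff - (mono e2 : Lau (k + 3)).coeff =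
        (Finsupp.single e1 (1 : ℂ) : (Fin (k + 3) → ℤ) →₀ ℂ) - Finsupp.single e2 1 := rfl
    rw [hm]
    rw [Finsupp.sub_apply, Finsupp.single_eq_of_ne c1, Finsupp.single_eq_of_ne c2, sub_zero]
  · rw [← vanishingIdeal_zeroLocus_eq_radical (K := ℂ)]
    intro p hp
    have hp' : ∀ f ∈ curveIdeal k a b, eval p f = 0 := by
      intro f hf
      have := hp f hf
      rwa [← coe_aeval_eq_eval]
    have hev : ∀ m : Fin (k + 3) →₀ ℕ, aeval p (monomial m (1 : ℂ)) = ∏ i, p i ^ m i := by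
      intro m
      rw [aeval_monomial, map_one, one_mul]
      exact Finsupp.prod_fintype _ _ fun i => pow_zero _
    rw [map_sub, hev, hev, sub_eq_zero]
    rcases zero_dichotomy k a b ha hb hb0 p hp' with h0 | ⟨hw, h0⟩
    · obtain ⟨u, v, hu, hv, huv⟩ := torus_param k a b ha hb p hp' h0
      have e1' : ∏ i, p i ^ m1 i = ∏ i, (u ^ wU k a b i * v ^ wV k a b i) ^ m1 i :=
        Finset.prod_congr rfl fun i _ => by rw [huv i]
      have e2' : ∏ i, p i ^ m2 i = ∏ i, (u ^ wU k a b i * v ^ wV k a b i) ^ m2 i :=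
        Finset.prod_congr rfl fun i _ => by rw [huv i]
      rw [e1', e2', eval_torus k a b u v hu hv, eval_torus k a b u v hu hv, hm1, hm2, map_add, map_add, hpi]
    · have hz : ∀ (m : Fin (k + 3) →₀ ℕ) (i : Fin (k + 3)), p i = 0 → 0 < m i →
          ∏ i, p i ^ m i = 0 := by
        intro m i hi hm
        apply Finset.prod_eq_zero (Finset.mem_univ i)
        rw [hi, zero_pow hm.ne']
      have hpos : ∀ (m : Fin (k + 3) →₀ ℕ) (e : Fin (k + 3) → ℤ), (fun i => (m i : ℤ)) = s + e →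
          ∀ i, 0 < (s + e) i → 0 < m i := by
        intro m e hm i hi
        rw [← hm] at hi
        change (0 : ℤ) < (m i : ℤ) at hi
        exact_mod_cast hi
      rcases hT with ⟨j, hj⟩ | ⟨hT0, hTw⟩ | ⟨⟨j, hj⟩, ⟨j', hj'⟩⟩
      · rw [hz m1 _ (hw j) (hpos m1 e1 hm1 _ (a1 _ hj)), hz m2 _ (hw j) (hpos m2 e2 hm2 _ (b1 _ hj))]
      · rcases h0 with h0 | h0
        · rw [hz m1 _ h0 (hpos m1 e1 hm1 _ (a1 _ hT0)), hz m2 _ h0 (hpos m2 e2 hm2 _ (b1 _ hT0))]
        · rw [hz m1 _ h0 (hpos m1 e1 hm1 _ (a1 _ hTw)), hz m2 _ h0 (hpos m2 e2 hm2 _ (b1 _ hTw))]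
      · have c1 : 0 < (s + e1) (w k j.succ) := by
          rw [Pi.add_apply]
          exact add_pos_of_nonneg_of_pos (hs0 _) hj
        have c2 : 0 < (s + e2) (w k j'.succ) := by
          rw [Pi.add_apply]
          exact add_pos_of_nonneg_of_pos (hs0 _) hj'
        rw [hz m1 _ (hw j) (hpos m1 e1 hm1 _ c1), hz m2 _ (hw j') (hpos m2 e2 hm2 _ c2)]
  · rw [← hs, mul_sub, mono_mul_mono, mono_mul_mono, map_sub, incl_monomial, incl_monomial, hm1, hm2]
    rfl

end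

end Pool.Agent.RegRed
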