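import Mathlib
import Pool.Agent.Lib.MP_724d4c_ag.Curve

/-! Row SC: exponent vectors of the local sections (only integer arithmetic). -/

set_option autoImplicit false

namespace Pool.Agent.RegRed

open MvPolynomial

noncomputable section

/-- `B_j = ∏_{i < j} b_i`. -/
def Bb (b : ℕ → ℕ) (j : ℕ) : ℕ := ∏ i ∈ Finset.range j, b i

theorem sum_single (n : ℕ) (i : Fin n) (c : ℤ) : ∑ j, (Pi.single i c : Fin n → ℤ) j = c := by
  simp

theorem pie_single (k a : ℕ) (b : ℕ → ℕ) (i : Fin (k + 3)) (c : ℤ) :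
    pie k a b (Pi.single i c) = (c * wU k a b i, c * wV k a b i) := by
  simp [pie, Pi.single_apply, ite_mul]

theorem B_mul_R (k : ℕ) (b : ℕ → ℕ) (j : Fin (k + 1)) : Bb b j * Rr k b j = Rr k b 0 := by
  have h : (j : ℕ) ≤ k := Nat.lt_succ_iff.mp j.2
  unfold Bb Rr
  rw [Finset.prod_range_mul_prod_Ico _ h, Finset.range_eq_Ico]

theorem D_eq (k a : ℕ) (b : ℕ → ℕ) (hk : 1 ≤ k) : Dd k a b = a * b 0 * Rr k b 1 := by
  unfold Dd Rr
  rw [Finset.prod_eq_prod_Ico_succ_bot (by omega : 0 < k)]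
  ring

theorem sc_Rlast (k : ℕ) (b : ℕ → ℕ) : Rr k b k = 1 := by
  simp [Rr]

theorem sc_Rpos (k : ℕ) (b : ℕ → ℕ) (hb : ∀ j, 1 ≤ b j) (j : ℕ) : 1 ≤ Rr k b j :=
  Finset.one_le_prod' fun i _ => hb i

theorem sc_Bpos (b : ℕ → ℕ) (hb : ∀ j, 1 ≤ b j) (j : ℕ) : 1 ≤ Bb b j :=
  Finset.one_le_prod' fun i _ => hb i

theorem sc_Rle (k : ℕ) (b : ℕ → ℕ) (hb : ∀ j, 1 ≤ b j) (j : ℕ) (hj : 1 ≤ j) :
    Rr k b j ≤ Rr k b 1 := by
  unfold Rr
  apply Finset.prod_le_prod_of_subset_of_one_le'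
  · exact Finset.Ico_subset_Ico_left hj
  · intro i _ _
    exact hb i

theorem sc_U0 (k a : ℕ) (b : ℕ → ℕ) : wU k a b 0 = 0 := rfl

theorem sc_U1 (k a : ℕ) (b : ℕ → ℕ) : wU k a b 1 = (Dd k a b : ℤ) - 1 := rfl

theorem sc_Uw (k a : ℕ) (b : ℕ → ℕ) (j : Fin (k + 1)) : wU k a b (w k j) = a * Rr k b j := by
  simp [wU, w]

theorem sc_V0 (k a : ℕ) (b : ℕ → ℕ) : wV k a b 0 = Dd k a b := rfl

theorem sc_V1 (k a : ℕ) (b : ℕ → ℕ) : wV k a b 1 = 1 := rfl

theorem sc_Vw (k a : ℕ) (b : ℕ → ℕ) (j : Fin (k + 1)) :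
    wV k a b (w k j) = Dd k a b - a * Rr k b j := by
  simp [wV, w]

theorem sc_w_ne_zero (k : ℕ) (j : Fin (k + 1)) : w k j ≠ 0 := Fin.succ_ne_zero _

theorem sc_w_ne_one (k : ℕ) (j : Fin (k + 1)) : w k j ≠ 1 := by
  intro h
  have := congrArg Fin.val h
  simp [w] at this

theorem sc_w_inj (k : ℕ) {i j : Fin (k + 1)} (h : w k i = w k j) : i = j :=
  Fin.succ_injective _ (Fin.succ_injective _ h)

theorem sc_cases (k : ℕ) (i : Fin (k + 3)) : i = 0 ∨ i = 1 ∨ ∃ j, i = w k j := by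
  refine Fin.cases (Or.inl rfl) (fun i => ?_) i
  refine Fin.cases (Or.inr (Or.inl rfl)) (fun j => ?_) i
  exact Or.inr (Or.inr ⟨j, rfl⟩)

/-- The exponents of the local sections of the line bundle `O(M)` on the curve. With `P = R_1`, `B = R_0`,
`β = (b_0 - 2) a P + ρ`, `E = β - M + 1`:
`s_t = w_k^{(M-2-ρ)B+3P} y^ρ t^{M-ρ-((M-2-ρ)B+3P)}`, `s_y = w_1 t^E w_0^{E(D-2)} y^{β-ED}`,
`s_{w_j} = w_1 y^β t^{(B_j-1)E} w_j^{-B_j E}` (for `j = 0`: `w_1 y^β w_0^{-E}`). -/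
def sec (k a : ℕ) (b : ℕ → ℕ) (hk : 1 ≤ k) (ρ M : ℤ) : Fin (k + 3) → Fin (k + 3) → ℤ :=
  let P : ℤ := Rr k b 1
  let B : ℤ := Rr k b 0
  let D : ℤ := Dd k a b
  let β : ℤ := (b 0 - 2) * a * P + ρ
  let E : ℤ := β - M + 1
  let w1 : Fin (k + 3) := w k ⟨1, by omega⟩
  Fin.cons
    (Pi.single (w k (Fin.last k)) ((M - 2 - ρ) * B + 3 * P) + Pi.single 1 ρ +
      Pi.single 0 (M - ρ - ((M - 2 - ρ) * B + 3 * P)))
    (Fin.cons
      (Pi.single w1 1 + Pi.single 0 E + Pi.single (w k 0) (E * (D - 2)) + Pi.single 1 (β - E * D))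
      fun j => Pi.single w1 1 + Pi.single 1 β + Pi.single 0 (((Bb b j : ℤ) - 1) * E) +
        Pi.single (w k j) (-(Bb b j * E)))

theorem sc_sec0 (k a : ℕ) (b : ℕ → ℕ) (hk : 1 ≤ k) (ρ M : ℤ) : sec k a b hk ρ M 0 =
    Pi.single (w k (Fin.last k)) ((M - 2 - ρ) * Rr k b 0 + 3 * Rr k b 1) + Pi.single 1 ρ +
      Pi.single 0 (M - ρ - ((M - 2 - ρ) * Rr k b 0 + 3 * Rr k b 1)) := rfl

theorem sc_sec1 (k a : ℕ) (b : ℕ → ℕ) (hk : 1 ≤ k) (ρ M : ℤ) : sec k a b hk ρ M 1 =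
    Pi.single (w k ⟨1, by omega⟩) 1 + Pi.single 0 ((b 0 - 2) * a * Rr k b 1 + ρ - M + 1) +
      Pi.single (w k 0) (((b 0 - 2) * a * Rr k b 1 + ρ - M + 1) * (Dd k a b - 2)) +
      Pi.single 1 ((b 0 - 2) * a * Rr k b 1 + ρ -
        ((b 0 - 2) * a * Rr k b 1 + ρ - M + 1) * Dd k a b) := rfl

theorem sc_secw (k a : ℕ) (b : ℕ → ℕ) (hk : 1 ≤ k) (ρ M : ℤ) (j : Fin (k + 1)) :
    sec k a b hk ρ M (w k j) =
    Pi.single (w k ⟨1, by omega⟩) 1 + Pi.single 1 ((b 0 - 2) * a * Rr k b 1 + ρ) +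
      Pi.single 0 (((Bb b j : ℤ) - 1) * ((b 0 - 2) * a * Rr k b 1 + ρ - M + 1)) +
      Pi.single (w k j) (-(Bb b j * ((b 0 - 2) * a * Rr k b 1 + ρ - M + 1))) := rfl

theorem sc_sec_sum (k a : ℕ) (b : ℕ → ℕ) (hk : 1 ≤ k) (ρ M : ℤ) (i : Fin (k + 3)) :
    ∑ j, sec k a b hk ρ M i j = M := by
  rcases sc_cases k i with rfl | rfl | ⟨j, rfl⟩
  · rw [sc_sec0]
    simp only [Pi.add_apply, Finset.sum_add_distrib, sum_single]
    ring
  · rw [sc_sec1]
    simp only [Pi.add_apply, Finset.sum_add_distrib, sum_single]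
    ring
  · rw [sc_secw]
    simp only [Pi.add_apply, Finset.sum_add_distrib, sum_single]
    ring

/-- `U + V = D` on all the variables. -/
theorem sc_UV (k a : ℕ) (b : ℕ → ℕ) (i : Fin (k + 3)) : wU k a b i + wV k a b i = Dd k a b := by
  rcases sc_cases k i with rfl | rfl | ⟨j, rfl⟩
  · rw [sc_U0, sc_V0]
    ring
  · rw [sc_U1, sc_V1]
    ring
  · rw [sc_Uw, sc_Vw]
    ring

theorem sc_pie_add (k a : ℕ) (b : ℕ → ℕ) (e : Fin (k + 3) → ℤ) :
    (pie k a b e).1 + (pie k a b e).2 = (∑ i, e i) * Dd k a b := by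
  show ∑ i, e i * wU k a b i + ∑ i, e i * wV k a b i = _
  rw [← Finset.sum_add_distrib, Finset.sum_mul]
  refine Finset.sum_congr rfl fun i _ => ?_
  rw [← mul_add, sc_UV]

theorem sc_single_nonneg {n : ℕ} (i j : Fin n) (c : ℤ) (h : j = i → 0 ≤ c) :
    0 ≤ (Pi.single i c : Fin n → ℤ) j := by
  rw [Pi.single_apply]
  split_ifs with hij
  · exact h hij
  · exact le_rfl

theorem sc_single_zero {n : ℕ} (i j : Fin n) (c : ℤ) (h : j ≠ i) :
    (Pi.single i c : Fin n → ℤ) j = 0 := by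
  rw [Pi.single_apply, if_neg h]

section

variable (k a : ℕ) (b : ℕ → ℕ) (hk : 1 ≤ k) (ha : 1 ≤ a) (hb : ∀ j, 1 ≤ b j) (hb0 : 4 ≤ b 0) (ρ M : ℤ)
  (hρ : 0 ≤ ρ) (hM : ρ + 2 ≤ M) (hM' : M ≤ (b 0 - 3) * a * Rr k b 1 + ρ)

include ha hb hb0 hρ hM hM'

theorem sec_sum (i : Fin (k + 3)) : ∑ j, sec k a b hk ρ M i j = M := by
  exact sc_sec_sum k a b hk ρ M i

/-- The second component: `e = 2D - 3aP + ρ`, the first: `M D - e`. -/
theorem sec_pie (i : Fin (k + 3)) : pie k a b (sec k a b hk ρ M i) =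
    (M * Dd k a b - (2 * Dd k a b - 3 * a * Rr k b 1 + ρ), 2 * Dd k a b - 3 * a * Rr k b 1 + ρ) := by
  have hD : (Dd k a b : ℤ) = a * b 0 * Rr k b 1 := by
    rw [D_eq k a b hk]
    push_cast
    ring
  have hD' : (Dd k a b : ℤ) = a * Rr k b 0 := by
    unfold Dd
    push_cast
    ring
  have h1 : (pie k a b (sec k a b hk ρ M i)).1 =
      M * Dd k a b - (2 * Dd k a b - 3 * a * Rr k b 1 + ρ) := by
    rcases sc_cases k i with rfl | rfl | ⟨j, rfl⟩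
    · rw [sc_sec0]
      simp only [map_add, pie_single, Prod.fst_add, sc_U0, sc_U1, sc_Uw, Fin.val_last, sc_Rlast]
      push_cast
      linear_combination (2 + ρ - M) * hD'
    · rw [sc_sec1]
      simp only [map_add, pie_single, Prod.fst_add, sc_U0, sc_U1, sc_Uw, Fin.val_zero]
      rw [← hD']
      linear_combination hD
    · have hB : (Bb b j : ℤ) * Rr k b j = Rr k b 0 := by
        exact_mod_cast B_mul_R k b j
      rw [sc_secw]
      simp only [map_add, pie_single, Prod.fst_add, sc_U0, sc_U1, sc_Uw]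
      linear_combination hD - (a * ((b 0 - 2) * a * Rr k b 1 + ρ - M + 1)) * hB +
        ((b 0 - 2) * a * Rr k b 1 + ρ - M + 1) * hD'
  have h2 := sc_pie_add k a b (sec k a b hk ρ M i)
  rw [sc_sec_sum k a b hk ρ M i, h1] at h2
  refine Prod.ext h1 ?_
  show (pie k a b (sec k a b hk ρ M i)).2 = 2 * Dd k a b - 3 * a * Rr k b 1 + ρ
  linarith

theorem sec_nonneg (i j : Fin (k + 3)) (hij : j ≠ i) : 0 ≤ sec k a b hk ρ M i j := by
  have hP : (1 : ℤ) ≤ Rr k b 1 := by exact_mod_cast sc_Rpos k b hb 1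
  have hB : (1 : ℤ) ≤ Rr k b 0 := by exact_mod_cast sc_Rpos k b hb 0
  have ha' : (1 : ℤ) ≤ a := by exact_mod_cast ha
  have hb0' : (4 : ℤ) ≤ b 0 := by exact_mod_cast hb0
  have haP : (1 : ℤ) ≤ a * Rr k b 1 := by nlinarith
  have hD : (Dd k a b : ℤ) = a * b 0 * Rr k b 1 := by
    rw [D_eq k a b hk]
    push_cast
    ring
  have hD2 : (2 : ℤ) ≤ Dd k a b := by
    rw [hD]
    nlinarith
  have hβ : 0 ≤ ((b 0 : ℤ) - 2) * a * Rr k b 1 + ρ := by
    have : 0 ≤ ((b 0 : ℤ) - 2) * (a * Rr k b 1) := mul_nonneg (by linarith) (by linarith)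
    nlinarith
  have hE : 0 ≤ ((b 0 : ℤ) - 2) * a * Rr k b 1 + ρ - M + 1 := by
    nlinarith
  rcases sc_cases k i with rfl | rfl | ⟨l, rfl⟩
  · rw [sc_sec0]
    simp only [Pi.add_apply]
    refine add_nonneg (add_nonneg (sc_single_nonneg _ _ _ fun _ => ?_)
      (sc_single_nonneg _ _ _ fun _ => hρ)) (sc_single_nonneg _ _ _ fun h => absurd h hij)
    have : 0 ≤ (M - 2 - ρ) * (Rr k b 0 : ℤ) := mul_nonneg (by linarith) (by linarith)
    linarith
  · rw [sc_sec1]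
    simp only [Pi.add_apply]
    refine add_nonneg (add_nonneg (add_nonneg (sc_single_nonneg _ _ _ fun _ => zero_le_one)
      (sc_single_nonneg _ _ _ fun _ => hE)) (sc_single_nonneg _ _ _ fun _ => ?_))
      (sc_single_nonneg _ _ _ fun h => absurd h hij)
    exact mul_nonneg hE (by linarith)
  · rw [sc_secw]
    simp only [Pi.add_apply]
    refine add_nonneg (add_nonneg (add_nonneg (sc_single_nonneg _ _ _ fun _ => zero_le_one)
      (sc_single_nonneg _ _ _ fun _ => hβ)) (sc_single_nonneg _ _ _ fun _ => ?_))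
      (sc_single_nonneg _ _ _ fun h => absurd h hij)
    have : (1 : ℤ) ≤ Bb b l := by exact_mod_cast sc_Bpos b hb l
    exact mul_nonneg (by linarith) hE

/-- The sections at `t`, `y`, `w_0` contain a variable `w_{j+1}`. -/
theorem sec_pos (i : Fin (k + 3)) (hi : i = 0 ∨ i = 1 ∨ i = w k 0) :
    ∃ j : Fin k, 0 < sec k a b hk ρ M i (w k j.succ) := by
  have hP : (1 : ℤ) ≤ Rr k b 1 := by exact_mod_cast sc_Rpos k b hb 1
  have hB : (1 : ℤ) ≤ Rr k b 0 := by exact_mod_cast sc_Rpos k b hb 0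
  have hne : (⟨1, by omega⟩ : Fin (k + 1)) ≠ 0 := by
    intro h
    have := congrArg Fin.val h
    simp at this
  have hw10 : w k ⟨1, by omega⟩ ≠ w k 0 := fun h => hne (sc_w_inj k h)
  have h1s : (⟨0, by omega⟩ : Fin k).succ = ⟨1, by omega⟩ := rfl
  rcases hi with rfl | rfl | rfl
  · refine ⟨⟨k - 1, by omega⟩, ?_⟩
    have hl : (⟨k - 1, by omega⟩ : Fin k).succ = Fin.last k := by
      apply Fin.ext
      simp only [Fin.val_succ, Fin.val_last]
      omega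
    rw [hl, sc_sec0]
    simp only [Pi.add_apply]
    rw [Pi.single_eq_same, sc_single_zero _ _ _ (sc_w_ne_one k _),
      sc_single_zero _ _ _ (sc_w_ne_zero k _)]
    have : 0 ≤ (M - 2 - ρ) * (Rr k b 0 : ℤ) := mul_nonneg (by linarith) (by linarith)
    linarith
  · refine ⟨⟨0, by omega⟩, ?_⟩
    rw [h1s, sc_sec1]
    simp only [Pi.add_apply]
    rw [Pi.single_eq_same, sc_single_zero _ _ _ (sc_w_ne_one k _),
      sc_single_zero _ _ _ (sc_w_ne_zero k _), sc_single_zero _ _ _ hw10]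
    norm_num
  · refine ⟨⟨0, by omega⟩, ?_⟩
    rw [h1s, sc_secw]
    simp only [Pi.add_apply]
    rw [Pi.single_eq_same, sc_single_zero _ _ _ (sc_w_ne_one k _),
      sc_single_zero _ _ _ (sc_w_ne_zero k _), sc_single_zero _ _ _ hw10]
    norm_num

end

/-- No monomial of degree `M` has `v`-exponent `e = 2D - 3aP + ρ`. With `s` the sum of the exponents of
`t, w_1, …, w_k`: for `s = 0` the `v`-exponent is at most `M < e`; for `s = 1` it is `≤ M - 1 + D < e`;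
for `s ≥ 2` it is at least `2(D - aP) > e`. -/
theorem no_monomial (k a : ℕ) (b : ℕ → ℕ) (hk : 1 ≤ k) (hb : ∀ j, 1 ≤ b j)
    (hb0 : 4 ≤ b 0) (ρ M : ℤ) (hρ : 0 ≤ ρ) (hρa : ρ < a) (hM' : M ≤ (b 0 - 3) * a * Rr k b 1 + ρ)
    (e : Fin (k + 3) → ℤ) (he : ∀ i, 0 ≤ e i) (hs : ∑ i, e i = M) :
    (pie k a b e).2 ≠ 2 * Dd k a b - 3 * a * Rr k b 1 + ρ := by
  have hP : (1 : ℤ) ≤ Rr k b 1 := by exact_mod_cast sc_Rpos k b hb 1
  have ha' : (1 : ℤ) ≤ a := by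
    have : (0 : ℤ) < a := lt_of_le_of_lt hρ hρa
    linarith
  have hb0' : (4 : ℤ) ≤ b 0 := by exact_mod_cast hb0
  have haP : (a : ℤ) ≤ a * Rr k b 1 := by nlinarith
  have hD : (Dd k a b : ℤ) = b 0 * (a * Rr k b 1) := by
    rw [D_eq k a b hk]
    push_cast
    ring
  have hD' : (Dd k a b : ℤ) = a * Rr k b 0 := by
    unfold Dd
    push_cast
    ring
  have hV : (pie k a b e).2 = e 0 * Dd k a b + (e 1 +
      ∑ j : Fin k, e (w k j.succ) * (Dd k a b - a * Rr k b j.succ)) := by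
    show ∑ i, e i * wV k a b i = _
    rw [Fin.sum_univ_succ, Fin.sum_univ_succ, Fin.sum_univ_succ]
    have h1 : ((0 : Fin (k + 2)).succ : Fin (k + 3)) = 1 := rfl
    have h2 : (((0 : Fin (k + 1)).succ).succ : Fin (k + 3)) = w k 0 := rfl
    have h3 : ∀ j : Fin k, ((j.succ.succ).succ : Fin (k + 3)) = w k j.succ := fun _ => rfl
    simp only [h1, h2, h3]
    rw [sc_V0, sc_V1, sc_Vw]
    simp only [sc_Vw, Fin.val_zero]
    rw [← hD']
    ring
  have hS : e 0 + (e 1 + (e (w k 0) + ∑ j : Fin k, e (w k j.succ))) = M := by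
    rw [← hs, Fin.sum_univ_succ, Fin.sum_univ_succ, Fin.sum_univ_succ]
    rfl
  have hlow : (∑ j : Fin k, e (w k j.succ)) * (Dd k a b - a * Rr k b 1) ≤
      ∑ j : Fin k, e (w k j.succ) * (Dd k a b - a * Rr k b j.succ) := by
    rw [Finset.sum_mul]
    refine Finset.sum_le_sum fun j _ => mul_le_mul_of_nonneg_left ?_ (he _)
    have h1 : (Rr k b j.succ : ℤ) ≤ Rr k b 1 := by
      exact_mod_cast sc_Rle k b hb _ (by simp)
    have : (a : ℤ) * Rr k b j.succ ≤ a * Rr k b 1 := mul_le_mul_of_nonneg_left h1 (by linarith)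
    linarith
  have hup : ∑ j : Fin k, e (w k j.succ) * ((Dd k a b : ℤ) - a * Rr k b j.succ) ≤
      (∑ j : Fin k, e (w k j.succ)) * Dd k a b := by
    rw [Finset.sum_mul]
    refine Finset.sum_le_sum fun j _ => mul_le_mul_of_nonneg_left ?_ (he _)
    have : (0 : ℤ) ≤ a * Rr k b j.succ := by positivity
    linarith
  have hσ : 0 ≤ ∑ j : Fin k, e (w k j.succ) := Finset.sum_nonneg fun j _ => he _
  rw [hV]
  generalize (∑ j : Fin k, e (w k j.succ) * ((Dd k a b : ℤ) - a * Rr k b j.succ)) = V at *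
  generalize (∑ j : Fin k, e (w k j.succ)) = σ at *
  have h0 := he 0
  have h1 := he 1
  have hw0 := he (w k 0)
  generalize e 0 = x0 at *
  generalize e 1 = x1 at *
  generalize e (w k 0) = y0 at *
  have h3 : (3 : ℤ) * a * Rr k b 1 = 3 * (a * Rr k b 1) := by ring
  have h4 : ((b 0 : ℤ) - 3) * a * Rr k b 1 = Dd k a b - 3 * (a * Rr k b 1) := by
    rw [hD]
    ring
  rw [h3]
  rw [h4] at hM'
  have hDQ : 4 * ((a : ℤ) * Rr k b 1) ≤ Dd k a b := by
    rw [hD]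
    exact mul_le_mul_of_nonneg_right hb0' (by linarith)
  generalize (a : ℤ) * Rr k b 1 = Q at *
  generalize (Dd k a b : ℤ) = D at *
  intro hEq
  rcases lt_trichotomy (x0 + σ) 1 with hs1 | hs1 | hs1
  · have hx : x0 = 0 := by omega
    have hσ0 : σ = 0 := by omega
    subst hx hσ0
    have : V ≤ 0 := by linarith
    linarith
  · rcases (by omega : (x0 = 0 ∧ σ = 1) ∨ (x0 = 1 ∧ σ = 0)) with ⟨hx, hy⟩ | ⟨hx, hy⟩
    · subst hx hy
      linarith
    · subst hx hy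
      linarith
  · have hx : 2 * (D - Q) ≤ (x0 + σ) * (D - Q) :=
      mul_le_mul_of_nonneg_right (by omega) (by linarith)
    have hy : x0 * (D - Q) ≤ x0 * D := mul_le_mul_of_nonneg_left (by linarith) h0
    have hz : (x0 + σ) * (D - Q) = x0 * (D - Q) + σ * (D - Q) := by ring
    linarith

end

end Pool.Agent.RegRed
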