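import Mathlib
import Pool.Agent.Lib.MP_724d4c_ag.Step
import Pool.Agent.Lib.MP_724d4c_ag.Sec
import Pool.Agent.Lib.MP_724d4c_ag.Crit

set_option autoImplicit false

namespace Pool.Agent.RegRed

open MvPolynomial

noncomputable section

theorem X1_pair {n : ℕ} {M : Type} [AddCommGroup M] [Module ℂ M] (c : Finset (Fin n) → M)
    (i j : Fin n) (h : i < j) : delta c {i, j} = c {j} - c {i} := by
  have hne : i ≠ j := h.ne
  unfold delta
  rw [Finset.sum_pair hne]
  have e1 : ({i, j} : Finset (Fin n)).erase i = {j} := by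
    ext x; simp only [Finset.mem_erase, Finset.mem_insert, Finset.mem_singleton]
    constructor
    · rintro ⟨h1, h2 | h2⟩
      · exact absurd h2 h1
      · exact h2
    · rintro rfl; exact ⟨hne.symm, Or.inr rfl⟩
  have e2 : ({i, j} : Finset (Fin n)).erase j = {i} := by
    ext x; simp only [Finset.mem_erase, Finset.mem_insert, Finset.mem_singleton]
    constructor
    · rintro ⟨h1, h2 | h2⟩
      · exact h2
      · exact absurd h2 h1
    · rintro rfl; exact ⟨hne, Or.inl rfl⟩
  have s1 : sgn i ({i, j} : Finset (Fin n)) = 1 := by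
    unfold sgn
    have : ({i, j} : Finset (Fin n)).filter (· < i) = ∅ := by
      apply Finset.filter_eq_empty_iff.mpr
      intro x hx
      simp only [Finset.mem_insert, Finset.mem_singleton] at hx
      rcases hx with rfl | rfl
      · exact lt_irrefl _
      · exact not_lt.mpr h.le
    rw [this]; simp
  have s2 : sgn j ({i, j} : Finset (Fin n)) = -1 := by
    unfold sgn
    have : ({i, j} : Finset (Fin n)).filter (· < j) = {i} := by
      ext x
      simp only [Finset.mem_filter, Finset.mem_insert, Finset.mem_singleton]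
      constructor
      · rintro ⟨rfl | rfl, h2⟩
        · rfl
        · exact absurd h2 (lt_irrefl _)
      · rintro rfl; exact ⟨Or.inl rfl, h⟩
    rw [this]; simp
  rw [e1, e2, s1, s2, one_smul, neg_one_smul, sub_eq_add_neg]

theorem X1_single {n : ℕ} {M : Type} [AddCommGroup M] [Module ℂ M] (c : Finset (Fin n) → M)
    (i : Fin n) : delta c {i} = c ∅ := by
  unfold delta
  rw [Finset.sum_singleton]
  have s1 : sgn i ({i} : Finset (Fin n)) = 1 := by
    unfold sgn
    have : ({i} : Finset (Fin n)).filter (· < i) = ∅ := by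
      apply Finset.filter_eq_empty_iff.mpr
      intro x hx
      simp only [Finset.mem_singleton] at hx
      rw [hx]; exact lt_irrefl _
    rw [this]; simp
  rw [s1, one_smul]
  congr 1
  simp

theorem X1_pairs {n : ℕ} (T : Finset (Fin n)) (h : T.card = 2) :
    ∃ i j, i < j ∧ T = {i, j} := by
  obtain ⟨x, y, hxy, rfl⟩ := Finset.card_eq_two.mp h
  rcases lt_or_gt_of_ne hxy with h | h
  · exact ⟨x, y, h, rfl⟩
  · exact ⟨y, x, h, Finset.pair_comm x y⟩

theorem h1_ne (k a : ℕ) (b : ℕ → ℕ) (hk : 1 ≤ k) (ha : 1 ≤ a) (hb : ∀ j, 1 ≤ b j) (hb0 : 4 ≤ b 0)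
    (ρ M : ℤ) (hρ : 0 ≤ ρ) (hρa : ρ < a) (hM : ρ + 2 ≤ M)
    (hM' : M ≤ (b 0 - 3) * a * Rr k b 1 + ρ) : ¬ CohVanish (curveIdeal k a b).radical 1 M := by
  intro hv
  set ε := sec k a b hk ρ M with hε
  have hsum := sec_sum k a b hk ha hb hb0 ρ M hρ hM hM'
  have hpie := sec_pie k a b hk ha hb hb0 ρ M hρ hM hM'
  have hnn := sec_nonneg k a b hk ha hb hb0 ρ M hρ hM hM'
  have hpos := sec_pos k a b hk ha hb hb0 ρ M hρ hM hM'
  let s : Finset (Fin (k + 3)) → Lau (k + 3) := fun T => ∑ i ∈ T, mono (ε i)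
  have hs1 : ∀ i, s {i} = mono (ε i) := fun i => Finset.sum_singleton _ _
  have hc : ∀ T, T.card = 1 + 1 → delta s T ∈ Loc (curveIdeal k a b).radical T M := by
    intro T hT
    obtain ⟨i, j, hij, rfl⟩ := X1_pairs T hT
    rw [X1_pair s i j hij, hs1, hs1]
    have hi : i ∈ ({i, j} : Finset (Fin (k + 3))) := by simp
    have hj : j ∈ ({i, j} : Finset (Fin (k + 3))) := by simp
    refine crit k a b ha hb (by omega) _ M _ _ ?_ ?_ (hsum j) (hsum i) ((hpie j).trans (hpie i).symm) ?_
    · intro x hx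
      refine hnn j x ?_
      rintro rfl; exact hx hj
    · intro x hx
      refine hnn i x ?_
      rintro rfl; exact hx hi
    · have key : ∀ x : Fin (k + 3), (∃ j' : Fin k, w k j'.succ = x) ∨ (x = 0 ∨ x = 1 ∨ x = w k 0) := by
        intro x
        refine Fin.cases ?_ (fun x => ?_) x
        · right; left; rfl
        refine Fin.cases ?_ (fun x => ?_) x
        · right; right; left; rfl
        refine Fin.cases ?_ (fun x => ?_) x
        · right; right; right; rfl
        · left; exact ⟨x, rfl⟩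
      rcases key i with ⟨j', hj'⟩ | hi3
      · left; exact ⟨j', by rw [hj']; exact hi⟩
      rcases key j with ⟨j', hj'⟩ | hj3
      · left; exact ⟨j', by rw [hj']; exact hj⟩
      right; right
      exact ⟨hpos j hj3, hpos i hi3⟩
  obtain ⟨c, hc1, hc2⟩ := hv (delta s) hc (fun T _ => delta_delta s T)
  let g : Finset (Fin (k + 3)) → Lau (k + 3) := fun T => s T - c T
  have hg1 : ∀ T, T.card = 1 → g T ∈ Loc ⊤ T M := by
    intro T hT
    obtain ⟨i, rfl⟩ := Finset.card_eq_one.mp hT
    refine Loc_sub ?_ (Loc_mono le_top (Finset.Subset.refl _) (hc1 {i} hT))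
    rw [hs1, mem_Loc_top]
    intro e he
    have : e = ε i := by
      unfold mono at he
      rw [AddMonoidAlgebra.coeff_single] at he
      have := Finsupp.support_single_subset he
      simpa using this
    rw [this]
    refine ⟨fun x hx => hnn i x ?_, hsum i⟩
    simpa using hx
  have hg2 : ∀ T, T.card = 1 + 1 → delta g T = 0 := by
    intro T hT
    have : delta g T = delta s T - delta c T := ST_delta_sub s c T
    rw [this, hc2 T hT, sub_self]
  obtain ⟨h, hh1, hh2⟩ := serre (n := k + 3) (p := 1) (d := M) le_rfl (by intro h; omega) g hg1 hg2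
  have h0 : h ∅ = mono (ε 0) - c {0} := by
    have h3 := hh2 {0} (by simp)
    rw [X1_single] at h3
    rw [h3]
    show s {0} - c {0} = _
    rw [hs1]
  have hphi : phiL k a b (h ∅) = AddMonoidAlgebra.single (pie k a b (ε 0)) 1 := by
    rw [h0, map_sub, phiL_mono, phiL_kill k a b ha hb {0} M (c {0}) (hc1 {0} (by simp)), sub_zero]
  have hco : (phiL k a b (h ∅)).coeff (pie k a b (ε 0)) ≠ 0 := by
    rw [hphi, AddMonoidAlgebra.coeff_single, Finsupp.single_eq_same]
    exact one_ne_zero
  obtain ⟨e, he, hpe⟩ := phiL_coeff k a b (h ∅) _ hco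
  have hmem := (mem_Loc_top.mp (hh1 ∅ (by simp))) e he
  refine no_monomial k a b hk hb hb0 ρ M hρ hρa hM' e (fun i => hmem.1 i (by simp)) hmem.2 ?_
  rw [hpe, hpie 0]

end

end Pool.Agent.RegRed
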