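import Mathlib
import Pool.Agent.Lib.MP_724d4c_ag.Step
import Pool.Agent.Lib.MP_724d4c_ag.Sec
import Pool.Agent.Lib.MP_724d4c_ag.Crit
import Pool.Agent.Lib.MP_724d4c_ag.H1

/-! `H^2` of the ideal sheaf of the reduced curve is not zero in the degrees `d ≤ 0`. -/

set_option autoImplicit false

namespace Pool.Agent.RegRed

open MvPolynomial

noncomputable section

/-- The exponents of the cochain `c_{t i}`: for `i = y`: `w_0 y^{-1} t^d`; for `i = w_j`:
`y^{D-1} (t^{B_j-1} w_j^{-B_j})^{D-2} t^{d-1}`. The restriction to the curve is `u v^{dD-1}`. -/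
def sec2 (k a : ℕ) (b : ℕ → ℕ) (d : ℤ) : Fin (k + 3) → Fin (k + 3) → ℤ :=
  let D : ℤ := Dd k a b
  Fin.cons 0 (Fin.cons (Pi.single (w k 0) 1 + Pi.single 1 (-1) + Pi.single 0 d)
    fun j => Pi.single 1 (D - 1) + Pi.single (w k j) (-((Bb b j : ℤ) * (D - 2))) +
      Pi.single 0 (((Bb b j : ℤ) - 1) * (D - 2) + (d - 1)))

theorem X2_1 (k a : ℕ) (b : ℕ → ℕ) (d : ℤ) : sec2 k a b d 1 =
    Pi.single (w k 0) 1 + Pi.single 1 (-1) + Pi.single 0 d := rfl

theorem X2_w (k a : ℕ) (b : ℕ → ℕ) (d : ℤ) (j : Fin (k + 1)) : sec2 k a b d (w k j) =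
    Pi.single 1 ((Dd k a b : ℤ) - 1) + Pi.single (w k j) (-((Bb b j : ℤ) * ((Dd k a b : ℤ) - 2))) +
      Pi.single 0 (((Bb b j : ℤ) - 1) * ((Dd k a b : ℤ) - 2) + (d - 1)) := rfl

theorem sec2_sum (k a : ℕ) (b : ℕ → ℕ) (d : ℤ) (i : Fin (k + 3)) (hi : i ≠ 0) :
    ∑ j, sec2 k a b d i j = d := by
  rcases sc_cases k i with rfl | rfl | ⟨j, rfl⟩
  · exact absurd rfl hi
  · rw [X2_1]
    simp only [Pi.add_apply, Finset.sum_add_distrib, sum_single]
    ring
  · rw [X2_w]
    simp only [Pi.add_apply, Finset.sum_add_distrib, sum_single]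
    ring

theorem sec2_pie (k a : ℕ) (b : ℕ → ℕ) (d : ℤ) (i : Fin (k + 3)) (hi : i ≠ 0) :
    pie k a b (sec2 k a b d i) = (1, d * Dd k a b - 1) := by
  rcases sc_cases k i with rfl | rfl | ⟨j, rfl⟩
  · exact absurd rfl hi
  · rw [X2_1]
    simp only [map_add, pie_single, Prod.mk_add_mk, sc_U0, sc_U1, sc_Uw, sc_V0, sc_V1, sc_Vw]
    have hD : (Dd k a b : ℤ) = a * Rr k b 0 := by unfold Dd; push_cast; ring
    refine Prod.ext ?_ ?_
    · simp only [Fin.val_zero]
      rw [hD]; ring
    · simp only [Fin.val_zero]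
      rw [hD]; ring
  · rw [X2_w]
    simp only [map_add, pie_single, Prod.mk_add_mk, sc_U0, sc_U1, sc_Uw, sc_V0, sc_V1, sc_Vw]
    have hD : (Dd k a b : ℤ) = a * Rr k b 0 := by unfold Dd; push_cast; ring
    have hB : (Bb b j : ℤ) * Rr k b j = Rr k b 0 := by exact_mod_cast B_mul_R k b j
    have hD2 : (Bb b j : ℤ) * (a * Rr k b j) = Dd k a b := by rw [hD, ← hB]; ring
    refine Prod.ext ?_ ?_
    · show ((Dd k a b : ℤ) - 1) * ((Dd k a b : ℤ) - 1) +
        (-((Bb b j : ℤ) * ((Dd k a b : ℤ) - 2))) * (a * Rr k b j) +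
        (((Bb b j : ℤ) - 1) * ((Dd k a b : ℤ) - 2) + (d - 1)) * 0 = 1
      linear_combination (-((Dd k a b : ℤ) - 2)) * hD2
    · show ((Dd k a b : ℤ) - 1) * 1 +
        (-((Bb b j : ℤ) * ((Dd k a b : ℤ) - 2))) * ((Dd k a b : ℤ) - a * Rr k b j) +
        (((Bb b j : ℤ) - 1) * ((Dd k a b : ℤ) - 2) + (d - 1)) * (Dd k a b : ℤ) =
          d * Dd k a b - 1
      linear_combination ((Dd k a b : ℤ) - 2) * hD2

theorem sec2_nonneg (k a : ℕ) (b : ℕ → ℕ) (ha : 1 ≤ a) (hb : ∀ j, 1 ≤ b j) (d : ℤ)
    (i j : Fin (k + 3)) (hi : i ≠ 0) (hj0 : j ≠ 0) (hji : j ≠ i) : 0 ≤ sec2 k a b d i j := by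
  have hD : (1 : ℤ) ≤ Dd k a b := by
    have h1 := sc_Rpos k b hb 0
    have : 1 ≤ Dd k a b := by unfold Dd; exact Nat.mul_pos ha h1
    exact_mod_cast this
  rcases sc_cases k i with rfl | rfl | ⟨i', rfl⟩
  · exact absurd rfl hi
  · rw [X2_1]
    simp only [Pi.add_apply]
    rw [sc_single_zero 1 j (-1) hji, sc_single_zero 0 j d hj0]
    have := sc_single_nonneg (w k 0) j 1 (fun _ => by norm_num)
    linarith
  · rw [X2_w]
    simp only [Pi.add_apply]
    rw [sc_single_zero (w k i') j _ hji, sc_single_zero 0 j _ hj0]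
    have := sc_single_nonneg 1 j ((Dd k a b : ℤ) - 1) (fun _ => by linarith)
    linarith

theorem X2_triple {n : ℕ} {M : Type} [AddCommGroup M] [Module ℂ M] (c : Finset (Fin n) → M)
    (i j l : Fin n) (h1 : i < j) (h2 : j < l) :
    delta c {i, j, l} = c {j, l} - c {i, l} + c {i, j} := by
  have h3 : i < l := h1.trans h2
  have n1 := h1.ne
  have n2 := h2.ne
  have n3 := h3.ne
  unfold delta
  rw [Finset.sum_insert (by simp [n1, n3]), Finset.sum_pair n2]
  have e1 : ({i, j, l} : Finset (Fin n)).erase i = {j, l} := by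
    rw [Finset.erase_insert (by simp [n1, n3])]
  have e2 : ({i, j, l} : Finset (Fin n)).erase j = {i, l} := by
    ext x; simp only [Finset.mem_erase, Finset.mem_insert, Finset.mem_singleton]
    constructor
    · rintro ⟨h, h' | h' | h'⟩
      · exact Or.inl h'
      · exact absurd h' h
      · exact Or.inr h'
    · rintro (rfl | rfl)
      · exact ⟨n1, Or.inl rfl⟩
      · exact ⟨n2.symm, Or.inr (Or.inr rfl)⟩
  have e3 : ({i, j, l} : Finset (Fin n)).erase l = {i, j} := by
    ext x; simp only [Finset.mem_erase, Finset.mem_insert, Finset.mem_singleton]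
    constructor
    · rintro ⟨h, h' | h' | h'⟩
      · exact Or.inl h'
      · exact Or.inr h'
      · exact absurd h' h
    · rintro (rfl | rfl)
      · exact ⟨n3, Or.inl rfl⟩
      · exact ⟨n2, Or.inr (Or.inl rfl)⟩
  have s1 : sgn i ({i, j, l} : Finset (Fin n)) = 1 := by
    unfold sgn
    have : ({i, j, l} : Finset (Fin n)).filter (· < i) = ∅ := by
      apply Finset.filter_eq_empty_iff.mpr
      intro x hx
      simp only [Finset.mem_insert, Finset.mem_singleton] at hx
      rcases hx with rfl | rfl | rfl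
      · exact lt_irrefl _
      · exact not_lt.mpr h1.le
      · exact not_lt.mpr h3.le
    rw [this]; simp
  have s2 : sgn j ({i, j, l} : Finset (Fin n)) = -1 := by
    unfold sgn
    have : ({i, j, l} : Finset (Fin n)).filter (· < j) = {i} := by
      ext x
      simp only [Finset.mem_filter, Finset.mem_insert, Finset.mem_singleton]
      constructor
      · rintro ⟨rfl | rfl | rfl, h⟩
        · rfl
        · exact absurd h (lt_irrefl _)
        · exact absurd h (not_lt.mpr h2.le)
      · rintro rfl; exact ⟨Or.inl rfl, h1⟩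
    rw [this]; simp
  have s3 : sgn l ({i, j, l} : Finset (Fin n)) = 1 := by
    unfold sgn
    have : ({i, j, l} : Finset (Fin n)).filter (· < l) = {i, j} := by
      ext x
      simp only [Finset.mem_filter, Finset.mem_insert, Finset.mem_singleton]
      constructor
      · rintro ⟨rfl | rfl | rfl, h⟩
        · exact Or.inl rfl
        · exact Or.inr rfl
        · exact absurd h (lt_irrefl _)
      · rintro (rfl | rfl)
        · exact ⟨Or.inl rfl, h3⟩
        · exact ⟨Or.inr (Or.inl rfl), h2⟩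
    rw [this, Finset.card_pair n1]; norm_num
  rw [e1, e2, e3, s1, s2, s3, one_smul, neg_one_smul, one_smul]
  abel

/-- The `u`-exponents at the variables other than `t` are at least `2`. -/
theorem X2_U (k a : ℕ) (b : ℕ → ℕ) (hk : 1 ≤ k) (ha : 2 ≤ a) (hb : ∀ j, 1 ≤ b j) (hb0 : 4 ≤ b 0)
    (i : Fin (k + 3)) (hi : i ≠ 0) : 2 ≤ wU k a b i := by
  rcases sc_cases k i with rfl | rfl | ⟨j, rfl⟩
  · exact absurd rfl hi
  · rw [sc_U1, D_eq k a b hk]
    have h1 := sc_Rpos k b hb 1
    have : 8 ≤ a * b 0 * Rr k b 1 := by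
      calc 8 = 2 * 4 * 1 := by norm_num
        _ ≤ a * b 0 * Rr k b 1 := by gcongr
    have h2 : (8 : ℤ) ≤ ((a * b 0 * Rr k b 1 : ℕ) : ℤ) := by exact_mod_cast this
    linarith
  · rw [sc_Uw]
    have h1 := sc_Rpos k b hb j
    have : 2 ≤ a * Rr k b j := by
      calc 2 = 2 * 1 := by norm_num
        _ ≤ a * Rr k b j := by gcongr
    exact_mod_cast this

/-- The `v`-exponents are nonnegative. -/
theorem X2_V (k a : ℕ) (b : ℕ → ℕ) (hb : ∀ j, 1 ≤ b j) (i : Fin (k + 3)) : 0 ≤ wV k a b i := by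
  rcases sc_cases k i with rfl | rfl | ⟨j, rfl⟩
  · rw [sc_V0]; positivity
  · rw [sc_V1]; norm_num
  · rw [sc_Vw]
    have h1 := sc_Bpos b hb j
    have h2 := B_mul_R k b j
    have : a * Rr k b j ≤ Dd k a b := by
      unfold Dd
      rw [← h2]
      exact Nat.mul_le_mul_left a (Nat.le_mul_of_pos_left _ h1)
    have h3 : ((a * Rr k b j : ℕ) : ℤ) ≤ Dd k a b := by exact_mod_cast this
    push_cast at h3 ⊢
    linarith

theorem X2_V0 (k a : ℕ) (b : ℕ → ℕ) : wV k a b (w k 0) = 0 := by
  rw [sc_Vw]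
  simp [Dd]

theorem h2_ne (k a : ℕ) (b : ℕ → ℕ) (hk : 1 ≤ k) (ha : 2 ≤ a) (hb : ∀ j, 1 ≤ b j) (hb0 : 4 ≤ b 0)
    (d : ℤ) (hd : d ≤ 0) : ¬ CohVanish (curveIdeal k a b).radical 2 d := by
  classical
  intro hv
  set ε := sec2 k a b d with hε
  have hsum := sec2_sum k a b d
  have hpie := sec2_pie k a b d
  have hnn := sec2_nonneg k a b (by omega) hb d
  let c : Finset (Fin (k + 3)) → Lau (k + 3) := fun T =>
    if 0 ∈ T then ∑ i ∈ T.erase 0, mono (ε i) else 0
  have hc0 : ∀ T, (0 : Fin (k + 3)) ∉ T → c T = 0 := fun T h => if_neg h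
  have hc1 : ∀ i, i ≠ 0 → c {0, i} = mono (ε i) := by
    intro i hi
    have h1 : (0 : Fin (k + 3)) ∈ ({0, i} : Finset (Fin (k + 3))) := by simp
    show (if 0 ∈ ({0, i} : Finset (Fin (k + 3))) then
      ∑ x ∈ ({0, i} : Finset (Fin (k + 3))).erase 0, mono (ε x) else 0) = _
    rw [if_pos h1, Finset.erase_insert (by simpa using hi.symm), Finset.sum_singleton]
  have hc2 : ∀ T, T.card = 2 → c T ∈ Loc ⊤ T d := by
    intro T hT
    obtain ⟨i, j, hij, rfl⟩ := X1_pairs T hT
    by_cases hi : i = 0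
    · subst hi
      rw [hc1 j hij.ne', mem_Loc_top]
      intro e he
      have : e = ε j := by
        unfold mono at he
        rw [AddMonoidAlgebra.coeff_single] at he
        have := Finsupp.support_single_subset he
        simpa using this
      rw [this]
      refine ⟨fun x hx => ?_, hsum j hij.ne'⟩
      simp only [Finset.mem_insert, Finset.mem_singleton, not_or] at hx
      exact hnn j x hij.ne' hx.1 hx.2
    · have hj : j ≠ 0 := by
        rintro rfl
        exact absurd hij (Fin.not_lt_zero _)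
      rw [hc0 _ (by simp [Ne.symm hi, Ne.symm hj])]
      exact Loc_zero _ _ _
  have hc3 : ∀ T, T.card = 2 + 1 → delta c T ∈ Loc (curveIdeal k a b).radical T d := by
    intro T hT
    by_cases h0 : 0 ∈ T
    · have hT' : (T.erase 0).card = 2 := by rw [Finset.card_erase_of_mem h0, hT]
      obtain ⟨i, j, hij, hTe⟩ := X1_pairs _ hT'
      have hTi : T = {0, i, j} := by rw [← hTe, Finset.insert_erase h0]
      have hi0 : i ≠ 0 := by
        rintro rfl
        have : (0 : Fin (k + 3)) ∈ T.erase 0 := by rw [hTe]; simp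
        simp at this
      have hj0 : j ≠ 0 := by
        rintro rfl
        exact absurd hij (Fin.not_lt_zero _)
      rw [hTi, X2_triple c 0 i j (Fin.pos_of_ne_zero hi0) hij, hc0 {i, j} (by simp [Ne.symm hi0, Ne.symm hj0]),
        hc1 j hj0, hc1 i hi0]
      have e1 : (0 : Lau (k + 3)) - mono (ε j) + mono (ε i) = mono (ε i) - mono (ε j) := by abel
      rw [e1]
      have hij' := hij.ne
      refine crit k a b (by omega) hb (by omega) _ d _ _ ?_ ?_ (hsum i hi0) (hsum j hj0)
        ((hpie i hi0).trans (hpie j hj0).symm) ?_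
      · intro x hx
        simp only [Finset.mem_insert, Finset.mem_singleton, not_or] at hx
        exact hnn i x hi0 hx.1 hx.2.1
      · intro x hx
        simp only [Finset.mem_insert, Finset.mem_singleton, not_or] at hx
        exact hnn j x hj0 hx.1 hx.2.2
      · have key : ∀ x : Fin (k + 3), x ≠ 0 → (∃ j' : Fin k, w k j'.succ = x) ∨ (x = 1 ∨ x = w k 0) := by
          intro x
          refine Fin.cases ?_ (fun x => ?_) x
          · intro h; exact absurd rfl h
          refine Fin.cases ?_ (fun x => ?_) x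
          · intro _; right; left; rfl
          refine Fin.cases ?_ (fun x => ?_) x
          · intro _; right; right; rfl
          · intro _; left; exact ⟨x, rfl⟩
        rcases key i hi0 with ⟨j', hj'⟩ | hi3
        · left; exact ⟨j', by rw [hj']; simp⟩
        rcases key j hj0 with ⟨j', hj'⟩ | hj3
        · left; exact ⟨j', by rw [hj']; simp⟩
        right; left
        refine ⟨by simp, ?_⟩
        rcases hi3 with rfl | rfl
        · rcases hj3 with rfl | rfl
          · exact absurd rfl hij'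
          · simp
        · simp
    · have : delta c T = 0 := by
        unfold delta
        refine Finset.sum_eq_zero fun i _ => ?_
        rw [hc0 _ (fun h => h0 (Finset.mem_of_mem_erase h)), smul_zero]
      rw [this]
      exact Loc_zero _ _ _
  obtain ⟨h, hh1, hh2⟩ := hv (delta c) hc3 (fun T _ => delta_delta c T)
  let g : Finset (Fin (k + 3)) → Lau (k + 3) := fun T => c T - h T
  have hg1 : ∀ T, T.card = 2 → g T ∈ Loc ⊤ T d := fun T hT =>
    Loc_sub (hc2 T hT) (Loc_mono le_top (Finset.Subset.refl _) (hh1 T hT))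
  have hg2 : ∀ T, T.card = 2 + 1 → delta g T = 0 := by
    intro T hT
    have : delta g T = delta c T - delta h T := ST_delta_sub c h T
    rw [this, hh2 T hT, sub_self]
  obtain ⟨f, hf1, hf2⟩ := serre (n := k + 3) (p := 2) (d := d) (by norm_num) (by intro h; omega) g hg1 hg2
  have hw0 : w k 0 ≠ 0 := sc_w_ne_zero k 0
  have h1 : f {w k 0} - f {0} = mono (ε (w k 0)) - h {0, w k 0} := by
    have h3 := hf2 {0, w k 0} (Finset.card_pair hw0.symm)
    rw [X1_pair f 0 (w k 0) (Fin.pos_of_ne_zero hw0)] at h3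
    rw [h3]
    show c {0, w k 0} - h {0, w k 0} = _
    rw [hc1 _ hw0]
  have hphi : phiL k a b (f {w k 0}) - phiL k a b (f {0}) =
      AddMonoidAlgebra.single (1, d * Dd k a b - 1) 1 := by
    rw [← map_sub, h1, map_sub, phiL_mono,
      phiL_kill k a b (by omega) hb {0, w k 0} d (h {0, w k 0}) (hh1 _ (Finset.card_pair hw0.symm)),
      sub_zero, hpie _ hw0]
  have hco : (phiL k a b (f {w k 0})).coeff (1, d * Dd k a b - 1) -
      (phiL k a b (f {0})).coeff (1, d * Dd k a b - 1) = 1 := by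
    have := congrArg (fun x => AddMonoidAlgebra.coeff x (1, d * Dd k a b - 1)) hphi
    simpa using this
  have hDpos : (1 : ℤ) ≤ Dd k a b := by
    have h1 := sc_Rpos k b hb 0
    have : 1 ≤ Dd k a b := by unfold Dd; exact Nat.mul_pos (by omega) h1
    exact_mod_cast this
  by_cases hz : (phiL k a b (f {w k 0})).coeff (1, d * Dd k a b - 1) = 0
  · have hz' : (phiL k a b (f {0})).coeff (1, d * Dd k a b - 1) ≠ 0 := by
      intro h'
      rw [hz, h'] at hco
      simp at hco
    obtain ⟨e, he, hpe⟩ := phiL_coeff k a b _ _ hz'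
    have hmem := (mem_Loc_top.mp (hf1 {0} (by simp))) e he
    have hU : ∑ i, e i * wU k a b i = 1 := congrArg Prod.fst hpe
    have hnn' : ∀ i ∈ Finset.univ, 0 ≤ e i * wU k a b i := by
      intro i _
      by_cases hi : i = 0
      · subst hi; rw [sc_U0]; simp
      · exact mul_nonneg (hmem.1 i (by simpa using hi)) (by linarith [X2_U k a b hk ha hb hb0 i hi])
    by_cases hall : ∀ i, i ≠ 0 → e i = 0
    · have : ∑ i, e i * wU k a b i = 0 := by
        refine Finset.sum_eq_zero fun i _ => ?_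
        by_cases hi : i = 0
        · subst hi; rw [sc_U0]; simp
        · rw [hall i hi, zero_mul]
      omega
    · push Not at hall
      obtain ⟨i, hi, hei⟩ := hall
      have h5 : 0 ≤ e i := hmem.1 i (by simpa using hi)
      have h6 : 1 ≤ e i := by omega
      have h7 := X2_U k a b hk ha hb hb0 i hi
      have h8 := Finset.single_le_sum hnn' (Finset.mem_univ i)
      have h9 : 2 ≤ e i * wU k a b i := by nlinarith
      linarith
  · obtain ⟨e, he, hpe⟩ := phiL_coeff k a b _ _ hz
    have hmem := (mem_Loc_top.mp (hf1 {w k 0} (by simp))) e he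
    have hV : ∑ i, e i * wV k a b i = d * Dd k a b - 1 := congrArg Prod.snd hpe
    have hnn' : 0 ≤ ∑ i, e i * wV k a b i := by
      refine Finset.sum_nonneg fun i _ => ?_
      by_cases hi : i = w k 0
      · subst hi; rw [X2_V0]; simp
      · exact mul_nonneg (hmem.1 i (by simpa using hi)) (X2_V k a b hb i)
    have : d * (Dd k a b : ℤ) ≤ 0 := mul_nonpos_of_nonpos_of_nonneg hd (by linarith)
    linarith

end

end Pool.Agent.RegRed
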