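import Mathlib
import Pool.Agent.Lib.MP_724d4c_ag.Chain
import Pool.Agent.Lib.MP_724d4c_ag.H1
import Pool.Agent.Lib.MP_724d4c_ag.H2

/-! Row MA: the theorem. -/

set_option autoImplicit false

namespace Pool.Agent.RegRed

open MvPolynomial

noncomputable section

theorem main (k a : ℕ) (b : ℕ → ℕ) (hk : 1 ≤ k) (ha : 2 ≤ a) (hb : ∀ j, 1 ≤ b j) (hb0 : 4 ≤ b 0) :
    IsHomog (curveIdeal k a b) ∧
    (∀ m : ℤ, ∑ j ∈ Finset.range k, ((b j : ℤ) - 1) + a + 1 ≤ m → IsReg (curveIdeal k a b) m) ∧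
    ∀ q : ℤ, q ≤ ((b 0 : ℤ) - 3) * a * ∏ j ∈ Finset.Ico 1 k, (b j : ℤ) + a →
      ¬ IsReg (curveIdeal k a b).radical q := by
  refine ⟨curveIdeal_hom k a b hb, fun m hm => curve_reg k a (by omega) b hb m hm, ?_⟩
  intro q hq hr
  have hR : ((Rr k b 1 : ℕ) : ℤ) = ∏ j ∈ Finset.Ico 1 k, (b j : ℤ) := by
    simp [Rr]
  have hR1 : 1 ≤ Rr k b 1 := Finset.one_le_prod' fun i _ => hb i
  rw [← hR] at hq
  rcases le_or_gt q 2 with h | h
  · have := hr 2 (by norm_num)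
    exact h2_ne k a b hk ha hb hb0 (q - 2) (by linarith) (by simpa using this)
  · have h1 := hr 1 le_rfl
    simp only [Nat.cast_one] at h1
    have hpos : (a : ℤ) ≤ ((b 0 : ℤ) - 3) * a * (Rr k b 1 : ℕ) := by
      have h3 : (1 : ℤ) ≤ (b 0 : ℤ) - 3 := by
        have : (4 : ℤ) ≤ b 0 := by exact_mod_cast hb0
        linarith
      have h4 : (1 : ℤ) ≤ (Rr k b 1 : ℕ) := by exact_mod_cast hR1
      have h5 : (0 : ℤ) ≤ a := by positivity
      nlinarith [mul_le_mul h3 h4 (by norm_num) (by linarith)]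
    have ha' : (2 : ℤ) ≤ a := by exact_mod_cast ha
    rcases le_or_gt (q - 1) (((b 0 : ℤ) - 3) * a * (Rr k b 1 : ℕ)) with h2 | h2
    · exact h1_ne k a b hk (by omega) hb hb0 0 (q - 1) le_rfl (by linarith) (by linarith)
        (by linarith) h1
    · exact h1_ne k a b hk (by omega) hb hb0 (a - 1) (q - 1) (by linarith) (by linarith)
        (by linarith) (by linarith) h1

end

end Pool.Agent.RegRed
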