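import Mathlib
import Pool.Agent.Lib.MP_724d4c_ag.Cech
import Pool.Agent.Lib.MP_724d4c_ag.LocB

/-! Row 724x-E1: Laurent polynomials in `n + M` variables; the part with a fixed exponent `θ` in the last `M`
variables. -/

set_option autoImplicit false

namespace Pool.Agent.RegRed

open MvPolynomial

noncomputable section

variable {n M : ℕ}

theorem append_inj (θ : Fin M → ℤ) :
    Function.Injective (fun a : Fin n → ℤ => (Fin.append a θ : Fin (n + M) → ℤ)) := by
  intro a b h
  funext i
  have := congrFun h (Fin.castAdd M i)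
  simpa using this

/-- the coefficient of `z^θ`, `z` the last `M` variables -/
def exU (θ : Fin M → ℤ) (F : Lau (n + M)) : Lau n :=
  AddMonoidAlgebra.ofCoeff (Finsupp.comapDomain (fun a : Fin n → ℤ => (Fin.append a θ : Fin (n + M) → ℤ))
    F.coeff (append_inj θ).injOn)

/-- `F ↦ z^θ F` -/
def liU (θ : Fin M → ℤ) (F : Lau n) : Lau (n + M) :=
  AddMonoidAlgebra.ofCoeff (Finsupp.mapDomain (fun a : Fin n → ℤ => (Fin.append a θ : Fin (n + M) → ℤ)) F.coeff)

/-- the set `T` of variables as a set of variables of the larger ring -/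
def imT (M : ℕ) (T : Finset (Fin n)) : Finset (Fin (n + M)) := T.map (Fin.castAddEmb M)

theorem XE_ext {k : ℕ} {F G : Lau k} (h : ∀ e, F.coeff e = G.coeff e) : F = G := by
  apply AddMonoidAlgebra.coeff_injective
  exact Finsupp.ext h

theorem XE_append_add {k : ℕ} (a b : Fin k → ℤ) (θ θ' : Fin M → ℤ) :
    (Fin.append a θ : Fin (k + M) → ℤ) + Fin.append b θ' = Fin.append (a + b) (θ + θ') := by
  funext i
  refine Fin.addCases (fun j => ?_) (fun j => ?_) i
  · simp
  · simp

theorem exU_coeff (θ : Fin M → ℤ) (F : Lau (n + M)) (a : Fin n → ℤ) :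
    (exU θ F).coeff a = F.coeff (Fin.append a θ) := by
  rfl

theorem liU_coeff (θ : Fin M → ℤ) (F : Lau n) (a : Fin n → ℤ) :
    (liU θ F).coeff (Fin.append a θ) = F.coeff a := by
  exact Finsupp.mapDomain_apply (append_inj θ) F.coeff a

theorem liU_supp (θ : Fin M → ℤ) (F : Lau n) (e : Fin (n + M) → ℤ) (h : (liU θ F).coeff e ≠ 0) :
    ∃ a, F.coeff a ≠ 0 ∧ e = Fin.append a θ := by
  by_contra hcon
  push Not at hcon
  apply h
  apply Finsupp.mapDomain_of_not_mem_image_support
  rintro ⟨a, ha, rfl⟩
  exact hcon a (Finsupp.mem_support_iff.1 ha) rfl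

theorem liU_off (θ : Fin M → ℤ) (F : Lau n) (e : Fin (n + M) → ℤ) (h : ∀ a, e ≠ Fin.append a θ) :
    (liU θ F).coeff e = 0 := by
  by_contra hne
  obtain ⟨a, _, ha⟩ := liU_supp θ F e hne
  exact h a ha

theorem XE_lext {θ : Fin M → ℤ} {F G : Lau (n + M)}
    (h1 : ∀ a, F.coeff (Fin.append a θ) = G.coeff (Fin.append a θ))
    (h2 : ∀ e, (∀ a, e ≠ Fin.append a θ) → F.coeff e = G.coeff e) : F = G := by
  apply XE_ext
  intro e
  by_cases h : ∃ a, e = Fin.append a θ
  · obtain ⟨a, rfl⟩ := h
    exact h1 a
  · push Not at h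
    exact h2 e h

theorem exU_liU (θ : Fin M → ℤ) (F : Lau n) : exU θ (liU θ F) = F := by
  apply XE_ext
  intro e
  rw [exU_coeff, liU_coeff]

theorem exU_zero (θ : Fin M → ℤ) : exU θ (0 : Lau (n + M)) = 0 := by
  apply XE_ext
  intro e
  rw [exU_coeff]; rfl

theorem exU_add (θ : Fin M → ℤ) (F G : Lau (n + M)) : exU θ (F + G) = exU θ F + exU θ G := by
  apply XE_ext
  intro e
  rw [AddMonoidAlgebra.coeff_add, Finsupp.add_apply, exU_coeff, exU_coeff, exU_coeff,
    AddMonoidAlgebra.coeff_add, Finsupp.add_apply]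

theorem exU_sub (θ : Fin M → ℤ) (F G : Lau (n + M)) : exU θ (F - G) = exU θ F - exU θ G := by
  apply XE_ext
  intro e
  rw [AddMonoidAlgebra.coeff_sub, Finsupp.sub_apply, exU_coeff, exU_coeff, exU_coeff,
    AddMonoidAlgebra.coeff_sub, Finsupp.sub_apply]

theorem exU_smul (θ : Fin M → ℤ) (c : ℂ) (F : Lau (n + M)) : exU θ (c • F) = c • exU θ F := by
  apply XE_ext
  intro e
  rw [AddMonoidAlgebra.coeff_smul, Finsupp.smul_apply, exU_coeff, exU_coeff,
    AddMonoidAlgebra.coeff_smul, Finsupp.smul_apply]

theorem liU_zero (θ : Fin M → ℤ) : liU θ (0 : Lau n) = 0 := by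
  apply XE_lext
  · intro a
    rw [liU_coeff]; rfl
  · intro e he
    rw [liU_off _ _ _ he]; rfl

theorem liU_add (θ : Fin M → ℤ) (F G : Lau n) : liU θ (F + G) = liU θ F + liU θ G := by
  apply XE_lext
  · intro a
    rw [AddMonoidAlgebra.coeff_add, Finsupp.add_apply, liU_coeff, liU_coeff, liU_coeff,
      AddMonoidAlgebra.coeff_add, Finsupp.add_apply]
  · intro e he
    rw [AddMonoidAlgebra.coeff_add, Finsupp.add_apply, liU_off _ _ _ he, liU_off _ _ _ he, liU_off _ _ _ he, add_zero]

theorem liU_smul (θ : Fin M → ℤ) (c : ℂ) (F : Lau n) : liU θ (c • F) = c • liU θ F := by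
  apply XE_lext
  · intro a
    rw [AddMonoidAlgebra.coeff_smul, Finsupp.smul_apply, liU_coeff, liU_coeff,
      AddMonoidAlgebra.coeff_smul, Finsupp.smul_apply]
  · intro e he
    rw [AddMonoidAlgebra.coeff_smul, Finsupp.smul_apply, liU_off _ _ _ he, liU_off _ _ _ he, smul_zero]

/-- Both sides have the same coefficients (`mono_mul_coeff`). -/
theorem exU_mono_mul (θ θ' : Fin M → ℤ) (a : Fin n → ℤ) (F : Lau (n + M)) :
    exU (θ + θ') (mono (Fin.append a θ) * F) = mono a * exU θ' F := by
  apply XE_ext
  intro e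
  have h1 : (Fin.append e (θ + θ') : Fin (n + M) → ℤ) = Fin.append a θ + Fin.append (e - a) θ' := by
    rw [XE_append_add, add_sub_cancel]
  rw [exU_coeff, h1, mono_mul_coeff]
  conv_rhs => rw [show e = a + (e - a) by rw [add_sub_cancel]]
  rw [mono_mul_coeff, exU_coeff]

theorem liU_mono_mul (θ θ' : Fin M → ℤ) (a : Fin n → ℤ) (F : Lau n) :
    liU (θ + θ') (mono a * F) = mono (Fin.append a θ) * liU θ' F := by
  apply XE_lext
  · intro e
    have h1 : (Fin.append e (θ + θ') : Fin (n + M) → ℤ) = Fin.append a θ + Fin.append (e - a) θ' := by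
      rw [XE_append_add, add_sub_cancel]
    rw [liU_coeff, h1, mono_mul_coeff, liU_coeff]
    conv_lhs => rw [show e = a + (e - a) by rw [add_sub_cancel]]
    rw [mono_mul_coeff]
  · intro e he
    rw [liU_off _ _ _ he]
    have h1 : e = Fin.append a θ + (e - Fin.append a θ) := by rw [add_sub_cancel]
    rw [h1, mono_mul_coeff, liU_off]
    intro b hb
    apply he (a + b)
    rw [h1, hb, XE_append_add]

theorem imT_card (T : Finset (Fin n)) : (imT M T).card = T.card := by
  unfold imT
  rw [Finset.card_map]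

theorem imT_sgn (T : Finset (Fin n)) (i : Fin n) : sgn (Fin.castAdd M i) (imT M T) = sgn i T := by
  unfold sgn imT
  congr 1
  rw [Finset.filter_map, Finset.card_map]
  congr 1

theorem imT_erase (T : Finset (Fin n)) (i : Fin n) :
    (imT M T).erase (Fin.castAdd M i) = imT M (T.erase i) := by
  unfold imT
  ext j
  simp only [Finset.mem_erase, Finset.mem_map, Fin.castAddEmb_apply, ne_eq]
  constructor
  · rintro ⟨h1, k, hk, rfl⟩
    exact ⟨k, ⟨fun h => h1 (by rw [h]), hk⟩, rfl⟩
  · rintro ⟨k, ⟨h1, hk⟩, rfl⟩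
    exact ⟨fun h => h1 (Fin.castAdd_injective _ _ h), k, hk, rfl⟩

theorem exU_delta (θ : Fin M → ℤ) (c : Finset (Fin (n + M)) → Lau (n + M)) (T : Finset (Fin n)) :
    exU θ (delta c (imT M T)) = delta (fun T' => exU θ (c (imT M T'))) T := by
  unfold delta
  have hsum : ∀ (s : Finset (Fin n)) (f : Fin n → Lau (n + M)), exU θ (∑ i ∈ s, f i) = ∑ i ∈ s, exU θ (f i) := by
    intro s f
    classical
    induction s using Finset.induction_on with
    | empty => rw [Finset.sum_empty, Finset.sum_empty, exU_zero]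
    | insert a s ha ih => rw [Finset.sum_insert ha, Finset.sum_insert ha, exU_add, ih]
  rw [show imT M T = T.map (Fin.castAddEmb M) from rfl, Finset.sum_map, hsum]
  apply Finset.sum_congr rfl
  intro i _
  rw [exU_smul]
  have h1 := imT_sgn (M := M) T i
  have h2 := imT_erase (M := M) T i
  unfold imT at h1 h2
  rw [Fin.castAddEmb_apply, h1, h2]
  rfl

theorem liU_delta (θ : Fin M → ℤ) (c : Finset (Fin n) → Lau n) (T : Finset (Fin n)) :
    liU θ (delta c T) = delta (fun T' => liU θ (c T')) T := by
  unfold delta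
  have hsum : ∀ (s : Finset (Fin n)) (f : Fin n → Lau n), liU θ (∑ i ∈ s, f i) = ∑ i ∈ s, liU θ (f i) := by
    intro s f
    classical
    induction s using Finset.induction_on with
    | empty => rw [Finset.sum_empty, Finset.sum_empty, liU_zero]
    | insert a s ha ih => rw [Finset.sum_insert ha, Finset.sum_insert ha, liU_add, ih]
  rw [hsum]
  apply Finset.sum_congr rfl
  intro i _
  rw [liU_smul]

theorem append_sum (θ : Fin M → ℤ) (a : Fin n → ℤ) :
    ∑ i, (Fin.append a θ : Fin (n + M) → ℤ) i = ∑ i, a i + ∑ i, θ i := by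
  rw [Fin.sum_univ_add]
  simp

theorem XEb_liU_single (θ : Fin M → ℤ) (a : Fin n → ℤ) (c : ℂ) :
    liU θ (AddMonoidAlgebra.single a c) = AddMonoidAlgebra.single (Fin.append a θ) c := by
  unfold liU
  rw [AddMonoidAlgebra.coeff_single, Finsupp.mapDomain_single, AddMonoidAlgebra.ofCoeff_single]

theorem XEb_append_eq (a b : Fin n → ℤ) (θ θ' : Fin M → ℤ) :
    (Fin.append a θ : Fin (n + M) → ℤ) = Fin.append b θ' ↔ a = b ∧ θ = θ' := by
  constructor
  · intro h
    constructor
    · funext i
      have := congrFun h (Fin.castAdd M i)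
      simpa using this
    · funext i
      have := congrFun h (Fin.natAdd n i)
      simpa using this
  · rintro ⟨rfl, rfl⟩
    rfl

theorem XEb_exU_single (θ θ' : Fin M → ℤ) (a : Fin n → ℤ) (c : ℂ) :
    exU θ (AddMonoidAlgebra.single (Fin.append a θ' : Fin (n + M) → ℤ) c) =
      if θ' = θ then AddMonoidAlgebra.single a c else 0 := by
  classical
  ext b
  rw [exU_coeff, AddMonoidAlgebra.coeff_single, Finsupp.single_apply]
  split_ifs with h1 h2 h2
  · rw [XEb_append_eq] at h1
    rw [AddMonoidAlgebra.coeff_single, Finsupp.single_apply, if_pos h1.1]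
  · exact absurd ((XEb_append_eq _ _ _ _).1 h1).2 h2
  · rw [AddMonoidAlgebra.coeff_single, Finsupp.single_apply, if_neg]
    intro h3
    exact h1 ((XEb_append_eq _ _ _ _).2 ⟨h3, h2⟩)
  · rfl

theorem XEb_append_surj (e : Fin (n + M) → ℤ) :
    e = Fin.append (fun i => e (Fin.castAdd M i)) (fun i => e (Fin.natAdd n i)) := by
  funext i
  refine Fin.addCases (fun j => ?_) (fun j => ?_) i
  · simp
  · simp

theorem XEb_append_add (a b : Fin n → ℤ) (θ θ' : Fin M → ℤ) :
    (Fin.append (a + b) (θ + θ') : Fin (n + M) → ℤ) = Fin.append a θ + Fin.append b θ' := by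
  funext i
  refine Fin.addCases (fun j => ?_) (fun j => ?_) i
  · simp
  · simp

/-- The inclusion `lift` of the polynomial rings: `rename castAdd` becomes `liU 0`. -/
theorem incl_rename (p : MvPolynomial (Fin n) ℂ) :
    incl (n + M) (rename (Fin.castAdd M) p) = liU 0 (incl n p) := by
  induction p using MvPolynomial.induction_on' with
  | monomial u a =>
    rw [rename_monomial, incl_monomial, incl_monomial, XEb_liU_single]
    congr 1
    funext i
    refine Fin.addCases (fun j => ?_) (fun j => ?_) i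
    · rw [Finsupp.mapDomain_apply (Fin.castAdd_injective n M)]
      simp
    · rw [Finsupp.mapDomain_of_notMem_range]
      · simp
      · rintro ⟨k, hk⟩
        have := congrArg Fin.val hk
        simp at this
        omega
  | add p q hp hq => rw [map_add, map_add, map_add, hp, hq, liU_add]

/-- `exU` of a product with a Laurent polynomial in the first variables (check on `single`s). -/
theorem exU_liU_mul (θ : Fin M → ℤ) (F : Lau n) (G : Lau (n + M)) :
    exU θ (liU 0 F * G) = F * exU θ G := by
  induction F using AddMonoidAlgebra.induction_linear with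
  | zero => rw [liU_zero, zero_mul, exU_zero, zero_mul]
  | add F1 F2 h1 h2 => rw [liU_add, add_mul, exU_add, h1, h2, add_mul]
  | single a c =>
    induction G using AddMonoidAlgebra.induction_linear with
    | zero => rw [mul_zero, exU_zero, mul_zero]
    | add G1 G2 h1 h2 => rw [mul_add, exU_add, h1, h2, exU_add, mul_add]
    | single e d =>
      rw [XEb_liU_single, AddMonoidAlgebra.single_mul_single, XEb_append_surj e, ← XEb_append_add,
        XEb_exU_single, XEb_exU_single, zero_add]
      split_ifs with h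
      · rw [AddMonoidAlgebra.single_mul_single]
      · rw [mul_zero]

theorem liU_mul (θ : Fin M → ℤ) (F G : Lau n) : liU θ (F * G) = liU 0 F * liU θ G := by
  induction F using AddMonoidAlgebra.induction_linear with
  | zero => rw [zero_mul, liU_zero, liU_zero, zero_mul]
  | add F1 F2 h1 h2 => rw [add_mul, liU_add, h1, h2, liU_add, add_mul]
  | single a c =>
    induction G using AddMonoidAlgebra.induction_linear with
    | zero => rw [mul_zero, liU_zero, mul_zero]
    | add G1 G2 h1 h2 => rw [mul_add, liU_add, h1, h2, liU_add, mul_add]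
    | single e d =>
      rw [XEb_liU_single, XEb_liU_single, AddMonoidAlgebra.single_mul_single, XEb_liU_single,
        AddMonoidAlgebra.single_mul_single, ← XEb_append_add, zero_add]

/-- `exU` of a polynomial is a polynomial (induction on the monomials, or `incl_support`). -/
theorem exU_incl (θ : Fin M → ℤ) (G : MvPolynomial (Fin (n + M)) ℂ) :
    ∃ G' : MvPolynomial (Fin n) ℂ, exU θ (incl (n + M) G) = incl n G' := by
  induction G using MvPolynomial.induction_on' with
  | monomial u a =>
    rw [incl_monomial, XEb_append_surj (fun i => ((u i : ℕ) : ℤ)), XEb_exU_single]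
    split_ifs with h
    · refine ⟨monomial (Finsupp.equivFunOnFinite.symm fun i => u (Fin.castAdd M i)) a, ?_⟩
      rw [incl_monomial]
      rfl
    · exact ⟨0, (map_zero _).symm⟩
  | add p q hp hq =>
    obtain ⟨p', hp'⟩ := hp
    obtain ⟨q', hq'⟩ := hq
    exact ⟨p' + q', by rw [map_add, exU_add, hp', hq', map_add]⟩

end

end Pool.Agent.RegRed
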