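import Mathlib
import Pool.Agent.Lib.MP_724d4c_ag.LocB

/-! Row 724x-LO: `Loc` of an intersection and of a sum; homogeneous ideals. -/

set_option autoImplicit false

namespace Pool.Agent.RegRed

open MvPolynomial

noncomputable section

variable {n : ℕ}

/-- `x_T^N x ∈ J`, `x_T^M x ∈ K`: use `N + M` (`LA_up`) and `incl_injective`. -/
theorem Loc_inf {J K : Ideal (MvPolynomial (Fin n) ℂ)} {T : Finset (Fin n)} {d : ℤ} {x : Lau n}
    (h1 : x ∈ Loc J T d) (h2 : x ∈ Loc K T d) : x ∈ Loc (J ⊓ K) T d := by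
  obtain ⟨hd, N, hN⟩ := LA_mem.mp h1
  obtain ⟨-, M, hM⟩ := LA_mem.mp h2
  obtain ⟨g, hg, e1⟩ := LA_up M hN
  obtain ⟨g', hg', e2⟩ := LA_up N hM
  rw [add_comm N M] at e2
  have e3 : g = g' := incl_injective (e1.symm.trans e2)
  subst e3
  exact LA_mem.mpr ⟨hd, M + N, g, ⟨hg, hg'⟩, e1⟩

/-- As in `Loc_decomp` (homogeneous component of the degree of `x_T^N x`; `Loc_of_homog`). -/
theorem Loc_sup {J K : Ideal (MvPolynomial (Fin n) ℂ)} (hJ : IsHomog J) (hK : IsHomog K)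
    {T : Finset (Fin n)} {d : ℤ} {x : Lau n} (hx : x ∈ Loc (J ⊔ K) T d) :
    ∃ a ∈ Loc J T d, ∃ b ∈ Loc K T d, x = a + b := by
  obtain ⟨hdeg, N, g, hg, hgx⟩ := hx
  set m : Fin n → ℤ := fun i => if i ∈ T then (N : ℤ) else 0 with hm
  have hgdeg := degree_of_incl hdeg hgx
  by_cases hg0 : g = 0
  · refine ⟨0, Loc_zero J T d, 0, Loc_zero K T d, ?_⟩
    rw [add_zero]
    apply mono_mul_cancel m
    rw [hgx, hg0, map_zero, mul_zero]
  -- the degree of `g`
  obtain ⟨D, hD⟩ : ∃ D : ℕ, (D : ℤ) = d + ∑ i, m i := by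
    obtain ⟨e₀, he₀⟩ := MvPolynomial.support_nonempty.mpr hg0
    refine ⟨∑ i, e₀ i, ?_⟩
    rw [← hgdeg e₀ he₀]
    push_cast
    rfl
  have hghom : g.IsHomogeneous D := by
    intro e' he'
    rw [weight_one_sum]
    have h1 := hgdeg e' (MvPolynomial.mem_support_iff.mpr he')
    rw [← hD] at h1
    exact_mod_cast h1
  obtain ⟨g₁, hg₁, g₂, hg₂, hsum⟩ := Submodule.mem_sup.mp hg
  have hgc : homogeneousComponent D g = g := by
    have h3 : g ∈ homogeneousSubmodule (Fin n) ℂ D := (mem_homogeneousSubmodule _ _).mpr hghom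
    rw [homogeneousComponent_of_mem h3, if_pos rfl]
  have hcomp : g = homogeneousComponent D g₁ + homogeneousComponent D g₂ := by
    conv_lhs => rw [← hgc, ← hsum]
    rw [map_add]
  obtain ⟨ha, ha'⟩ := Loc_of_homog (J := J) (T := T) (d := d) (N := N)
    (homogeneousComponent_isHomogeneous D g₁) (hJ g₁ hg₁ D) hD
  obtain ⟨hb, hb'⟩ := Loc_of_homog (J := K) (T := T) (d := d) (N := N)
    (homogeneousComponent_isHomogeneous D g₂) (hK g₂ hg₂ D) hD
  refine ⟨_, ha, _, hb, ?_⟩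
  apply mono_mul_cancel m
  rw [hgx, mul_add, ha', hb', ← map_add]
  exact congrArg (incl n) hcomp

attribute [local instance] MvPolynomial.gradedAlgebra

private theorem XL_isHomog_iff {J : Ideal (MvPolynomial (Fin n) ℂ)} :
    IsHomog J ↔ J.IsHomogeneous (homogeneousSubmodule (Fin n) ℂ) := by
  constructor
  · intro h i f hf
    have := h f hf i
    rwa [← decomposition.decompose'_apply] at this
  · intro h f hf i
    have := h i hf
    rw [← decomposition.decompose'_apply]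
    exact this

/-- From `ST_isHomog_iff` (Step.lean, copied here if needed) and `Ideal.homogeneous_span`. -/
theorem isHomog_span (A : Set (MvPolynomial (Fin n) ℂ)) (hA : ∀ f ∈ A, ∃ e, f.IsHomogeneous e) :
    IsHomog (Ideal.span A) := by
  rw [XL_isHomog_iff]
  refine Ideal.homogeneous_span _ _ ?_
  intro x hx
  obtain ⟨e, he⟩ := hA x hx
  exact ⟨e, (mem_homogeneousSubmodule _ _).mpr he⟩

theorem isHomog_inf {J K : Ideal (MvPolynomial (Fin n) ℂ)} (hJ : IsHomog J) (hK : IsHomog K) :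
    IsHomog (J ⊓ K) :=
  fun f hf d => ⟨hJ f hf.1 d, hK f hf.2 d⟩

theorem isHomog_sup {J K : Ideal (MvPolynomial (Fin n) ℂ)} (hJ : IsHomog J) (hK : IsHomog K) :
    IsHomog (J ⊔ K) := by
  intro f hf d
  obtain ⟨f₁, hf₁, f₂, hf₂, rfl⟩ := Submodule.mem_sup.mp hf
  rw [map_add]
  exact Submodule.add_mem_sup (hJ f₁ hf₁ d) (hK f₂ hf₂ d)

/-- `(J ∩ K) + (h) = (J + (h)) ∩ (K + (h))` if `h` is a nonzerodivisor modulo `J + K`. -/
theorem inf_sup_span {J K : Ideal (MvPolynomial (Fin n) ℂ)} (h : MvPolynomial (Fin n) ℂ)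
    (hn : ∀ g, h * g ∈ J ⊔ K → g ∈ J ⊔ K) :
    (J ⊓ K) ⊔ Ideal.span {h} = (J ⊔ Ideal.span {h}) ⊓ (K ⊔ Ideal.span {h}) := by
  apply le_antisymm
  · exact le_inf (sup_le_sup_right inf_le_left _) (sup_le_sup_right inf_le_right _)
  · rintro x ⟨hx1, hx2⟩
    obtain ⟨j, hj, y, hy, e1⟩ := Submodule.mem_sup.mp hx1
    obtain ⟨k, hk, z, hz, e2⟩ := Submodule.mem_sup.mp hx2
    obtain ⟨a, rfl⟩ := Ideal.mem_span_singleton'.mp hy
    obtain ⟨b, rfl⟩ := Ideal.mem_span_singleton'.mp hz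
    have h1 : h * (b - a) ∈ J ⊔ K := by
      have h2 : h * (b - a) = j + -k := by linear_combination e2 - e1
      rw [h2]
      exact Submodule.add_mem_sup hj (K.neg_mem hk)
    obtain ⟨j', hj', k', hk', e3⟩ := Submodule.mem_sup.mp (hn _ h1)
    refine Submodule.mem_sup.mpr ⟨j - j' * h, ⟨J.sub_mem hj (J.mul_mem_right h hj'), ?_⟩,
      (a + j') * h, Ideal.mem_span_singleton'.mpr ⟨_, rfl⟩, ?_⟩
    · have h4 : j - j' * h = k + k' * h := by linear_combination e1 - e2 - h * e3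
      show j - j' * h ∈ K
      rw [h4]
      exact K.add_mem hk (K.mul_mem_right h hk')
    · linear_combination e1

end

end Pool.Agent.RegRed
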