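import Mathlib
import Pool.Agent.Lib.MP_724d4c_ag.Step
import Pool.Agent.Lib.MP_724d4c_ag.XLoc
import Pool.Agent.Lib.MP_724d4c_ag.XExt

/-! Row 724i-Van: `Van` with more variables than the covering. -/

set_option autoImplicit false

namespace Pool.Agent.RegRed

open MvPolynomial

noncomputable section

/-- `Van` for the ideal `J` of the ring in `N` variables and the covering indexed by `k` of them: the set `T` of
variables of the covering corresponds to the set `E T` of variables of the ring. -/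
def VanE {k N : ℕ} (E : Finset (Fin k) → Finset (Fin N)) (J : Ideal (MvPolynomial (Fin N) ℂ)) (p : ℕ)
    (d : ℤ) : Prop :=
  ∀ g : Finset (Fin k) → Lau N, (∀ T, T.card = p → g T ∈ Loc ⊤ (E T) d) →
    (∀ T, T.card = p + 1 → delta g T ∈ Loc J (E T) d) →
    ∃ h : Finset (Fin k) → Lau N, (∀ T, T.card + 1 = p → h T ∈ Loc ⊤ (E T) d) ∧
      ∀ T, T.card = p → g T - delta h T ∈ Loc J (E T) d

theorem vanE_id {N : ℕ} {J : Ideal (MvPolynomial (Fin N) ℂ)} {p : ℕ} {d : ℤ} :
    VanE id J p d ↔ Van J p d := Iff.rfl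

theorem imT_mono {k : ℕ} (M : ℕ) (T T' : Finset (Fin k)) (h : T ⊆ T') : imT M T ⊆ imT M T' := by
  unfold imT
  exact Finset.map_subset_map.mpr h

private theorem NVan_delta_mul {k N : ℕ} (x : Lau N) (a : Finset (Fin k) → Lau N)
    (T : Finset (Fin k)) : delta (fun T => x * a T) T = x * delta a T := by
  simp only [delta, Finset.mul_sum, mul_smul_comm]

/-- As `delta_mem`. -/
theorem deltaE_mem {k N : ℕ} {E : Finset (Fin k) → Finset (Fin N)} (hE : ∀ T T', T ⊆ T' → E T ⊆ E T')
    {J : Ideal (MvPolynomial (Fin N) ℂ)} {p : ℕ} {d : ℤ} (c : Finset (Fin k) → Lau N)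
    (hc : ∀ T, T.card = p → c T ∈ Loc J (E T) d) (T : Finset (Fin k)) (hT : T.card = p + 1) :
    delta c T ∈ Loc J (E T) d := by
  unfold delta
  refine Loc_sum _ _ fun i hi => Loc_smul _ (Loc_mono le_rfl (hE _ _ (Finset.erase_subset i T)) (hc _ ?_))
  rw [Finset.card_erase_of_mem hi, hT, Nat.add_sub_cancel]

/-- As `van_step` (same proof with `E T` for `T`). -/
theorem vanE_step {k N : ℕ} {E : Finset (Fin k) → Finset (Fin N)} (hE : ∀ T T', T ⊆ T' → E T ⊆ E T')
    {J : Ideal (MvPolynomial (Fin N) ℂ)} (hJ : IsHomog J) {f : MvPolynomial (Fin N) ℂ} {e : ℕ}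
    (hf : f.IsHomogeneous e) (hn : ∀ g, f * g ∈ J → g ∈ J) {p : ℕ} {d : ℤ}
    (h1 : VanE E J (p + 1) (d - e)) (h2 : VanE E J p d) : VanE E (J ⊔ Ideal.span {f}) p d := by
  intro g hg hδ
  have hdec : ∀ T : Finset (Fin k), ∃ a b : Lau N, T.card = p + 1 → a ∈ Loc J (E T) d ∧
      b ∈ Loc ⊤ (E T) (d - e) ∧ delta g T = a + incl N f * b := by
    intro T
    by_cases hT : T.card = p + 1
    · obtain ⟨a, ha, b, hb, hab⟩ := Loc_decomp hJ hf (hδ T hT)
      exact ⟨a, b, fun _ => ⟨ha, hb, hab⟩⟩
    · exact ⟨0, 0, fun h => absurd h hT⟩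
  choose a b hab using hdec
  have hde : d - (e : ℤ) + e = d := by ring
  have hb : ∀ T, T.card = p + 1 + 1 → delta b T ∈ Loc J (E T) (d - e) := by
    intro T hT
    have h3 : delta (delta g) T = 0 := delta_delta g T
    have h4 : delta (delta g) T = delta a T + incl N f * delta b T := by
      rw [ST_delta_congr (b := fun T => a T + incl N f * b T) (fun T hT => (hab T hT).2.2) hT,
        ST_delta_add, NVan_delta_mul]
    refine Loc_nzd (e := e) hn (deltaE_mem hE b (fun T hT => (hab T hT).2.1) T hT) ?_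
    rw [hde]
    have h5 : incl N f * delta b T = - delta a T := by
      rw [h4] at h3
      exact (neg_eq_of_add_eq_zero_right h3).symm
    rw [h5]
    exact Loc_neg (deltaE_mem hE a (fun T hT => (hab T hT).1) T hT)
  obtain ⟨h, h3, h4⟩ := h1 b (fun T hT => (hab T hT).2.1) hb
  have hmem : ∀ T, T.card = p → incl N f * h T ∈ Loc ⊤ (E T) d := by
    intro T hT
    have := Loc_mul hf (h3 T (by rw [hT]))
    rwa [hde] at this
  obtain ⟨k, hk1, hk2⟩ := h2 (fun T => g T - incl N f * h T)
    (fun T hT => Loc_sub (hg T hT) (hmem T hT)) (by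
      intro T hT
      rw [ST_delta_sub, NVan_delta_mul, (hab T hT).2.2]
      have h5 : a T + incl N f * b T - incl N f * delta h T =
          a T + incl N f * (b T - delta h T) := by ring
      rw [h5]
      refine Loc_add (hab T hT).1 ?_
      have := Loc_mul hf (h4 T hT)
      rwa [hde] at this)
  refine ⟨k, hk1, fun T hT => ?_⟩
  have h5 : g T - delta k T = (g T - incl N f * h T - delta k T) + incl N f * h T := by ring
  rw [h5]
  refine Loc_add (Loc_mono le_sup_left (Finset.Subset.refl (E T)) (hk2 T hT))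
    (Loc_mono le_sup_right (Finset.Subset.refl (E T)) ?_)
  have := Loc_mul_self hf (h3 T (by rw [hT]))
  rwa [hde] at this

end

end Pool.Agent.RegRed
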