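import Mathlib
import Pool.Agent.Lib.MP_724d4c_ag.NVan

/-! Row 724i-Em: the polynomial ring `S[t]`, `S = ℂ[z_1, …, z_k]`. -/

set_option autoImplicit false

namespace Pool.Agent.RegRed

open MvPolynomial

noncomputable section

/-- the inclusion `S → S[t]` -/
def em (k : ℕ) : MvPolynomial (Fin k) ℂ →ₐ[ℂ] MvPolynomial (Fin (k + 1)) ℂ := rename (Fin.castAdd 1)

/-- the variable `t` -/
def tt (k : ℕ) : MvPolynomial (Fin (k + 1)) ℂ := X (Fin.natAdd k (0 : Fin 1))

/-- the inclusion of the Laurent polynomials -/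
def iL (k : ℕ) (F : Lau k) : Lau (k + 1) := liU (0 : Fin 1 → ℤ) F

variable {k : ℕ}

theorem em_injective : Function.Injective (em k) := by
  exact rename_injective _ (Fin.castAdd_injective k 1)

theorem em_hom {f : MvPolynomial (Fin k) ℂ} {D : ℕ} : (em k f).IsHomogeneous D ↔ f.IsHomogeneous D := by
  exact IsHomogeneous.rename_isHomogeneous_iff (Fin.castAdd_injective k 1)

theorem em_hc (f : MvPolynomial (Fin k) ℂ) (D : ℕ) :
    homogeneousComponent D (em k f) = em k (homogeneousComponent D f) := by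
  exact (rename_homogeneousComponent D f).symm

theorem tt_hom : (tt k).IsHomogeneous 1 := by
  exact isHomogeneous_X ℂ _

/-- From `incl_rename`. -/
theorem incl_em (f : MvPolynomial (Fin k) ℂ) : incl (k + 1) (em k f) = iL k (incl k f) := by
  exact incl_rename f

theorem iL_add (F G : Lau k) : iL k (F + G) = iL k F + iL k G := by
  exact liU_add 0 F G

theorem iL_sub (F G : Lau k) : iL k (F - G) = iL k F - iL k G := by
  have h : ∀ (j : ℕ) (A B : Lau j), A - B = A + (-1 : ℂ) • B := by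
    intro j A B
    rw [neg_one_smul, sub_eq_add_neg]
  rw [h, h, iL_add]
  congr 1
  exact liU_smul 0 (-1) G

theorem iL_mul (F G : Lau k) : iL k (F * G) = iL k F * iL k G := by
  exact liU_mul 0 F G

theorem iL_injective : Function.Injective (iL k) := by
  intro F G h
  have h1 : exU (0 : Fin 1 → ℤ) (liU 0 F) = exU 0 (liU 0 G) := congrArg (exU (0 : Fin 1 → ℤ)) h
  rwa [exU_liU, exU_liU] at h1

/-- From `liU_delta`. -/
theorem iL_delta (c : Finset (Fin k) → Lau k) (T : Finset (Fin k)) :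
    iL k (delta c T) = delta (fun T' => iL k (c T')) T := by
  exact liU_delta 0 c T

private theorem NEm_mem_imT {T : Finset (Fin k)} {i : Fin k} :
    Fin.castAdd 1 i ∈ imT 1 T ↔ i ∈ T := by
  simp only [imT, Finset.mem_map, Fin.castAddEmb_apply]
  constructor
  · rintro ⟨a, ha, h⟩
    rwa [← Fin.castAdd_injective k 1 h]
  · intro h
    exact ⟨i, h, rfl⟩

private theorem NEm_notMem_imT {T : Finset (Fin k)} {i : Fin 1} : Fin.natAdd k i ∉ imT 1 T := by
  simp only [imT, Finset.mem_map, Fin.castAddEmb_apply]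
  rintro ⟨a, ha, h⟩
  have h1 := congrArg Fin.val h
  simp only [Fin.val_castAdd, Fin.val_natAdd] at h1
  have := a.2
  omega

private theorem NEm_LA_ex_imT (T : Finset (Fin k)) (N : ℕ) :
    LA_ex (imT 1 T) N = (Fin.append (LA_ex T N) (0 : Fin 1 → ℤ) : Fin (k + 1) → ℤ) := by
  funext i
  refine Fin.addCases (fun i => ?_) (fun i => ?_) i
  · rw [Fin.append_left]
    simp only [LA_ex, NEm_mem_imT]
  · rw [Fin.append_right]
    simp only [LA_ex, NEm_notMem_imT, if_false, Pi.zero_apply]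

/-- `mono (LA_ex (imT 1 T) N) = iL (mono (LA_ex T N))` (`LA_ex_imT`). -/
theorem mono_imT (T : Finset (Fin k)) (N : ℕ) :
    (mono (LA_ex (imT 1 T) N) : Lau (k + 1)) = iL k (mono (LA_ex T N)) := by
  rw [NEm_LA_ex_imT]
  exact (XEb_liU_single 0 (LA_ex T N) 1).symm

/-- For `→` use `exU 0` and `exU_incl`. -/
theorem iL_Loc {J : Ideal (MvPolynomial (Fin (k + 1)) ℂ)} {T : Finset (Fin k)} {d : ℤ} {x : Lau k} :
    iL k x ∈ Loc J (imT 1 T) d ↔ x ∈ Loc (J.comap (em k)) T d := by
  constructor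
  · intro h
    obtain ⟨h1, N, g, hg, h2⟩ := LA_mem.mp h
    refine LA_mem.mpr ⟨fun a ha => ?_, N, ?_⟩
    · have h3 := h1 (Fin.append a (0 : Fin 1 → ℤ)) (by
        rw [show (iL k x).coeff (Fin.append a (0 : Fin 1 → ℤ)) = x.coeff a from liU_coeff 0 x a]
        exact ha)
      rw [append_sum] at h3
      simpa using h3
    · rw [mono_imT, ← iL_mul] at h2
      obtain ⟨G, hG⟩ := exU_incl (0 : Fin 1 → ℤ) g
      have h3 : mono (LA_ex T N) * x = incl k G := by
        rw [← hG, ← h2]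
        exact (exU_liU 0 _).symm
      refine ⟨G, ?_, h3⟩
      have h4 : g = em k G := by
        apply incl_injective
        rw [incl_em, ← h3, h2]
      rw [Ideal.mem_comap, ← h4]
      exact hg
  · intro h
    obtain ⟨h1, N, g, hg, h2⟩ := LA_mem.mp h
    refine LA_mem.mpr ⟨fun e he => ?_, N, em k g, hg, ?_⟩
    · obtain ⟨a, ha, rfl⟩ := liU_supp (0 : Fin 1 → ℤ) x e he
      rw [append_sum, h1 a ha]
      simp
    · rw [mono_imT, ← iL_mul, h2, incl_em]

theorem iL_Loc_top {T : Finset (Fin k)} {d : ℤ} {x : Lau k} (h : x ∈ Loc ⊤ T d) :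
    iL k x ∈ Loc ⊤ (imT 1 T) d := by
  rw [iL_Loc, Ideal.comap_top]
  exact h

/-- The comap of a homogeneous ideal is homogeneous (`em_hc`). -/
theorem comap_hom {J : Ideal (MvPolynomial (Fin (k + 1)) ℂ)} (hJ : IsHomog J) :
    IsHomog (J.comap (em k)) := by
  intro f hf D
  rw [Ideal.mem_comap] at hf ⊢
  rw [← em_hc]
  exact hJ _ hf D

/-- A congruence of polynomials of the right degree gives a congruence in the localization: if `x` of degree `d`
over `T` has `x_T^N x = q`, and `q - em z ∈ J` for some `z ∈ K`, then `x - y ∈ J` for some `y` in `K`. Take the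
component of `z` of the degree of `q` (`Loc_of_homog`, as in `Loc_sup`). -/
theorem Loc_lift {J : Ideal (MvPolynomial (Fin (k + 1)) ℂ)} (hJ : IsHomog J)
    {K : Ideal (MvPolynomial (Fin k) ℂ)} (hK : IsHomog K) {L : Ideal (MvPolynomial (Fin (k + 1)) ℂ)}
    (h : ∀ q ∈ L, ∃ z ∈ K, q - em k z ∈ J) {T : Finset (Fin k)} {d : ℤ} {x : Lau (k + 1)}
    (hx : x ∈ Loc L (imT 1 T) d) : ∃ y ∈ Loc K T d, x - iL k y ∈ Loc J (imT 1 T) d := by
  obtain ⟨hdeg, N, q, hq, hqx⟩ := hx
  set m : Fin (k + 1) → ℤ := fun i => if i ∈ imT 1 T then (N : ℤ) else 0 with hm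
  have hqdeg := degree_of_incl hdeg hqx
  by_cases hq0 : q = 0
  · refine ⟨0, Loc_zero K T d, ?_⟩
    have h1 : x = 0 := by
      apply mono_mul_cancel m
      rw [hqx, hq0, map_zero, mul_zero]
    have h2 : iL k 0 = 0 := liU_zero 0
    rw [h1, h2, sub_zero]
    exact Loc_zero _ _ _
  obtain ⟨D, hD⟩ : ∃ D : ℕ, (D : ℤ) = d + ∑ i, m i := by
    obtain ⟨e₀, he₀⟩ := MvPolynomial.support_nonempty.mpr hq0
    refine ⟨∑ i, e₀ i, ?_⟩
    rw [← hqdeg e₀ he₀]
    push_cast
    rfl
  have hqhom : q.IsHomogeneous D := by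
    intro e' he'
    rw [weight_one_sum]
    have h1 := hqdeg e' (MvPolynomial.mem_support_iff.mpr he')
    rw [← hD] at h1
    exact_mod_cast h1
  have hqc : homogeneousComponent D q = q := by
    have h3 : q ∈ homogeneousSubmodule (Fin (k + 1)) ℂ D := (mem_homogeneousSubmodule _ _).mpr hqhom
    rw [homogeneousComponent_of_mem h3, if_pos rfl]
  obtain ⟨z, hz, hzJ⟩ := h q hq
  have hsum : ∑ i, m i = ∑ i : Fin k, (if i ∈ T then (N : ℤ) else 0) := by
    have h1 : m = Fin.append (LA_ex T N) (0 : Fin 1 → ℤ) := NEm_LA_ex_imT T N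
    rw [h1, append_sum]
    simp [LA_ex]
  have hD' : (D : ℤ) = d + ∑ i : Fin k, (if i ∈ T then (N : ℤ) else 0) := by rw [hD, hsum]
  obtain ⟨hb, hb'⟩ := Loc_of_homog (J := K) (T := T) (d := d) (N := N)
    (homogeneousComponent_isHomogeneous D z) (hK z hz D) hD'
  set y : Lau k := mono (fun i => -(if i ∈ T then (N : ℤ) else 0)) *
    incl k (homogeneousComponent D z) with hy
  have hr : q - em k (homogeneousComponent D z) ∈ J := by
    have h1 := hJ _ hzJ D
    rwa [map_sub, hqc, em_hc] at h1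
  have hrh : (q - em k (homogeneousComponent D z)).IsHomogeneous D :=
    hqhom.sub (em_hom.mpr (homogeneousComponent_isHomogeneous D z))
  obtain ⟨hc, hc'⟩ := Loc_of_homog (J := J) (T := imT 1 T) (d := d) (N := N) hrh hr hD
  refine ⟨y, hb, ?_⟩
  have h5 : x - iL k y = mono (fun i => -(if i ∈ imT 1 T then (N : ℤ) else 0)) *
      incl (k + 1) (q - em k (homogeneousComponent D z)) := by
    apply mono_mul_cancel m
    have h6 : mono m * iL k y = incl (k + 1) (em k (homogeneousComponent D z)) := by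
      have h7 : (mono m : Lau (k + 1)) = iL k (mono (LA_ex T N)) := mono_imT T N
      rw [h7, ← iL_mul, incl_em]
      congr 1
    rw [mul_sub, hqx, h6, hc', map_sub]
  rw [h5]
  exact hc

end

end Pool.Agent.RegRed
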