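import Mathlib
import Pool.Agent.Lib.MP_724d4c_ag.NEm

/-! Row 724i-Div: division by `t² - c`. -/

set_option autoImplicit false

namespace Pool.Agent.RegRed

open MvPolynomial

noncomputable section

variable {k : ℕ}

/-- Induction on `q` (`MvPolynomial.induction_on`). -/
theorem div_tt (c : MvPolynomial (Fin k) ℂ) (q : MvPolynomial (Fin (k + 1)) ℂ) :
    ∃ q0 q1 : MvPolynomial (Fin k) ℂ,
      q - (em k q0 + tt k * em k q1) ∈ Ideal.span {tt k ^ 2 - em k c} := by
  set I := Ideal.span {tt k ^ 2 - em k c} with hI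
  have hg : tt k ^ 2 - em k c ∈ I := Ideal.subset_span rfl
  induction q using MvPolynomial.induction_on with
  | C z =>
    refine ⟨C z, 0, ?_⟩
    rw [show em k (C z) = C z from by simp [em], map_zero, mul_zero, add_zero, sub_self]
    exact I.zero_mem
  | add p q hp hq =>
    obtain ⟨p0, p1, hp⟩ := hp
    obtain ⟨q0, q1, hq⟩ := hq
    refine ⟨p0 + q0, p1 + q1, ?_⟩
    have e : p + q - (em k (p0 + q0) + tt k * em k (p1 + q1)) =
        (p - (em k p0 + tt k * em k p1)) + (q - (em k q0 + tt k * em k q1)) := by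
      rw [map_add, map_add]
      ring
    rw [e]
    exact I.add_mem hp hq
  | mul_X p s hp =>
    obtain ⟨p0, p1, hp⟩ := hp
    refine Fin.addCases (fun i => ?_) (fun i => ?_) s
    · refine ⟨p0 * X i, p1 * X i, ?_⟩
      have e : p * X (Fin.castAdd 1 i) - (em k (p0 * X i) + tt k * em k (p1 * X i)) =
          X (Fin.castAdd 1 i) * (p - (em k p0 + tt k * em k p1)) := by
        rw [map_mul, map_mul, show em k (X i) = X (Fin.castAdd 1 i) from by simp [em]]
        ring
      rw [e]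
      exact I.mul_mem_left _ hp
    · have hi : i = 0 := Subsingleton.elim _ _
      subst hi
      refine ⟨c * p1, p0, ?_⟩
      have e : p * X (Fin.natAdd k 0) - (em k (c * p1) + tt k * em k p0) =
          tt k * (p - (em k p0 + tt k * em k p1)) + em k p1 * (tt k ^ 2 - em k c) := by
        rw [map_mul]
        show p * tt k - _ = _
        ring
      rw [e]
      exact I.add_mem (I.mul_mem_left _ hp) (I.mul_mem_left _ hg)

/-- polynomials in `t` -/
private def NDiv_psi (k : ℕ) :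
    MvPolynomial (Fin (k + 1)) ℂ →ₐ[ℂ] Polynomial (MvPolynomial (Fin k) ℂ) :=
  aeval (Fin.addCases (motive := fun _ => Polynomial (MvPolynomial (Fin k) ℂ))
    (fun i => Polynomial.C (X i)) (fun _ : Fin 1 => Polynomial.X))

private theorem NDiv_psi_tt : NDiv_psi k (tt k) = Polynomial.X := by
  unfold NDiv_psi tt
  rw [aeval_X]
  exact Fin.addCases_right _

private theorem NDiv_psi_em (f : MvPolynomial (Fin k) ℂ) :
    NDiv_psi k (em k f) = Polynomial.C f := by
  have h : ((NDiv_psi k).comp (em k) : MvPolynomial (Fin k) ℂ →ₐ[ℂ] Polynomial (MvPolynomial (Fin k) ℂ)) =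
      (Polynomial.CAlgHom : MvPolynomial (Fin k) ℂ →ₐ[MvPolynomial (Fin k) ℂ] _).restrictScalars ℂ := by
    apply MvPolynomial.algHom_ext
    intro i
    show NDiv_psi k (em k (X i)) = Polynomial.C (X i)
    rw [show em k (X i) = X (Fin.castAdd 1 i) from by simp [em]]
    unfold NDiv_psi
    rw [aeval_X]
    exact Fin.addCases_left _
  exact congrArg (fun φ => φ f) h

/-- The degree in `t` of a nonzero multiple of `t² - c` is at least `2`. -/
theorem div_tt_unique {c q0 q1 : MvPolynomial (Fin k) ℂ}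
    (h : em k q0 + tt k * em k q1 ∈ Ideal.span {tt k ^ 2 - em k c}) : q0 = 0 ∧ q1 = 0 := by
  obtain ⟨r, hr⟩ := Ideal.mem_span_singleton'.mp h
  have h1 : (Polynomial.X ^ 2 - Polynomial.C c) ∣
      (Polynomial.C q0 + Polynomial.X * Polynomial.C q1) := by
    refine ⟨NDiv_psi k r, ?_⟩
    have h2 := congrArg (NDiv_psi k) hr
    rw [map_mul, map_sub, map_pow, map_add, map_mul, NDiv_psi_tt, NDiv_psi_em, NDiv_psi_em,
      NDiv_psi_em] at h2
    rw [← h2, mul_comm]
  have h3 : (Polynomial.C q0 + Polynomial.X * Polynomial.C q1) = 0 := by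
    refine Polynomial.eq_zero_of_dvd_of_degree_lt h1 ?_
    rw [Polynomial.degree_X_pow_sub_C (by norm_num)]
    refine lt_of_le_of_lt (Polynomial.degree_add_le _ _) (max_lt ?_ ?_)
    · exact lt_of_le_of_lt Polynomial.degree_C_le (by norm_num)
    · rw [mul_comm]
      exact lt_of_le_of_lt (Polynomial.degree_C_mul_X_le _) (by norm_num)
  constructor
  · have := congrArg (fun p => p.coeff 0) h3
    simpa using this
  · have := congrArg (fun p => p.coeff 1) h3
    simpa using this

theorem span_tt_hom {c : MvPolynomial (Fin k) ℂ} (hc : c.IsHomogeneous 2) :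
    IsHomog (Ideal.span {tt k ^ 2 - em k c}) := by
  apply isHomog_span
  rintro f hf
  rw [Set.mem_singleton_iff] at hf
  subst hf
  refine ⟨2, ?_⟩
  have h1 := (tt_hom (k := k)).pow 2
  rw [one_mul] at h1
  exact h1.sub (em_hom.2 hc)

private theorem NDiv_iL_zero : iL k (0 : Lau k) = 0 := by
  have := iL_sub (0 : Lau k) 0
  rwa [sub_zero, sub_self] at this

private theorem NDiv_tt_mem {T : Finset (Fin k)} {d : ℤ} {x : Lau k} (hx : x ∈ Loc ⊤ T (d - 1)) :
    incl (k + 1) (tt k) * iL k x ∈ Loc ⊤ (imT 1 T) d := by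
  have h := Loc_mul (tt_hom (k := k)) (iL_Loc_top hx)
  have e : d - 1 + ((1 : ℕ) : ℤ) = d := by push_cast; ring
  rwa [e] at h

private theorem NDiv_hc_self {N D : ℕ} {f : MvPolynomial (Fin N) ℂ} (h : f.IsHomogeneous D) :
    homogeneousComponent D f = f := by
  have h3 : f ∈ homogeneousSubmodule (Fin N) ℂ D := (mem_homogeneousSubmodule _ _).mpr h
  rw [homogeneousComponent_of_mem h3, if_pos rfl]

private theorem NDiv_hc_ne {N D D' : ℕ} {f : MvPolynomial (Fin N) ℂ} (h : f.IsHomogeneous D)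
    (hD : D' ≠ D) : homogeneousComponent D' f = 0 := by
  have h3 : f ∈ homogeneousSubmodule (Fin N) ℂ D := (mem_homogeneousSubmodule _ _).mpr h
  rw [homogeneousComponent_of_mem h3, if_neg hD]

/-- the component of degree `D` of `t f` -/
private theorem NDiv_hc_tt (D : ℕ) (f : MvPolynomial (Fin k) ℂ) :
    homogeneousComponent (D + 1) (tt k * em k f) = tt k * em k (homogeneousComponent D f) := by
  conv_lhs => rw [← sum_homogeneousComponent f]
  rw [map_sum, Finset.mul_sum, map_sum]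
  have h1 : ∀ i ∈ Finset.range (f.totalDegree + 1),
      homogeneousComponent (D + 1) (tt k * em k (homogeneousComponent i f)) =
        if D = i then tt k * em k (homogeneousComponent D f) else 0 := by
    intro i _
    have h2 : (tt k * em k (homogeneousComponent i f)).IsHomogeneous (i + 1) := by
      have := (tt_hom (k := k)).mul (em_hom.2 (homogeneousComponent_isHomogeneous i f))
      rwa [add_comm 1 i] at this
    by_cases h : D = i
    · subst h
      rw [if_pos rfl, NDiv_hc_self h2]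
    · rw [if_neg h, NDiv_hc_ne h2 (by omega)]
  rw [Finset.sum_congr rfl h1, Finset.sum_ite_eq]
  by_cases h : D ∈ Finset.range (f.totalDegree + 1)
  · rw [if_pos h]
  · rw [if_neg h]
    rw [Finset.mem_range, not_lt] at h
    rw [homogeneousComponent_eq_zero D f (by omega), map_zero, mul_zero]

private theorem NDiv_hc_tt_zero (f : MvPolynomial (Fin k) ℂ) :
    homogeneousComponent 0 (tt k * em k f) = 0 := by
  conv_lhs => rw [← sum_homogeneousComponent f]
  rw [map_sum, Finset.mul_sum, map_sum]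
  refine Finset.sum_eq_zero fun i _ => ?_
  have h2 : (tt k * em k (homogeneousComponent i f)).IsHomogeneous (1 + i) :=
    (tt_hom (k := k)).mul (em_hom.2 (homogeneousComponent_isHomogeneous i f))
  exact NDiv_hc_ne h2 (by omega)

/-- Localized: `F = a + t b` modulo `t² - c`. -/
theorem base_decomp {c : MvPolynomial (Fin k) ℂ} (hc : c.IsHomogeneous 2) {T : Finset (Fin k)} {d : ℤ}
    {F : Lau (k + 1)} (hF : F ∈ Loc ⊤ (imT 1 T) d) :
    ∃ a ∈ Loc ⊤ T d, ∃ b ∈ Loc ⊤ T (d - 1),
      F - (iL k a + incl (k + 1) (tt k) * iL k b) ∈ Loc (Ideal.span {tt k ^ 2 - em k c}) (imT 1 T) d := by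
  have hF' := hF
  obtain ⟨hdeg, N, q, -, hq⟩ := LA_mem.mp hF
  have hdeg' : ∀ e ∈ F.coeff.support, ∑ i, e i = d := fun e he => hdeg e (Finsupp.mem_support_iff.mp he)
  have hqdeg := degree_of_incl hdeg' hq
  by_cases hq0 : q = 0
  · have hF0 : F = 0 := by
      apply mono_mul_cancel (LA_ex (imT 1 T) N)
      rw [hq, hq0, map_zero, mul_zero]
    refine ⟨0, Loc_zero _ _ _, 0, Loc_zero _ _ _, ?_⟩
    rw [hF0, NDiv_iL_zero, mul_zero, add_zero, sub_zero]
    exact Loc_zero _ _ _
  -- the degree of `q`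
  have hsum : ∑ i, LA_ex (imT 1 T) N i = ∑ i, (if i ∈ T then (N : ℤ) else 0) := by
    have h1 : ∀ (m : ℕ) (T' : Finset (Fin m)), ∑ i, LA_ex T' N i = T'.card * (N : ℤ) := by
      intro m T'
      unfold LA_ex
      rw [Finset.sum_ite_mem, Finset.univ_inter, Finset.sum_const, nsmul_eq_mul]
    have h2 := h1 (k + 1) (imT 1 T)
    rw [imT_card, ← h1 k T] at h2
    exact h2
  obtain ⟨D, hD⟩ : ∃ D : ℕ, (D : ℤ) = d + ∑ i, LA_ex (imT 1 T) N i := by
    obtain ⟨e₀, he₀⟩ := MvPolynomial.support_nonempty.mpr hq0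
    refine ⟨∑ i, e₀ i, ?_⟩
    rw [← hqdeg e₀ he₀]
    push_cast
    rfl
  have hqhom : q.IsHomogeneous D := by
    intro e' he'
    rw [weight_one_sum]
    have h1 := hqdeg e' (MvPolynomial.mem_support_iff.mpr he')
    rw [← hD] at h1
    exact_mod_cast h1
  rw [hsum] at hD
  obtain ⟨q0, q1, hq01⟩ := div_tt c q
  have h1 := span_tt_hom hc _ hq01 D
  rw [map_sub, map_add, NDiv_hc_self hqhom, em_hc] at h1
  obtain ⟨ha, ha'⟩ := Loc_of_homog (J := ⊤) (T := T) (d := d) (N := N)
    (homogeneousComponent_isHomogeneous D q0) Submodule.mem_top hD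
  set a : Lau k := mono (fun i => -(if i ∈ T then (N : ℤ) else 0)) *
    incl k (homogeneousComponent D q0) with ha_def
  have ha'' : mono (LA_ex T N) * a = incl k (homogeneousComponent D q0) := ha'
  rcases Nat.eq_zero_or_pos D with hD0 | hD0
  · subst hD0
    rw [NDiv_hc_tt_zero, add_zero] at h1
    refine ⟨a, ha, 0, Loc_zero _ _ _, LA_mem.mpr ⟨?_, N, _, h1, ?_⟩⟩
    · rw [NDiv_iL_zero, mul_zero, add_zero]
      exact (LA_mem.mp (Loc_sub hF' (iL_Loc_top ha))).1
    · rw [NDiv_iL_zero, mul_zero, add_zero, mul_sub, hq, mono_imT, ← iL_mul, ha'', map_sub, incl_em]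
  · obtain ⟨D', rfl⟩ : ∃ D', D = D' + 1 := ⟨D - 1, by omega⟩
    rw [NDiv_hc_tt] at h1
    have hD2 : (D' : ℤ) = (d - 1) + ∑ i, (if i ∈ T then (N : ℤ) else 0) := by
      push_cast at hD
      linarith
    obtain ⟨hb, hb'⟩ := Loc_of_homog (J := ⊤) (T := T) (d := d - 1) (N := N)
      (homogeneousComponent_isHomogeneous D' q1) Submodule.mem_top hD2
    set b : Lau k := mono (fun i => -(if i ∈ T then (N : ℤ) else 0)) *
      incl k (homogeneousComponent D' q1) with hb_def
    have hb'' : mono (LA_ex T N) * b = incl k (homogeneousComponent D' q1) := hb'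
    refine ⟨a, ha, b, hb, LA_mem.mpr ⟨?_, N, _, h1, ?_⟩⟩
    · exact (LA_mem.mp (Loc_sub hF' (Loc_add (iL_Loc_top ha) (NDiv_tt_mem hb)))).1
    · rw [mul_sub, hq, mono_imT, mul_add, mul_left_comm (iL k _) (incl (k + 1) (tt k)), ← iL_mul,
        ← iL_mul, ha'', hb'', map_sub, map_add, map_mul, incl_em, incl_em]

theorem base_unique {c : MvPolynomial (Fin k) ℂ} {T : Finset (Fin k)} {d : ℤ}
    {a b : Lau k} (ha : a ∈ Loc ⊤ T d) (hb : b ∈ Loc ⊤ T (d - 1))
    (h : iL k a + incl (k + 1) (tt k) * iL k b ∈ Loc (Ideal.span {tt k ^ 2 - em k c}) (imT 1 T) d) :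
    a = 0 ∧ b = 0 := by
  obtain ⟨-, N1, h1⟩ := LA_mem.mp ha
  obtain ⟨-, N2, h2⟩ := LA_mem.mp hb
  obtain ⟨-, N3, h3⟩ := LA_mem.mp h
  obtain ⟨f, -, hf⟩ := LA_up (N2 + N3) h1
  obtain ⟨g, -, hg⟩ := LA_up (N1 + N3) h2
  obtain ⟨q, hq, hq'⟩ := LA_up (N1 + N2) h3
  have e1 : N2 + N3 + N1 = N1 + N2 + N3 := by ring
  have e2 : N1 + N3 + N2 = N1 + N2 + N3 := by ring
  rw [e1] at hf
  rw [e2] at hg
  have e3 : em k f + tt k * em k g = q := by
    apply incl_injective
    rw [← hq', mono_imT, mul_add, mul_left_comm (iL k _) (incl (k + 1) (tt k)), ← iL_mul, ← iL_mul,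
      hf, hg, map_add, map_mul, incl_em, incl_em]
  rw [← e3] at hq
  obtain ⟨hf0, hg0⟩ := div_tt_unique hq
  constructor
  · apply mono_mul_cancel (LA_ex T (N1 + N2 + N3))
    rw [hf, hf0, map_zero, mul_zero]
  · apply mono_mul_cancel (LA_ex T (N1 + N2 + N3))
    rw [hg, hg0, map_zero, mul_zero]

end

end Pool.Agent.RegRed
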