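import Mathlib
import Pool.Agent.Lib.MP_724d4c_ag.Step

/-! Row 724x-VA: `Van` in all cohomological degrees, and regularity. -/

set_option autoImplicit false

namespace Pool.Agent.RegRed

open MvPolynomial

noncomputable section

variable {n : ℕ}

theorem VA_delta_singleton (g : Finset (Fin n) → Lau n) (v : Fin n) : delta g {v} = g ∅ := by
  have h1 : ({v} : Finset (Fin n)).erase v = ∅ := by simp
  have h2 : sgn v ({v} : Finset (Fin n)) = 1 := by
    unfold sgn
    simp [Finset.filter_singleton]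
  unfold delta
  rw [Finset.sum_singleton, h1, h2, one_smul]

/-- `delta g {v} = g ∅`, and `Loc_bot`. Needs one variable. For `p ≥ 1` this is `van_bot`. -/
theorem van_bot' (hn : 1 ≤ n) {p : ℕ} {d : ℤ} (hd : 1 ≤ p + d) :
    Van (⊥ : Ideal (MvPolynomial (Fin n) ℂ)) p d := by
  rcases Nat.eq_zero_or_pos p with hp | hp
  · subst hp
    intro g _ hδ
    have h1 : g ∅ = 0 := by
      rw [← VA_delta_singleton g ⟨0, hn⟩]
      exact Loc_bot (hδ _ (by simp))
    refine ⟨fun _ => 0, fun T hT => absurd hT (by omega), fun T hT => ?_⟩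
    rw [Finset.card_eq_zero] at hT
    subst hT
    have h2 : delta (fun _ => (0 : Lau n)) (∅ : Finset (Fin n)) = 0 := by simp [delta]
    rw [h1, h2, sub_zero]
    exact Loc_zero _ _ _
  · exact van_bot hp hd

/-- Proof: `δ g` is a `p`-cocycle of `J`, so `δ g = δ b` with `b` in `J`; `g - b = δ h` by `serre` (if `p = n` then
`n + (m - p) = m > 0`). -/
theorem van_of_isReg {J : Ideal (MvPolynomial (Fin n) ℂ)} {m : ℤ} (hm : 1 ≤ m) (h : IsReg J m)
    {p : ℕ} (hp : 1 ≤ p) : Van J p (m - p) := by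
  intro g hg hδ
  obtain ⟨b, hb, hb2⟩ := h p hp (delta g) hδ (fun T _ => delta_delta g T)
  obtain ⟨k, hk1, hk2⟩ := serre hp (d := m - p) (fun e => by rw [← e]; linarith)
    (fun T => g T - b T)
    (fun T hT => Loc_sub (hg T hT) (Loc_mono le_top (Finset.Subset.refl T) (hb T hT)))
    (fun T hT => by rw [ST_delta_sub, hb2 T hT, sub_self])
  refine ⟨k, hk1, fun T hT => ?_⟩
  rw [hk2 T hT, sub_sub_cancel]
  exact hb T hT

/-- Same proof as `isReg_of_van`. -/
theorem isReg_of_van_all {J : Ideal (MvPolynomial (Fin n) ℂ)} {q : ℤ} (hq : 0 ≤ q)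
    (h : ∀ p : ℕ, 1 ≤ p → Van J p (q - p)) : IsReg J q := by
  intro i hi c hc hδ
  obtain ⟨k, h1, h2⟩ := serre (p := i + 1) (d := q - i) (by omega)
    (fun e => by rw [← e]; push_cast; linarith) c
    (fun T hT => Loc_mono le_top (Finset.Subset.refl T) (hc T hT)) hδ
  obtain ⟨h', h3, h4⟩ := h i hi k
    (fun T hT => h1 T (by rw [hT])) (fun T hT => by rw [h2 T hT]; exact hc T hT)
  refine ⟨fun T => k T - delta h' T, fun T hT => h4 T hT, fun T hT => ?_⟩
  rw [ST_delta_sub, delta_delta, sub_zero, h2 T hT]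

/-- `Van J 0 q` for `q : ℕ` says that `J` is saturated in degree `q`. Take `g ∅ = incl n p`. -/
theorem sat_of_van {J : Ideal (MvPolynomial (Fin n) ℂ)} {q : ℕ} (h : Van J 0 (q : ℤ))
    (p : MvPolynomial (Fin n) ℂ) (hp : p.IsHomogeneous q)
    (hs : ∀ v, ∃ N : ℕ, X v ^ N * p ∈ J) : p ∈ J := by
  have hdeg : ∀ e, (incl n p).coeff e ≠ 0 → ∑ i, e i = (q : ℤ) := by
    intro e he
    obtain ⟨e', he', rfl⟩ := incl_support p e he
    exact degree_of_support hp e' he'
  have hm0 : ∀ T : Finset (Fin n), mono (LA_ex T 0) * incl n p = incl n p := by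
    intro T
    have h0 : LA_ex T 0 = 0 := by
      funext i
      simp [LA_ex]
    rw [h0, LA_mono_zero, one_mul]
  obtain ⟨k, _, h2⟩ := h (fun _ => incl n p)
    (fun T _ => LA_mem.mpr ⟨hdeg, 0, p, Submodule.mem_top, hm0 T⟩) (by
      intro T hT
      rw [zero_add, Finset.card_eq_one] at hT
      obtain ⟨v, rfl⟩ := hT
      rw [VA_delta_singleton]
      obtain ⟨N, hN⟩ := hs v
      refine LA_mem.mpr ⟨hdeg, N, _, hN, ?_⟩
      have h1 : LA_ex ({v} : Finset (Fin n)) N = N • (Pi.single v 1 : Fin n → ℤ) := by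
        funext i
        by_cases hi : i = v
        · subst hi
          simp [LA_ex]
        · simp [LA_ex, hi]
      rw [h1, ← LA_mono_nsmul, map_mul, map_pow]
      congr 2
      simp [incl])
  have h3 := h2 ∅ (by simp)
  have h4 : delta k (∅ : Finset (Fin n)) = 0 := by simp [delta]
  rw [h4, sub_zero] at h3
  obtain ⟨_, N, g, hg, h5⟩ := LA_mem.mp h3
  have h6 : LA_ex (∅ : Finset (Fin n)) N = 0 := by
    funext i
    simp [LA_ex]
  rw [h6, LA_mono_zero, one_mul] at h5
  rw [incl_injective h5]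
  exact hg

end

end Pool.Agent.RegRed
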