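import Mathlib
import Pool.Agent.Lib.MP_724d4c_ag.NDiv
import Pool.Agent.Lib.MP_724d4c_ag.XVan

/-! Row 724i-Base: the vanishing for `S[t]/(t² - c) = S ⊕ S t`. -/

set_option autoImplicit false

namespace Pool.Agent.RegRed

open MvPolynomial

noncomputable section

variable {k : ℕ}

private theorem NBase_mul {M : ℕ} (x : Lau M) (a : Finset (Fin k) → Lau M) (T : Finset (Fin k)) :
    delta (fun T => x * a T) T = x * delta a T := by
  simp only [delta, Finset.mul_sum, mul_smul_comm]

private theorem NBase_add {M : ℕ} (a b : Finset (Fin k) → Lau M) (T : Finset (Fin k)) :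
    delta (fun T => a T + b T) T = delta a T + delta b T := by
  simp only [delta, smul_add, Finset.sum_add_distrib]

private theorem NBase_sub {M : ℕ} (a b : Finset (Fin k) → Lau M) (T : Finset (Fin k)) :
    delta (fun T => a T - b T) T = delta a T - delta b T := by
  simp only [delta, smul_sub, Finset.sum_sub_distrib]

private theorem NBase_delta (a b : Finset (Fin k) → Lau k) (T : Finset (Fin k)) :
    delta (fun T => iL k (a T) + incl (k + 1) (tt k) * iL k (b T)) T =
      iL k (delta a T) + incl (k + 1) (tt k) * iL k (delta b T) := by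
  rw [NBase_add, NBase_mul, iL_delta, iL_delta]

/-- Proof: `g = ι a + t ι b` (`base_decomp`), `δ a = 0` and `δ b = 0` on `p + 1` (`base_unique`), so `a = δ a'`, `b = δ b'`
(`van_bot'` in degrees `d` and `d - 1`, `Loc_bot`), `h = ι a' + t ι b'`. -/
theorem vanT_base (hk : 1 ≤ k) {c : MvPolynomial (Fin k) ℂ} (hc : c.IsHomogeneous 2) {p : ℕ} {d : ℤ}
    (hd : 2 ≤ p + d) : VanE (imT 1) (Ideal.span {tt k ^ 2 - em k c}) p d := by
  intro g hg hδ
  have hdec : ∀ T : Finset (Fin k), ∃ a b : Lau k, T.card = p → a ∈ Loc ⊤ T d ∧ b ∈ Loc ⊤ T (d - 1) ∧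
      g T - (iL k a + incl (k + 1) (tt k) * iL k b) ∈ Loc (Ideal.span {tt k ^ 2 - em k c}) (imT 1 T) d := by
    intro T
    by_cases hT : T.card = p
    · obtain ⟨a, ha, b, hb, h⟩ := base_decomp hc (hg T hT)
      exact ⟨a, b, fun _ => ⟨ha, hb, h⟩⟩
    · exact ⟨0, 0, fun h => absurd h hT⟩
  choose a b hab using hdec
  have hz : ∀ T : Finset (Fin k), T.card = p + 1 → delta a T = 0 ∧ delta b T = 0 := by
    intro T hT
    have h1 := deltaE_mem (E := imT 1) (fun T T' => imT_mono 1 T T')
      (J := Ideal.span {tt k ^ 2 - em k c}) (p := p) (d := d)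
      (fun T => g T - (iL k (a T) + incl (k + 1) (tt k) * iL k (b T))) (fun T hT => (hab T hT).2.2) T hT
    rw [NBase_sub, NBase_delta] at h1
    have h2 := Loc_sub (hδ T hT) h1
    rw [sub_sub_cancel] at h2
    exact base_unique (delta_mem a (fun T hT => (hab T hT).1) T hT)
      (delta_mem b (fun T hT => (hab T hT).2.1) T hT) h2
  obtain ⟨a', ha', ha2⟩ := van_bot' hk (p := p) (d := d) (by linarith) a (fun T hT => (hab T hT).1)
    (fun T hT => by rw [(hz T hT).1]; exact Loc_zero _ _ _)
  obtain ⟨b', hb', hb2⟩ := van_bot' hk (p := p) (d := d - 1) (by linarith) b (fun T hT => (hab T hT).2.1)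
    (fun T hT => by rw [(hz T hT).2]; exact Loc_zero _ _ _)
  refine ⟨fun T => iL k (a' T) + incl (k + 1) (tt k) * iL k (b' T), fun T hT => ?_, fun T hT => ?_⟩
  · have h1 := Loc_mul (J := ⊤) (tt_hom (k := k)) (iL_Loc_top (hb' T hT))
    have e1 : d - 1 + ((1 : ℕ) : ℤ) = d := by
      push_cast
      ring
    rw [e1] at h1
    exact Loc_add (iL_Loc_top (ha' T hT)) h1
  · rw [NBase_delta]
    have h1 := sub_eq_zero.mp (Loc_bot (ha2 T hT))
    have h2 := sub_eq_zero.mp (Loc_bot (hb2 T hT))
    rw [← h1, ← h2]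
    exact (hab T hT).2.2

end

end Pool.Agent.RegRed
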