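import Mathlib
import Pool.Agent.Lib.MP_724d4c_ag.Step
import Pool.Agent.Lib.MP_724d4c_ag.Nzd
import Pool.Agent.Lib.MP_724d4c_ag.XLoc
import Pool.Agent.Lib.MP_724d4c_ag.XVan

/-! Rows 724x-T1, 724x-T2: towers `(A) + ((y_0^{e_0} - u_0)^{s_0}, …, (y_{k-1}^{e_{k-1}} - u_{k-1})^{s_{k-1}})`. -/

set_option autoImplicit false

namespace Pool.Agent.RegRed

open MvPolynomial

noncomputable section

variable {N : ℕ}

/-- `y_i^{e_i} - u_i` -/
def towF (y : ℕ → Fin N) (e : ℕ → ℕ) (u : ℕ → MvPolynomial (Fin N) ℂ) (i : ℕ) :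
    MvPolynomial (Fin N) ℂ := X (y i) ^ e i - u i

/-- the generators of the tower -/
def towS (A : Set (MvPolynomial (Fin N) ℂ)) (y : ℕ → Fin N) (e : ℕ → ℕ)
    (u : ℕ → MvPolynomial (Fin N) ℂ) (s : ℕ → ℕ) (k : ℕ) : Set (MvPolynomial (Fin N) ℂ) :=
  A ∪ {p | ∃ i, i < k ∧ p = towF y e u i ^ s i}

/-- the ideal of the tower -/
def tow (A : Set (MvPolynomial (Fin N) ℂ)) (y : ℕ → Fin N) (e : ℕ → ℕ)
    (u : ℕ → MvPolynomial (Fin N) ℂ) (s : ℕ → ℕ) (k : ℕ) : Ideal (MvPolynomial (Fin N) ℂ) :=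
  Ideal.span (towS A y e u s k)

section
variable {A : Set (MvPolynomial (Fin N) ℂ)} {y : ℕ → Fin N} {e : ℕ → ℕ}
  {u : ℕ → MvPolynomial (Fin N) ℂ} {s : ℕ → ℕ} {L : ℕ}

theorem towS_zero : towS A y e u s 0 = A := by
  unfold towS
  simp

theorem towS_succ (k : ℕ) :
    towS A y e u s (k + 1) = towS A y e u s k ∪ {towF y e u k ^ s k} := by
  unfold towS
  ext p
  simp only [Set.mem_union, Set.mem_ofPred_eq, Set.mem_singleton_iff]
  constructor
  · rintro (h | ⟨i, hi, rfl⟩)
    · exact Or.inl (Or.inl h)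
    · rcases Nat.lt_succ_iff_lt_or_eq.mp hi with h | rfl
      · exact Or.inl (Or.inr ⟨i, h, rfl⟩)
      · exact Or.inr rfl
  · rintro ((h | ⟨i, hi, rfl⟩) | rfl)
    · exact Or.inl h
    · exact Or.inr ⟨i, by omega, rfl⟩
    · exact Or.inr ⟨k, by omega, rfl⟩

theorem tow_zero : tow A y e u s 0 = Ideal.span A := by
  rw [tow, towS_zero]

theorem tow_succ (k : ℕ) : tow A y e u s (k + 1) = tow A y e u s k ⊔ Ideal.span {towF y e u k ^ s k} := by
  rw [tow, towS_succ, Ideal.span_union]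
  rfl

/-- `towF i` involves `y_i` and the variables of `u_i` only. -/
theorem towF_vars (i : ℕ) {v : Fin N} (h1 : v ≠ y i) (h2 : v ∉ (u i).vars) :
    v ∉ (towF y e u i).vars := by
  intro hv
  rw [towF] at hv
  rcases Finset.mem_union.mp (vars_sub_subset _ hv) with h | h
  · have h3 := vars_pow _ _ h
    rw [vars_X, Finset.mem_singleton] at h3
    exact h1 h3
  · exact h2 h

/-- The generators do not involve `y_j` for `k ≤ j < L`. -/
theorem towS_free (hy : ∀ i j, i < L → j < L → y i = y j → i = j)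
    (hA : ∀ g ∈ A, ∀ j, j < L → y j ∉ g.vars) (hu : ∀ i, i < L → ∀ j, j < L → y j ∉ (u i).vars)
    {k j : ℕ} (hk : k ≤ j) (hj : j < L) : ∀ g ∈ towS A y e u s k, y j ∉ g.vars := by
  rintro g (hg | ⟨i, hi, rfl⟩)
  · exact hA g hg j hj
  · intro hv
    refine towF_vars (e := e) (y := y) (u := u) i (v := y j) (fun h => ?_) (hu i (by omega) j hj)
      (vars_pow _ _ hv)
    have := hy j i hj (by omega) h
    omega

/-- `towF k ^ s k` is a nonzerodivisor modulo the tower (`nzd_monic`, `s k` times). -/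
theorem tow_nzd (hy : ∀ i j, i < L → j < L → y i = y j → i = j)
    (hA : ∀ g ∈ A, ∀ j, j < L → y j ∉ g.vars) (hu : ∀ i, i < L → ∀ j, j < L → y j ∉ (u i).vars)
    (he : ∀ i, i < L → 1 ≤ e i) {k : ℕ} (hk : k < L) (g : MvPolynomial (Fin N) ℂ)
    (hg : towF y e u k ^ s k * g ∈ tow A y e u s k) : g ∈ tow A y e u s k := by
  have h1 := towS_free (e := e) (s := s) hy hA hu (le_refl k) hk
  have h2 : ∀ m : ℕ, ∀ g : MvPolynomial (Fin N) ℂ,
      towF y e u k ^ m * g ∈ tow A y e u s k → g ∈ tow A y e u s k := by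
    intro m
    induction m with
    | zero =>
      intro g hg
      simpa using hg
    | succ m ih =>
      intro g hg
      refine ih g ?_
      refine nzd_monic (y k) (towS A y e u s k) h1 (u k) (hu k hk k hk) (e k) (he k hk) _ ?_
      rw [pow_succ', mul_assoc] at hg
      exact hg
  exact h2 _ g hg

private theorem T2_towF_hom (hu : ∀ i, i < L → (u i).IsHomogeneous (e i)) {k : ℕ} (hk : k < L) :
    (towF y e u k ^ s k).IsHomogeneous (e k * s k) := by
  have h1 : (X (y k) ^ e k : MvPolynomial (Fin N) ℂ).IsHomogeneous (e k) := by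
    have := (isHomogeneous_X ℂ (y k)).pow (e k)
    simpa using this
  exact (h1.sub (hu k hk)).pow (s k)

theorem tow_hom (hA : ∀ f ∈ A, ∃ e, f.IsHomogeneous e)
    (hu : ∀ i, i < L → (u i).IsHomogeneous (e i)) {k : ℕ} (hk : k ≤ L) :
    IsHomog (tow A y e u s k) := by
  induction k with
  | zero => rw [tow_zero]; exact isHomog_span A hA
  | succ k ih =>
    rw [tow_succ]
    refine isHomog_sup (ih (by omega)) (isHomog_span _ ?_)
    intro f hf
    rw [Set.mem_singleton_iff] at hf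
    subst hf
    exact ⟨_, T2_towF_hom hu (by omega)⟩

/-- The vanishing for towers; induction on `k` with `van_step`. -/
theorem tow_van (hy : ∀ i j, i < L → j < L → y i = y j → i = j)
    (hA : ∀ g ∈ A, ∀ j, j < L → y j ∉ g.vars) (hu : ∀ i, i < L → ∀ j, j < L → y j ∉ (u i).vars)
    (he : ∀ i, i < L → 1 ≤ e i) (hs : ∀ i, i < L → 1 ≤ s i)
    (hAh : ∀ f ∈ A, ∃ e, f.IsHomogeneous e) (huh : ∀ i, i < L → (u i).IsHomogeneous (e i))
    {B : ℤ} (hB : ∀ (p : ℕ) (d : ℤ), B ≤ p + d → Van (Ideal.span A) p d) {k : ℕ} (hk : k ≤ L)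
    {p : ℕ} {d : ℤ} (hd : B + ∑ i ∈ Finset.range k, ((s i : ℤ) * e i - 1) ≤ p + d) :
    Van (tow A y e u s k) p d := by
  induction k generalizing p d with
  | zero =>
    rw [tow_zero]
    exact hB p d (by simpa using hd)
  | succ k ih =>
    rw [Finset.sum_range_succ] at hd
    have hse : (1 : ℤ) ≤ (s k : ℤ) * e k := by
      have h1 : (1 : ℤ) ≤ s k := by exact_mod_cast hs k (by omega)
      have h2 : (1 : ℤ) ≤ e k := by exact_mod_cast he k (by omega)
      nlinarith
    rw [tow_succ]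
    refine van_step (tow_hom hAh huh (by omega)) (T2_towF_hom huh (by omega))
      (fun g hg => tow_nzd hy hA hu he (by omega) g hg) (ih (by omega) ?_) (ih (by omega) ?_)
    · push_cast
      nlinarith
    · linarith

/-- A polynomial without the variables `y_j`, nonzerodivisor modulo `(A)`, is one modulo the tower
(`nzd_adjoin`; here all `s i = 1`). -/
theorem tow_nzd_free (hy : ∀ i j, i < L → j < L → y i = y j → i = j)
    (hA : ∀ g ∈ A, ∀ j, j < L → y j ∉ g.vars) (hu : ∀ i, i < L → ∀ j, j < L → y j ∉ (u i).vars)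
    (he : ∀ i, i < L → 1 ≤ e i) (hs : ∀ i, i < L → s i = 1) {G : MvPolynomial (Fin N) ℂ}
    (hG : ∀ j, j < L → y j ∉ G.vars) (hn : ∀ g, G * g ∈ Ideal.span A → g ∈ Ideal.span A)
    {k : ℕ} (hk : k ≤ L) (g : MvPolynomial (Fin N) ℂ) (hg : G * g ∈ tow A y e u s k) :
    g ∈ tow A y e u s k := by
  induction k generalizing g with
  | zero =>
    rw [tow_zero] at hg ⊢
    exact hn g hg
  | succ k ih =>
    rw [tow_succ, hs k (by omega), pow_one] at hg ⊢
    exact nzd_adjoin (y k) (towS A y e u s k)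
      (towS_free hy hA hu (le_refl k) (show k < L by omega)) (u k)
      (hu k (by omega) k (by omega)) (e k) (he k (by omega)) G (hG k (by omega))
      (fun g hg => ih (by omega) g hg) g hg

end

end

end Pool.Agent.RegRed
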