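import Mathlib

/-! Row 724x-RA: adjoining a root keeps an ideal radical. -/

set_option autoImplicit false

namespace Pool.Agent.RegRed

open MvPolynomial

noncomputable section

private theorem RA_eval_update {σ : Type} [DecidableEq σ] (v : σ) (g : MvPolynomial σ ℂ)
    (hg : v ∉ g.vars) (P : σ → ℂ) (ρ : ℂ) : aeval (Function.update P v ρ) g = aeval P g := by
  have := hom_congr_vars (f₁ := (aeval (R := ℂ) (Function.update P v ρ)).toRingHom)
    (f₂ := (aeval (R := ℂ) P).toRingHom) (p₁ := g) (p₂ := g) (by ext c; simp) (by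
      intro i hi _
      have hiv : i ≠ v := fun h => hg (h ▸ hi)
      simp [hiv]) rfl
  simpa using this

private theorem RA_decomp {σ : Type} (v : σ) (u : MvPolynomial σ ℂ) (hu : v ∉ u.vars)
    (e : ℕ) (F : MvPolynomial σ ℂ) :
    ∃ G : ℕ → MvPolynomial σ ℂ, (∀ a, v ∉ (G a).vars) ∧
      F - ∑ a ∈ Finset.range (e + 1), G a * X v ^ a ∈
        Ideal.span {(X v : MvPolynomial σ ℂ) ^ (e + 1) - u} := by
  classical
  induction F using MvPolynomial.induction_on with
  | C c =>
    refine ⟨fun a => if a = 0 then C c else 0, ?_, ?_⟩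
    · intro a
      by_cases h : a = 0
      · simp [h]
      · simp [h]
    · have : ∑ a ∈ Finset.range (e + 1), (if a = 0 then C c else 0) * (X v : MvPolynomial σ ℂ) ^ a
          = C c := by
        rw [Finset.sum_eq_single 0]
        · simp
        · intro b _ hb; simp [hb]
        · simp
      rw [this, sub_self]
      exact Ideal.zero_mem _
  | add F₁ F₂ h₁ h₂ =>
    obtain ⟨G₁, hG₁, hF₁⟩ := h₁
    obtain ⟨G₂, hG₂, hF₂⟩ := h₂
    refine ⟨fun a => G₁ a + G₂ a, ?_, ?_⟩
    · intro a h
      rcases Finset.mem_union.1 (vars_add_subset _ _ h) with h | h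
      · exact hG₁ a h
      · exact hG₂ a h
    · have := Ideal.add_mem _ hF₁ hF₂
      convert this using 1
      simp only [add_mul, Finset.sum_add_distrib]
      ring
  | mul_X F i h =>
    obtain ⟨G, hG, hF⟩ := h
    by_cases hiv : i = v
    · subst hiv
      refine ⟨fun a => match a with
        | 0 => G e * u
        | a + 1 => G a, ?_, ?_⟩
      · intro a
        cases a with
        | zero =>
          intro h
          rcases Finset.mem_union.1 (vars_mul _ _ h) with h | h
          · exact hG e h
          · exact hu h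
        | succ a => exact hG a
      · rw [Finset.sum_range_succ']
        have h1 : F * X i - (∑ k ∈ Finset.range e, G k * X i ^ (k + 1) + G e * u * X i ^ 0) =
            (F - ∑ a ∈ Finset.range (e + 1), G a * X i ^ a) * X i +
              G e * ((X i : MvPolynomial σ ℂ) ^ (e + 1) - u) := by
          rw [Finset.sum_range_succ, sub_mul, add_mul, Finset.sum_mul]
          have h2 : ∀ k ∈ Finset.range e, G k * (X i : MvPolynomial σ ℂ) ^ (k + 1) =
              G k * X i ^ k * X i := fun k _ => by ring
          rw [Finset.sum_congr rfl h2]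
          ring
        change F * X i - (∑ k ∈ Finset.range e, G k * X i ^ (k + 1) + G e * u * X i ^ 0) ∈ _
        rw [h1]
        exact Ideal.add_mem _ (Ideal.mul_mem_right _ _ hF)
          (Ideal.mul_mem_left _ _ (Ideal.subset_span rfl))
    · refine ⟨fun a => G a * X i, ?_, ?_⟩
      · intro a h
        rcases Finset.mem_union.1 (vars_mul _ _ h) with h | h
        · exact hG a h
        · rw [vars_X, Finset.mem_singleton] at h
          exact hiv h.symm
      · have h1 : F * X i - ∑ a ∈ Finset.range (e + 1), G a * X i * X v ^ a =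
            (F - ∑ a ∈ Finset.range (e + 1), G a * X v ^ a) * X i := by
          rw [sub_mul, Finset.sum_mul]
          congr 1
          apply Finset.sum_congr rfl
          intro a _
          ring
        rw [h1]
        exact Ideal.mul_mem_right _ _ hF

/-- Proof. Every `F` is congruent modulo `X v ^ e - u` to `∑_{a < e} F_a (X v)^a`, `F_a` without `v`. If `F` is in the
radical, then for a zero `P` of `A` with `u(P) ≠ 0` and each of the `e` roots `ρ` of `ρ^e = u(P)`, `F` vanishes at `P`
with the `v`-coordinate replaced by `ρ`; so the polynomial `∑ F_a(P) ρ^a` of degree `< e` has `e` roots and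
`F_a(P) = 0`. So `u F_a` vanishes on the zeros of `A`, is in the radical ideal `(A)` (Nullstellensatz,
`MvPolynomial.vanishingIdeal_zeroLocus_eq_radical`), and `F_a ∈ (A)` by `hn`. -/
theorem rad_adjoin {σ : Type} [Finite σ] (v : σ) (A : Set (MvPolynomial σ ℂ))
    (hA : ∀ g ∈ A, v ∉ g.vars) (hr : (Ideal.span A).IsRadical)
    (u : MvPolynomial σ ℂ) (hu : v ∉ u.vars) (hn : ∀ g, u * g ∈ Ideal.span A → g ∈ Ideal.span A)
    (e : ℕ) (he : 1 ≤ e) : (Ideal.span A ⊔ Ideal.span {X v ^ e - u}).IsRadical := by
  classical
  obtain ⟨e, rfl⟩ : ∃ e', e = e' + 1 := ⟨e - 1, by omega⟩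
  intro F hF
  obtain ⟨G, hG, hFG⟩ := RA_decomp v u hu e F
  set J := Ideal.span {(X v : MvPolynomial σ ℂ) ^ (e + 1) - u} with hJ
  set H := ∑ a ∈ Finset.range (e + 1), G a * (X v : MvPolynomial σ ℂ) ^ a with hH
  -- `H` is in the radical
  have hH1 : H ∈ (Ideal.span A ⊔ J).radical := by
    have h1 : H = F - (F - H) := by ring
    rw [h1]
    exact Ideal.sub_mem _ hF (Ideal.le_radical (Ideal.mem_sup_right hFG))
  have hH2 : ∀ Q : σ → ℂ, (∀ g ∈ A, aeval Q g = 0) → Q v ^ (e + 1) = aeval Q u →
      aeval Q H = 0 := by
    intro Q hQ hQv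
    have h1 : H ∈ vanishingIdeal ℂ (zeroLocus ℂ (Ideal.span A ⊔ J)) := by
      rw [vanishingIdeal_zeroLocus_eq_radical]
      exact hH1
    rw [mem_vanishingIdeal_iff] at h1
    apply h1
    rw [mem_zeroLocus_iff]
    have h2 : Ideal.span A ⊔ J ≤ RingHom.ker (aeval (R := ℂ) Q) := by
      apply sup_le
      · rw [Ideal.span_le]
        intro g hg
        exact hQ g hg
      · rw [hJ, Ideal.span_le]
        intro g hg
        rw [Set.mem_singleton_iff] at hg
        rw [hg]
        change aeval Q (X v ^ (e + 1) - u) = 0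
        rw [map_sub, map_pow, aeval_X, hQv, sub_self]
    intro p hp
    exact h2 hp
  -- the coefficients
  have hGA : ∀ a < e + 1, G a ∈ Ideal.span A := by
    intro a ha
    apply hn
    have h3 : u * G a ∈ (Ideal.span A).radical := by
      rw [← vanishingIdeal_zeroLocus_eq_radical (K := ℂ), mem_vanishingIdeal_iff]
      intro P hP
      rw [mem_zeroLocus_iff] at hP
      rw [map_mul]
      by_cases huP : aeval P u = 0
      · rw [huP, zero_mul]
      have hpos : 0 < e + 1 := Nat.succ_pos e
      obtain ⟨ρ, hρ⟩ := IsAlgClosed.exists_pow_nat_eq (aeval P u : ℂ) hpos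
      have hρ0 : ρ ≠ 0 := by
        intro h0
        apply huP
        rw [← hρ, h0, zero_pow (Nat.succ_ne_zero e)]
      have hζ := Complex.isPrimitiveRoot_exp (e + 1) (Nat.succ_ne_zero e)
      set ζ := Complex.exp (2 * Real.pi * Complex.I / ((e + 1 : ℕ) : ℂ)) with hζd
      let p : Polynomial ℂ := ∑ b ∈ Finset.range (e + 1),
        Polynomial.C (aeval P (G b) : ℂ) * Polynomial.X ^ b
      have hp0 : p = 0 := by
        apply Polynomial.eq_zero_of_natDegree_lt_card_of_eval_eq_zero p
          (f := fun i : Fin (e + 1) => ζ ^ (i : ℕ) * ρ)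
        · intro i j hij
          have h4 : ζ ^ (i : ℕ) = ζ ^ (j : ℕ) := mul_right_cancel₀ hρ0 hij
          exact Fin.ext (hζ.pow_inj i.2 j.2 h4)
        · intro i
          have h5 : (ζ ^ (i : ℕ) * ρ) ^ (e + 1) = aeval P u := by
            rw [mul_pow, hρ, ← pow_mul, mul_comm (i : ℕ), pow_mul, hζ.pow_eq_one, one_pow, one_mul]
          have h6 := hH2 (Function.update P v (ζ ^ (i : ℕ) * ρ)) (by
            intro g hg
            rw [RA_eval_update v g (hA g hg)]
            exact hP g (Ideal.subset_span hg)) (by
            rw [Function.update_self, RA_eval_update v u hu, h5])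
          rw [hH, map_sum] at h6
          simp only [map_mul, map_pow, aeval_X, Function.update_self] at h6
          simp only [p, Polynomial.eval_finsetSum, Polynomial.eval_mul, Polynomial.eval_C,
            Polynomial.eval_pow, Polynomial.eval_X]
          rw [← h6]
          apply Finset.sum_congr rfl
          intro b _
          rw [RA_eval_update v (G b) (hG b)]
        · rw [Fintype.card_fin, Nat.lt_succ_iff]
          apply Polynomial.natDegree_sum_le_of_forall_le
          intro b hb
          refine le_trans (Polynomial.natDegree_C_mul_X_pow_le _ _) ?_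
          exact Nat.lt_succ_iff.1 (Finset.mem_range.1 hb)
      have h7 : p.coeff a = aeval P (G a) := by
        simp only [p, Polynomial.finsetSum_coeff, Polynomial.coeff_C_mul_X_pow]
        rw [Finset.sum_ite_eq, if_pos (Finset.mem_range.2 ha)]
      rw [← h7, hp0, Polynomial.coeff_zero, mul_zero]
    exact hr h3
  have hHA : H ∈ Ideal.span A := by
    rw [hH]
    apply Ideal.sum_mem
    intro a ha
    exact Ideal.mul_mem_right _ _ (hGA a (Finset.mem_range.1 ha))
  have h8 : F = (F - H) + H := by ring
  rw [h8]
  exact Ideal.add_mem _ (Ideal.mem_sup_right hFG) (Ideal.mem_sup_left hHA)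

end

end Pool.Agent.RegRed
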