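import Mathlib
import Pool.Agent.Lib.MP_724d4c_ag.XTow
import Pool.Agent.Lib.MP_724d4c_ag.XRad

/-! Row 724x-T3: radical towers, and the vanishing for base ideals. -/

set_option autoImplicit false

namespace Pool.Agent.RegRed

open MvPolynomial

noncomputable section

variable {N : ℕ}

/-- Induction with `rad_adjoin` and `tow_nzd_free` (`G = u k ≠ 0`; `(∅) = 0` is a prime ideal). -/
theorem tow_rad {y : ℕ → Fin N} {e : ℕ → ℕ} {u : ℕ → MvPolynomial (Fin N) ℂ} {s : ℕ → ℕ} {L : ℕ}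
    (hy : ∀ i j, i < L → j < L → y i = y j → i = j)
    (hu : ∀ i, i < L → ∀ j, j < L → y j ∉ (u i).vars) (hu0 : ∀ i, i < L → u i ≠ 0)
    (he : ∀ i, i < L → 1 ≤ e i) (hs : ∀ i, i < L → s i = 1) {k : ℕ} (hk : k ≤ L) :
    (tow ∅ y e u s k).IsRadical := by
  induction k with
  | zero =>
    rw [tow_zero, Ideal.span_empty]
    exact (Ideal.isPrime_bot (α := MvPolynomial (Fin N) ℂ)).isRadical
  | succ k ih =>
    have hkL : k < L := by omega
    rw [tow_succ, hs k hkL, pow_one]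
    refine rad_adjoin (y k) (towS ∅ y e u s k) ?_ (ih hkL.le) (u k) (hu k hkL k hkL) ?_ (e k) (he k hkL)
    · exact towS_free hy (by simp) hu le_rfl hkL
    · intro g hg
      refine tow_nzd_free hy (by simp) hu he hs (G := u k) (fun j hj => hu k hkL j hj) ?_ hkL.le g hg
      intro g' hg'
      rw [Ideal.span_empty, Ideal.mem_bot] at hg' ⊢
      exact (mul_eq_zero.1 hg').resolve_left (hu0 k hkL)

/-- `van_bot'`. -/
theorem van_empty (hN : 1 ≤ N) {p : ℕ} {d : ℤ} (hd : 1 ≤ p + d) :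
    Van (Ideal.span (∅ : Set (MvPolynomial (Fin N) ℂ))) p d := by
  rw [Ideal.span_empty]
  exact van_bot' hN hd

/-- `van_step` with `J = ⊥`; a form `f ≠ 0` of degree `c ≥ 1`. -/
theorem van_single (hN : 1 ≤ N) {f : MvPolynomial (Fin N) ℂ} (hf0 : f ≠ 0) {c : ℕ} (hc : 1 ≤ c)
    (hf : f.IsHomogeneous c) {p : ℕ} {d : ℤ} (hd : (c : ℤ) ≤ p + d) :
    Van (Ideal.span {f}) p d := by
  have h1 : Van ((⊥ : Ideal (MvPolynomial (Fin N) ℂ)) ⊔ Ideal.span {f}) p d := by
    refine van_step ?_ hf ?_ (van_bot' hN ?_) (van_bot' hN ?_)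
    · intro g hg k
      rw [Ideal.mem_bot] at hg ⊢
      rw [hg, map_zero]
    · intro g hg
      rw [Ideal.mem_bot] at hg ⊢
      exact (mul_eq_zero.1 hg).resolve_left hf0
    · push_cast
      linarith
    · have : (1 : ℤ) ≤ c := by exact_mod_cast hc
      linarith
  rwa [bot_sup_eq] at h1

end

end Pool.Agent.RegRed
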