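import Mathlib
import Pool.Agent.Lib.MP_724d4c_ag.XTow
import Pool.Agent.Lib.MP_724d4c_ag.XTowR

/-! Definitions of the ideals of the transfer theorem. The variables of the polynomial ring in
`n + (m + 3)` variables are `x_0, …, x_{n-1}`, `ε`, `h`, `y_0, …, y_m`. -/

set_option autoImplicit false

namespace Pool.Agent.RegRed

open MvPolynomial

noncomputable section

/-- `ε` -/
def vE (n m : ℕ) : Fin (n + (m + 3)) := ⟨n, by omega⟩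

/-- `h` -/
def vH (n m : ℕ) : Fin (n + (m + 3)) := ⟨n + 1, by omega⟩

/-- `y_j`, `0 ≤ j ≤ m` -/
def vY (n m : ℕ) (j : ℕ) : Fin (n + (m + 3)) :=
  if h : j ≤ m then ⟨n + 2 + j, by omega⟩ else ⟨n, by omega⟩

/-- The inclusion of `ℂ[x]`. -/
def lft (n m : ℕ) : MvPolynomial (Fin n) ℂ →ₐ[ℂ] MvPolynomial (Fin (n + (m + 3))) ℂ :=
  rename (Fin.castAdd (m + 3))

/-- `c_0 = ε²`, `c_{j+1} = ε g_j` -/
def cc (n m : ℕ) (g : ℕ → MvPolynomial (Fin n) ℂ) : ℕ → MvPolynomial (Fin (n + (m + 3))) ℂ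
  | 0 => X (vE n m) ^ 2
  | j + 1 => X (vE n m) * lft n m (g j)

/-- `e_0 = 2`, `e_{j+1} = d_j + 1` -/
def ee (d : ℕ → ℕ) : ℕ → ℕ
  | 0 => 2
  | j + 1 => d j + 1

/-- the exponent of the forms `y_j^{e_j} - h^{e_j}` in `capA'` -/
def ss (i : ℕ) : ℕ := if i = 0 then 1 else 2

section
variable (n m : ℕ) (g : ℕ → MvPolynomial (Fin n) ℂ) (d : ℕ → ℕ)

/-- `I₁ = (y_j^{e_j} - h^{e_j})` -/
def I1 : Ideal (MvPolynomial (Fin (n + (m + 3))) ℂ) :=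
  tow ∅ (vY n m) (ee d) (fun i => X (vH n m) ^ ee d i) (fun _ => 1) (m + 1)

/-- `I₁' = (y_0² - h², (y_j^{e_j} - h^{e_j})²)` -/
def I1' : Ideal (MvPolynomial (Fin (n + (m + 3))) ℂ) :=
  tow ∅ (vY n m) (ee d) (fun i => X (vH n m) ^ ee d i) ss (m + 1)

/-- `I₂ = (y_j^{e_j} - (h^{e_j} + c_j))` -/
def I2 : Ideal (MvPolynomial (Fin (n + (m + 3))) ℂ) :=
  tow ∅ (vY n m) (ee d) (fun i => X (vH n m) ^ ee d i + cc n m g i) (fun _ => 1) (m + 1)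

/-- `K₁ = (h, y_j^{e_j})` -/
def K1 : Ideal (MvPolynomial (Fin (n + (m + 3))) ℂ) :=
  tow {X (vH n m)} (vY n m) (ee d) (fun _ => 0) (fun _ => 1) (m + 1)

/-- `K₂ = (h, y_j^{e_j} - c_j)` -/
def K2 : Ideal (MvPolynomial (Fin (n + (m + 3))) ℂ) :=
  tow {X (vH n m)} (vY n m) (ee d) (cc n m g) (fun _ => 1) (m + 1)

/-- `L = (c_j, y_j^{e_j} - h^{e_j}) = I₁ + I₂` -/
def L1 : Ideal (MvPolynomial (Fin (n + (m + 3))) ℂ) :=
  tow {p | ∃ i, i < m + 1 ∧ p = cc n m g i} (vY n m) (ee d) (fun i => X (vH n m) ^ ee d i)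
    (fun _ => 1) (m + 1)

/-- `L' = (ε², y_0² - h², y_j^{e_j} - (h^{e_j} + c_j)) = I₁' + I₂` -/
def L1' : Ideal (MvPolynomial (Fin (n + (m + 3))) ℂ) :=
  tow {X (vE n m) ^ 2} (vY n m) (ee d)
    (fun i => if i = 0 then X (vH n m) ^ 2 else X (vH n m) ^ ee d i + cc n m g i)
    (fun _ => 1) (m + 1)

/-- `M = (h, y_j^{e_j}, c_j) = K₁ + K₂` -/
def MM : Ideal (MvPolynomial (Fin (n + (m + 3))) ℂ) :=
  Ideal.span ({X (vH n m)} ∪ {p | ∃ i, i < m + 1 ∧ p = cc n m g i} ∪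
    {p | ∃ i, i < m + 1 ∧ p = X (vY n m i) ^ ee d i})

/-- The ideal of the transfer theorem. -/
def capI : Ideal (MvPolynomial (Fin (n + (m + 3))) ℂ) := I1' n m d ⊓ I2 n m g d

/-- The given ideal. -/
def gI : Ideal (MvPolynomial (Fin n) ℂ) := Ideal.span {p | ∃ i, i < m ∧ p = g i}

end

end

end Pool.Agent.RegRed
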