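import Mathlib
import Pool.Agent.Lib.MP_724d4c_ag.XExt
import Pool.Agent.Lib.MP_724d4c_ag.XCap

/-! Row 724x-E2: the coefficient of `ε y_0^{e_0 - 1} ⋯ y_m^{e_m - 1}` in the elements of `MM`. -/

set_option autoImplicit false

namespace Pool.Agent.RegRed

open MvPolynomial

noncomputable section

/-- the exponent of `ε y_0^{e_0 - 1} ⋯ y_m^{e_m - 1}` -/
def tht (m : ℕ) (d : ℕ → ℕ) (t : Fin (m + 3)) : ℤ :=
  if (t : ℕ) = 0 then 1 else if (t : ℕ) = 1 then 0 else (ee d ((t : ℕ) - 2) : ℤ) - 1

theorem tht_sum (m : ℕ) (d : ℕ → ℕ) : ∑ t, tht m d t = 2 + ∑ j ∈ Finset.range m, (d j : ℤ) := by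
  have h := Fin.sum_univ_eq_sum_range (fun t : ℕ => if t = 0 then (1 : ℤ) else if t = 1 then 0
    else (ee d (t - 2) : ℤ) - 1) (m + 3)
  have h' : ∑ t, tht m d t = ∑ i : Fin (m + 3), (fun t : ℕ => if t = 0 then (1 : ℤ) else if t = 1 then 0
    else (ee d (t - 2) : ℤ) - 1) (i : ℕ) := rfl
  rw [h', h, Finset.sum_range_succ', Finset.sum_range_succ', Finset.sum_range_succ']
  have h2 : ∀ j ∈ Finset.range m, (if j + 1 + 1 + 1 = 0 then (1 : ℤ) else if j + 1 + 1 + 1 = 1 then 0
      else (ee d (j + 1 + 1 + 1 - 2) : ℤ) - 1) = (d j : ℤ) := by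
    intro j _
    rw [if_neg (by omega), if_neg (by omega), show j + 1 + 1 + 1 - 2 = j + 1 by omega]
    simp [ee]
  rw [Finset.sum_congr rfl h2]
  simp [ee]
  ring

variable {n m : ℕ} {g : ℕ → MvPolynomial (Fin n) ℂ} {d : ℕ → ℕ}

private theorem E2_ext {N : ℕ} {F G : Lau N} (h : ∀ e, F.coeff e = G.coeff e) : F = G :=
  AddMonoidAlgebra.coeff_injective (Finsupp.ext h)

private theorem E2_append {v : Fin (n + (m + 3))} (hv : n ≤ (v : ℕ)) (a : Fin n → ℤ) (θ : Fin (m + 3) → ℤ) :
    (Fin.append a θ : Fin (n + (m + 3)) → ℤ) v = θ ⟨(v : ℕ) - n, by omega⟩ := by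
  have h : v = Fin.natAdd n ⟨(v : ℕ) - n, by omega⟩ := by
    apply Fin.ext
    simp only [Fin.val_natAdd]
    omega
  conv_lhs => rw [h]
  rw [Fin.append_right]

theorem tht_nonneg (t : Fin (m + 3)) : 0 ≤ tht m d t := by
  unfold tht
  split_ifs
  · exact zero_le_one
  · exact le_rfl
  · have : 1 ≤ ee d ((t : ℕ) - 2) := by
      cases h : (t : ℕ) - 2 with
      | zero => simp [ee]
      | succ j => simp [ee]
    have : (1 : ℤ) ≤ (ee d ((t : ℕ) - 2) : ℤ) := by exact_mod_cast this
    linarith

/-- the exponent `(0, θ)` -/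
private def E2_E (n m : ℕ) (d : ℕ → ℕ) : Fin (n + (m + 3)) →₀ ℕ :=
  Finsupp.equivFunOnFinite.symm fun v => ((Fin.append (0 : Fin n → ℤ) (tht m d) :
    Fin (n + (m + 3)) → ℤ) v).toNat

private theorem E2_E_cast (v : Fin (n + (m + 3))) : (E2_E n m d v : ℤ) =
    (Fin.append (0 : Fin n → ℤ) (tht m d) : Fin (n + (m + 3)) → ℤ) v := by
  unfold E2_E
  rw [Finsupp.coe_equivFunOnFinite_symm]
  apply Int.toNat_of_nonneg
  refine Fin.addCases (fun i => ?_) (fun i => ?_) v
  · rw [Fin.append_left]
    simp
  · rw [Fin.append_right]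
    exact tht_nonneg i

private theorem E2_E_val {v : Fin (n + (m + 3))} (hv : n ≤ (v : ℕ)) : (E2_E n m d v : ℤ) =
    tht m d ⟨(v : ℕ) - n, by omega⟩ := by
  rw [E2_E_cast, E2_append hv]

private theorem E2_liU (p : MvPolynomial (Fin n) ℂ) : liU (tht m d) (incl n p) =
    incl (n + (m + 3)) (monomial (E2_E n m d) 1 * lft n m p) := by
  have h1 := liU_mono_mul (tht m d) (0 : Fin (m + 3) → ℤ) (0 : Fin n → ℤ) (incl n p)
  rw [add_zero, LA_mono_zero, one_mul] at h1
  rw [h1, map_mul, incl_monomial]
  unfold lft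
  rw [incl_rename]
  congr 1
  unfold mono
  congr 1
  funext v
  exact (E2_E_cast v).symm

private theorem E2_pow_mem (v : Fin (n + (m + 3))) (hv : n ≤ (v : ℕ)) :
    (X v : MvPolynomial (Fin (n + (m + 3))) ℂ) ^ (E2_E n m d v + 1) ∈ MM n m g d := by
  have hval := E2_E_val (d := d) hv
  unfold MM
  apply Ideal.subset_span
  by_cases h0 : (v : ℕ) = n
  · have hv' : v = vE n m := Fin.ext h0
    left
    right
    refine ⟨0, by omega, ?_⟩
    have : E2_E n m d v = 1 := by
      have h3 : tht m d ⟨(v : ℕ) - n, by omega⟩ = 1 := by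
        unfold tht
        rw [if_pos (by simp only; omega)]
      rw [h3] at hval
      exact_mod_cast hval
    rw [this, hv']
    rfl
  · by_cases h1 : (v : ℕ) = n + 1
    · have hv' : v = vH n m := Fin.ext h1
      left
      left
      have : E2_E n m d v = 0 := by
        have h3 : tht m d ⟨(v : ℕ) - n, by omega⟩ = 0 := by
          unfold tht
          rw [if_neg (by simp only; omega), if_pos (by simp only; omega)]
        rw [h3] at hval
        exact_mod_cast hval
      rw [this, hv', zero_add, pow_one]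
      exact Set.mem_singleton _
    · right
      refine ⟨(v : ℕ) - n - 2, by omega, ?_⟩
      have hv' : v = vY n m ((v : ℕ) - n - 2) := by
        unfold vY
        rw [dif_pos (by omega)]
        apply Fin.ext
        simp only
        omega
      have : E2_E n m d v + 1 = ee d ((v : ℕ) - n - 2) := by
        have h3 : tht m d ⟨(v : ℕ) - n, by omega⟩ = (ee d ((v : ℕ) - n - 2) : ℤ) - 1 := by
          unfold tht
          rw [if_neg (by simp only; omega), if_neg (by simp only; omega)]
        rw [h3] at hval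
        omega
      rw [this, ← hv']

/-- For a monomial generator `z^b` (`h`, `ε²`, `y_j^{e_j}`), `θ - b` has a negative entry, so the coefficient of `z^θ` in
`q z^b` is `0` (`incl_support`). -/
theorem exU_kill (v : Fin (n + (m + 3))) (b : ℕ) (hv : n ≤ (v : ℕ))
    (hb : tht m d ⟨(v : ℕ) - n, by omega⟩ < b) (q : MvPolynomial (Fin (n + (m + 3))) ℂ) :
    exU (tht m d) (incl (n + (m + 3)) (q * X v ^ b)) = 0 := by
  apply E2_ext
  intro a
  rw [exU_coeff]
  by_contra hcon
  obtain ⟨e', he', hea⟩ := incl_support _ _ hcon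
  have h1 : coeff e' (q * X v ^ b) ≠ 0 := mem_support_iff.1 he'
  have h2 : (Finsupp.single v b : Fin (n + (m + 3)) →₀ ℕ) ≤ e' := by
    by_contra h3
    apply h1
    rw [X_pow_eq_monomial, coeff_mul_monomial', if_neg h3]
  have h3 : b ≤ e' v := by
    have := h2 v
    rwa [Finsupp.single_eq_same] at this
  have h4 := congrFun hea v
  rw [E2_append hv] at h4
  omega

/-- Prove `∀ q, ∃ G' ∈ gI n m g, exU (tht m d) (incl (q * G)) = incl n G'` by `Submodule.span_induction`:
`exU_kill` for `h`, `ε²`, `y_j^{e_j}`; for `q ε g_j` use `exU_mono_mul`, `incl_rename`, `exU_liU_mul`, `exU_incl`. -/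
theorem exU_MM (G : MvPolynomial (Fin (n + (m + 3))) ℂ) (hG : G ∈ MM n m g d) :
    ∃ G' ∈ gI n m g, exU (tht m d) (incl (n + (m + 3)) G) = incl n G' := by
  have key : ∀ q, ∃ G' ∈ gI n m g, exU (tht m d) (incl (n + (m + 3)) (q * G)) = incl n G' := by
    unfold MM at hG
    induction hG using Submodule.span_induction with
    | mem x hx =>
      intro q
      rcases hx with (hx | ⟨i, hi, rfl⟩) | ⟨i, hi, rfl⟩
      · rw [Set.mem_singleton_iff.1 hx]
        refine ⟨0, Submodule.zero_mem _, ?_⟩
        have := exU_kill (d := d) (vH n m) 1 (by simp [vH]) (by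
          unfold tht vH
          rw [if_neg (by simp), if_pos (by simp)]
          norm_num) q
        rw [pow_one] at this
        rw [this, map_zero]
      · cases i with
        | zero =>
          refine ⟨0, Submodule.zero_mem _, ?_⟩
          have := exU_kill (d := d) (vE n m) 2 (by simp [vE]) (by
            unfold tht vE
            rw [if_pos (by simp)]
            norm_num) q
          unfold cc
          rw [this, map_zero]
        | succ j =>
          obtain ⟨G'', hG''⟩ := exU_incl (tht m d) (q * X (vE n m))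
          refine ⟨g j * G'', Ideal.mul_mem_right _ _ (Ideal.subset_span ⟨j, by omega, rfl⟩), ?_⟩
          have h1 : q * cc n m g (j + 1) = lft n m (g j) * (q * X (vE n m)) := by
            unfold cc
            ring
          rw [h1, map_mul]
          unfold lft
          rw [incl_rename, exU_liU_mul, hG'', map_mul]
      · refine ⟨0, Submodule.zero_mem _, ?_⟩
        have hvY : ((vY n m i : Fin (n + (m + 3))) : ℕ) = n + 2 + i := by
          unfold vY
          rw [dif_pos (by omega)]
        have := exU_kill (d := d) (vY n m i) (ee d i) (by omega) (by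
          have h3 : ((vY n m i : Fin (n + (m + 3))) : ℕ) - n = 2 + i := by omega
          unfold tht
          simp only [h3]
          rw [if_neg (by omega), if_neg (by omega), show 2 + i - 2 = i by omega]
          omega) q
        rw [this, map_zero]
    | zero =>
      intro q
      refine ⟨0, Submodule.zero_mem _, ?_⟩
      rw [mul_zero, map_zero, exU_zero, map_zero]
    | add x y _ _ hx hy =>
      intro q
      obtain ⟨a, ha, ha'⟩ := hx q
      obtain ⟨b, hb, hb'⟩ := hy q
      refine ⟨a + b, Submodule.add_mem _ ha hb, ?_⟩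
      rw [mul_add, map_add, exU_add, ha', hb', map_add]
    | smul r x _ hx =>
      intro q
      obtain ⟨a, ha, ha'⟩ := hx (q * r)
      refine ⟨a, ha, ?_⟩
      rw [smul_eq_mul, ← mul_assoc]
      exact ha'
  have h := key 1
  rwa [one_mul] at h

/-- `z^θ p ∈ MM` for `p ∈ gI`; here `z^θ p` is the polynomial `q` with `incl q = liU θ (incl p)`. -/
theorem liU_gI (p : MvPolynomial (Fin n) ℂ) (hp : p ∈ gI n m g) :
    ∃ q ∈ MM n m g d, liU (tht m d) (incl n p) = incl (n + (m + 3)) q := by
  refine ⟨_, ?_, E2_liU p⟩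
  have h1 : X (vE n m) * lft n m p ∈ MM n m g d := by
    unfold gI at hp
    induction hp using Submodule.span_induction with
    | mem x hx =>
      obtain ⟨i, hi, rfl⟩ := hx
      unfold MM
      apply Ideal.subset_span
      left
      right
      exact ⟨i + 1, by omega, rfl⟩
    | zero =>
      rw [map_zero, mul_zero]
      exact Submodule.zero_mem _
    | add x y _ _ hx hy =>
      rw [map_add, mul_add]
      exact Submodule.add_mem _ hx hy
    | smul r x _ hx =>
      rw [smul_eq_mul, map_mul, mul_left_comm]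
      exact Ideal.mul_mem_left _ _ hx
  have h2 : 1 ≤ E2_E n m d (vE n m) := by
    have hval := E2_E_val (n := n) (m := m) (d := d) (v := vE n m) (by simp [vE])
    have h3 : tht m d ⟨((vE n m : Fin (n + (m + 3))) : ℕ) - n, by omega⟩ = 1 := by
      unfold tht vE
      rw [if_pos (by simp)]
    rw [h3] at hval
    omega
  have h3 : (monomial (E2_E n m d) (1 : ℂ)) =
      monomial (E2_E n m d - Finsupp.single (vE n m) 1) 1 * X (vE n m) := by
    rw [X, monomial_mul, mul_one, tsub_add_cancel_of_le (Finsupp.single_le_iff.2 h2)]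
  rw [h3, mul_assoc]
  exact Ideal.mul_mem_left _ _ h1

/-- `v^2` or `v^{e_j}` times `z^θ p` is in `MM`, for all `p`. -/
theorem liU_kill (p : MvPolynomial (Fin n) ℂ) (v : Fin (n + (m + 3))) (hv : n ≤ (v : ℕ)) :
    ∃ b : ℕ, ∃ q ∈ MM n m g d,
      mono (Pi.single v (b : ℤ)) * liU (tht m d) (incl n p) = incl (n + (m + 3)) q := by
  refine ⟨1, X v * (monomial (E2_E n m d) 1 * lft n m p), ?_, ?_⟩
  · have h3 : (monomial (E2_E n m d) (1 : ℂ)) =
        monomial (E2_E n m d - Finsupp.single v (E2_E n m d v)) 1 * X v ^ (E2_E n m d v) := by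
      rw [X_pow_eq_monomial, monomial_mul, mul_one,
        tsub_add_cancel_of_le (Finsupp.single_le_iff.2 le_rfl)]
    have h4 : X v * (monomial (E2_E n m d) (1 : ℂ) * lft n m p) =
        (monomial (E2_E n m d - Finsupp.single v (E2_E n m d v)) 1 * lft n m p) *
          X v ^ (E2_E n m d v + 1) := by
      rw [h3, pow_succ]
      ring
    rw [h4]
    exact Ideal.mul_mem_left _ _ (E2_pow_mem v hv)
  · rw [map_mul, ← E2_liU]
    congr 1
    unfold incl
    rw [aeval_X]
    simp

end

end Pool.Agent.RegRed
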