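import Mathlib
import Pool.Agent.Lib.MP_724d4c_ag.XExtB

/-! Row 724x-E3: `exU`, `liU` and `Loc`. -/

set_option autoImplicit false

namespace Pool.Agent.RegRed

open MvPolynomial

noncomputable section

variable {n m : ℕ} {g : ℕ → MvPolynomial (Fin n) ℂ} {d : ℕ → ℕ}

theorem E3_mem_imT {M : ℕ} {T : Finset (Fin n)} {i : Fin n} : Fin.castAdd M i ∈ imT M T ↔ i ∈ T := by
  simp only [imT, Finset.mem_map, Fin.castAddEmb_apply]
  constructor
  · rintro ⟨a, ha, h⟩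
    rwa [← Fin.castAdd_injective n M h]
  · intro h
    exact ⟨i, h, rfl⟩

theorem E3_natAdd_notMem_imT {M : ℕ} {T : Finset (Fin n)} {i : Fin M} : Fin.natAdd n i ∉ imT M T := by
  simp only [imT, Finset.mem_map, Fin.castAddEmb_apply]
  rintro ⟨a, ha, h⟩
  have h1 := congrArg Fin.val h
  simp only [Fin.val_castAdd, Fin.val_natAdd] at h1
  have := a.2
  omega

theorem E3_tht_nonneg (t : Fin (m + 3)) : 0 ≤ tht m d t := by
  unfold tht
  split_ifs with h1 h2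
  · norm_num
  · norm_num
  · have : 1 ≤ ee d ((t : ℕ) - 2) := by
      cases (t : ℕ) - 2 with
      | zero => simp [ee]
      | succ k => simp [ee]
    omega

/-- `LA_ex (imT T) N = Fin.append (LA_ex T N) 0`. -/
theorem LA_ex_imT (M : ℕ) (T : Finset (Fin n)) (N : ℕ) :
    LA_ex (imT M T) N = (Fin.append (LA_ex T N) 0 : Fin (n + M) → ℤ) := by
  funext i
  refine Fin.addCases (fun i => ?_) (fun i => ?_) i
  · rw [Fin.append_left]
    simp only [LA_ex, E3_mem_imT]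
  · rw [Fin.append_right]
    simp only [LA_ex, E3_natAdd_notMem_imT, if_false, Pi.zero_apply]

theorem exU_Loc_top {T : Finset (Fin n)} {D w : ℤ} (hw : w = 2 + ∑ j ∈ Finset.range m, (d j : ℤ))
    {F : Lau (n + (m + 3))} (hF : F ∈ Loc ⊤ (imT (m + 3) T) (D + w)) :
    exU (tht m d) F ∈ Loc ⊤ T D := by
  rw [mem_Loc_top] at hF ⊢
  intro e he
  rw [Finsupp.mem_support_iff, exU_coeff] at he
  obtain ⟨h1, h2⟩ := hF _ (Finsupp.mem_support_iff.mpr he)
  refine ⟨fun i hi => ?_, ?_⟩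
  · have h3 := h1 (Fin.castAdd (m + 3) i) (fun h => hi (E3_mem_imT.mp h))
    rwa [Fin.append_left] at h3
  · rw [append_sum, tht_sum, ← hw] at h2
    exact add_right_cancel h2

theorem exU_Loc_MM {T : Finset (Fin n)} {D w : ℤ} (hw : w = 2 + ∑ j ∈ Finset.range m, (d j : ℤ))
    {F : Lau (n + (m + 3))} (hF : F ∈ Loc (MM n m g d) (imT (m + 3) T) (D + w)) :
    exU (tht m d) F ∈ Loc (gI n m g) T D := by
  obtain ⟨h1, N, G, hG, h2⟩ := LA_mem.mp hF
  refine LA_mem.mpr ⟨fun e he => ?_, N, ?_⟩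
  · rw [exU_coeff] at he
    have h3 := h1 _ he
    rw [append_sum, tht_sum, ← hw] at h3
    exact add_right_cancel h3
  · obtain ⟨G', hG', h3⟩ := exU_MM G hG
    refine ⟨G', hG', ?_⟩
    rw [← h3, ← h2, LA_ex_imT]
    have h4 := exU_mono_mul (0 : Fin (m + 3) → ℤ) (tht m d) (LA_ex T N) F
    rw [zero_add] at h4
    exact h4.symm

theorem liU_Loc_top {T : Finset (Fin n)} {D w : ℤ} (hw : w = 2 + ∑ j ∈ Finset.range m, (d j : ℤ))
    {F : Lau n} (hF : F ∈ Loc ⊤ T D) : liU (tht m d) F ∈ Loc ⊤ (imT (m + 3) T) (D + w) := by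
  rw [mem_Loc_top] at hF ⊢
  intro e he
  rw [Finsupp.mem_support_iff] at he
  obtain ⟨a, ha, rfl⟩ := liU_supp _ _ _ he
  obtain ⟨h1, h2⟩ := hF a (Finsupp.mem_support_iff.mpr ha)
  refine ⟨fun i => ?_, ?_⟩
  · refine Fin.addCases (fun i hi => ?_) (fun i hi => ?_) i
    · rw [Fin.append_left]
      exact h1 i (fun h => hi (E3_mem_imT.mpr h))
    · rw [Fin.append_right]
      exact E3_tht_nonneg i
  · rw [append_sum, tht_sum, ← hw, h2]

theorem liU_Loc_MM {T : Finset (Fin n)} {D w : ℤ} (hw : w = 2 + ∑ j ∈ Finset.range m, (d j : ℤ))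
    {F : Lau n} (hF : F ∈ Loc (gI n m g) T D) :
    liU (tht m d) F ∈ Loc (MM n m g d) (imT (m + 3) T) (D + w) := by
  obtain ⟨h1, N, G, hG, h2⟩ := LA_mem.mp hF
  refine LA_mem.mpr ⟨fun e he => ?_, N, ?_⟩
  · obtain ⟨a, ha, rfl⟩ := liU_supp _ _ _ he
    rw [append_sum, tht_sum, ← hw, h1 a ha]
  · obtain ⟨q, hq, h3⟩ := liU_gI (m := m) (g := g) (d := d) G hG
    refine ⟨q, hq, ?_⟩
    rw [← h3, ← h2, LA_ex_imT]
    have h4 := liU_mono_mul (0 : Fin (m + 3) → ℤ) (tht m d) (LA_ex T N) F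
    rw [zero_add] at h4
    exact h4.symm

theorem E3_LA_ex_singleton (v : Fin n) (b : ℕ) : LA_ex {v} b = Pi.single v (b : ℤ) := by
  funext i
  by_cases h : i = v
  · subst h
    simp [LA_ex]
  · simp [LA_ex, h]

theorem E3_LA_ex_insert {v : Fin n} {T : Finset (Fin n)} (hv : v ∉ T) (K : ℕ) :
    LA_ex (insert v T) K = LA_ex {v} K + LA_ex T K := by
  funext i
  by_cases h : i = v
  · subst h
    simp [LA_ex, hv]
  · simp [LA_ex, h]

theorem liU_Loc_kill {T : Finset (Fin n)} {D w : ℤ} (hw : w = 2 + ∑ j ∈ Finset.range m, (d j : ℤ))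
    {F : Lau n} (hF : F ∈ Loc ⊤ T D) (v : Fin (n + (m + 3))) (hv : n ≤ (v : ℕ)) :
    liU (tht m d) F ∈ Loc (MM n m g d) (insert v (imT (m + 3) T)) (D + w) := by
  have hv' : v ∉ imT (m + 3) T := by
    simp only [imT, Finset.mem_map, Fin.castAddEmb_apply]
    rintro ⟨a, ha, h⟩
    have h1 := congrArg Fin.val h
    simp only [Fin.val_castAdd] at h1
    have := a.2
    omega
  obtain ⟨h1, N, G, _, h2⟩ := LA_mem.mp hF
  obtain ⟨b, q, hq, h3⟩ := liU_kill (g := g) (d := d) G v hv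
  obtain ⟨p1, hp1⟩ := LA_incl_ex ({v} : Finset (Fin (n + (m + 3)))) N
  obtain ⟨p2, hp2⟩ := LA_incl_ex (imT (m + 3) T) b
  refine LA_mem.mpr ⟨fun e he => ?_, N + b, p1 * (p2 * q), ?_, ?_⟩
  · obtain ⟨a, ha, rfl⟩ := liU_supp _ _ _ he
    rw [append_sum, tht_sum, ← hw, h1 a ha]
  · exact Ideal.mul_mem_left _ _ (Ideal.mul_mem_left _ _ hq)
  · have h4 := liU_mono_mul (0 : Fin (m + 3) → ℤ) (tht m d) (LA_ex T N) F
    rw [zero_add, h2, ← LA_ex_imT] at h4
    rw [map_mul, map_mul, hp1, hp2, ← h3, h4, ← E3_LA_ex_singleton, E3_LA_ex_insert hv', LA_ex_add, LA_ex_add]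
    simp only [LA_mono_add]
    ring

end

end Pool.Agent.RegRed
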