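import Mathlib
import Pool.Agent.Lib.MP_724d4c_ag.XLoc
import Pool.Agent.Lib.MP_724d4c_ag.XExtC

/-! Row 724i-ExtA: a pair of new variables `y`, `v`, and the ideal `J + (y v^a)`. -/

set_option autoImplicit false

namespace Pool.Agent.RegRed

open MvPolynomial

noncomputable section

variable {k : ℕ}

/-- the variable `y` of the ring in `k + 2` variables -/
def yy (k : ℕ) : Fin (k + 2) := Fin.natAdd k (0 : Fin 2)

/-- the variable `v` -/
def vv (k : ℕ) : Fin (k + 2) := Fin.natAdd k (1 : Fin 2)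

/-- the ideal `J + (y v^a)` -/
def exS (J : Ideal (MvPolynomial (Fin k) ℂ)) (a : ℕ) : Ideal (MvPolynomial (Fin (k + 2)) ℂ) :=
  J.map (rename (Fin.castAdd 2) : MvPolynomial (Fin k) ℂ →ₐ[ℂ] MvPolynomial (Fin (k + 2)) ℂ) ⊔
    Ideal.span {X (yy k) * X (vv k) ^ a}

/-- the exponent of `y^α v^β` -/
def yvE (α β : ℤ) : Fin 2 → ℤ := ![α, β]

private theorem NExtA_mem {M : ℕ} {T : Finset (Fin k)} {i : Fin k} :
    Fin.castAdd M i ∈ imT M T ↔ i ∈ T := by
  simp only [imT, Finset.mem_map, Fin.castAddEmb_apply]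
  constructor
  · rintro ⟨a, ha, h⟩
    rwa [← Fin.castAdd_injective k M h]
  · intro h
    exact ⟨i, h, rfl⟩

private theorem NExtA_notMem {M : ℕ} {T : Finset (Fin k)} {i : Fin M} : Fin.natAdd k i ∉ imT M T := by
  simp only [imT, Finset.mem_map, Fin.castAddEmb_apply]
  rintro ⟨a, ha, h⟩
  have h1 := congrArg Fin.val h
  simp only [Fin.val_castAdd, Fin.val_natAdd] at h1
  have := a.2
  omega

private theorem NExtA_ne {i : Fin k} {j : Fin 2} : (Fin.castAdd 2 i : Fin (k + 2)) ≠ Fin.natAdd k j := by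
  intro h
  have h1 := congrArg Fin.val h
  simp only [Fin.val_castAdd, Fin.val_natAdd] at h1
  have := i.2
  omega

private theorem NExtA_ex_y (T : Finset (Fin k)) (N : ℕ) :
    LA_ex (insert (yy k) (imT 2 T)) N = (Fin.append (LA_ex T N) (yvE N 0) : Fin (k + 2) → ℤ) := by
  funext i
  refine Fin.addCases (fun i => ?_) (fun i => ?_) i
  · rw [Fin.append_left]
    simp only [LA_ex, Finset.mem_insert, NExtA_mem, yy, NExtA_ne, false_or]
  · rw [Fin.append_right]
    fin_cases i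
    · simp [LA_ex, yy, yvE]
    · have h : (Fin.natAdd k (1 : Fin 2)) ∉ imT 2 T := NExtA_notMem
      simp [LA_ex, yy, yvE, h]

private theorem NExtA_ex_v (T : Finset (Fin k)) (N : ℕ) :
    LA_ex (insert (vv k) (imT 2 T)) N = (Fin.append (LA_ex T N) (yvE 0 N) : Fin (k + 2) → ℤ) := by
  funext i
  refine Fin.addCases (fun i => ?_) (fun i => ?_) i
  · rw [Fin.append_left]
    simp only [LA_ex, Finset.mem_insert, NExtA_mem, vv, NExtA_ne, false_or]
  · rw [Fin.append_right]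
    fin_cases i
    · have h : (Fin.natAdd k (0 : Fin 2)) ∉ imT 2 T := NExtA_notMem
      simp [LA_ex, vv, yvE, h]
    · simp [LA_ex, vv, yvE]

private theorem NExtA_sum (e : Fin k → ℤ) (α β : ℤ) :
    ∑ i, (Fin.append e (yvE α β) : Fin (k + 2) → ℤ) i = ∑ i, e i + (α + β) := by
  rw [append_sum]
  simp [yvE]

private theorem NExtA_add (α β α' β' : ℤ) : yvE α β + yvE α' β' = yvE (α + α') (β + β') := by
  funext i
  fin_cases i <;> rfl

/-- the exponent of `y v^a` -/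
private def NExtA_t (k a : ℕ) : Fin (k + 2) →₀ ℕ := Finsupp.single (yy k) 1 + Finsupp.single (vv k) a

private theorem NExtA_yne : yy k ≠ vv k := by
  intro h
  have h1 := congrArg Fin.val h
  simp [yy, vv] at h1

private theorem NExtA_t_y (a : ℕ) : NExtA_t k a (yy k) = 1 := by
  simp [NExtA_t, (NExtA_yne (k := k)).symm]

private theorem NExtA_t_v (a : ℕ) : NExtA_t k a (vv k) = a := by
  simp [NExtA_t, NExtA_yne (k := k)]

private theorem NExtA_f (a : ℕ) : (X (yy k) * X (vv k) ^ a : MvPolynomial (Fin (k + 2)) ℂ) =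
    monomial (NExtA_t k a) 1 := by
  rw [NExtA_t, X_pow_eq_monomial, X, monomial_mul, one_mul]

/-- The coefficient of `y^α v^β`, `α = 0` or `β < a`, of an element of `J + (y v^a)` is in `J`. Induction on the
ideal (`Submodule.span_induction`), `exU_liU_mul`. -/
theorem exU_exS {J : Ideal (MvPolynomial (Fin k) ℂ)} {a α β : ℕ} (h : α = 0 ∨ β < a)
    (q : MvPolynomial (Fin (k + 2)) ℂ) (hq : q ∈ exS J a) :
    ∃ q' ∈ J, exU (yvE α β) (incl (k + 2) q) = incl k q' := by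
  obtain ⟨q1, h1, q2, h2, rfl⟩ := Submodule.mem_sup.mp hq
  have A : ∀ x ∈ J.map (rename (Fin.castAdd 2) :
      MvPolynomial (Fin k) ℂ →ₐ[ℂ] MvPolynomial (Fin (k + 2)) ℂ),
      ∀ c : MvPolynomial (Fin (k + 2)) ℂ,
      ∃ q' ∈ J, exU (yvE α β) (incl (k + 2) (c * x)) = incl k q' := by
    intro x hx
    unfold Ideal.map at hx
    induction hx using Submodule.span_induction with
    | mem x hx =>
      obtain ⟨j, hj, rfl⟩ := hx
      intro c
      obtain ⟨c', hc'⟩ := exU_incl (yvE α β) c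
      refine ⟨j * c', J.mul_mem_right c' hj, ?_⟩
      rw [mul_comm c, map_mul, map_mul, ← hc', ← exU_liU_mul]
      congr 2
      exact incl_rename j
    | zero =>
      intro c
      exact ⟨0, J.zero_mem, by rw [mul_zero, map_zero, map_zero, exU_zero]⟩
    | add x y _ _ hx hy =>
      intro c
      obtain ⟨p1, hp1, e1⟩ := hx c
      obtain ⟨p2, hp2, e2⟩ := hy c
      exact ⟨p1 + p2, J.add_mem hp1 hp2, by rw [mul_add, map_add, exU_add, e1, e2, map_add]⟩
    | smul b x _ hx =>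
      intro c
      obtain ⟨p1, hp1, e1⟩ := hx (c * b)
      exact ⟨p1, hp1, by rw [← e1, smul_eq_mul, mul_assoc]⟩
  obtain ⟨p, hp, e⟩ := A q1 h1 1
  rw [one_mul] at e
  refine ⟨p, hp, ?_⟩
  obtain ⟨c, rfl⟩ := Ideal.mem_span_singleton'.mp h2
  have hz : exU (yvE α β) (incl (k + 2) (c * (X (yy k) * X (vv k) ^ a))) = 0 := by
    apply AddMonoidAlgebra.coeff_injective
    refine Finsupp.ext fun e => ?_
    rw [exU_coeff]
    by_contra hcon
    obtain ⟨e', he', hea⟩ := incl_support _ _ hcon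
    have h3 : coeff e' (c * (X (yy k) * X (vv k) ^ a)) ≠ 0 := mem_support_iff.1 he'
    rw [NExtA_f, coeff_mul_monomial'] at h3
    have h4 : NExtA_t k a ≤ e' := by
      by_contra hle
      rw [if_neg hle] at h3
      exact h3 rfl
    have hy := h4 (yy k)
    have hv := h4 (vv k)
    rw [NExtA_t_y] at hy
    rw [NExtA_t_v] at hv
    have ey := congrFun hea (yy k)
    have ev := congrFun hea (vv k)
    unfold yy at ey
    unfold vv at ev
    rw [Fin.append_right] at ey ev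
    have ey' : (α : ℤ) = (e' (yy k) : ℤ) := ey
    have ev' : (β : ℤ) = (e' (vv k) : ℤ) := ev
    rcases h with h | h <;> omega
  rw [map_add, exU_add, hz, add_zero, e]

private theorem NExtA_cast {a : ℕ} (ha : 1 ≤ a) : ((a - 1 : ℕ) : ℤ) = (a : ℤ) - 1 := by omega

private theorem NExtA_top {T : Finset (Fin k)} {T' : Finset (Fin (k + 2))} {c : ℤ} {a : ℕ}
    (hT' : ∀ i, i ∉ T → (Fin.castAdd 2 i : Fin (k + 2)) ∉ T') {F : Lau (k + 2)}
    (hF : F ∈ Loc ⊤ T' (c + (a - 1))) : exU (yvE 0 (a - 1)) F ∈ Loc ⊤ T c := by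
  rw [mem_Loc_top] at hF ⊢
  intro e he
  rw [Finsupp.mem_support_iff, exU_coeff] at he
  obtain ⟨h1, h2⟩ := hF _ (Finsupp.mem_support_iff.mpr he)
  refine ⟨fun i hi => ?_, ?_⟩
  · have h3 := h1 (Fin.castAdd 2 i) (hT' i hi)
    rwa [Fin.append_left] at h3
  · rw [NExtA_sum] at h2
    linarith

theorem exU_top_y {T : Finset (Fin k)} {c : ℤ} {a : ℕ} (ha : 1 ≤ a) {F : Lau (k + 2)}
    (hF : F ∈ Loc ⊤ (insert (yy k) (imT 2 T)) (c + (a - 1))) : exU (yvE 0 (a - 1)) F ∈ Loc ⊤ T c := by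
  refine NExtA_top (fun i hi h => ?_) hF
  rcases Finset.mem_insert.mp h with h | h
  · exact NExtA_ne h
  · exact hi (NExtA_mem.mp h)

theorem exU_top_v {T : Finset (Fin k)} {c : ℤ} {a : ℕ} (ha : 1 ≤ a) {F : Lau (k + 2)}
    (hF : F ∈ Loc ⊤ (insert (vv k) (imT 2 T)) (c + (a - 1))) : exU (yvE 0 (a - 1)) F ∈ Loc ⊤ T c := by
  refine NExtA_top (fun i hi h => ?_) hF
  rcases Finset.mem_insert.mp h with h | h
  · exact NExtA_ne h
  · exact hi (NExtA_mem.mp h)

/-- Over `T ∪ {y}`: `x_T^N y^N F = q`, and the coefficient of `y^0 v^{a-1}` in `F` gives the one of `y^N v^{a-1}` in `q`. -/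
theorem exU_Loc_y {J : Ideal (MvPolynomial (Fin k) ℂ)} {T : Finset (Fin k)} {c : ℤ} {a : ℕ} (ha : 1 ≤ a)
    {F : Lau (k + 2)} (hF : F ∈ Loc (exS J a) (insert (yy k) (imT 2 T)) (c + (a - 1))) :
    exU (yvE 0 (a - 1)) F ∈ Loc J T c := by
  obtain ⟨h1, N, G, hG, h2⟩ := LA_mem.mp hF
  refine LA_mem.mpr ⟨fun e he => ?_, N, ?_⟩
  · rw [exU_coeff] at he
    have h3 := h1 _ he
    rw [NExtA_sum] at h3
    linarith
  · obtain ⟨G', hG', h3⟩ := exU_exS (α := N) (β := a - 1) (Or.inr (by omega)) G hG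
    refine ⟨G', hG', ?_⟩
    have h4 := exU_mono_mul (yvE N 0) (yvE 0 (a - 1)) (LA_ex T N) F
    rw [NExtA_add, add_zero, zero_add, ← NExtA_ex_y, h2, ← NExtA_cast ha, h3] at h4
    rw [← NExtA_cast ha]
    exact h4.symm

/-- Over `T ∪ {v}`: the coefficient of `y^0 v^{a-1+N}` in `q`. -/
theorem exU_Loc_v {J : Ideal (MvPolynomial (Fin k) ℂ)} {T : Finset (Fin k)} {c : ℤ} {a : ℕ} (ha : 1 ≤ a)
    {F : Lau (k + 2)} (hF : F ∈ Loc (exS J a) (insert (vv k) (imT 2 T)) (c + (a - 1))) :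
    exU (yvE 0 (a - 1)) F ∈ Loc J T c := by
  obtain ⟨h1, N, G, hG, h2⟩ := LA_mem.mp hF
  refine LA_mem.mpr ⟨fun e he => ?_, N, ?_⟩
  · rw [exU_coeff] at he
    have h3 := h1 _ he
    rw [NExtA_sum] at h3
    linarith
  · obtain ⟨G', hG', h3⟩ := exU_exS (α := 0) (β := N + (a - 1)) (Or.inl rfl) G hG
    refine ⟨G', hG', ?_⟩
    have h4 := exU_mono_mul (yvE 0 N) (yvE 0 (a - 1)) (LA_ex T N) F
    have h5 : ((0 : ℕ) : ℤ) = 0 := rfl
    have h6 : ((N + (a - 1) : ℕ) : ℤ) = (N : ℤ) + ((a : ℤ) - 1) := by omega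
    rw [h5, h6] at h3
    rw [NExtA_add, add_zero, ← NExtA_ex_v, h2, h3] at h4
    exact h4.symm

theorem liU_top_y {T : Finset (Fin k)} {c : ℤ} {a : ℕ} (ha : 1 ≤ a) {F : Lau k} (hF : F ∈ Loc ⊤ T c) :
    liU (yvE 0 (a - 1)) F ∈ Loc ⊤ (insert (yy k) (imT 2 T)) (c + (a - 1)) := by
  rw [mem_Loc_top] at hF ⊢
  intro e he
  rw [Finsupp.mem_support_iff] at he
  obtain ⟨b, hb, rfl⟩ := liU_supp _ _ _ he
  obtain ⟨h1, h2⟩ := hF b (Finsupp.mem_support_iff.mpr hb)
  refine ⟨fun i => ?_, ?_⟩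
  · refine Fin.addCases (fun i hi => ?_) (fun i hi => ?_) i
    · rw [Fin.append_left]
      exact h1 i (fun h => hi (Finset.mem_insert_of_mem (NExtA_mem.mpr h)))
    · rw [Fin.append_right]
      fin_cases i
      · exact le_rfl
      · have h3 : (0 : ℤ) ≤ (a : ℤ) - 1 := by omega
        exact h3
  · rw [NExtA_sum, h2, zero_add]

theorem liU_Loc_y {J : Ideal (MvPolynomial (Fin k) ℂ)} {T : Finset (Fin k)} {c : ℤ} {a : ℕ} (ha : 1 ≤ a)
    {F : Lau k} (hF : F ∈ Loc J T c) :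
    liU (yvE 0 (a - 1)) F ∈ Loc (exS J a) (insert (yy k) (imT 2 T)) (c + (a - 1)) := by
  obtain ⟨h1, N, G, hG, h2⟩ := LA_mem.mp hF
  refine Loc_mono le_rfl (Finset.subset_insert _ _) (LA_mem.mpr ⟨fun e he => ?_, N, ?_⟩)
  · obtain ⟨b, hb, rfl⟩ := liU_supp _ _ _ he
    rw [NExtA_sum, h1 b hb, zero_add]
  · refine ⟨X (vv k) ^ (a - 1) * rename (Fin.castAdd 2) G, ?_, ?_⟩
    · exact Ideal.mul_mem_left _ _ (Ideal.mem_sup_left (Ideal.mem_map_of_mem _ hG))
    · have h4 := liU_mono_mul (0 : Fin 2 → ℤ) (yvE 0 (a - 1)) (LA_ex T N) F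
      rw [zero_add, h2, ← LA_ex_imT] at h4
      have h5 := liU_mono_mul (yvE 0 (a - 1)) (0 : Fin 2 → ℤ) (0 : Fin k → ℤ) (incl k G)
      rw [add_zero, LA_mono_zero, one_mul] at h5
      rw [← h4, h5, map_mul, incl_rename, X_pow_eq_monomial, incl_monomial]
      congr 1
      unfold mono
      congr 1
      funext i
      refine Fin.addCases (fun i => ?_) (fun i => ?_) i
      · rw [Fin.append_left, Finsupp.single_apply, if_neg]
        · rfl
        · exact fun h => NExtA_ne h.symm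
      · rw [Fin.append_right]
        fin_cases i
        · have h6 : (Finsupp.single (vv k) (a - 1) : Fin (k + 2) →₀ ℕ) (yy k) = 0 := by
            rw [Finsupp.single_apply, if_neg (NExtA_yne (k := k)).symm]
          have h7 : yvE 0 ((a : ℤ) - 1) 0 = 0 := rfl
          exact h7.trans (congrArg (Nat.cast : ℕ → ℤ) h6).symm
        · have h6 : (Finsupp.single (vv k) (a - 1) : Fin (k + 2) →₀ ℕ) (vv k) = a - 1 := by
            rw [Finsupp.single_apply, if_pos rfl]
          have h7 : yvE 0 ((a : ℤ) - 1) 1 = (a : ℤ) - 1 := rfl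
          exact h7.trans ((congrArg (Nat.cast : ℕ → ℤ) h6).trans (NExtA_cast ha)).symm

/-- If `y` and `v` are inverted, the ideal is everything: multiply by `y v^a`. -/
theorem Loc_exS_yv {J : Ideal (MvPolynomial (Fin k) ℂ)} {T' : Finset (Fin (k + 2))} {d : ℤ} {a : ℕ}
    (hy : yy k ∈ T') (hv : vv k ∈ T') {F : Lau (k + 2)} (hF : F ∈ Loc ⊤ T' d) :
    F ∈ Loc (exS J a) T' d := by
  obtain ⟨h1, N, G, _, h2⟩ := LA_mem.mp hF
  set s : Fin (k + 2) →₀ ℕ := Finsupp.equivFunOnFinite.symm fun i => if i ∈ T' then a + 1 else 0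
    with hs
  have hsa : ∀ i, s i = if i ∈ T' then a + 1 else 0 := fun i => rfl
  have hle : NExtA_t k a ≤ s := by
    intro i
    rw [hsa]
    by_cases hiy : i = yy k
    · subst hiy
      rw [NExtA_t_y, if_pos hy]
      omega
    · by_cases hiv : i = vv k
      · subst hiv
        rw [NExtA_t_v, if_pos hv]
        omega
      · have h3 : NExtA_t k a i = 0 := by
          simp [NExtA_t, Ne.symm hiy, Ne.symm hiv]
        rw [h3]
        exact Nat.zero_le _
  have hmono : incl (k + 2) (monomial s 1) = mono (LA_ex T' (a + 1)) := by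
    rw [incl_monomial, mono]
    congr 1
    funext i
    rw [hsa]
    by_cases h : i ∈ T' <;> simp [LA_ex, h]
  refine LA_mem.mpr ⟨h1, a + 1 + N, monomial (s - NExtA_t k a) 1 * (X (yy k) * X (vv k) ^ a) * G, ?_, ?_⟩
  · exact Ideal.mul_mem_right _ _ (Ideal.mul_mem_left _ _
      (Ideal.mem_sup_right (Ideal.subset_span (Set.mem_singleton _))))
  · rw [NExtA_f, monomial_mul, one_mul, tsub_add_cancel_of_le hle, map_mul, hmono, ← h2, LA_ex_add,
      LA_mono_add, mul_assoc]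

end

end Pool.Agent.RegRed
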