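import Mathlib
import Pool.Agent.Lib.MP_724d4c_ag.NExtA
import Pool.Agent.Lib.MP_724d4c_ag.Step

/-! Row 724i-ExtB: cochains of the ring in `k + 2` variables. -/

set_option autoImplicit false

namespace Pool.Agent.RegRed

open MvPolynomial

noncomputable section

variable {k : ℕ}

theorem yy_notMem (T : Finset (Fin k)) : yy k ∉ imT 2 T := by
  unfold yy
  exact E3_natAdd_notMem_imT

private theorem NExtB_vv_notMem (T : Finset (Fin k)) : vv k ∉ imT 2 T := by
  unfold vv
  exact E3_natAdd_notMem_imT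

private theorem NExtB_vv_ne_yy : vv k ≠ yy k := by
  unfold vv yy
  intro h
  have := congrArg Fin.val h
  simp at this

theorem vv_notMem (T : Finset (Fin k)) : vv k ∉ insert (yy k) (imT 2 T) := by
  rw [Finset.mem_insert, not_or]
  exact ⟨NExtB_vv_ne_yy, NExtB_vv_notMem T⟩

private theorem NExtB_lt_natAdd (i : Fin k) (j : Fin 2) : Fin.castAdd 2 i < Fin.natAdd k j := by
  rw [Fin.lt_def]
  simp only [Fin.val_castAdd, Fin.val_natAdd]
  have := i.2
  omega

private theorem NExtB_delta_insert (j : Fin 2) (c : Finset (Fin (k + 2)) → Lau (k + 2))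
    (T : Finset (Fin k)) :
    delta c (insert (Fin.natAdd k j) (imT 2 T)) =
      delta (fun T' : Finset (Fin k) => c (insert (Fin.natAdd k j) (imT 2 T'))) T +
        ((-1 : ℂ) ^ T.card) • c (imT 2 T) := by
  have hz : Fin.natAdd k j ∉ imT 2 T := E3_natAdd_notMem_imT
  have h1 : sgn (Fin.natAdd k j) (insert (Fin.natAdd k j) (imT 2 T)) = (-1 : ℂ) ^ T.card := by
    unfold sgn
    congr 1
    rw [← imT_card (M := 2) T]
    congr 1
    ext x
    rw [Finset.mem_filter, Finset.mem_insert]
    constructor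
    · rintro ⟨hx | hx, h⟩
      · rw [hx] at h
        exact absurd h (lt_irrefl _)
      · exact hx
    · intro hx
      refine ⟨Or.inr hx, ?_⟩
      unfold imT at hx
      rw [Finset.mem_map] at hx
      obtain ⟨a, _, rfl⟩ := hx
      exact NExtB_lt_natAdd a j
  have h2 : ∀ i : Fin k, sgn (Fin.castAdd 2 i) (insert (Fin.natAdd k j) (imT 2 T)) = sgn i T := by
    intro i
    rw [← imT_sgn (M := 2) T i]
    unfold sgn
    congr 2
    rw [Finset.filter_insert, if_neg (not_lt.2 (NExtB_lt_natAdd i j).le)]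
  have h3 : ∀ i : Fin k, (insert (Fin.natAdd k j) (imT 2 T)).erase (Fin.castAdd 2 i) =
      insert (Fin.natAdd k j) (imT 2 (T.erase i)) := by
    intro i
    rw [Finset.erase_insert_of_ne (NExtB_lt_natAdd i j).ne', imT_erase]
  unfold delta
  rw [Finset.sum_insert hz, h1, Finset.erase_insert hz]
  refine (add_comm _ _).trans ?_
  congr 1
  have h4 : ∀ f : Fin (k + 2) → Lau (k + 2),
      ∑ v ∈ imT 2 T, f v = ∑ i ∈ T, f (Fin.castAdd 2 i) := by
    intro f
    unfold imT
    rw [Finset.sum_map]
    rfl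
  rw [h4]
  refine Finset.sum_congr rfl fun i _ => ?_
  rw [h2, h3]

/-- `δ c (T ∪ {y}) = Σ_{i ∈ T} ± c (T \ i ∪ {y}) + (-1)^|T| c(T)`; for a variable `z` after all variables of `T`. -/
theorem delta_insert_y (c : Finset (Fin (k + 2)) → Lau (k + 2)) (T : Finset (Fin k)) :
    delta c (insert (yy k) (imT 2 T)) =
      delta (fun T' : Finset (Fin k) => c (insert (yy k) (imT 2 T'))) T +
        ((-1 : ℂ) ^ T.card) • c (imT 2 T) :=
  NExtB_delta_insert 0 c T

theorem delta_insert_v (c : Finset (Fin (k + 2)) → Lau (k + 2)) (T : Finset (Fin k)) :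
    delta c (insert (vv k) (imT 2 T)) =
      delta (fun T' : Finset (Fin k) => c (insert (vv k) (imT 2 T'))) T +
        ((-1 : ℂ) ^ T.card) • c (imT 2 T) :=
  NExtB_delta_insert 1 c T

/-- The cochain that is `v^{a-1} g(T)` on `T ∪ {y}` and `0` on all other sets. -/
def exG (θ : Fin 2 → ℤ) (g : Finset (Fin k) → Lau k) (T' : Finset (Fin (k + 2))) : Lau (k + 2) :=
  if T' = insert (yy k) (imT 2 (Finset.univ.filter fun i => Fin.castAdd 2 i ∈ T')) then
    liU θ (g (Finset.univ.filter fun i => Fin.castAdd 2 i ∈ T')) else 0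

private theorem NExtB_pre (T : Finset (Fin k)) :
    (Finset.univ.filter fun i => Fin.castAdd 2 i ∈ insert (yy k) (imT 2 T)) = T := by
  ext i
  rw [Finset.mem_filter, Finset.mem_insert, E3_mem_imT]
  constructor
  · rintro ⟨_, h | h⟩
    · exact absurd h (NExtB_lt_natAdd i 0).ne
    · exact h
  · intro h
    exact ⟨Finset.mem_univ _, Or.inr h⟩

theorem exG_y (θ : Fin 2 → ℤ) (g : Finset (Fin k) → Lau k) (T : Finset (Fin k)) :
    exG θ g (insert (yy k) (imT 2 T)) = liU θ (g T) := by
  unfold exG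
  rw [NExtB_pre, if_pos rfl]

theorem exG_of_not (θ : Fin 2 → ℤ) (g : Finset (Fin k) → Lau k) {T' : Finset (Fin (k + 2))}
    (h : ∀ T, T' ≠ insert (yy k) (imT 2 T)) : exG θ g T' = 0 := by
  unfold exG
  rw [if_neg (h _)]

/-- If `T'` does not contain `y`, then `δ` of `exG` vanishes on `T'`. -/
theorem delta_exG_of_notMem (θ : Fin 2 → ℤ) (g : Finset (Fin k) → Lau k) {T' : Finset (Fin (k + 2))}
    (h : yy k ∉ T') : delta (exG θ g) T' = 0 := by
  unfold delta
  refine Finset.sum_eq_zero fun i _ => ?_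
  rw [exG_of_not, smul_zero]
  intro T hT
  apply h
  have h1 : yy k ∈ T'.erase i := by
    rw [hT]
    exact Finset.mem_insert_self _ _
  exact Finset.mem_of_mem_erase h1

theorem delta_exG_y (θ : Fin 2 → ℤ) (g : Finset (Fin k) → Lau k) (T : Finset (Fin k)) :
    delta (exG θ g) (insert (yy k) (imT 2 T)) = liU θ (delta g T) := by
  rw [delta_insert_y, exG_of_not (T' := imT 2 T), smul_zero, add_zero, liU_delta]
  · congr 1
    funext T'
    exact exG_y θ g T'
  · intro T1 hT1
    apply yy_notMem T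
    rw [hT1]
    exact Finset.mem_insert_self _ _

/-- A set of variables that contains `y` and not `v` is `T ∪ {y}`. -/
theorem eq_insert_y {T' : Finset (Fin (k + 2))} (hy : yy k ∈ T') (hv : vv k ∉ T') :
    ∃ T : Finset (Fin k), T' = insert (yy k) (imT 2 T) := by
  refine ⟨Finset.univ.filter fun i => Fin.castAdd 2 i ∈ T', ?_⟩
  ext j
  rw [Finset.mem_insert]
  refine Fin.addCases (fun i => ?_) (fun i => ?_) j
  · rw [E3_mem_imT, Finset.mem_filter]
    constructor
    · intro h
      exact Or.inr ⟨Finset.mem_univ _, h⟩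
    · rintro (h | h)
      · exact absurd h (NExtB_lt_natAdd i 0).ne
      · exact h.2
  · constructor
    · intro h
      left
      fin_cases i
      · rfl
      · exact absurd h hv
    · rintro (h | h)
      · rw [h]
        exact hy
      · exact absurd h E3_natAdd_notMem_imT

end

end Pool.Agent.RegRed
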