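import Mathlib
import Pool.Agent.Lib.MP_724d4c_ag.NExtB

/-! Row 724i-Ext: extraction of a pair. -/

set_option autoImplicit false

namespace Pool.Agent.RegRed

open MvPolynomial

noncomputable section

variable {k : ℕ}

private theorem NExt_exU_delta (θ : Fin 2 → ℤ) (c : Finset (Fin k) → Lau (k + 2)) (T : Finset (Fin k)) :
    exU θ (delta c T) = delta (fun T' => exU θ (c T')) T := by
  unfold delta
  have hsum : ∀ (s : Finset (Fin k)) (f : Fin k → Lau (k + 2)),
      exU θ (∑ i ∈ s, f i) = ∑ i ∈ s, exU θ (f i) := by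
    intro s f
    classical
    induction s using Finset.induction_on with
    | empty => rw [Finset.sum_empty, Finset.sum_empty, exU_zero]
    | insert a s ha ih => rw [Finset.sum_insert ha, Finset.sum_insert ha, exU_add, ih]
  rw [hsum]
  refine Finset.sum_congr rfl fun i _ => ?_
  rw [exU_smul]

/-- Proof. Given `g`, `G = exG θ g`, `θ = (0, a - 1)`. `δ G` is in `J + (y v^a)` on sets of `p + 2` variables: `0` if `y ∉ T'`,
`Loc_exS_yv` if `y, v ∈ T'`, and `v^{a-1} δ g (T)` on `T ∪ {y}`. So `G - δ H` is in `J + (y v^a)`. Take `exU θ` on `T ∪ {y}`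
and on `T ∪ {v}` (there `G = 0`) and subtract: the terms `(-1)^p H(T)` cancel;
`h(T) = exU θ (H (T ∪ {y})) - exU θ (H (T ∪ {v}))`. -/
theorem ext_step {J : Ideal (MvPolynomial (Fin k) ℂ)} {a : ℕ} (ha : 1 ≤ a) {p : ℕ} {c : ℤ}
    (h : Van (exS J a) (p + 1) (c + (a - 1))) : Van J p c := by
  intro g hg hδ
  set θ : Fin 2 → ℤ := yvE 0 (a - 1) with hθ
  have hcy : ∀ T : Finset (Fin k), (insert (yy k) (imT 2 T)).card = T.card + 1 := by
    intro T
    rw [Finset.card_insert_of_notMem (yy_notMem T), imT_card]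
  have hvn : ∀ T : Finset (Fin k), vv k ∉ imT 2 T := fun T hT =>
    vv_notMem T (Finset.mem_insert_of_mem hT)
  have hcv : ∀ T : Finset (Fin k), (insert (vv k) (imT 2 T)).card = T.card + 1 := by
    intro T
    rw [Finset.card_insert_of_notMem (hvn T), imT_card]
  have hG : ∀ T', T'.card = p + 1 → exG θ g T' ∈ Loc ⊤ T' (c + (a - 1)) := by
    intro T' hT'
    by_cases hex : ∃ T, T' = insert (yy k) (imT 2 T)
    · obtain ⟨T, rfl⟩ := hex
      rw [exG_y]
      rw [hcy] at hT'
      exact liU_top_y ha (hg T (by omega))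
    · push Not at hex
      rw [exG_of_not θ g hex]
      exact Loc_zero _ _ _
  obtain ⟨H, hH1, hH2⟩ := h (exG θ g) hG (by
    intro T' hT'
    by_cases hy : yy k ∈ T'
    · by_cases hv : vv k ∈ T'
      · exact Loc_exS_yv hy hv (delta_mem (exG θ g) hG T' hT')
      · obtain ⟨T, rfl⟩ := eq_insert_y hy hv
        rw [delta_exG_y]
        rw [hcy] at hT'
        exact liU_Loc_y ha (hδ T (by omega))
    · rw [delta_exG_of_notMem θ g hy]
      exact Loc_zero _ _ _)
  refine ⟨fun T => exU θ (H (insert (yy k) (imT 2 T))) - exU θ (H (insert (vv k) (imT 2 T))),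
    fun T hT => ?_, fun T hT => ?_⟩
  · refine Loc_sub (exU_top_y ha (hH1 _ ?_)) (exU_top_v ha (hH1 _ ?_))
    · rw [hcy]; omega
    · rw [hcv]; omega
  · have h1 := exU_Loc_y ha (hH2 (insert (yy k) (imT 2 T)) (by rw [hcy]; omega))
    have h2 := exU_Loc_v ha (hH2 (insert (vv k) (imT 2 T)) (by rw [hcv]; omega))
    rw [← hθ] at h1 h2
    have hne : ∀ T₁, insert (vv k) (imT 2 T) ≠ insert (yy k) (imT 2 T₁) := by
      intro T₁ he
      apply vv_notMem T₁
      rw [← he]
      exact Finset.mem_insert_self _ _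
    rw [exU_sub, exG_y, exU_liU, delta_insert_y, exU_add, exU_smul, NExt_exU_delta] at h1
    rw [exU_sub, exG_of_not θ g hne, exU_zero, delta_insert_v, exU_add, exU_smul,
      NExt_exU_delta] at h2
    have h3 := Loc_sub h1 h2
    have h4 : g T - delta (fun T => exU θ (H (insert (yy k) (imT 2 T))) -
        exU θ (H (insert (vv k) (imT 2 T)))) T =
        g T - (delta (fun T' => exU θ (H (insert (yy k) (imT 2 T')))) T +
          ((-1 : ℂ) ^ T.card) • exU θ (H (imT 2 T))) -
        (0 - (delta (fun T' => exU θ (H (insert (vv k) (imT 2 T')))) T +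
          ((-1 : ℂ) ^ T.card) • exU θ (H (imT 2 T)))) := by
      rw [ST_delta_sub]
      abel
    rw [h4]
    exact h3

/-- `k` pairs -/
def exJ {n : ℕ} (J : Ideal (MvPolynomial (Fin n) ℂ)) (a : ℕ → ℕ) :
    (k : ℕ) → Ideal (MvPolynomial (Fin (n + 2 * k)) ℂ)
  | 0 => J
  | k + 1 => exS (exJ J a k) (a k)

theorem ext_iter {n : ℕ} {J : Ideal (MvPolynomial (Fin n) ℂ)} {a : ℕ → ℕ} (k : ℕ)
    (ha : ∀ j, j < k → 1 ≤ a j) {p : ℕ} {c : ℤ}
    (h : Van (exJ J a k) (p + k) (c + ∑ j ∈ Finset.range k, ((a j : ℤ) - 1))) : Van J p c := by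
  induction k with
  | zero => simpa [exJ] using h
  | succ k ih =>
    refine ih (fun j hj => ha j (by omega)) ?_
    refine ext_step (a := a k) (ha k (by omega)) ?_
    rw [Finset.sum_range_succ] at h
    have e1 : c + (∑ j ∈ Finset.range k, ((a j : ℤ) - 1) + ((a k : ℤ) - 1)) =
        c + ∑ j ∈ Finset.range k, ((a j : ℤ) - 1) + ((a k : ℤ) - 1) := by ring
    rw [e1] at h
    exact h

/-- the form `y_j v_j^{a_j}`, `j < k` -/
def FJ (n k : ℕ) (a : ℕ → ℕ) (j : ℕ) : MvPolynomial (Fin (n + 2 * k)) ℂ :=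
  if h : j < k then X ⟨n + 2 * j, by omega⟩ * X ⟨n + 2 * j + 1, by omega⟩ ^ a j else 0

theorem exJ_span {n : ℕ} (A : Set (MvPolynomial (Fin n) ℂ)) (a : ℕ → ℕ) (k : ℕ) :
    exJ (Ideal.span A) a k = Ideal.span
      ({p | ∃ f ∈ A, p = rename (Fin.castAdd (2 * k)) f} ∪ {p | ∃ j, j < k ∧ p = FJ n k a j}) := by
  induction k with
  | zero =>
    change Ideal.span A = _
    congr 1
    ext f
    have h0 : ∀ q : MvPolynomial (Fin n) ℂ,
        (rename (Fin.castAdd (2 * 0)) q : MvPolynomial (Fin (n + 2 * 0)) ℂ) = q := by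
      intro q
      have h1 : (Fin.castAdd (2 * 0) : Fin n → Fin (n + 2 * 0)) = id := by
        funext i
        rfl
      rw [h1]
      exact rename_id_apply q
    constructor
    · intro hf
      exact Or.inl ⟨f, hf, (h0 f).symm⟩
    · rintro (⟨q, hq, hf⟩ | ⟨j, hj, _⟩)
      · rw [h0] at hf
        rw [hf]
        exact hq
      · exact absurd hj (Nat.not_lt_zero j)
  | succ k ih =>
    change exS (exJ (Ideal.span A) a k) (a k) = _
    unfold exS
    rw [ih, Ideal.map_span, ← Ideal.span_union]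
    have hren : ∀ f : MvPolynomial (Fin n) ℂ,
        rename (Fin.castAdd 2) (rename (Fin.castAdd (2 * k)) f) =
          (rename (Fin.castAdd (2 * (k + 1))) f : MvPolynomial (Fin (n + 2 * (k + 1))) ℂ) := by
      intro f
      rw [rename_rename]
      rfl
    have hFJ : ∀ j, j < k → rename (Fin.castAdd 2) (FJ n k a j) = FJ n (k + 1) a j := by
      intro j hj
      unfold FJ
      rw [dif_pos hj, dif_pos (by omega : j < k + 1), map_mul, map_pow, rename_X, rename_X]
      rfl
    have hFk : X (yy (n + 2 * k)) * X (vv (n + 2 * k)) ^ a k = FJ n (k + 1) a k := by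
      unfold FJ
      rw [dif_pos (by omega : k < k + 1)]
      rfl
    congr 1
    ext f
    constructor
    · rintro (⟨q, ⟨f', hf', rfl⟩ | ⟨j, hj, rfl⟩, rfl⟩ | rfl)
      · exact Or.inl ⟨f', hf', hren f'⟩
      · exact Or.inr ⟨j, by omega, hFJ j hj⟩
      · exact Or.inr ⟨k, by omega, hFk⟩
    · rintro (⟨f', hf', rfl⟩ | ⟨j, hj, rfl⟩)
      · exact Or.inl ⟨_, Or.inl ⟨f', hf', rfl⟩, hren f'⟩
      · by_cases hjk : j = k
        · subst hjk
          exact Or.inr hFk.symm
        · exact Or.inl ⟨_, Or.inr ⟨j, by omega, rfl⟩, hFJ j (by omega)⟩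

end

end Pool.Agent.RegRed
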