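import Mathlib
import Pool.Agent.Lib.MP_724d4c_ag.Nzd

/-! Row 724i-Nzd: forms `y v^a - f` with new variables `y`, `v` are nonzerodivisors. -/

set_option autoImplicit false

namespace Pool.Agent.RegRed

open MvPolynomial

noncomputable section

variable {σ : Type}

open Classical in
private def nnPhi (v : σ) : MvPolynomial σ ℂ →ₐ[ℂ] Polynomial (MvPolynomial σ ℂ) :=
  MvPolynomial.aeval (fun i => if i = v then Polynomial.X else Polynomial.C (X i))

private lemma nnPhi_of_notMem (v : σ) {g : MvPolynomial σ ℂ} (hg : v ∉ g.vars) :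
    nnPhi v g = Polynomial.C g := by
  have h := MvPolynomial.hom_congr_vars
    (f₁ := (nnPhi v : MvPolynomial σ ℂ →+* Polynomial (MvPolynomial σ ℂ)))
    (f₂ := (Polynomial.C : MvPolynomial σ ℂ →+* Polynomial (MvPolynomial σ ℂ)))
    (p₁ := g) (p₂ := g) ?_ ?_ rfl
  · exact h
  · ext a
    simp [nnPhi]
  · intro i hi _
    have hne : i ≠ v := fun h => hg (h ▸ hi)
    simp [nnPhi, hne]

private lemma nnPhi_X (v : σ) : nnPhi v (X v) = Polynomial.X := by
  simp [nnPhi]

private lemma nnPhi_eval (v : σ) (g : MvPolynomial σ ℂ) : (nnPhi v g).eval (X v) = g := by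
  have h : ((Polynomial.evalRingHom (X v : MvPolynomial σ ℂ)).comp
      (nnPhi v : MvPolynomial σ ℂ →+* Polynomial (MvPolynomial σ ℂ))) = RingHom.id _ := by
    apply MvPolynomial.ringHom_ext
    · intro a
      have : (nnPhi v) (C a) = Polynomial.C (C a) := by
        simp [nnPhi]
      simp [this]
    · intro i
      by_cases hi : i = v
      · subst hi
        simp [nnPhi]
      · simp [nnPhi, hi]
  exact congrArg (fun f : MvPolynomial σ ℂ →+* MvPolynomial σ ℂ => f g) h

private lemma nnPhi_mem (v : σ) (A : Set (MvPolynomial σ ℂ)) (hA : ∀ g ∈ A, v ∉ g.vars)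
    {g : MvPolynomial σ ℂ} (hg : g ∈ Ideal.span A) :
    nnPhi v g ∈ (Ideal.span A).map
      (Polynomial.C : MvPolynomial σ ℂ →+* Polynomial (MvPolynomial σ ℂ)) := by
  have h1 : Ideal.map (nnPhi v : MvPolynomial σ ℂ →+* Polynomial (MvPolynomial σ ℂ)) (Ideal.span A) ≤
      (Ideal.span A).map Polynomial.C := by
    rw [Ideal.map_span, Ideal.span_le]
    rintro _ ⟨a, ha, rfl⟩
    have : (nnPhi v : MvPolynomial σ ℂ →+* Polynomial (MvPolynomial σ ℂ)) a = Polynomial.C a :=
      nnPhi_of_notMem v (hA a ha)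
    rw [this]
    exact Ideal.mem_map_of_mem _ (Ideal.subset_span ha)
  exact h1 (Ideal.mem_map_of_mem _ hg)

private lemma nn_eval_mem {K : Ideal (MvPolynomial σ ℂ)} {p : Polynomial (MvPolynomial σ ℂ)}
    (hp : ∀ n, p.coeff n ∈ K) (x : MvPolynomial σ ℂ) : p.eval x ∈ K := by
  rw [Polynomial.eval_eq_sum, Polynomial.sum]
  exact Ideal.sum_mem _ (fun n _ => Ideal.mul_mem_right _ _ (hp n))

private lemma nn_map_zero_iff {K : Ideal (MvPolynomial σ ℂ)} {p : Polynomial (MvPolynomial σ ℂ)} :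
    p.map (Ideal.Quotient.mk K) = 0 ↔ ∀ n, p.coeff n ∈ K := by
  constructor
  · intro h n
    have := congrArg (fun q => Polynomial.coeff q n) h
    simp only [Polynomial.coeff_map, Polynomial.coeff_zero] at this
    exact Ideal.Quotient.eq_zero_iff_mem.mp this
  · intro h
    ext n
    rw [Polynomial.coeff_map, Polynomial.coeff_zero]
    exact Ideal.Quotient.eq_zero_iff_mem.mpr (h n)

private lemma nnPhi_map_zero (v : σ) (A : Set (MvPolynomial σ ℂ)) (hA : ∀ g ∈ A, v ∉ g.vars)
    {g : MvPolynomial σ ℂ} (hg : g ∈ Ideal.span A) :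
    (nnPhi v g).map (Ideal.Quotient.mk (Ideal.span A)) = 0 :=
  nn_map_zero_iff.mpr (Ideal.mem_map_C_iff.mp (nnPhi_mem v A hA hg))

/-- a linear polynomial whose leading coefficient is a nonzerodivisor is a nonzerodivisor -/
private lemma nn_lin_reg {R : Type} [CommRing R] (G f : R) (hG : ∀ c : R, G * c = 0 → c = 0)
    (q : Polynomial R) (h : (Polynomial.X * Polynomial.C G - Polynomial.C f) * q = 0) : q = 0 := by
  by_contra hq
  have hlc : q.leadingCoeff ≠ 0 := fun h0 => hq (Polynomial.leadingCoeff_eq_zero.mp h0)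
  have hcoef : ((Polynomial.X * Polynomial.C G - Polynomial.C f) * q).coeff (q.natDegree + 1) =
      G * q.leadingCoeff := by
    rw [sub_mul, Polynomial.coeff_sub, mul_assoc, Polynomial.coeff_X_mul, Polynomial.coeff_C_mul,
      Polynomial.coeff_C_mul, Polynomial.coeff_eq_zero_of_natDegree_lt (Nat.lt_succ_self _),
      mul_zero, sub_zero]
    rfl
  rw [h, Polynomial.coeff_zero] at hcoef
  exact hlc (hG _ hcoef.symm)

/-- Polynomials linear in `v` whose leading coefficient is a nonzerodivisor. Proof as `nzd_monic`: in `(S/K)[Z]` the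
leading coefficient of a product with `G Z - f0` is `G` times the leading coefficient. -/
theorem nzd_lin (v : σ) (A : Set (MvPolynomial σ ℂ)) (hA : ∀ g ∈ A, v ∉ g.vars)
    (G f0 : MvPolynomial σ ℂ) (hG : v ∉ G.vars) (hf0 : v ∉ f0.vars)
    (hn : ∀ g, G * g ∈ Ideal.span A → g ∈ Ideal.span A) (g : MvPolynomial σ ℂ)
    (hg : (X v * G - f0) * g ∈ Ideal.span A) : g ∈ Ideal.span A := by
  have h := nnPhi_map_zero v A hA hg
  rw [map_mul, map_sub, map_mul, nnPhi_X, nnPhi_of_notMem v hf0, nnPhi_of_notMem v hG,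
    Polynomial.map_mul, Polynomial.map_sub, Polynomial.map_mul, Polynomial.map_X,
    Polynomial.map_C, Polynomial.map_C] at h
  have hreg : ∀ c : MvPolynomial σ ℂ ⧸ Ideal.span A,
      Ideal.Quotient.mk (Ideal.span A) G * c = 0 → c = 0 := by
    intro c hc
    obtain ⟨r, rfl⟩ := Ideal.Quotient.mk_surjective c
    rw [← map_mul] at hc
    exact Ideal.Quotient.eq_zero_iff_mem.mpr (hn r (Ideal.Quotient.eq_zero_iff_mem.mp hc))
  have h2 := nn_lin_reg _ _ hreg _ h
  have h3 := nn_eval_mem (nn_map_zero_iff.mp h2) (X v)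
  rwa [nnPhi_eval] at h3

theorem nzd_pair (y v : σ) (hyv : y ≠ v) (A : Set (MvPolynomial σ ℂ)) (hAy : ∀ g ∈ A, y ∉ g.vars)
    (hAv : ∀ g ∈ A, v ∉ g.vars) (f0 : MvPolynomial σ ℂ) (hf0 : y ∉ f0.vars) (a : ℕ)
    (g : MvPolynomial σ ℂ) (hg : (X y * X v ^ a - f0) * g ∈ Ideal.span A) : g ∈ Ideal.span A := by
  have hvars : y ∉ (X v ^ a : MvPolynomial σ ℂ).vars := by
    intro h
    have h1 := MvPolynomial.vars_pow (X v : MvPolynomial σ ℂ) a h
    rw [MvPolynomial.vars_X, Finset.mem_singleton] at h1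
    exact hyv h1
  refine nzd_lin y A hAy (X v ^ a) f0 hvars hf0 (fun g' hg' => ?_) g hg
  rcases Nat.eq_zero_or_pos a with ha | ha
  · subst ha
    simpa using hg'
  · refine nzd_monic v A hAv 0 (by simp) a ha g' ?_
    simpa using hg'

end

end Pool.Agent.RegRed
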