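import Mathlib
import Pool.Agent.Lib.MP_724d4c_ag.NVan
import Pool.Agent.Lib.MP_724d4c_ag.NNzd

/-! Row 724i-Tow: towers `(A) + ((y_0 v_0^{a_0} - c_0)^{s_0}, …)`. -/

set_option autoImplicit false

namespace Pool.Agent.RegRed

open MvPolynomial

noncomputable section

variable {N : ℕ}

/-- `y_i v_i^{a_i} - c_i` -/
def ptF (y v : ℕ → Fin N) (a : ℕ → ℕ) (c : ℕ → MvPolynomial (Fin N) ℂ) (i : ℕ) :
    MvPolynomial (Fin N) ℂ := X (y i) * X (v i) ^ a i - c i

/-- the generators of the tower -/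
def ptS (A : Set (MvPolynomial (Fin N) ℂ)) (y v : ℕ → Fin N) (a : ℕ → ℕ)
    (c : ℕ → MvPolynomial (Fin N) ℂ) (s : ℕ → ℕ) (k : ℕ) : Set (MvPolynomial (Fin N) ℂ) :=
  A ∪ {p | ∃ i, i < k ∧ p = ptF y v a c i ^ s i}

/-- the ideal of the tower -/
def pt (A : Set (MvPolynomial (Fin N) ℂ)) (y v : ℕ → Fin N) (a : ℕ → ℕ)
    (c : ℕ → MvPolynomial (Fin N) ℂ) (s : ℕ → ℕ) (k : ℕ) : Ideal (MvPolynomial (Fin N) ℂ) :=
  Ideal.span (ptS A y v a c s k)

/-- the variables `y_j`, `v_j`, `j < L`, are different and do not occur in `A` and in the `c_i` -/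
structure PtFree (A : Set (MvPolynomial (Fin N) ℂ)) (y v : ℕ → Fin N)
    (c : ℕ → MvPolynomial (Fin N) ℂ) (L : ℕ) : Prop where
  yy : ∀ i j, i < L → j < L → y i = y j → i = j
  vv : ∀ i j, i < L → j < L → v i = v j → i = j
  yv : ∀ i j, i < L → j < L → y i ≠ v j
  Ay : ∀ g ∈ A, ∀ j, j < L → y j ∉ g.vars
  Av : ∀ g ∈ A, ∀ j, j < L → v j ∉ g.vars
  cy : ∀ i, i < L → ∀ j, j < L → y j ∉ (c i).vars
  cv : ∀ i, i < L → ∀ j, j < L → v j ∉ (c i).vars

variable {A : Set (MvPolynomial (Fin N) ℂ)} {y v : ℕ → Fin N} {a : ℕ → ℕ}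
  {c : ℕ → MvPolynomial (Fin N) ℂ} {s : ℕ → ℕ} {L : ℕ}

theorem ptS_zero : ptS A y v a c s 0 = A := by
  unfold ptS
  simp

theorem ptS_succ (k : ℕ) : ptS A y v a c s (k + 1) = ptS A y v a c s k ∪ {ptF y v a c k ^ s k} := by
  unfold ptS
  ext p
  simp only [Set.mem_union, Set.mem_ofPred_eq, Set.mem_singleton_iff]
  constructor
  · rintro (h | ⟨i, hi, rfl⟩)
    · exact Or.inl (Or.inl h)
    · rcases Nat.lt_succ_iff_lt_or_eq.mp hi with h | rfl
      · exact Or.inl (Or.inr ⟨i, h, rfl⟩)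
      · exact Or.inr rfl
  · rintro ((h | ⟨i, hi, rfl⟩) | rfl)
    · exact Or.inl h
    · exact Or.inr ⟨i, by omega, rfl⟩
    · exact Or.inr ⟨k, by omega, rfl⟩

theorem pt_zero : pt A y v a c s 0 = Ideal.span A := by
  rw [pt, ptS_zero]

theorem pt_succ (k : ℕ) :
    pt A y v a c s (k + 1) = pt A y v a c s k ⊔ Ideal.span {ptF y v a c k ^ s k} := by
  rw [pt, ptS_succ, Ideal.span_union]
  rfl

private theorem NTow_ptF_vars (i : ℕ) {z : Fin N} (h1 : z ≠ y i) (h2 : z ≠ v i)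
    (h3 : z ∉ (c i).vars) : z ∉ (ptF y v a c i).vars := by
  classical
  intro hv
  rw [ptF] at hv
  rcases Finset.mem_union.mp (vars_sub_subset _ hv) with h | h
  · rcases Finset.mem_union.mp (vars_mul _ _ h) with h | h
    · rw [vars_X, Finset.mem_singleton] at h
      exact h1 h
    · have h4 := vars_pow _ _ h
      rw [vars_X, Finset.mem_singleton] at h4
      exact h2 h4
  · exact h3 h

/-- As `towS_free`. -/
theorem ptS_free (h : PtFree A y v c L) {k j : ℕ} (hk : k ≤ j) (hj : j < L) :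
    ∀ g ∈ ptS A y v a c s k, y j ∉ g.vars ∧ v j ∉ g.vars := by
  rintro g (hg | ⟨i, hi, rfl⟩)
  · exact ⟨h.Ay g hg j hj, h.Av g hg j hj⟩
  · constructor
    · intro hv
      refine NTow_ptF_vars (a := a) (y := y) (v := v) (c := c) i (z := y j) (fun e => ?_) (h.yv j i hj (by omega))
        (h.cy i (by omega) j hj) (vars_pow _ _ hv)
      have := h.yy j i hj (by omega) e
      omega
    · intro hv
      refine NTow_ptF_vars (a := a) (y := y) (v := v) (c := c) i (z := v j)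
        (fun e => h.yv i j (by omega) hj e.symm) (fun e => ?_) (h.cv i (by omega) j hj) (vars_pow _ _ hv)
      have := h.vv j i hj (by omega) e
      omega

/-- As `tow_nzd`, with `nzd_pair`. -/
theorem pt_nzd (h : PtFree A y v c L) {k : ℕ} (hk : k < L) (g : MvPolynomial (Fin N) ℂ)
    (hg : ptF y v a c k ^ s k * g ∈ pt A y v a c s k) : g ∈ pt A y v a c s k := by
  have h1 := ptS_free (a := a) (s := s) h (le_refl k) hk
  have h2 : ∀ m : ℕ, ∀ g : MvPolynomial (Fin N) ℂ,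
      ptF y v a c k ^ m * g ∈ pt A y v a c s k → g ∈ pt A y v a c s k := by
    intro m
    induction m with
    | zero =>
      intro g hg
      simpa using hg
    | succ m ih =>
      intro g hg
      refine ih g ?_
      refine nzd_pair (y k) (v k) (h.yv k k hk hk) (ptS A y v a c s k) (fun g hg => (h1 g hg).1)
        (fun g hg => (h1 g hg).2) (c k) (h.cy k hk k hk) (a k) _ ?_
      rw [pow_succ', mul_assoc] at hg
      exact hg
  exact h2 _ g hg

theorem ptF_hom (hc : ∀ i, i < L → (c i).IsHomogeneous (a i + 1)) {i : ℕ} (hi : i < L) (r : ℕ) :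
    (ptF y v a c i ^ r).IsHomogeneous ((a i + 1) * r) := by
  have h1 : (X (v i) ^ a i : MvPolynomial (Fin N) ℂ).IsHomogeneous (a i) := by
    have := (isHomogeneous_X ℂ (v i)).pow (a i)
    simpa using this
  have h2 := (isHomogeneous_X ℂ (y i)).mul h1
  rw [add_comm 1 (a i)] at h2
  exact (h2.sub (hc i hi)).pow r

/-- As `tow_hom`. -/
theorem pt_hom (hA : ∀ f ∈ A, ∃ e, f.IsHomogeneous e)
    (hc : ∀ i, i < L → (c i).IsHomogeneous (a i + 1)) {k : ℕ} (hk : k ≤ L) :
    IsHomog (pt A y v a c s k) := by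
  induction k with
  | zero => rw [pt_zero]; exact isHomog_span A hA
  | succ k ih =>
    rw [pt_succ]
    refine isHomog_sup (ih (by omega)) (isHomog_span _ ?_)
    intro f hf
    rw [Set.mem_singleton_iff] at hf
    subst hf
    exact ⟨_, ptF_hom hc (by omega) _⟩

/-- As `tow_van`, with `vanE_step`. -/
theorem pt_van {K : ℕ} {E : Finset (Fin K) → Finset (Fin N)} (hE : ∀ T T', T ⊆ T' → E T ⊆ E T')
    (h : PtFree A y v c L) (hs : ∀ i, i < L → 1 ≤ s i) (hA : ∀ f ∈ A, ∃ e, f.IsHomogeneous e)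
    (hc : ∀ i, i < L → (c i).IsHomogeneous (a i + 1)) {B : ℤ}
    (hB : ∀ (p : ℕ) (d : ℤ), B ≤ p + d → VanE E (Ideal.span A) p d) {k : ℕ} (hk : k ≤ L) {p : ℕ} {d : ℤ}
    (hd : B + ∑ i ∈ Finset.range k, ((s i : ℤ) * (a i + 1) - 1) ≤ p + d) :
    VanE E (pt A y v a c s k) p d := by
  induction k generalizing p d with
  | zero =>
    rw [pt_zero]
    exact hB p d (by simpa using hd)
  | succ k ih =>
    rw [Finset.sum_range_succ] at hd
    have hse : (1 : ℤ) ≤ (s k : ℤ) * (a k + 1) := by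
      have h1 : (1 : ℤ) ≤ s k := by exact_mod_cast hs k (by omega)
      have h2 : (0 : ℤ) ≤ a k := by positivity
      nlinarith
    rw [pt_succ]
    refine vanE_step hE (pt_hom hA hc (by omega)) (ptF_hom hc (by omega) (s k))
      (fun g hg => pt_nzd h (by omega) g hg) (ih (by omega) ?_) (ih (by omega) ?_)
    · push_cast
      nlinarith
    · linarith

end

end Pool.Agent.RegRed
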