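import Mathlib
import Pool.Agent.Lib.MP_724d4c_ag.NTow
import Pool.Agent.Lib.MP_724d4c_ag.NEm
import Pool.Agent.Lib.MP_724d4c_ag.NExt
import Pool.Agent.Lib.MP_724d4c_ag.XCap

/-! Definitions of the ideals of the integral transfer theorem. `S` is the polynomial ring in `n + 2 (m + 2)` variables:
`x_0, …, x_{n-1}` and the pairs `y_j, v_j`, `0 ≤ j < m + 2`. -/

set_option autoImplicit false

namespace Pool.Agent.RegRed

open MvPolynomial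

noncomputable section

/-- `y_j` -/
def py (n m : ℕ) (j : ℕ) : Fin (n + 2 * (m + 2)) :=
  if h : j < m + 2 then ⟨n + 2 * j, by omega⟩ else ⟨n, by omega⟩

/-- `v_j` -/
def pv (n m : ℕ) (j : ℕ) : Fin (n + 2 * (m + 2)) :=
  if h : j < m + 2 then ⟨n + 2 * j + 1, by omega⟩ else ⟨n, by omega⟩

/-- the exponents `1, 2, d_0, d_1, …` -/
def pa (d : ℕ → ℕ) : ℕ → ℕ
  | 0 => 1
  | 1 => 2
  | j + 2 => d j

/-- the forms `F_j = y_j v_j^{a_j}` -/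
def FS (n m : ℕ) (d : ℕ → ℕ) (j : ℕ) : MvPolynomial (Fin (n + 2 * (m + 2))) ℂ :=
  X (py n m j) * X (pv n m j) ^ pa d j

/-- The inclusion of `ℂ[x]`. -/
def lfS (n m : ℕ) : MvPolynomial (Fin n) ℂ →ₐ[ℂ] MvPolynomial (Fin (n + 2 * (m + 2))) ℂ :=
  rename (Fin.castAdd (2 * (m + 2)))

/-- `y_j` in `S[t]` -/
def qy (n m : ℕ) (j : ℕ) : Fin (n + 2 * (m + 2) + 1) := Fin.castAdd 1 (py n m j)

/-- `v_j` in `S[t]` -/
def qv (n m : ℕ) (j : ℕ) : Fin (n + 2 * (m + 2) + 1) := Fin.castAdd 1 (pv n m j)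

/-- `t², t³, t g_0, t g_1, …` -/
def cD (n m : ℕ) (g : ℕ → MvPolynomial (Fin n) ℂ) : ℕ → MvPolynomial (Fin (n + 2 * (m + 2) + 1)) ℂ
  | 0 => tt (n + 2 * (m + 2)) ^ 2
  | 1 => tt (n + 2 * (m + 2)) ^ 3
  | j + 2 => tt (n + 2 * (m + 2)) * em (n + 2 * (m + 2)) (lfS n m (g j))

/-- `0, 0, t g_0, t g_1, …` -/
def cE (n m : ℕ) (g : ℕ → MvPolynomial (Fin n) ℂ) : ℕ → MvPolynomial (Fin (n + 2 * (m + 2) + 1)) ℂ
  | 0 => 0
  | 1 => 0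
  | j + 2 => tt (n + 2 * (m + 2)) * em (n + 2 * (m + 2)) (lfS n m (g j))

/-- the exponents `1, 1, 2, 2, …` -/
def s2 (j : ℕ) : ℕ := if j < 2 then 1 else 2

section
variable (n m : ℕ) (g : ℕ → MvPolynomial (Fin n) ℂ) (d : ℕ → ℕ)

/-- `D = (F_0 - t², F_1 - t³, F_{j+2} - t g_j)` in `S[t]` -/
def DD : Ideal (MvPolynomial (Fin (n + 2 * (m + 2) + 1)) ℂ) :=
  pt ∅ (qy n m) (qv n m) (pa d) (cD n m g) (fun _ => 1) (m + 2)

/-- `E = (t², F_0, F_1, F_{j+2} - t g_j)` in `S[t]` -/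
def EE : Ideal (MvPolynomial (Fin (n + 2 * (m + 2) + 1)) ℂ) :=
  pt {tt (n + 2 * (m + 2)) ^ 2} (qy n m) (qv n m) (pa d) (cE n m g) (fun _ => 1) (m + 2)

/-- `I₂ = (F_0, F_1, F_{j+2}²)` in `S` -/
def I2n : Ideal (MvPolynomial (Fin (n + 2 * (m + 2))) ℂ) :=
  pt ∅ (py n m) (pv n m) (pa d) (fun _ => 0) s2 (m + 2)

/-- `P = D ∩ S` -/
def Pn : Ideal (MvPolynomial (Fin (n + 2 * (m + 2))) ℂ) := (DD n m g d).comap (em _)

/-- `K = (g_j, F_j)` in `S` -/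
def KK : Ideal (MvPolynomial (Fin (n + 2 * (m + 2))) ℂ) := exJ (gI n m g) (pa d) (m + 2)

/-- the ideal of the theorem -/
def II : Ideal (MvPolynomial (Fin (n + 2 * (m + 2))) ℂ) := Pn n m g d ⊓ I2n n m d

end

end

end Pool.Agent.RegRed
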