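import Mathlib

/-! Definitions: a homogeneous version of the Mayr-Meyer ideals. Variables `s, f, h, B`, `c_{r,i}`, `b_{r,i}`. -/

set_option autoImplicit false

namespace Pool.Agent.RegRed

open MvPolynomial

noncomputable section

/-- The names of the variables. -/
inductive W : Type
  | s | f | h | B
  | c (r : ℕ) (i : Fin 4)
  | b (r : ℕ) (i : Fin 4)
  deriving DecidableEq

section
variable {A : Type} [CommRing A] (x : W → A)

/-- `S_r = s c_{0,1} ⋯ c_{r-1,1}` -/
def SS (r : ℕ) : A := x .s * ∏ q ∈ Finset.range r, x (.c q 0)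

/-- `F_0 = f`, `F_{r+1} = S_r c_{r,4}` -/
def FF : ℕ → A
  | 0 => x .f
  | r + 1 => SS x r * x (.c r 3)

/-- the relations of level `0` -/
def relA (d : ℕ) (i : Fin 4) : A :=
  x .s * x (.c 0 i) * x .h ^ d - x .f * x (.c 0 i) * x (.b 0 i) ^ d

/-- the relations of level `r` -/
def rel1 (r : ℕ) : A := FF x r * x (.c r 0) - SS x r * x (.c r 1)
def rel2 (r : ℕ) : A := FF x r * x (.c r 3) - SS x r * x (.c r 2)
def rel3 (r : ℕ) : A := SS x r * x (.c r 2) - SS x r * x (.c r 1)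
def rel4 (r : ℕ) : A := FF x r * x (.c r 1) * x (.b r 0) - FF x r * x (.c r 2) * x (.b r 3)
def rel5 (r : ℕ) (i : Fin 4) : A :=
  FF x r * x (.c r 1) * x (.c (r + 1) i) * x (.b r 1) * x .h -
    FF x r * x (.c r 1) * x (.c (r + 1) i) * x (.b (r + 1) i) * x (.b r 2)
def rel6 (r : ℕ) : A :=
  FF x r * x (.c r 1) * x (.b r 1) * x .h - FF x r * x (.c r 1) * x .B * x (.b r 2)

/-- all relations of level `r < k` -/
def relB (k r : ℕ) (t : Fin 8) : A :=
  if t.1 = 0 then rel1 x r else if t.1 = 1 then rel2 x r else if t.1 = 2 then rel3 x r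
  else if t.1 = 3 then rel4 x r
  else if r + 1 < k then rel5 x r ⟨t.1 % 4, Nat.mod_lt _ (by norm_num)⟩ else rel6 x r

/-- the monomials `F_k` and `S_k v`, `v ≠ h` -/
def relZ (k : ℕ) (v : W) : A := if v = .h then FF x k else SS x k * x v

end

/-- `e_0 = d`, `e_{r+1} = e_r²` -/
def eM (d : ℕ) : ℕ → ℕ
  | 0 => d
  | r + 1 => eM d r * eM d r

theorem eM_eq (d r : ℕ) : eM d r = d ^ 2 ^ r := by
  induction r with
  | zero => simp [eM]
  | succ r ih => rw [eM, ih, ← pow_add, pow_succ 2 r, mul_two]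

/-- `W_0 = d`, `W_{r+1} = W_r + e_r² + e_r` -/
def wM (d : ℕ) : ℕ → ℕ
  | 0 => d
  | r + 1 => wM d r + eM d r * eM d r + eM d r

end

end Pool.Agent.RegRed
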