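import Mathlib
import Pool.Agent.Lib.MP_724d4c_ag.XMM

/-! Row 724x-DG: degrees of the relations. -/

set_option autoImplicit false

namespace Pool.Agent.RegRed

open MvPolynomial

noncomputable section

variable {σ : Type} (x : W → MvPolynomial σ ℂ) (hx : ∀ v, (x v).IsHomogeneous 1)

private theorem DG_cast {p : MvPolynomial σ ℂ} {a b : ℕ} (h : p.IsHomogeneous a) (e : a = b) :
    p.IsHomogeneous b := e ▸ h

include hx

theorem SS_hom (r : ℕ) : (SS x r).IsHomogeneous (r + 1) := by
  unfold SS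
  have h1 : (∏ q ∈ Finset.range r, x (.c q 0)).IsHomogeneous (∑ q ∈ Finset.range r, 1) :=
    IsHomogeneous.prod _ _ _ fun q _ => hx _
  refine DG_cast ((hx _).mul h1) ?_
  simp [add_comm]

theorem FF_hom (r : ℕ) : (FF x r).IsHomogeneous (r + 1) := by
  cases r with
  | zero => exact hx _
  | succ r => exact (SS_hom x hx r).mul (hx _)

theorem relA_hom (d : ℕ) (i : Fin 4) : (relA x d i).IsHomogeneous (d + 2) := by
  unfold relA
  refine IsHomogeneous.sub ?_ ?_
  · exact DG_cast (((hx _).mul (hx _)).mul ((hx _).pow d)) (by omega)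
  · exact DG_cast (((hx _).mul (hx _)).mul ((hx _).pow d)) (by omega)

omit hx in
/-- the degree of `relB` -/
def dB (k r : ℕ) (t : Fin 8) : ℕ :=
  if t.1 < 3 then r + 2 else if t.1 = 3 then r + 3 else if r + 1 < k then r + 5 else r + 4

theorem relB_hom (k r : ℕ) (t : Fin 8) : (relB x k r t).IsHomogeneous (dB k r t) := by
  have hS := SS_hom x hx r
  have hF := FF_hom x hx r
  unfold relB dB
  by_cases h0 : t.1 = 0
  · rw [if_pos h0, if_pos (by omega)]
    unfold rel1
    exact IsHomogeneous.sub (hF.mul (hx _)) (hS.mul (hx _))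
  rw [if_neg h0]
  by_cases h1 : t.1 = 1
  · rw [if_pos h1, if_pos (by omega)]
    unfold rel2
    exact IsHomogeneous.sub (hF.mul (hx _)) (hS.mul (hx _))
  rw [if_neg h1]
  by_cases h2 : t.1 = 2
  · rw [if_pos h2, if_pos (by omega)]
    unfold rel3
    exact IsHomogeneous.sub (hS.mul (hx _)) (hS.mul (hx _))
  have h23 : ¬ t.1 < 3 := by omega
  rw [if_neg h2, if_neg h23]
  by_cases h3 : t.1 = 3
  · rw [if_pos h3, if_pos h3]
    unfold rel4
    exact IsHomogeneous.sub ((hF.mul (hx _)).mul (hx _)) ((hF.mul (hx _)).mul (hx _))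
  rw [if_neg h3, if_neg h3]
  by_cases h4 : r + 1 < k
  · rw [if_pos h4, if_pos h4]
    unfold rel5
    exact IsHomogeneous.sub ((((hF.mul (hx _)).mul (hx _)).mul (hx _)).mul (hx _))
      ((((hF.mul (hx _)).mul (hx _)).mul (hx _)).mul (hx _))
  · rw [if_neg h4, if_neg h4]
    unfold rel6
    exact IsHomogeneous.sub (((hF.mul (hx _)).mul (hx _)).mul (hx _))
      (((hF.mul (hx _)).mul (hx _)).mul (hx _))

omit hx in
/-- the degree of `relZ` -/
def dZ (k : ℕ) (v : W) : ℕ := if v = .h then k + 1 else k + 2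

theorem relZ_hom (k : ℕ) (v : W) : (relZ x k v).IsHomogeneous (dZ k v) := by
  unfold relZ dZ
  by_cases h : v = .h
  · rw [if_pos h, if_pos h]
    exact FF_hom x hx k
  · rw [if_neg h, if_neg h]
    exact (SS_hom x hx k).mul (hx _)

omit hx in
theorem dB_le (k r : ℕ) (hr : r < k) (t : Fin 8) : dB k r t ≤ k + 3 := by
  unfold dB
  split_ifs <;> omega

omit hx in
theorem dZ_le (k : ℕ) (v : W) : dZ k v ≤ k + 2 := by
  unfold dZ
  split_ifs <;> omega

end

end Pool.Agent.RegRed
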