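import Mathlib
import Pool.Agent.Lib.MP_724d4c_ag.XMM

/-! Rows 724x-P1, P2: the set of monomials equivalent to `S_k h^w`. `u v` is the exponent of the variable `v`. -/

set_option autoImplicit false

namespace Pool.Agent.RegRed

/-- The admissible exponents `(a_1, a_2, a_3, a_4)` and flag exponents `o` for the catalyst `j` (`e = e_r`). -/
def An (e : ℤ) (j : Fin 4) (a1 a2 a3 a4 o : ℤ) : Prop :=
  if j = 0 then ∃ a, 0 ≤ a ∧ a ≤ e ∧ a1 = -a ∧ a2 = 0 ∧ a3 = 0 ∧ a4 = a ∧ o = a * e
  else if j = 1 then ∃ a t, 0 ≤ a ∧ a ≤ e ∧ 0 ≤ t ∧ t ≤ e ∧ a1 = e - a ∧ a2 = -t ∧ a3 = t ∧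
    a4 = a ∧ o = a * e + t
  else if j = 2 then ∃ a t, 0 ≤ a ∧ a ≤ e ∧ 0 ≤ t ∧ t ≤ e ∧ a1 = e - a ∧ a2 = e - t ∧
    a3 = t - e ∧ a4 = a ∧ o = (a - 1) * e + t ∧ 0 ≤ o
  else ∃ a, 0 ≤ a ∧ a ≤ e ∧ a1 = e - a ∧ a2 = 0 ∧ a3 = 0 ∧ a4 = a - e ∧ o = a * e

/-- `PP d r u o`: the exponents `u` (in the variables of level `< r`) with flag exponent `o` are those of a monomial
equivalent to `S_r`. -/
def PP (d : ℕ) : ℕ → (W → ℕ) → ℤ → Prop
  | 0, u, o => (u .s = 1 ∧ u .f = 0 ∧ o = 0) ∨ (u .s = 0 ∧ u .f = 1 ∧ o = d)
  | r + 1, u, o => ∃ o', PP d r u o' ∧ ∃ j : Fin 4,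
      (∀ i, u (.c r i) = if i = j then 1 else 0) ∧
      An (eM d r) j (u (.b r 0) - if j = 0 then o' else 0) (u (.b r 1) - if j = 1 then o' else 0)
        (u (.b r 2) - if j = 2 then o' else 0) (u (.b r 3) - if j = 3 then o' else 0) o

/-- the exponents of `S_r` -/
def sE (r : ℕ) : W → ℕ
  | .s => 1
  | .c q i => if q < r ∧ i = 0 then 1 else 0
  | _ => 0

/-- the exponents of `F_r` -/
def fE : ℕ → W → ℕ
  | 0, v => if v = .f then 1 else 0
  | r + 1, v => sE r v + if v = .c r 3 then 1 else 0

/-- the level of a variable is `< r` -/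
def lev (r : ℕ) : W → Prop
  | .s => True
  | .f => True
  | .h => False
  | .B => False
  | .c q _ => q < r
  | .b q _ => q < r

theorem P1_lev_succ {r : ℕ} {v : W} (h : lev r v) : lev (r + 1) v := by
  cases v <;> simp only [lev] at h ⊢ <;> omega

theorem P1_sE_succ {r : ℕ} {v : W} (h : lev r v) : sE (r + 1) v = sE r v := by
  cases v with
  | c q i =>
    simp only [lev] at h
    simp only [sE]
    have h1 : q < r + 1 := by omega
    simp [h, h1]
  | _ => simp [sE]

theorem P1_sE_le_succ (r : ℕ) (v : W) : sE r v ≤ sE (r + 1) v := by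
  cases v with
  | c q i =>
    simp only [sE]
    by_cases h : q < r ∧ i = 0
    · have h1 : q < r + 1 ∧ i = 0 := ⟨by omega, h.2⟩
      simp [h, h1]
    · simp [h]
  | _ => simp [sE]

/-- Induction on `r`: an element of `PP` divisible by `S_r` is `S_r` with `o = 0`. -/
theorem PP_S (d r : ℕ) (u : W → ℕ) (o : ℤ) (h : PP d r u o) (hu : ∀ v, sE r v ≤ u v) :
    o = 0 ∧ ∀ v, lev r v → u v = sE r v := by
  induction r generalizing o with
  | zero =>
    have h1 := hu .s
    simp only [sE] at h1
    rcases h with ⟨h2, h3, h4⟩ | ⟨h2, h3, h4⟩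
    · refine ⟨h4, fun v hv => ?_⟩
      cases v with
      | s => simpa [sE] using h2
      | f => simpa [sE] using h3
      | _ => simp [lev] at hv
    · omega
  | succ r ih =>
    obtain ⟨o', ho', j, hj, hA⟩ := h
    obtain ⟨h0, hl⟩ := ih o' ho' (fun v => (P1_sE_le_succ r v).trans (hu v))
    have hc := hu (.c r 0)
    have hj0 : j = 0 := by
      have h1 := hj 0
      simp only [sE, Nat.lt_succ_self, and_self, if_true] at hc
      by_contra hne
      rw [if_neg (fun h => hne h.symm)] at h1
      omega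
    subst hj0
    subst h0
    simp only [An, if_true] at hA
    obtain ⟨a, ha0, hae, h1, h2, h3, h4, h5⟩ := hA
    have hb : (u (.b r 0) : ℤ) ≥ 0 := Int.natCast_nonneg _
    have e1 : ((1 : Fin 4) = 0) = False := by decide
    simp at h1 h2 h3 h4
    have ha : a = 0 := by omega
    subst ha
    refine ⟨by simpa using h5, fun v hv => ?_⟩
    by_cases hv' : lev r v
    · rw [hl v hv', P1_sE_succ hv']
    · cases v with
      | s => exact absurd trivial hv'
      | f => exact absurd trivial hv'
      | h => exact absurd hv (by simp [lev])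
      | B => exact absurd hv (by simp [lev])
      | c q i =>
        simp only [lev] at hv hv'
        have hq : q = r := by omega
        subst hq
        rw [hj i]
        simp [sE]
      | b q i =>
        simp only [lev] at hv hv'
        have hq : q = r := by omega
        subst hq
        simp only [sE]
        fin_cases i
        · simpa using h1
        · simpa using h2
        · simpa using h3
        · simpa using h4

/-- An element of `PP` divisible by `F_r` is `F_r` with `o = e_r`. -/
theorem PP_F (d r : ℕ) (u : W → ℕ) (o : ℤ) (h : PP d r u o) (hu : ∀ v, fE r v ≤ u v) :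
    o = eM d r ∧ ∀ v, lev r v → u v = fE r v := by
  cases r with
  | zero =>
    have h1 := hu .f
    simp only [fE, if_true] at h1
    rcases h with ⟨h2, h3, h4⟩ | ⟨h2, h3, h4⟩
    · omega
    · refine ⟨by simpa [eM] using h4, fun v hv => ?_⟩
      cases v with
      | s => simpa [fE] using h2
      | f => simpa [fE] using h3
      | _ => simp [lev] at hv
  | succ r =>
    obtain ⟨o', ho', j, hj, hA⟩ := h
    obtain ⟨h0, hl⟩ := PP_S d r u o' ho' (fun v => le_trans (by simp [fE]) (hu v))
    have hc := hu (.c r 3)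
    have hj0 : j = 3 := by
      have h1 := hj 3
      simp only [fE, if_true] at hc
      by_contra hne
      rw [if_neg (fun h => hne h.symm)] at h1
      omega
    subst hj0
    subst h0
    have hA' : ∃ a, 0 ≤ a ∧ a ≤ (eM d r : ℤ) ∧ (u (.b r 0) : ℤ) = (eM d r : ℤ) - a ∧ (u (.b r 1) : ℤ) = 0 ∧
        (u (.b r 2) : ℤ) = 0 ∧ (u (.b r 3) : ℤ) = a - (eM d r : ℤ) ∧ o = a * (eM d r : ℤ) := by
      simpa [An] using hA
    obtain ⟨a, ha0, hae, h1, h2, h3, h4, h5⟩ := hA'
    have ha : a = (eM d r : ℤ) := by
      have := Int.natCast_nonneg (u (.b r 3))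
      omega
    subst ha
    refine ⟨by rw [h5]; simp [eM], fun v hv => ?_⟩
    by_cases hv' : lev r v
    · rw [hl v hv']
      have hne : v ≠ .c r 3 := by
        rintro rfl
        simp [lev] at hv'
      simp [fE, hne]
    · cases v with
      | s => exact absurd trivial hv'
      | f => exact absurd trivial hv'
      | h => exact absurd hv (by simp [lev])
      | B => exact absurd hv (by simp [lev])
      | c q i =>
        simp only [lev] at hv hv'
        have hq : q = r := by omega
        subst hq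
        rw [hj i]
        simp [fE, sE]
      | b q i =>
        simp only [lev] at hv hv'
        have hq : q = r := by omega
        subst hq
        have e1 : fE (q + 1) (.b q i) = 0 := by simp [fE, sE]
        rw [e1]
        fin_cases i
        · show u (.b q 0) = 0
          omega
        · show u (.b q 1) = 0
          omega
        · show u (.b q 2) = 0
          omega
        · show u (.b q 3) = 0
          omega

theorem PP_S_mk (d r : ℕ) (u : W → ℕ) (hu : ∀ v, lev r v → u v = sE r v) : PP d r u 0 := by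
  induction r with
  | zero =>
    left
    exact ⟨by simpa [sE] using hu .s trivial, by simpa [sE] using hu .f trivial, rfl⟩
  | succ r ih =>
    refine ⟨0, ih (fun v hv => by rw [hu v (P1_lev_succ hv), P1_sE_succ hv]), 0, fun i => ?_, ?_⟩
    · rw [hu (.c r i) (by simp [lev])]
      simp [sE]
    · have hb : ∀ i, (u (.b r i) : ℤ) = 0 := fun i => by
        rw [hu (.b r i) (by simp [lev])]
        simp [sE]
      simp only [An, if_true, hb]
      exact ⟨0, by simp⟩

theorem PP_F_mk (d r : ℕ) (u : W → ℕ) (hu : ∀ v, lev r v → u v = fE r v) :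
    PP d r u (eM d r) := by
  cases r with
  | zero =>
    right
    exact ⟨by simpa [fE] using hu .s trivial, by simpa [fE] using hu .f trivial, by simp [eM]⟩
  | succ r =>
    refine ⟨0, PP_S_mk d r u (fun v hv => ?_), 3, fun i => ?_, ?_⟩
    · rw [hu v (P1_lev_succ hv)]
      have hne : v ≠ .c r 3 := by
        rintro rfl
        simp [lev] at hv
      simp [fE, hne]
    · rw [hu (.c r i) (by simp [lev])]
      simp [fE, sE]
    · have hb : ∀ i, (u (.b r i) : ℤ) = 0 := fun i => by
        rw [hu (.b r i) (by simp [lev])]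
        simp [fE, sE]
      have : ∃ a, 0 ≤ a ∧ a ≤ (eM d r : ℤ) ∧ (0 : ℤ) = (eM d r : ℤ) - a ∧ (0 : ℤ) = 0 ∧
          (0 : ℤ) = 0 ∧ (0 : ℤ) = a - (eM d r : ℤ) ∧ ((eM d (r + 1) : ℕ) : ℤ) = a * (eM d r : ℤ) :=
        ⟨(eM d r : ℤ), by positivity, le_refl _, by ring, rfl, rfl, by ring, by simp [eM]⟩
      simpa [An, hb] using this

/-- If `u`, `u'` agree in the levels `q + 1, …, k - 1` and the statement for `q + 1` transfers, so does the one for
`k`. -/
theorem PP_lift (d q k : ℕ) (hq : q < k) (u u' : W → ℕ)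
    (hc : ∀ r, q + 1 ≤ r → r < k → ∀ i, u (.c r i) = u' (.c r i) ∧ u (.b r i) = u' (.b r i))
    (h : ∀ o, PP d (q + 1) u o → PP d (q + 1) u' o) (o : ℤ) (ho : PP d k u o) : PP d k u' o := by
  induction k generalizing o with
  | zero => omega
  | succ k ih =>
    rcases Nat.lt_or_ge q k with hqk | hqk
    · obtain ⟨o', ho', j, hj, hA⟩ := ho
      refine ⟨o', ih hqk (fun r h1 h2 i => hc r h1 (by omega) i) o' ho', j, fun i => ?_, ?_⟩
      · rw [← (hc k (by omega) (by omega) i).1]
        exact hj i
      · rw [← (hc k (by omega) (by omega) 0).2, ← (hc k (by omega) (by omega) 1).2,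
          ← (hc k (by omega) (by omega) 2).2, ← (hc k (by omega) (by omega) 3).2]
        exact hA
    · have : k = q := by omega
      subst this
      exact h o ho

end Pool.Agent.RegRed
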