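import Mathlib
import Pool.Agent.Lib.MP_724d4c_ag.XMMset

/-! Rows 724x-P2a, P2b: the relations preserve `PP`. -/

set_option autoImplicit false

namespace Pool.Agent.RegRed

/-- the exponents of a variable -/
def dl (w v : W) : ℕ := if v = w then 1 else 0

theorem sE_c (q : ℕ) (i : Fin 4) : sE q (.c q i) = 0 := by
  simp [sE]

theorem sE_b (q r : ℕ) (i : Fin 4) : sE q (.b r i) = 0 := by
  simp [sE]

theorem fE_c (q : ℕ) (i : Fin 4) : fE q (.c q i) = 0 := by
  rcases q with _ | r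
  · simp [fE]
  · have h1 : sE r (.c (r + 1) i) = 0 := by simp [sE]
    have h2 : (W.c (r + 1) i) ≠ W.c r 3 := by
      intro h
      injection h with h3 h4
      omega
    simp [fE, h1, h2]

theorem fE_b (q r : ℕ) (i : Fin 4) : fE q (.b r i) = 0 := by
  rcases q with _ | q
  · simp [fE]
  · have h1 : sE q (.b r i) = 0 := sE_b q r i
    simp [fE, h1]

/-- `u = ν + E + c_{q,j0}`, `E = F_q` or `S_q`: normal form of the statement. -/
theorem cl_key (d q : ℕ) (E : W → ℕ) (oE : ℤ) (hE : (E = fE q ∧ oE = eM d q) ∨ (E = sE q ∧ oE = 0))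
    (j0 : Fin 4) (ν u : W → ℕ) (hu : ∀ v, u v = ν v + E v + dl (.c q j0) v) (o : ℤ) :
    PP d (q + 1) u o ↔ (∀ v, lev q v → ν v = 0) ∧ (∀ i, ν (.c q i) = 0) ∧
      An (eM d q) j0 (ν (.b q 0) - if j0 = 0 then oE else 0) (ν (.b q 1) - if j0 = 1 then oE else 0)
        (ν (.b q 2) - if j0 = 2 then oE else 0) (ν (.b q 3) - if j0 = 3 then oE else 0) o := by
  have hEc : ∀ i, E (.c q i) = 0 := by
    intro i
    rcases hE with ⟨h, -⟩ | ⟨h, -⟩
    · rw [h]; exact fE_c q i
    · rw [h]; exact sE_c q i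
  have hEb : ∀ i, E (.b q i) = 0 := by
    intro i
    rcases hE with ⟨h, -⟩ | ⟨h, -⟩
    · rw [h]; exact fE_b q q i
    · rw [h]; exact sE_b q q i
  have hub : ∀ i, u (.b q i) = ν (.b q i) := by
    intro i
    rw [hu, hEb]
    simp [dl]
  have huc : ∀ i, u (.c q i) = ν (.c q i) + if i = j0 then 1 else 0 := by
    intro i
    rw [hu, hEc]
    simp [dl]
  have hdl : ∀ v, lev q v → dl (.c q j0) v = 0 := by
    intro v hv
    unfold dl
    rw [if_neg]
    intro h
    rw [h] at hv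
    exact absurd hv (lt_irrefl q)
  have hle : ∀ v, E v ≤ u v := by
    intro v
    rw [hu]
    omega
  constructor
  · rintro ⟨o', hP, j, hj, hA⟩
    have hjj : j0 = j := by
      by_contra hne
      have h1 := hj j0
      rw [huc, if_pos rfl, if_neg hne] at h1
      omega
    subst hjj
    have hk : o' = oE ∧ ∀ v, lev q v → u v = E v := by
      rcases hE with ⟨h, h'⟩ | ⟨h, h'⟩
      · rw [h, h']
        rw [h] at hle
        exact PP_F d q u o' hP hle
      · rw [h, h']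
        rw [h] at hle
        exact PP_S d q u o' hP hle
    obtain ⟨ho', hv⟩ := hk
    refine ⟨?_, ?_, ?_⟩
    · intro v hv'
      have h1 := hv v hv'
      rw [hu] at h1
      omega
    · intro i
      have h1 := hj i
      rw [huc] at h1
      omega
    · rw [hub, hub, hub, hub, ho'] at hA
      exact hA
  · rintro ⟨h1, h2, h3⟩
    refine ⟨oE, ?_, j0, ?_, ?_⟩
    · have hv : ∀ v, lev q v → u v = E v := by
        intro v hv
        rw [hu, h1 v hv, hdl v hv]
        omega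
      rcases hE with ⟨h, h'⟩ | ⟨h, h'⟩
      · rw [h']
        rw [h] at hv
        exact PP_F_mk d q u hv
      · rw [h']
        rw [h] at hv
        exact PP_S_mk d q u hv
    · intro i
      rw [huc, h2, zero_add]
    · rw [hub, hub, hub, hub]
      exact h3

/-- `F_q c_{q,1} = S_q c_{q,2}` (indices `0..3` in Lean). `→`: unfold `PP d (q+1) u o`; `PP_F` gives `o' = e` and
`u = F_q` below level `q`, so `ν = 0` there and `u' = S_q` there (`PP_S_mk`); `j = 0`, since `u (.c q 0) ≥ 1`;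
`An e 0 (u_{b1} - e) …` means `(u_b) = (e - a, 0, 0, a)`, `o = ae`; for `u'` take `o' = 0`, `j = 1`, `t = 0`. -/
theorem cl1 (d q : ℕ) (ν u u' : W → ℕ) (hu : ∀ v, u v = ν v + fE q v + dl (.c q 0) v)
    (hu' : ∀ v, u' v = ν v + sE q v + dl (.c q 1) v) (o : ℤ) :
    PP d (q + 1) u o ↔ PP d (q + 1) u' o := by
  rw [cl_key d q (fE q) (eM d q) (Or.inl ⟨rfl, rfl⟩) 0 ν u hu o,
    cl_key d q (sE q) 0 (Or.inr ⟨rfl, rfl⟩) 1 ν u' hu' o]
  refine and_congr_right (fun _ => and_congr_right (fun _ => ?_))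
  have e01 : (0 : Fin 4) ≠ 1 := by decide
  have e02 : (0 : Fin 4) ≠ 2 := by decide
  have e03 : (0 : Fin 4) ≠ 3 := by decide
  have e10 : (1 : Fin 4) ≠ 0 := by decide
  have e12 : (1 : Fin 4) ≠ 2 := by decide
  have e13 : (1 : Fin 4) ≠ 3 := by decide
  simp only [An, if_true, if_neg e01, if_neg e02, if_neg e03, if_neg e10, if_neg e12, if_neg e13, sub_zero]
  constructor
  · rintro ⟨a, h1, h2, h3, h4, h5, h6, h7⟩
    exact ⟨a, 0, h1, h2, le_refl _, h1.trans h2, by linarith, by linarith, h5, h6, by linarith⟩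
  · rintro ⟨a, t, h1, h2, h3, h4, h5, h6, h7, h8, h9⟩
    have ht : t = 0 := by
      have : (0 : ℤ) ≤ ν (.b q 1) := Int.natCast_nonneg _
      linarith
    subst ht
    exact ⟨a, h1, h2, by linarith, by linarith, h7, h8, by linarith⟩

/-- `F_q c_{q,4} = S_q c_{q,3}`: `(u_b) = (e - a, 0, 0, a)`, `o = ae` on both sides (`t = e` for `u'`). -/
theorem cl2 (d q : ℕ) (ν u u' : W → ℕ) (hu : ∀ v, u v = ν v + fE q v + dl (.c q 3) v)
    (hu' : ∀ v, u' v = ν v + sE q v + dl (.c q 2) v) (o : ℤ) :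
    PP d (q + 1) u o ↔ PP d (q + 1) u' o := by
  rw [cl_key d q (fE q) (eM d q) (Or.inl ⟨rfl, rfl⟩) 3 ν u hu o,
    cl_key d q (sE q) 0 (Or.inr ⟨rfl, rfl⟩) 2 ν u' hu' o]
  refine and_congr_right (fun _ => and_congr_right (fun _ => ?_))
  have e30 : (3 : Fin 4) ≠ 0 := by decide
  have e31 : (3 : Fin 4) ≠ 1 := by decide
  have e32 : (3 : Fin 4) ≠ 2 := by decide
  have e20 : (2 : Fin 4) ≠ 0 := by decide
  have e21 : (2 : Fin 4) ≠ 1 := by decide
  have e23 : (2 : Fin 4) ≠ 3 := by decide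
  simp only [An, if_true, if_neg e30, if_neg e31, if_neg e32, if_neg e20, if_neg e21, if_neg e23, sub_zero]
  constructor
  · rintro ⟨a, h1, h2, h3, h4, h5, h6, h7⟩
    refine ⟨a, eM d q, h1, h2, h1.trans h2, le_refl _, h3, by linarith, by linarith, by linarith, by linarith, ?_⟩
    rw [h7]
    exact mul_nonneg h1 (h1.trans h2)
  · rintro ⟨a, t, h1, h2, h3, h4, h5, h6, h7, h8, h9, h10⟩
    have ht : t = eM d q := by
      have : (0 : ℤ) ≤ ν (.b q 2) := Int.natCast_nonneg _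
      linarith
    subst ht
    exact ⟨a, h1, h2, h5, by linarith, by linarith, by linarith, by linarith⟩

/-- `S_q c_{q,3} = S_q c_{q,2}`: `t = e` for `u`, `t = 0` for `u'`. -/
theorem cl3 (d q : ℕ) (ν u u' : W → ℕ) (hu : ∀ v, u v = ν v + sE q v + dl (.c q 2) v)
    (hu' : ∀ v, u' v = ν v + sE q v + dl (.c q 1) v) (o : ℤ) :
    PP d (q + 1) u o ↔ PP d (q + 1) u' o := by
  rw [cl_key d q (sE q) 0 (Or.inr ⟨rfl, rfl⟩) 2 ν u hu o,
    cl_key d q (sE q) 0 (Or.inr ⟨rfl, rfl⟩) 1 ν u' hu' o]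
  refine and_congr_right (fun _ => and_congr_right (fun _ => ?_))
  have e10 : (1 : Fin 4) ≠ 0 := by decide
  have e12 : (1 : Fin 4) ≠ 2 := by decide
  have e13 : (1 : Fin 4) ≠ 3 := by decide
  have e20 : (2 : Fin 4) ≠ 0 := by decide
  have e21 : (2 : Fin 4) ≠ 1 := by decide
  have e23 : (2 : Fin 4) ≠ 3 := by decide
  simp only [An, if_true, if_neg e10, if_neg e12, if_neg e13, if_neg e20, if_neg e21, if_neg e23, sub_zero]
  constructor
  · rintro ⟨a, t, h1, h2, h3, h4, h5, h6, h7, h8, h9, h10⟩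
    have ht : t = eM d q := by
      have : (0 : ℤ) ≤ ν (.b q 2) := Int.natCast_nonneg _
      linarith
    subst ht
    exact ⟨a, 0, h1, h2, le_refl _, h1.trans h2, h5, by linarith, by linarith, h8, by linarith⟩
  · rintro ⟨a, t, h1, h2, h3, h4, h5, h6, h7, h8, h9⟩
    have ht : t = 0 := by
      have : (0 : ℤ) ≤ ν (.b q 1) := Int.natCast_nonneg _
      linarith
    subst ht
    refine ⟨a, eM d q, h1, h2, h1.trans h2, le_refl _, h5, by linarith, by linarith, h8, by linarith, ?_⟩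
    rw [h9, add_zero]
    exact mul_nonneg h1 (h1.trans h2)

private theorem P2b_cc (q q' : ℕ) (i j : Fin 4) (h : q = q') : dl (.c q i) (.c q' j) = if j = i then 1 else 0 := by
  subst h
  simp [dl]

private theorem P2b_bb (q : ℕ) (i j : Fin 4) : dl (.b q i) (.b q j) = if j = i then 1 else 0 := by
  simp [dl]

private theorem P2b_bc (q q' : ℕ) (i j : Fin 4) : dl (.b q i) (.c q' j) = 0 := by simp [dl]

private theorem P2b_cb (q q' : ℕ) (i j : Fin 4) : dl (.c q i) (.b q' j) = 0 := by simp [dl]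

private theorem P2b_hc (q' : ℕ) (j : Fin 4) : dl .h (.c q' j) = 0 := by simp [dl]

private theorem P2b_hb (q' : ℕ) (j : Fin 4) : dl .h (.b q' j) = 0 := by simp [dl]

private theorem P2b_Bc (q' : ℕ) (j : Fin 4) : dl .B (.c q' j) = 0 := by simp [dl]

private theorem P2b_Bb (q' : ℕ) (j : Fin 4) : dl .B (.b q' j) = 0 := by simp [dl]

private theorem P2b_sEb (q r : ℕ) (i : Fin 4) : sE q (.b r i) = 0 := rfl

private theorem P2b_sEc (q r : ℕ) (h : q ≤ r) (i : Fin 4) : sE q (.c r i) = 0 := by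
  simp only [sE]
  rw [if_neg]
  omega

private theorem P2b_fEb (q r : ℕ) (i : Fin 4) : fE q (.b r i) = 0 := by
  cases q with
  | zero => simp [fE]
  | succ q => simp [fE, sE]

private theorem P2b_fEc (q r : ℕ) (h : q ≤ r) (i : Fin 4) : fE q (.c r i) = 0 := by
  cases q with
  | zero => simp [fE]
  | succ q =>
    simp only [fE]
    rw [P2b_sEc q r (by omega), if_neg]
    intro hc
    injection hc
    omega

private theorem P2b_dl (q : ℕ) (w v : W) (hw : ¬ lev q w) (hv : lev q v) : dl w v = 0 := by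
  unfold dl
  rw [if_neg]
  rintro rfl
  exact hw hv

private theorem P2b_nc (q : ℕ) (i : Fin 4) : ¬ lev q (.c q i) := by simp [lev]

private theorem P2b_nb (q : ℕ) (i : Fin 4) : ¬ lev q (.b q i) := by simp [lev]

private theorem P2b_nh (q : ℕ) : ¬ lev q .h := by simp [lev]

private theorem P2b_nB (q : ℕ) : ¬ lev q .B := by simp [lev]

private theorem P2b_low (d q : ℕ) (ν u u' e1 e2 : W → ℕ) (hu : ∀ v, u v = ν v + fE q v + e1 v)
    (hu' : ∀ v, u' v = ν v + fE q v + e2 v) (h1 : ∀ v, lev q v → e1 v = 0)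
    (h2 : ∀ v, lev q v → e2 v = 0) (o : ℤ) (h : PP d q u o) : o = eM d q ∧ PP d q u' (eM d q) := by
  obtain ⟨ho, hv⟩ := PP_F d q u o h (fun v => by rw [hu v]; omega)
  refine ⟨ho, PP_F_mk d q u' (fun v hl => ?_)⟩
  have h3 := hv v hl
  rw [hu v, h1 v hl] at h3
  rw [hu' v, h2 v hl]
  omega

private theorem P2b_e10 : ¬ ((1 : Fin 4) = 0) := by decide
private theorem P2b_e20 : ¬ ((2 : Fin 4) = 0) := by decide
private theorem P2b_e21 : ¬ ((2 : Fin 4) = 1) := by decide
private theorem P2b_e12 : ¬ ((1 : Fin 4) = 2) := by decide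
private theorem P2b_e13 : ¬ ((1 : Fin 4) = 3) := by decide
private theorem P2b_e23 : ¬ ((2 : Fin 4) = 3) := by decide
private theorem P2b_e32 : ¬ ((3 : Fin 4) = 2) := by decide
private theorem P2b_e31 : ¬ ((3 : Fin 4) = 1) := by decide
private theorem P2b_e30 : ¬ ((3 : Fin 4) = 0) := by decide
private theorem P2b_e01 : ¬ ((0 : Fin 4) = 1) := by decide
private theorem P2b_e02 : ¬ ((0 : Fin 4) = 2) := by decide
private theorem P2b_e03 : ¬ ((0 : Fin 4) = 3) := by decide

/-- `F_q c_{q,2} b_{q,1} = F_q c_{q,3} b_{q,4}`: `(u_b) = (e - a, e - t, t, a)`, `o = ae + t`; `a' = a + 1` for `u'`. -/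
theorem cl4 (d q : ℕ) (ν u u' : W → ℕ)
    (hu : ∀ v, u v = ν v + fE q v + dl (.c q 1) v + dl (.b q 0) v)
    (hu' : ∀ v, u' v = ν v + fE q v + dl (.c q 2) v + dl (.b q 3) v) (o : ℤ) :
    PP d (q + 1) u o ↔ PP d (q + 1) u' o := by
  have hz : ∀ v, lev q v → dl (.c q 1) v + dl (.b q 0) v = 0 := fun v hv => by
    rw [P2b_dl q _ v (P2b_nc q 1) hv, P2b_dl q _ v (P2b_nb q 0) hv]
  have hz' : ∀ v, lev q v → dl (.c q 2) v + dl (.b q 3) v = 0 := fun v hv => by
    rw [P2b_dl q _ v (P2b_nc q 2) hv, P2b_dl q _ v (P2b_nb q 3) hv]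
  have uc : ∀ i, u (.c q i) = ν (.c q i) + if i = 1 then 1 else 0 := fun i => by
    rw [hu, P2b_fEc q q le_rfl, P2b_cc q q 1 i rfl, P2b_bc]; omega
  have uc' : ∀ i, u' (.c q i) = ν (.c q i) + if i = 2 then 1 else 0 := fun i => by
    rw [hu', P2b_fEc q q le_rfl, P2b_cc q q 2 i rfl, P2b_bc]; omega
  have ub : ∀ i, u (.b q i) = ν (.b q i) + if i = 0 then 1 else 0 := fun i => by
    rw [hu, P2b_fEb, P2b_cb, P2b_bb]; omega
  have ub' : ∀ i, u' (.b q i) = ν (.b q i) + if i = 3 then 1 else 0 := fun i => by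
    rw [hu', P2b_fEb, P2b_cb, P2b_bb]; omega
  have he : (0 : ℤ) ≤ eM d q := Int.natCast_nonneg _
  constructor
  · rintro ⟨o', h1, j, hc, hA⟩
    obtain ⟨ho, hP⟩ := P2b_low d q ν u u' _ _ (fun v => by rw [hu v, add_assoc]) (fun v => by rw [hu' v, add_assoc])
      hz hz' o' h1
    have hj : j = 1 := by
      by_contra hne
      have h2 := hc 1
      rw [uc, if_pos rfl, if_neg (Ne.symm hne)] at h2
      omega
    subst hj
    subst ho
    simp only [An, if_neg P2b_e10, if_neg P2b_e12, if_neg P2b_e13, if_true, ub, if_neg P2b_e20, if_neg P2b_e30]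
      at hA
    obtain ⟨a, t, h3, h4, h5, h6, h7, h8, h9, h10, h11⟩ := hA
    push_cast at h7 h8 h9 h10
    refine ⟨eM d q, hP, 2, fun i => ?_, ?_⟩
    · have h2 := hc i
      rw [uc] at h2
      rw [uc']
      omega
    · simp only [An, if_neg P2b_e20, if_neg P2b_e21, if_neg P2b_e23, if_true, ub', if_neg P2b_e03, if_neg P2b_e13]
      refine ⟨a + 1, t, by omega, by omega, h5, h6, ?_, ?_, ?_, ?_, ?_, ?_⟩
      · push_cast; omega
      · push_cast; omega
      · push_cast; omega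
      · push_cast; omega
      · rw [h11]; ring
      · rw [h11]; positivity
  · rintro ⟨o', h1, j, hc, hA⟩
    obtain ⟨ho, hP⟩ := P2b_low d q ν u' u _ _ (fun v => by rw [hu' v, add_assoc]) (fun v => by rw [hu v, add_assoc])
      hz' hz o' h1
    have hj : j = 2 := by
      by_contra hne
      have h2 := hc 2
      rw [uc', if_pos rfl, if_neg (Ne.symm hne)] at h2
      omega
    subst hj
    subst ho
    simp only [An, if_neg P2b_e20, if_neg P2b_e21, if_neg P2b_e23, if_true, ub', if_neg P2b_e03, if_neg P2b_e13]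
      at hA
    obtain ⟨a, t, h3, h4, h5, h6, h7, h8, h9, h10, h11, h12⟩ := hA
    push_cast at h7 h8 h9 h10
    refine ⟨eM d q, hP, 1, fun i => ?_, ?_⟩
    · have h2 := hc i
      rw [uc'] at h2
      rw [uc]
      omega
    · simp only [An, if_neg P2b_e10, if_neg P2b_e12, if_neg P2b_e13, if_true, ub, if_neg P2b_e20, if_neg P2b_e30]
      refine ⟨a - 1, t, by omega, by omega, h5, h6, ?_, ?_, ?_, ?_, h11⟩
      · push_cast; omega
      · push_cast; omega
      · push_cast; omega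
      · push_cast; omega

/-- `F_q c_{q,2} b_{q,2} h = F_q c_{q,2} B b_{q,3}` -/
theorem cl6 (d q : ℕ) (ν u u' : W → ℕ)
    (hu : ∀ v, u v = ν v + fE q v + dl (.c q 1) v + dl (.b q 1) v + dl .h v)
    (hu' : ∀ v, u' v = ν v + fE q v + dl (.c q 1) v + dl .B v + dl (.b q 2) v) (o : ℤ) :
    PP d (q + 1) u o ↔ PP d (q + 1) u' (o + 1) := by
  have hz : ∀ v, lev q v → dl (.c q 1) v + dl (.b q 1) v + dl .h v = 0 := fun v hv => by
    rw [P2b_dl q _ v (P2b_nc q 1) hv, P2b_dl q _ v (P2b_nb q 1) hv, P2b_dl q _ v (P2b_nh q) hv]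
  have hz' : ∀ v, lev q v → dl (.c q 1) v + dl .B v + dl (.b q 2) v = 0 := fun v hv => by
    rw [P2b_dl q _ v (P2b_nc q 1) hv, P2b_dl q _ v (P2b_nb q 2) hv, P2b_dl q _ v (P2b_nB q) hv]
  have uc : ∀ i, u (.c q i) = ν (.c q i) + if i = 1 then 1 else 0 := fun i => by
    rw [hu, P2b_fEc q q le_rfl, P2b_cc q q 1 i rfl, P2b_bc, P2b_hc]; omega
  have uc' : ∀ i, u' (.c q i) = ν (.c q i) + if i = 1 then 1 else 0 := fun i => by
    rw [hu', P2b_fEc q q le_rfl, P2b_cc q q 1 i rfl, P2b_bc, P2b_Bc]; omega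
  have ub : ∀ i, u (.b q i) = ν (.b q i) + if i = 1 then 1 else 0 := fun i => by
    rw [hu, P2b_fEb, P2b_cb, P2b_bb, P2b_hb]; omega
  have ub' : ∀ i, u' (.b q i) = ν (.b q i) + if i = 2 then 1 else 0 := fun i => by
    rw [hu', P2b_fEb, P2b_cb, P2b_bb, P2b_Bb]; omega
  constructor
  · rintro ⟨o', h1, j, hc, hA⟩
    obtain ⟨ho, hP⟩ := P2b_low d q ν u u' _ _ (fun v => by rw [hu v]; ring) (fun v => by rw [hu' v]; ring)
      hz hz' o' h1
    have hj : j = 1 := by
      by_contra hne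
      have h2 := hc 1
      rw [uc, if_pos rfl, if_neg (Ne.symm hne)] at h2
      omega
    subst hj
    subst ho
    simp only [An, if_neg P2b_e10, if_neg P2b_e12, if_neg P2b_e13, if_true, ub, if_neg P2b_e01, if_neg P2b_e21,
      if_neg P2b_e31] at hA
    obtain ⟨a, t, h3, h4, h5, h6, h7, h8, h9, h10, h11⟩ := hA
    push_cast at h7 h8 h9 h10
    refine ⟨eM d q, hP, 1, fun i => ?_, ?_⟩
    · have h2 := hc i
      rw [uc] at h2
      rw [uc']
      omega
    · simp only [An, if_neg P2b_e10, if_neg P2b_e12, if_neg P2b_e13, if_true, ub', if_neg P2b_e02, if_neg P2b_e12,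
        if_neg P2b_e32]
      refine ⟨a, t + 1, h3, h4, by omega, by omega, ?_, ?_, ?_, ?_, ?_⟩
      · push_cast; omega
      · push_cast; omega
      · push_cast; omega
      · push_cast; omega
      · rw [h11]; ring
  · rintro ⟨o', h1, j, hc, hA⟩
    obtain ⟨ho, hP⟩ := P2b_low d q ν u' u _ _ (fun v => by rw [hu' v]; ring) (fun v => by rw [hu v]; ring)
      hz' hz o' h1
    have hj : j = 1 := by
      by_contra hne
      have h2 := hc 1
      rw [uc', if_pos rfl, if_neg (Ne.symm hne)] at h2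
      omega
    subst hj
    subst ho
    simp only [An, if_neg P2b_e10, if_neg P2b_e12, if_neg P2b_e13, if_true, ub', if_neg P2b_e02, if_neg P2b_e12,
      if_neg P2b_e32] at hA
    obtain ⟨a, t, h3, h4, h5, h6, h7, h8, h9, h10, h11⟩ := hA
    push_cast at h7 h8 h9 h10
    refine ⟨eM d q, hP, 1, fun i => ?_, ?_⟩
    · have h2 := hc i
      rw [uc'] at h2
      rw [uc]
      omega
    · simp only [An, if_neg P2b_e10, if_neg P2b_e12, if_neg P2b_e13, if_true, ub, if_neg P2b_e01, if_neg P2b_e21,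
        if_neg P2b_e31]
      refine ⟨a, t - 1, h3, h4, by omega, by omega, ?_, ?_, ?_, ?_, ?_⟩
      · push_cast; omega
      · push_cast; omega
      · push_cast; omega
      · push_cast; omega
      · linarith

private theorem cl5_congr (d : ℕ) (u u' : W → ℕ) : ∀ (r : ℕ) (_ : ∀ v, lev r v → u v = u' v)
    (o : ℤ), PP d r u o → PP d r u' o := by
  intro r
  induction r with
  | zero =>
    intro h o ho
    have h1 := h .s trivial
    have h2 := h .f trivial
    unfold PP at ho ⊢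
    rw [← h1, ← h2]
    exact ho
  | succ r ih =>
    intro h o ho
    obtain ⟨o', h1, j, hc, hA⟩ := ho
    have hcr : ∀ i, u (.c r i) = u' (.c r i) := fun i => h (.c r i) (Nat.lt_succ_self r)
    have hbr : ∀ i, u (.b r i) = u' (.b r i) := fun i => h (.b r i) (Nat.lt_succ_self r)
    refine ⟨o', ih (fun v hv => h v ?_) o' h1, j, fun i => ?_, ?_⟩
    · cases v with
      | s => trivial
      | f => trivial
      | h => exact hv
      | B => exact hv
      | c q i => exact Nat.lt_succ_of_lt hv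
      | b q i => exact Nat.lt_succ_of_lt hv
    · rw [← hcr]
      exact hc i
    · rw [← hbr, ← hbr, ← hbr, ← hbr]
      exact hA

/-- `F_q c_{q,2} c_{q+1,i} b_{q,2} h = F_q c_{q,2} c_{q+1,i} b_{q+1,i} b_{q,3}`: in level `q` the flag exponent goes from
`ae + t` to `ae + t + 1`, and so does the exponent of `b_{q+1,i}`. -/
theorem cl5 (d q : ℕ) (i : Fin 4) (ν u u' : W → ℕ)
    (hu : ∀ v, u v = ν v + fE q v + dl (.c q 1) v + dl (.c (q + 1) i) v + dl (.b q 1) v + dl .h v)
    (hu' : ∀ v, u' v = ν v + fE q v + dl (.c q 1) v + dl (.c (q + 1) i) v +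
      dl (.b (q + 1) i) v + dl (.b q 2) v) (o : ℤ) :
    PP d (q + 2) u o ↔ PP d (q + 2) u' o := by
  set ν₁ : W → ℕ := fun v => ν v + dl (.c (q + 1) i) v with hν
  set u₂ : W → ℕ := fun v => ν₁ v + fE q v + dl (.c q 1) v + dl .B v + dl (.b q 2) v with hu₂
  have key : ∀ o₁, PP d (q + 1) u o₁ ↔ PP d (q + 1) u₂ (o₁ + 1) := fun o₁ =>
    cl6 d q ν₁ u u₂ (fun v => by rw [hu v, hν]; ring) (fun v => rfl) o₁
  have hlev : ∀ v, lev (q + 1) v → u₂ v = u' v := by
    intro v hv
    have h1 : dl .B v = 0 := by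
      unfold dl
      rw [if_neg]
      rintro rfl
      exact hv
    have h2 : dl (.b (q + 1) i) v = 0 := by
      unfold dl
      rw [if_neg]
      rintro rfl
      exact lt_irrefl _ (show q + 1 < q + 1 from hv)
    rw [hu' v, hu₂, hν]
    simp only [h1, h2]
    ring
  have key' : ∀ o₁, PP d (q + 1) u o₁ ↔ PP d (q + 1) u' (o₁ + 1) := fun o₁ =>
    (key o₁).trans ⟨cl5_congr d u₂ u' (q + 1) hlev _,
      cl5_congr d u' u₂ (q + 1) (fun v hv => (hlev v hv).symm) _⟩
  have uc : ∀ l, u (.c (q + 1) l) = ν (.c (q + 1) l) + if l = i then 1 else 0 := fun l => by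
    rw [hu, P2b_fEc q (q + 1) (Nat.le_succ q), P2b_cc (q + 1) (q + 1) i l rfl, P2b_bc, P2b_hc]
    have : dl (.c q 1) (.c (q + 1) l) = 0 := by simp [dl]
    omega
  have uc' : ∀ l, u' (.c (q + 1) l) = ν (.c (q + 1) l) + if l = i then 1 else 0 := fun l => by
    rw [hu', P2b_fEc q (q + 1) (Nat.le_succ q), P2b_cc (q + 1) (q + 1) i l rfl, P2b_bc, P2b_bc]
    have : dl (.c q 1) (.c (q + 1) l) = 0 := by simp [dl]
    omega
  have ub : ∀ l, u (.b (q + 1) l) = ν (.b (q + 1) l) := fun l => by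
    rw [hu, P2b_fEb, P2b_cb, P2b_cb, P2b_hb]
    have : dl (.b q 1) (.b (q + 1) l) = 0 := by simp [dl]
    omega
  have ub' : ∀ l, u' (.b (q + 1) l) = ν (.b (q + 1) l) + if l = i then 1 else 0 := fun l => by
    rw [hu', P2b_fEb, P2b_cb, P2b_cb, P2b_bb]
    have : dl (.b q 2) (.b (q + 1) l) = 0 := by simp [dl]
    omega
  have hsub : ∀ (l : Fin 4) (o₁ : ℤ), ((u' (.b (q + 1) l) : ℕ) : ℤ) - (if i = l then o₁ + 1 else 0) =
      (u (.b (q + 1) l) : ℕ) - (if i = l then o₁ else 0) := by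
    intro l o₁
    rw [ub', ub]
    by_cases h : l = i
    · subst h
      simp
    · rw [if_neg h, if_neg (Ne.symm h), if_neg (Ne.symm h)]
      simp
  constructor
  · rintro ⟨o₁, h1, j, hc, hA⟩
    have hj : j = i := by
      by_contra hne
      have h2 := hc i
      rw [uc, if_pos rfl, if_neg (Ne.symm hne)] at h2
      omega
    subst hj
    refine ⟨o₁ + 1, (key' o₁).1 h1, j, fun l => ?_, ?_⟩
    · rw [uc', ← uc]
      exact hc l
    · rw [hsub, hsub, hsub, hsub]
      exact hA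
  · rintro ⟨o₁, h1, j, hc, hA⟩
    have hj : j = i := by
      by_contra hne
      have h2 := hc i
      rw [uc', if_pos rfl, if_neg (Ne.symm hne)] at h2
      omega
    subst hj
    have h1' : PP d (q + 1) u' ((o₁ - 1) + 1) := by rwa [sub_add_cancel]
    refine ⟨o₁ - 1, (key' (o₁ - 1)).2 h1', j, fun l => ?_, ?_⟩
    · rw [uc, ← uc']
      exact hc l
    · rw [← hsub, ← hsub, ← hsub, ← hsub, sub_add_cancel]
      exact hA

/-- `s c_{0,i} h^d = f c_{0,i} b_{0,i}^d` -/
theorem clA (d : ℕ) (i : Fin 4) (ν u u' : W → ℕ)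
    (hu : ∀ v, u v = ν v + dl .s v + dl (.c 0 i) v + d * dl .h v)
    (hu' : ∀ v, u' v = ν v + dl .f v + dl (.c 0 i) v + d * dl (.b 0 i) v) (o : ℤ) :
    PP d 1 u o ↔ PP d 1 u' o := by
  have uc : ∀ k, u (.c 0 k) = ν (.c 0 k) + if k = i then 1 else 0 := fun k => by
    rw [hu, P2b_cc 0 0 i k rfl, P2b_hc]
    simp [dl]
  have uc' : ∀ k, u' (.c 0 k) = ν (.c 0 k) + if k = i then 1 else 0 := fun k => by
    rw [hu', P2b_cc 0 0 i k rfl, P2b_bc]
    simp [dl]
  have ub : ∀ k, u (.b 0 k) = ν (.b 0 k) := fun k => by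
    rw [hu]
    simp [dl]
  have ub' : ∀ k, u' (.b 0 k) = ν (.b 0 k) + d * if k = i then 1 else 0 := fun k => by
    rw [hu', P2b_bb]
    simp [dl]
  have us : u .s = ν .s + 1 := by rw [hu]; simp [dl]
  have uf : u .f = ν .f := by rw [hu]; simp [dl]
  have us' : u' .s = ν .s := by rw [hu']; simp [dl]
  have uf' : u' .f = ν .f + 1 := by rw [hu']; simp [dl]
  have hb : ∀ k : Fin 4, (u' (.b 0 k) : ℤ) - (if i = k then (d : ℤ) else 0) = (u (.b 0 k) : ℤ) - (if i = k then (0 : ℤ) else 0) := by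
    intro k
    rw [ub, ub']
    by_cases hk : i = k
    · subst hk
      simp
    · rw [if_neg hk, if_neg hk, if_neg (Ne.symm hk)]
      simp
  have hcc : ∀ k, u (.c 0 k) = u' (.c 0 k) := fun k => by rw [uc, uc']
  have hji : ∀ (w : W → ℕ) (j : Fin 4), (∀ k, w (.c 0 k) = if k = j then 1 else 0) → 1 ≤ w (.c 0 i) → j = i := by
    intro w j hw h1
    by_contra hne
    rw [hw i, if_neg (Ne.symm hne)] at h1
    omega
  constructor
  · rintro ⟨o', h1, j, hc, hA⟩
    have hj : j = i := hji u j hc (by rw [uc, if_pos rfl]; omega)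
    subst hj
    simp only [PP] at h1
    rcases h1 with ⟨h2, h3, h4⟩ | ⟨h2, h3, h4⟩
    · subst h4
      refine ⟨d, ?_, j, fun k => by rw [← hcc k]; exact hc k, ?_⟩
      · simp only [PP]
        right
        refine ⟨by omega, by omega, trivial⟩
      · rw [hb 0, hb 1, hb 2, hb 3]
        exact hA
    · omega
  · rintro ⟨o', h1, j, hc, hA⟩
    have hj : j = i := hji u' j hc (by rw [uc', if_pos rfl]; omega)
    subst hj
    simp only [PP] at h1
    rcases h1 with ⟨h2, h3, h4⟩ | ⟨h2, h3, h4⟩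
    · omega
    · subst h4
      refine ⟨0, ?_, j, fun k => by rw [hcc k]; exact hc k, ?_⟩
      · simp only [PP]
        left
        refine ⟨by omega, by omega, trivial⟩
      · rw [hb 0, hb 1, hb 2, hb 3] at hA
        exact hA

end Pool.Agent.RegRed
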