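import Mathlib

/-! Row 724x-P3: a monomial of a closed set is not in a binomial ideal. -/

set_option autoImplicit false

namespace Pool.Agent.RegRed

open MvPolynomial

noncomputable section

open Classical in
/-- Proof: the linear functional which sums the coefficients at the monomials in `P` vanishes on the ideal. -/
theorem not_mem_of_closed {σ : Type} (P : (σ →₀ ℕ) → Prop) (G : Set (MvPolynomial σ ℂ))
    (hG : ∀ p ∈ G, (∃ m₁ m₂, p = monomial m₁ 1 - monomial m₂ 1 ∧ ∀ ν, P (ν + m₁) ↔ P (ν + m₂)) ∨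
      ∃ z, p = monomial z 1 ∧ ∀ ν, ¬ P (ν + z)) (u₀ : σ →₀ ℕ) (h₀ : P u₀) :
    monomial u₀ 1 ∉ Ideal.span G := by
  set L : MvPolynomial σ ℂ →ₗ[ℂ] ℂ :=
    (basisMonomials σ ℂ).constr ℂ (fun u => if P u then (1 : ℂ) else 0) with hL
  have hL1 : ∀ u, L (monomial u 1) = if P u then (1 : ℂ) else 0 := by
    intro u
    have := (basisMonomials σ ℂ).constr_basis ℂ (fun u => if P u then (1 : ℂ) else 0) u
    simpa [hL] using this
  have hmul : ∀ p ∈ G, ∀ ν : σ →₀ ℕ, L (monomial ν 1 * p) = 0 := by
    intro p hp ν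
    rcases hG p hp with ⟨m₁, m₂, rfl, h⟩ | ⟨z, rfl, h⟩
    · rw [mul_sub, monomial_mul, monomial_mul, map_sub, mul_one, hL1, hL1]
      simp only [h ν, sub_self]
    · rw [monomial_mul, mul_one, hL1, if_neg (h ν)]
  have hall : ∀ p ∈ G, ∀ q : MvPolynomial σ ℂ, L (q * p) = 0 := by
    intro p hp q
    induction q using MvPolynomial.induction_on' with
    | monomial u a =>
      have : (monomial u a : MvPolynomial σ ℂ) = a • monomial u 1 := by
        rw [smul_monomial, smul_eq_mul, mul_one]
      rw [this, smul_mul_assoc, map_smul, hmul p hp u, smul_zero]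
    | add p' q' hp' hq' => rw [add_mul, map_add, hp', hq', add_zero]
  intro hmem
  have hzero : ∀ f ∈ Ideal.span G, L f = 0 := by
    intro f hf
    obtain ⟨c, hc⟩ := (Finsupp.mem_ideal_span_range_iff_exists_finsupp (v := ((↑) : G → MvPolynomial σ ℂ))).1
      (by simpa using hf)
    rw [← hc, Finsupp.sum, map_sum]
    exact Finset.sum_eq_zero fun i _ => hall i.1 i.2 _
  have h1 := hzero _ hmem
  rw [hL1, if_pos h₀] at h1
  exact one_ne_zero h1

end

end Pool.Agent.RegRed
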