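import Mathlib
import Pool.Agent.Lib.MP_724d4c_ag.XMMcl
import Pool.Agent.Lib.MP_724d4c_ag.XMMfun

/-! Row 724x-P4: `S_k h^w` is not in the ideal of the relations for `w < e_k`. -/

set_option autoImplicit false

namespace Pool.Agent.RegRed

open MvPolynomial

noncomputable section

/-- exponents of `S_r` -/
def mS (r : ℕ) : W →₀ ℕ := Finsupp.single .s 1 + ∑ q ∈ Finset.range r, Finsupp.single (.c q 0) 1

/-- exponents of `F_r` -/
def mF : ℕ → (W →₀ ℕ)
  | 0 => Finsupp.single .f 1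
  | r + 1 => mS r + Finsupp.single (.c r 3) 1

theorem mS_apply (r : ℕ) (v : W) : mS r v = sE r v := by
  unfold mS
  rw [Finsupp.add_apply, Finsupp.finsetSum_apply]
  cases v with
  | s => simp [sE]
  | f => simp [sE]
  | h => simp [sE]
  | B => simp [sE]
  | b q i => simp [sE]
  | c q i =>
    have h0 : (Finsupp.single W.s 1 : W →₀ ℕ) (.c q i) = 0 := by simp
    rw [h0, zero_add]
    by_cases h : q < r ∧ i = 0
    · have h1 : sE r (.c q i) = 1 := by
        change (if q < r ∧ i = 0 then 1 else 0) = 1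
        rw [if_pos h]
      rw [h1, Finset.sum_eq_single q]
      · rw [h.2, Finsupp.single_eq_same]
      · intro q' _ hne
        rw [Finsupp.single_apply, if_neg]
        intro he
        exact hne (by injection he)
      · intro hn
        exact absurd (Finset.mem_range.mpr h.1) hn
    · have h1 : sE r (.c q i) = 0 := by
        change (if q < r ∧ i = 0 then 1 else 0) = 0
        rw [if_neg h]
      rw [h1]
      refine Finset.sum_eq_zero fun q' hq' => ?_
      rw [Finsupp.single_apply, if_neg]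
      intro he
      injection he with he1 he2
      exact h ⟨he1 ▸ Finset.mem_range.mp hq', he2.symm⟩

theorem mF_apply (r : ℕ) (v : W) : mF r v = fE r v := by
  cases r with
  | zero =>
    change (Finsupp.single W.f 1 : W →₀ ℕ) v = if v = .f then 1 else 0
    rw [Finsupp.single_apply]
    simp only [eq_comm]
  | succ r =>
    change (mS r + Finsupp.single (W.c r 3) 1 : W →₀ ℕ) v = sE r v + if v = .c r 3 then 1 else 0
    rw [Finsupp.add_apply, mS_apply, Finsupp.single_apply]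
    simp only [eq_comm]

theorem mS_deg (r : ℕ) : (mS r).degree = r + 1 := by
  unfold mS
  rw [map_add, map_sum]
  simp only [Finsupp.degree_single, Finset.sum_const, Finset.card_range, smul_eq_mul, mul_one]
  ring

theorem mF_deg (r : ℕ) : (mF r).degree = r + 1 := by
  cases r with
  | zero =>
    change (Finsupp.single W.f 1 : W →₀ ℕ).degree = 0 + 1
    rw [Finsupp.degree_single]
  | succ r =>
    change (mS r + Finsupp.single (W.c r 3) 1).degree = r + 1 + 1
    rw [map_add, mS_deg, Finsupp.degree_single]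

theorem SS_eq (r : ℕ) : SS (X : W → MvPolynomial W ℂ) r = monomial (mS r) 1 := by
  induction r with
  | zero => simp [SS, mS, X]
  | succ r ih =>
    have h1 : SS (X : W → MvPolynomial W ℂ) (r + 1) = SS X r * X (.c r 0) := by
      unfold SS
      rw [Finset.prod_range_succ, mul_assoc]
    have h2 : mS (r + 1) = mS r + Finsupp.single (.c r 0) 1 := by
      unfold mS
      rw [Finset.sum_range_succ, add_assoc]
    rw [h1, h2, ih, X, monomial_mul, one_mul]

theorem FF_eq (r : ℕ) : FF (X : W → MvPolynomial W ℂ) r = monomial (mF r) 1 := by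
  cases r with
  | zero => rfl
  | succ r =>
    change SS (X : W → MvPolynomial W ℂ) r * X (.c r 3) =
      monomial (mS r + Finsupp.single (.c r 3) 1) 1
    rw [SS_eq, X, monomial_mul, one_mul]

/-- The closed set. -/
def PK (d k D : ℕ) (u : W →₀ ℕ) : Prop := PP d k u (u .B) ∧ u.degree = D

/-- All generators in the polynomial ring with all variables (`v` of level `< k`, or `h`, or `B`). -/
def GW (k d : ℕ) : Set (MvPolynomial W ℂ) :=
  {p | (∃ i, p = relA X d i) ∨ (∃ r t, r < k ∧ p = relB X k r t) ∨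
    ∃ v, (lev k v ∨ v = .h ∨ v = .B) ∧ p = relZ X k v}

theorem P4a_dl (w v : W) : (Finsupp.single w 1 : W →₀ ℕ) v = dl w v := by
  rw [Finsupp.single_apply]
  unfold dl
  simp only [eq_comm]

theorem P4a_dl_mul (w v : W) (d : ℕ) : (Finsupp.single w d : W →₀ ℕ) v = d * dl w v := by
  rw [Finsupp.single_apply]
  unfold dl
  by_cases h : w = v
  · rw [if_pos h, if_pos h.symm, mul_one]
  · rw [if_neg h, if_neg (fun e => h e.symm), mul_zero]

theorem P4a_sE_high (q r : ℕ) (h : q + 1 ≤ r) (i : Fin 4) :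
    sE q (.c r i) = 0 ∧ sE q (.b r i) = 0 := by
  refine ⟨?_, rfl⟩
  change (if r < q ∧ i = 0 then 1 else 0) = 0
  rw [if_neg]
  intro h'
  omega

theorem P4a_fE_high (q r : ℕ) (h : q + 1 ≤ r) (i : Fin 4) :
    fE q (.c r i) = 0 ∧ fE q (.b r i) = 0 := by
  cases q with
  | zero => exact ⟨rfl, rfl⟩
  | succ q =>
    have h1 := P4a_sE_high q r (by omega) i
    constructor
    · change sE q (.c r i) + (if W.c r i = .c q 3 then 1 else 0) = 0
      rw [h1.1, if_neg]
      intro h'
      injection h' with h2 _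
      omega
    · change sE q (.b r i) + (if W.b r i = .c q 3 then 1 else 0) = 0
      rw [h1.2, if_neg]
      intro h'
      injection h'

theorem P4a_sE_B (q : ℕ) : sE q .B = 0 := rfl

theorem P4a_fE_B (q : ℕ) : fE q .B = 0 := by
  cases q with
  | zero => rfl
  | succ q =>
    change sE q .B + (if W.B = .c q 3 then 1 else 0) = 0
    rw [P4a_sE_B, if_neg]
    intro h'
    injection h'

/-- The transfer from level `q + 1` to level `k` in the closed set. -/
theorem P4a_mk (d k D q : ℕ) (hq : q < k) (m₁ m₂ : W →₀ ℕ) (a₁ a₂ : W → ℕ)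
    (ha₁ : ∀ v, m₁ v = a₁ v) (ha₂ : ∀ v, m₂ v = a₂ v) (hdeg : m₁.degree = m₂.degree)
    (hB : a₁ .B = a₂ .B)
    (hc : ∀ r, q + 1 ≤ r → r < k → ∀ i, a₁ (.c r i) = a₂ (.c r i) ∧ a₁ (.b r i) = a₂ (.b r i))
    (h : ∀ (ν u u' : W → ℕ), (∀ v, u v = ν v + a₁ v) → (∀ v, u' v = ν v + a₂ v) → ∀ o : ℤ,
      PP d (q + 1) u o ↔ PP d (q + 1) u' o)
    (ν : W →₀ ℕ) : PK d k D (ν + m₁) ↔ PK d k D (ν + m₂) := by
  have h1 : (ν + m₁) .B = (ν + m₂) .B := by
    rw [Finsupp.add_apply, Finsupp.add_apply, ha₁, ha₂, hB]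
  have h2 : (ν + m₁).degree = (ν + m₂).degree := by
    rw [map_add, map_add, hdeg]
  have h3 : ∀ r, q + 1 ≤ r → r < k → ∀ i, (ν + m₁) (.c r i) = (ν + m₂) (.c r i) ∧
      (ν + m₁) (.b r i) = (ν + m₂) (.b r i) := by
    intro r hr hrk i
    obtain ⟨h4, h5⟩ := hc r hr hrk i
    rw [Finsupp.add_apply, Finsupp.add_apply, Finsupp.add_apply, Finsupp.add_apply, ha₁, ha₁,
      ha₂, ha₂, h4, h5]
    exact ⟨rfl, rfl⟩
  have h0 : ∀ o : ℤ, PP d (q + 1) (ν + m₁ : W →₀ ℕ) o ↔ PP d (q + 1) (ν + m₂ : W →₀ ℕ) o :=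
    h ν _ _ (fun v => by rw [Finsupp.add_apply, ha₁]) (fun v => by rw [Finsupp.add_apply, ha₂])
  unfold PK
  rw [h1, h2]
  refine and_congr_left fun _ => ⟨fun h4 => ?_, fun h4 => ?_⟩
  · exact PP_lift d q k hq _ _ h3 (fun o ho => (h0 o).mp ho) _ h4
  · exact PP_lift d q k hq _ _
      (fun r hr hrk i => ⟨(h3 r hr hrk i).1.symm, (h3 r hr hrk i).2.symm⟩)
      (fun o ho => (h0 o).mpr ho) _ h4

theorem P4a_ne_c {r q : ℕ} (h : q + 1 ≤ r) (i j : Fin 4) : dl (.c q j) (.c r i) = 0 := by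
  unfold dl
  rw [if_neg]
  intro h'
  injection h' with h2 _
  omega

theorem P4a_ne_b {r q : ℕ} (h : q + 1 ≤ r) (i j : Fin 4) : dl (.b q j) (.b r i) = 0 := by
  unfold dl
  rw [if_neg]
  intro h'
  injection h' with h2 _
  omega

/-- From `clA`, `cl1`, …, `cl6` and `PP_lift`. -/
theorem PK_relA (d k D : ℕ) (hk : 1 ≤ k) (i : Fin 4) :
    ∃ m₁ m₂, relA (X : W → MvPolynomial W ℂ) d i = monomial m₁ 1 - monomial m₂ 1 ∧
      ∀ ν, PK d k D (ν + m₁) ↔ PK d k D (ν + m₂) := by
  refine ⟨Finsupp.single .s 1 + Finsupp.single (.c 0 i) 1 + Finsupp.single .h d,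
    Finsupp.single .f 1 + Finsupp.single (.c 0 i) 1 + Finsupp.single (.b 0 i) d, ?_, ?_⟩
  · unfold relA
    simp only [X, monomial_mul, monomial_pow, one_mul, one_pow, Finsupp.smul_single, smul_eq_mul,
      mul_one]
  · refine P4a_mk d k D 0 (by omega) _ _ (fun v => dl .s v + dl (.c 0 i) v + d * dl .h v)
      (fun v => dl .f v + dl (.c 0 i) v + d * dl (.b 0 i) v) (fun v => ?_) (fun v => ?_) ?_ rfl ?_ ?_
    · rw [Finsupp.add_apply, Finsupp.add_apply, P4a_dl, P4a_dl, P4a_dl_mul]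
    · rw [Finsupp.add_apply, Finsupp.add_apply, P4a_dl, P4a_dl, P4a_dl_mul]
    · simp only [map_add, Finsupp.degree_single]
    · intro r hr _ j
      have h1 := P4a_ne_c hr j i
      have h2 := P4a_ne_b hr j i
      constructor
      · change 0 + dl (.c 0 i) (.c r j) + d * 0 = 0 + dl (.c 0 i) (.c r j) + d * 0
        rfl
      · change 0 + 0 + d * 0 = 0 + 0 + d * dl (.b 0 i) (.b r j)
        rw [h2]
    · intro ν u u' hu hu' o
      exact clA d i ν u u' (fun v => by rw [hu]; ring) (fun v => by rw [hu']; ring) o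

theorem PK_rel1 (d k D r : ℕ) (hr : r < k) :
    ∃ m₁ m₂, rel1 (X : W → MvPolynomial W ℂ) r = monomial m₁ 1 - monomial m₂ 1 ∧
      ∀ ν, PK d k D (ν + m₁) ↔ PK d k D (ν + m₂) := by
  refine ⟨mF r + Finsupp.single (.c r 0) 1, mS r + Finsupp.single (.c r 1) 1, ?_, ?_⟩
  · unfold rel1
    simp only [FF_eq, SS_eq, X, monomial_mul, one_mul]
  · refine P4a_mk d k D r hr _ _ (fun v => fE r v + dl (.c r 0) v)
      (fun v => sE r v + dl (.c r 1) v) (fun v => ?_) (fun v => ?_) ?_ ?_ ?_ ?_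
    · rw [Finsupp.add_apply, mF_apply, P4a_dl]
    · rw [Finsupp.add_apply, mS_apply, P4a_dl]
    · simp only [map_add, mS_deg, mF_deg, Finsupp.degree_single]
    · simp only [P4a_sE_B, P4a_fE_B]
      rfl
    · intro r' hr' _ i
      simp only [P4a_ne_c hr', (P4a_sE_high r r' hr' i).1, (P4a_sE_high r r' hr' i).2,
        (P4a_fE_high r r' hr' i).1, (P4a_fE_high r r' hr' i).2]
      exact ⟨trivial, rfl⟩
    · intro ν u u' hu hu' o
      exact cl1 d r ν u u' (fun v => by rw [hu]; ring) (fun v => by rw [hu']; ring) o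

theorem PK_rel2 (d k D r : ℕ) (hr : r < k) :
    ∃ m₁ m₂, rel2 (X : W → MvPolynomial W ℂ) r = monomial m₁ 1 - monomial m₂ 1 ∧
      ∀ ν, PK d k D (ν + m₁) ↔ PK d k D (ν + m₂) := by
  refine ⟨mF r + Finsupp.single (.c r 3) 1, mS r + Finsupp.single (.c r 2) 1, ?_, ?_⟩
  · unfold rel2
    simp only [FF_eq, SS_eq, X, monomial_mul, one_mul]
  · refine P4a_mk d k D r hr _ _ (fun v => fE r v + dl (.c r 3) v)
      (fun v => sE r v + dl (.c r 2) v) (fun v => ?_) (fun v => ?_) ?_ ?_ ?_ ?_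
    · rw [Finsupp.add_apply, mF_apply, P4a_dl]
    · rw [Finsupp.add_apply, mS_apply, P4a_dl]
    · simp only [map_add, mS_deg, mF_deg, Finsupp.degree_single]
    · simp only [P4a_sE_B, P4a_fE_B]
      rfl
    · intro r' hr' _ i
      simp only [P4a_ne_c hr', (P4a_sE_high r r' hr' i).1, (P4a_sE_high r r' hr' i).2,
        (P4a_fE_high r r' hr' i).1, (P4a_fE_high r r' hr' i).2]
      exact ⟨trivial, rfl⟩
    · intro ν u u' hu hu' o
      exact cl2 d r ν u u' (fun v => by rw [hu]; ring) (fun v => by rw [hu']; ring) o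

theorem PK_rel3 (d k D r : ℕ) (hr : r < k) :
    ∃ m₁ m₂, rel3 (X : W → MvPolynomial W ℂ) r = monomial m₁ 1 - monomial m₂ 1 ∧
      ∀ ν, PK d k D (ν + m₁) ↔ PK d k D (ν + m₂) := by
  refine ⟨mS r + Finsupp.single (.c r 2) 1, mS r + Finsupp.single (.c r 1) 1, ?_, ?_⟩
  · unfold rel3
    simp only [FF_eq, SS_eq, X, monomial_mul, one_mul]
  · refine P4a_mk d k D r hr _ _ (fun v => sE r v + dl (.c r 2) v)
      (fun v => sE r v + dl (.c r 1) v) (fun v => ?_) (fun v => ?_) ?_ ?_ ?_ ?_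
    · rw [Finsupp.add_apply, mS_apply, P4a_dl]
    · rw [Finsupp.add_apply, mS_apply, P4a_dl]
    · simp only [map_add, mS_deg, mF_deg, Finsupp.degree_single]
    · simp only [P4a_sE_B, P4a_fE_B]
      rfl
    · intro r' hr' _ i
      simp only [P4a_ne_c hr', (P4a_sE_high r r' hr' i).1, (P4a_sE_high r r' hr' i).2,
        (P4a_fE_high r r' hr' i).1, (P4a_fE_high r r' hr' i).2]
      exact ⟨trivial, rfl⟩
    · intro ν u u' hu hu' o
      exact cl3 d r ν u u' (fun v => by rw [hu]; ring) (fun v => by rw [hu']; ring) o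

theorem P4b_sg (w v : W) : (Finsupp.single w 1 : W →₀ ℕ) v = dl w v := by
  rw [Finsupp.single_apply, dl]
  by_cases h : w = v
  · rw [if_pos h, if_pos h.symm]
  · rw [if_neg h, if_neg (fun h' => h h'.symm)]

theorem P4b_fE_B (r : ℕ) : fE r .B = 0 := by
  cases r with
  | zero => rfl
  | succ r =>
    show sE r .B + _ = 0
    rw [if_neg (by simp)]
    rfl

theorem P4b_fE_c {q r : ℕ} (h : q ≤ r) (i : Fin 4) : fE q (.c r i) = 0 := by
  cases q with
  | zero => rfl
  | succ q =>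
    show sE q (.c r i) + _ = 0
    rw [if_neg]
    · show (if r < q ∧ i = 0 then 1 else 0) + 0 = 0
      rw [if_neg (by omega)]
    · intro h'
      injection h' with h1 h2
      omega

theorem P4b_fE_b (q r : ℕ) (i : Fin 4) : fE q (.b r i) = 0 := by
  cases q with
  | zero => rfl
  | succ q =>
    show sE q (.b r i) + _ = 0
    rw [if_neg (by simp)]
    rfl

theorem P4b_dl_c {q r : ℕ} (h : q ≠ r) (i j : Fin 4) : dl (.c q i) (.c r j) = 0 := by
  rw [dl, if_neg]
  intro h'
  injection h' with h1 h2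
  exact h h1.symm

theorem P4b_dl_b {q r : ℕ} (h : q ≠ r) (i j : Fin 4) : dl (.b q i) (.b r j) = 0 := by
  rw [dl, if_neg]
  intro h'
  injection h' with h1 h2
  exact h h1.symm

/-- The two monomials have the same degree, and the closedness transfers. -/
theorem P4b_iff (d k D q : ℕ) (hq : q < k) (u u' : W →₀ ℕ)
    (hc : ∀ r, q + 1 ≤ r → r < k → ∀ i, u (.c r i) = u' (.c r i) ∧ u (.b r i) = u' (.b r i))
    (hB : u .B = u' .B) (hdeg : u.degree = u'.degree)
    (h : ∀ o, PP d (q + 1) u o ↔ PP d (q + 1) u' o) : PK d k D u ↔ PK d k D u' := by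
  unfold PK
  constructor
  · rintro ⟨h1, h2⟩
    refine ⟨?_, hdeg ▸ h2⟩
    rw [← hB]
    exact PP_lift d q k hq u u' hc (fun o => (h o).mp) _ h1
  · rintro ⟨h1, h2⟩
    refine ⟨?_, hdeg ▸ h2⟩
    rw [hB]
    exact PP_lift d q k hq u' u (fun r hr1 hr2 i => ⟨(hc r hr1 hr2 i).1.symm, (hc r hr1 hr2 i).2.symm⟩)
      (fun o => (h o).mpr) _ h1

theorem P4b_X (v : W) : (X v : MvPolynomial W ℂ) = monomial (Finsupp.single v 1) 1 := rfl

theorem PK_rel4 (d k D r : ℕ) (hr : r < k) :
    ∃ m₁ m₂, rel4 (X : W → MvPolynomial W ℂ) r = monomial m₁ 1 - monomial m₂ 1 ∧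
      ∀ ν, PK d k D (ν + m₁) ↔ PK d k D (ν + m₂) := by
  refine ⟨mF r + Finsupp.single (.c r 1) 1 + Finsupp.single (.b r 0) 1,
    mF r + Finsupp.single (.c r 2) 1 + Finsupp.single (.b r 3) 1, ?_, fun ν => ?_⟩
  · rw [rel4, FF_eq]
    simp only [P4b_X, monomial_mul, mul_one]
  · refine P4b_iff d k D r hr _ _ (fun r' h1 h2 i => ?_) ?_ ?_ (fun o => ?_)
    · simp only [Finsupp.add_apply, mF_apply, P4b_sg, P4b_fE_b, P4b_fE_c (q := r) (r := r') (by omega),
        P4b_dl_c (q := r) (r := r') (by omega), P4b_dl_b (q := r) (r := r') (by omega)]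
      simp [dl]
    · simp only [Finsupp.add_apply, mF_apply, P4b_sg, P4b_fE_B]
      simp [dl]
    · simp only [map_add, Finsupp.degree_single]
    · refine cl4 d r ν _ _ (fun v => ?_) (fun v => ?_) o
      · simp only [Finsupp.add_apply, mF_apply, P4b_sg]
        omega
      · simp only [Finsupp.add_apply, mF_apply, P4b_sg]
        omega

theorem PK_rel5 (d k D r : ℕ) (hr : r + 1 < k) (i : Fin 4) :
    ∃ m₁ m₂, rel5 (X : W → MvPolynomial W ℂ) r i = monomial m₁ 1 - monomial m₂ 1 ∧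
      ∀ ν, PK d k D (ν + m₁) ↔ PK d k D (ν + m₂) := by
  refine ⟨mF r + Finsupp.single (.c r 1) 1 + Finsupp.single (.c (r + 1) i) 1 +
      Finsupp.single (.b r 1) 1 + Finsupp.single .h 1,
    mF r + Finsupp.single (.c r 1) 1 + Finsupp.single (.c (r + 1) i) 1 +
      Finsupp.single (.b (r + 1) i) 1 + Finsupp.single (.b r 2) 1, ?_, fun ν => ?_⟩
  · rw [rel5, FF_eq]
    simp only [P4b_X, monomial_mul, mul_one]
  · refine P4b_iff d k D (r + 1) hr _ _ (fun r' h1 h2 j => ?_) ?_ ?_ (fun o => ?_)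
    · simp only [Finsupp.add_apply, mF_apply, P4b_sg, P4b_fE_b, P4b_fE_c (q := r) (r := r') (by omega),
        P4b_dl_c (q := r) (r := r') (by omega), P4b_dl_b (q := r) (r := r') (by omega),
        P4b_dl_c (q := r + 1) (r := r') (by omega), P4b_dl_b (q := r + 1) (r := r') (by omega)]
      simp [dl]
    · simp only [Finsupp.add_apply, mF_apply, P4b_sg, P4b_fE_B]
      simp [dl]
    · simp only [map_add, Finsupp.degree_single]
    · refine cl5 d r i ν _ _ (fun v => ?_) (fun v => ?_) o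
      · simp only [Finsupp.add_apply, mF_apply, P4b_sg]
        omega
      · simp only [Finsupp.add_apply, mF_apply, P4b_sg]
        omega

theorem PK_rel6 (d k D r : ℕ) (hr : r + 1 = k) :
    ∃ m₁ m₂, rel6 (X : W → MvPolynomial W ℂ) r = monomial m₁ 1 - monomial m₂ 1 ∧
      ∀ ν, PK d k D (ν + m₁) ↔ PK d k D (ν + m₂) := by
  subst hr
  refine ⟨mF r + Finsupp.single (.c r 1) 1 + Finsupp.single (.b r 1) 1 + Finsupp.single .h 1,
    mF r + Finsupp.single (.c r 1) 1 + Finsupp.single .B 1 + Finsupp.single (.b r 2) 1, ?_,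
    fun ν => ?_⟩
  · rw [rel6, FF_eq]
    simp only [P4b_X, monomial_mul, mul_one]
  · unfold PK
    refine and_congr ?_ ?_
    · have h1 : (((ν + (mF r + Finsupp.single (W.c r 1) 1 + Finsupp.single W.B 1 +
          Finsupp.single (W.b r 2) 1) : W →₀ ℕ) W.B : ℕ) : ℤ) =
          (((ν + (mF r + Finsupp.single (W.c r 1) 1 + Finsupp.single (W.b r 1) 1 +
            Finsupp.single W.h 1) : W →₀ ℕ) W.B : ℕ) : ℤ) + 1 := by
        simp only [Finsupp.add_apply, mF_apply, P4b_sg, P4b_fE_B]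
        simp [dl]
      rw [h1]
      refine cl6 d r ν _ _ (fun v => ?_) (fun v => ?_) _
      · simp only [Finsupp.add_apply, mF_apply, P4b_sg]
        omega
      · simp only [Finsupp.add_apply, mF_apply, P4b_sg]
        omega
    · simp only [map_add, Finsupp.degree_single]

/-- `PP_F` and the degree for `v = h`; `PP_S` for `v ≠ h`. -/
theorem PK_relZ (d k D : ℕ) (hD : D < k + 1 + eM d k) (v : W) (hv : lev k v ∨ v = .h ∨ v = .B) :
    ∃ z, relZ (X : W → MvPolynomial W ℂ) k v = monomial z 1 ∧ ∀ ν, ¬ PK d k D (ν + z) := by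
  by_cases h : v = .h
  · refine ⟨mF k, by rw [relZ, if_pos h, FF_eq], fun ν hν => ?_⟩
    obtain ⟨h1, h2⟩ := hν
    obtain ⟨h3, -⟩ := PP_F d k _ _ h1 (fun v => by
      rw [Finsupp.add_apply, mF_apply]
      omega)
    rw [Finsupp.add_apply, mF_apply, P4b_fE_B, add_zero] at h3
    have h4 : ν .B = eM d k := by exact_mod_cast h3
    have h5 : ν .B ≤ ν.degree := Finsupp.le_degree _ _
    rw [map_add, mF_deg] at h2
    omega
  · refine ⟨mS k + Finsupp.single v 1, ?_, fun ν hν => ?_⟩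
    · rw [relZ, if_neg h, SS_eq]
      simp only [P4b_X, monomial_mul, mul_one]
    · obtain ⟨h1, h2⟩ := hν
      obtain ⟨h3, h4⟩ := PP_S d k _ _ h1 (fun v => by
        rw [Finsupp.add_apply, Finsupp.add_apply, mS_apply]
        omega)
      rcases hv with hv | hv | hv
      · have h5 := h4 v hv
        rw [Finsupp.add_apply, Finsupp.add_apply, mS_apply, Finsupp.single_eq_same] at h5
        omega
      · exact h hv
      · subst hv
        rw [Finsupp.add_apply, Finsupp.add_apply, Finsupp.single_eq_same] at h3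
        push_cast at h3
        omega

theorem P4b_relB (d k D r : ℕ) (hr : r < k) (t : Fin 8) :
    ∃ m₁ m₂, relB (X : W → MvPolynomial W ℂ) k r t = monomial m₁ 1 - monomial m₂ 1 ∧
      ∀ ν, PK d k D (ν + m₁) ↔ PK d k D (ν + m₂) := by
  rw [relB]
  split_ifs with h0 h1 h2 h3 h4
  · exact PK_rel1 d k D r hr
  · exact PK_rel2 d k D r hr
  · exact PK_rel3 d k D r hr
  · exact PK_rel4 d k D r hr
  · exact PK_rel5 d k D r h4 _
  · exact PK_rel6 d k D r (by omega)

theorem not_mem_W (k d w : ℕ) (hk : 1 ≤ k) (hw : w < eM d k) :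
    SS (X : W → MvPolynomial W ℂ) k * X .h ^ w ∉ Ideal.span (GW k d) := by
  have h1 : SS (X : W → MvPolynomial W ℂ) k * X .h ^ w =
      monomial (mS k + Finsupp.single .h w) 1 := by
    rw [SS_eq, X_pow_eq_monomial, monomial_mul, mul_one]
  rw [h1]
  refine not_mem_of_closed (PK d k (k + 1 + w)) (GW k d) ?_ _ ?_
  · rintro p (⟨i, rfl⟩ | ⟨r, t, hr, rfl⟩ | ⟨v, hv, rfl⟩)
    · exact Or.inl (PK_relA d k _ hk i)
    · exact Or.inl (P4b_relB d k _ r hr t)
    · exact Or.inr (PK_relZ d k _ (by omega) v hv)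
  · refine ⟨?_, ?_⟩
    · have h2 : (mS k + Finsupp.single W.h w : W →₀ ℕ) W.B = 0 := by
        rw [Finsupp.add_apply, mS_apply, Finsupp.single_apply, if_neg (by simp)]
        rfl
      rw [h2, Nat.cast_zero]
      refine PP_S_mk d k _ (fun v hv => ?_)
      rw [Finsupp.add_apply, mS_apply, Finsupp.single_apply, if_neg, add_zero]
      rintro rfl
      exact hv
    · rw [map_add, mS_deg, Finsupp.degree_single]

end

end Pool.Agent.RegRed
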