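import Mathlib
import Pool.Agent.Lib.MP_724d4c_ag.XMM

/-! Row 724x-U: in every commutative ring where the relations hold, `S_k h^H = 0` for `H ≥ W_k`. -/

set_option autoImplicit false

namespace Pool.Agent.RegRed

open MvPolynomial

noncomputable section

section
variable {A : Type} [CommRing A]

theorem up_pow (G F1 b1 h z b2 : A) (h5 : G * (F1 * b1 * h) = G * (F1 * z * b2)) (m : ℕ) :
    G * F1 * b1 ^ m * h ^ m = G * F1 * z ^ m * b2 ^ m := by
  induction m with
  | zero => simp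
  | succ m ih =>
    calc G * F1 * b1 ^ (m + 1) * h ^ (m + 1) = (G * F1 * b1 ^ m * h ^ m) * (b1 * h) := by ring
      _ = (G * F1 * z ^ m * b2 ^ m) * (b1 * h) := by rw [ih]
      _ = (G * (F1 * b1 * h)) * (z ^ m * b2 ^ m) := by ring
      _ = (G * (F1 * z * b2)) * (z ^ m * b2 ^ m) := by rw [h5]
      _ = _ := by ring

theorem up_path (S F h G z : A) (c b : Fin 4 → A) (e w : ℕ) (hew : e ≤ w)
    (hL : ∀ i, ∀ t : ℕ, S * c i * h ^ (w + t) = F * c i * b i ^ e * h ^ (w + t - e))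
    (h1 : F * c 0 = S * c 1) (h3 : S * c 2 = S * c 1)
    (h4 : F * c 1 * b 0 = F * c 2 * b 3)
    (h5 : G * (F * c 1 * b 1 * h) = G * (F * c 1 * z * b 2)) (t : ℕ) (a : ℕ) :
    ∀ r : ℕ, a + r = e → G * (S * c 0 * h ^ (w + e * e + e + t)) =
      G * (S * c 1 * b 0 ^ r * b 3 ^ a * z ^ (a * e) * h ^ (w + e * r + t)) := by
  induction a with
  | zero =>
    intro r hr
    obtain rfl : r = e := by omega
    have e1 := hL 0 (r * r + r + t)
    rw [show w + (r * r + r + t) = w + r * r + r + t by omega] at e1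
    rw [e1, show w + r * r + r + t - r = w + r * r + t by omega, h1]
    ring
  | succ a ih =>
    intro r hr
    rw [ih (r + 1) (by omega)]
    obtain ⟨w', rfl⟩ : ∃ w', w = e + w' := ⟨w - e, by omega⟩
    have e1 := hL 1 (e * (r + 1) + t)
    have e2 := hL 2 (e * r + t)
    have x1 : e + w' + (e * (r + 1) + t) - e = e + (w' + e * r + t) := by
      rw [mul_add]
      omega
    have x2 : e + w' + (e * r + t) - e = w' + e * r + t := by omega
    rw [x1] at e1
    rw [x2] at e2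
    rw [← add_assoc] at e1 e2
    have e3 := up_pow G (F * c 1) (b 1) h z (b 2) h5 e
    calc G * (S * c 1 * b 0 ^ (r + 1) * b 3 ^ a * z ^ (a * e) * h ^ (e + w' + e * (r + 1) + t))
        = G * (S * c 1 * h ^ (e + w' + e * (r + 1) + t)) * (b 0 ^ (r + 1) * b 3 ^ a * z ^ (a * e)) := by ring
      _ = G * (F * c 1 * b 1 ^ e * h ^ (e + (w' + e * r + t))) *
          (b 0 ^ (r + 1) * b 3 ^ a * z ^ (a * e)) := by rw [e1]
      _ = (G * (F * c 1) * b 1 ^ e * h ^ e) *
          (h ^ (w' + e * r + t) * (b 0 ^ (r + 1) * b 3 ^ a * z ^ (a * e))) := by rw [pow_add]; ring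
      _ = (G * (F * c 1) * z ^ e * b 2 ^ e) *
          (h ^ (w' + e * r + t) * (b 0 ^ (r + 1) * b 3 ^ a * z ^ (a * e))) := by rw [e3]
      _ = G * (F * c 1 * b 0) *
          (z ^ e * b 2 ^ e * h ^ (w' + e * r + t) * (b 0 ^ r * b 3 ^ a * z ^ (a * e))) := by ring
      _ = G * (F * c 2 * b 3) *
          (z ^ e * b 2 ^ e * h ^ (w' + e * r + t) * (b 0 ^ r * b 3 ^ a * z ^ (a * e))) := by rw [h4]
      _ = G * (F * c 2 * b 2 ^ e * h ^ (w' + e * r + t)) *
          (b 0 ^ r * b 3 ^ (a + 1) * z ^ ((a + 1) * e)) := by rw [add_mul, one_mul, pow_add z]; ring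
      _ = G * (S * c 2 * h ^ (e + w' + e * r + t)) *
          (b 0 ^ r * b 3 ^ (a + 1) * z ^ ((a + 1) * e)) := by rw [e2]
      _ = _ := by rw [h3]; ring

/-- The step, `G` the catalyst of the next level, `z` its flag. Hypothesis: `S c_i h^H = F c_i b_i^e h^{H-e}` for
`H ≥ w` (`H = w + t`). Path, with `H = w + e² + e + t`, for `a = 0, …, e`:
`Z_a = G S c_1 b_0^{e-a} b_3^a z^{ae} h^{H-e-ae}` (indices `0..3`): `G S c_0 h^H = G F c_0 b_0^e h^{H-e} = Z_0`;
`Z_a = G F c_1 b_1^e b_0^{e-a} b_3^a z^{ae} h^{H-2e-ae} = G F c_1 z^e b_2^e ⋯ h^{H-3e-ae}`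
`= G F c_2 b_2^e b_0^{e-a-1} b_3^{a+1} z^{(a+1)e} h^{H-3e-ae} = G S c_2 b_0^{e-a-1} b_3^{a+1} z^{(a+1)e} h^{H-2e-ae} = Z_{a+1}`;
`Z_e = G S c_2 b_3^e z^{e²} h^{H-e-e²} = G F c_3 b_3^e z^{e²} h^{H-e-e²} = G S c_3 z^{e²} h^{H-e²}`. -/
theorem up_step (S F h G z : A) (c b : Fin 4 → A) (e w : ℕ) (hew : e ≤ w)
    (hL : ∀ i, ∀ t : ℕ, S * c i * h ^ (w + t) = F * c i * b i ^ e * h ^ (w + t - e))
    (h1 : F * c 0 = S * c 1) (h2 : F * c 3 = S * c 2) (h3 : S * c 2 = S * c 1)
    (h4 : F * c 1 * b 0 = F * c 2 * b 3)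
    (h5 : G * (F * c 1 * b 1 * h) = G * (F * c 1 * z * b 2)) (t : ℕ) :
    G * (S * c 0 * h ^ (w + e * e + e + t)) =
      G * (S * c 3 * z ^ (e * e) * h ^ (w + e * e + e + t - e * e)) := by
  rw [up_path S F h G z c b e w hew hL h1 h3 h4 h5 t e 0 (by omega)]
  have e3 := hL 3 (t + e)
  rw [show w + (t + e) - e = w + t by omega] at e3
  rw [show w + e * e + e + t - e * e = w + (t + e) by omega]
  calc G * (S * c 1 * b 0 ^ 0 * b 3 ^ e * z ^ (e * e) * h ^ (w + e * 0 + t))
      = G * (S * c 1) * (b 3 ^ e * z ^ (e * e) * h ^ (w + t)) := by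
        rw [mul_zero, add_zero, pow_zero]; ring
    _ = G * (F * c 3) * (b 3 ^ e * z ^ (e * e) * h ^ (w + t)) := by rw [← h3, ← h2]
    _ = G * (F * c 3 * b 3 ^ e * h ^ (w + t)) * z ^ (e * e) := by ring
    _ = G * (S * c 3 * h ^ (w + (t + e))) * z ^ (e * e) := by rw [e3]
    _ = _ := by ring

theorem U2_eM_le (d r : ℕ) : eM d r ≤ wM d r := by
  induction r with
  | zero => exact le_rfl
  | succ r ih =>
    rw [eM, wM]
    omega

theorem U2_relB (x : W → A) (k : ℕ) (hB : ∀ r, r < k → ∀ t, relB x k r t = 0) (r : ℕ) (hr : r < k) :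
    FF x r * x (.c r 0) = SS x r * x (.c r 1) ∧ FF x r * x (.c r 3) = SS x r * x (.c r 2) ∧
      SS x r * x (.c r 2) = SS x r * x (.c r 1) ∧
      FF x r * x (.c r 1) * x (.b r 0) = FF x r * x (.c r 2) * x (.b r 3) := by
  have h0 := hB r hr 0
  have h1 := hB r hr 1
  have h2 := hB r hr 2
  have h3 := hB r hr 3
  simp only [relB, rel1, rel2, rel3, rel4] at h0 h1 h2 h3
  refine ⟨?_, ?_, ?_, ?_⟩
  · simpa [sub_eq_zero] using h0
  · simpa [sub_eq_zero] using h1
  · simpa [sub_eq_zero] using h2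
  · simpa [sub_eq_zero] using h3

/-- Induction on `r` with `up_step`. -/
theorem up_level (x : W → A) (k d : ℕ) (hA : ∀ i, relA x d i = 0)
    (hB : ∀ r, r < k → ∀ t, relB x k r t = 0) (r : ℕ) (hr : r < k) (i : Fin 4) (t : ℕ) :
    SS x r * x (.c r i) * x .h ^ (wM d r + t) =
      FF x r * x (.c r i) * x (.b r i) ^ eM d r * x .h ^ (wM d r + t - eM d r) := by
  induction r generalizing i t with
  | zero =>
    have h1 := hA i
    rw [relA, sub_eq_zero] at h1
    have e1 : SS x 0 = x .s := by simp [SS]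
    have e2 : FF x 0 = x .f := rfl
    have e3 : wM d 0 = d := rfl
    have e4 : eM d 0 = d := rfl
    rw [e1, e2, e3, e4, Nat.add_sub_cancel_left, pow_add]
    linear_combination x .h ^ t * h1
  | succ r ih =>
    obtain ⟨h1, h2, h3, h4⟩ := U2_relB x k hB r (by omega)
    have h5 : x (.c (r + 1) i) * (FF x r * x (.c r 1) * x (.b r 1) * x .h) =
        x (.c (r + 1) i) * (FF x r * x (.c r 1) * x (.b (r + 1) i) * x (.b r 2)) := by
      have h6 := hB r (by omega) ⟨4 + i.1, by omega⟩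
      have hi : (⟨(4 + i.1) % 4, Nat.mod_lt _ (by norm_num)⟩ : Fin 4) = i := by
        apply Fin.ext
        change (4 + i.1) % 4 = i.1
        omega
      rw [relB, if_neg (by simp), if_neg (by simp; omega), if_neg (by simp; omega), if_neg (by simp; omega),
        if_pos hr] at h6
      simp only [hi, rel5] at h6
      linear_combination h6
    have h7 := up_step (SS x r) (FF x r) (x .h) (x (.c (r + 1) i)) (x (.b (r + 1) i))
      (fun j => x (.c r j)) (fun j => x (.b r j)) (eM d r) (wM d r) (U2_eM_le d r)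
      (fun j t => ih (by omega) j t) h1 h2 h3 h4 h5 t
    have e1 : SS x (r + 1) = SS x r * x (.c r 0) := by
      rw [SS, SS, Finset.prod_range_succ]
      ring
    have e2 : FF x (r + 1) = SS x r * x (.c r 3) := rfl
    have e3 : wM d (r + 1) = wM d r + eM d r * eM d r + eM d r := rfl
    have e4 : eM d (r + 1) = eM d r * eM d r := rfl
    rw [e1, e2, e3, e4]
    linear_combination h7

/-- The last level, with `G = 1`, `z = B`, `F_k = 0`. -/
theorem up_top (x : W → A) (k d : ℕ) (hk : 1 ≤ k) (hA : ∀ i, relA x d i = 0)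
    (hB : ∀ r, r < k → ∀ t, relB x k r t = 0) (hF : FF x k = 0) (t : ℕ) :
    SS x k * x .h ^ (wM d k + t) = 0 := by
  obtain ⟨r, rfl⟩ : ∃ r, k = r + 1 := ⟨k - 1, by omega⟩
  obtain ⟨h1, h2, h3, h4⟩ := U2_relB x (r + 1) hB r (by omega)
  have h5 : (1 : A) * (FF x r * x (.c r 1) * x (.b r 1) * x .h) =
      1 * (FF x r * x (.c r 1) * x .B * x (.b r 2)) := by
    have h6 := hB r (by omega) ⟨4, by omega⟩
    rw [relB, if_neg (by simp), if_neg (by simp), if_neg (by simp), if_neg (by simp),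
      if_neg (by omega)] at h6
    simp only [rel6] at h6
    linear_combination h6
  have h7 := up_step (SS x r) (FF x r) (x .h) 1 (x .B)
    (fun j => x (.c r j)) (fun j => x (.b r j)) (eM d r) (wM d r) (U2_eM_le d r)
    (fun j t => up_level x (r + 1) d hA hB r (by omega) j t) h1 h2 h3 h4 h5 t
  have e1 : SS x (r + 1) = SS x r * x (.c r 0) := by
    rw [SS, SS, Finset.prod_range_succ]
    ring
  have e2 : FF x (r + 1) = SS x r * x (.c r 3) := rfl
  have e3 : wM d (r + 1) = wM d r + eM d r * eM d r + eM d r := rfl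
  rw [e2] at hF
  rw [e1, e3]
  linear_combination h7 + x .B ^ (eM d r * eM d r) * x .h ^ (wM d r + eM d r * eM d r + eM d r + t - eM d r * eM d r) * hF

end

end

end Pool.Agent.RegRed
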