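import Mathlib
import Pool.Agent.Lib.MP_724d4c_ag.XMMup
import Pool.Agent.Lib.MP_724d4c_ag.XMMdeg
import Pool.Agent.Lib.MP_724d4c_ag.XMMlow

/-! Row 724x-FN: the ideal in `8k + 4` variables with `16k + 8` generators. -/

set_option autoImplicit false

namespace Pool.Agent.RegRed

open MvPolynomial

noncomputable section

/-- the number of a variable -/
def enc : W → ℕ
  | .s => 0
  | .f => 1
  | .h => 2
  | .B => 3
  | .c r i => 4 + 8 * r + i
  | .b r i => 8 + 8 * r + i

/-- the variable with a given number -/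
def dec (j : ℕ) : W :=
  if j = 0 then .s else if j = 1 then .f else if j = 2 then .h else if j = 3 then .B
  else if (j - 4) % 8 < 4 then .c ((j - 4) / 8) ⟨(j - 4) % 4, Nat.mod_lt _ (by norm_num)⟩
  else .b ((j - 4) / 8) ⟨(j - 4) % 4, Nat.mod_lt _ (by norm_num)⟩

theorem dec_enc (v : W) : dec (enc v) = v := by
  cases v with
  | s => rfl
  | f => rfl
  | h => rfl
  | B => rfl
  | c r i =>
    have hi := i.2
    have h0 : enc (.c r i) = 4 + 8 * r + i := rfl
    rw [h0]
    unfold dec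
    rw [if_neg (by omega), if_neg (by omega), if_neg (by omega), if_neg (by omega),
      if_pos (by omega)]
    congr 1
    · omega
    · ext
      simp only
      omega
  | b r i =>
    have hi := i.2
    have h0 : enc (.b r i) = 8 + 8 * r + i := rfl
    rw [h0]
    unfold dec
    rw [if_neg (by omega), if_neg (by omega), if_neg (by omega), if_neg (by omega),
      if_neg (by omega)]
    congr 1
    · omega
    · ext
      simp only
      omega

theorem enc_dec (j : ℕ) : enc (dec j) = j := by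
  unfold dec
  split_ifs with h0 h1 h2 h3 h4
  · rw [h0]; rfl
  · rw [h1]; rfl
  · rw [h2]; rfl
  · rw [h3]; rfl
  · change 4 + 8 * ((j - 4) / 8) + (j - 4) % 4 = j
    omega
  · change 8 + 8 * ((j - 4) / 8) + (j - 4) % 4 = j
    omega

/-- the variables of the polynomial ring in `8k+4` variables -/
def xF (k : ℕ) (v : W) : MvPolynomial (Fin (8 * k + 4)) ℂ :=
  if h : enc v < 8 * k + 4 then X ⟨enc v, h⟩ else X ⟨0, by omega⟩

theorem enc_lev (k : ℕ) (v : W) (hv : enc v < 8 * k + 4) : lev k v ∨ v = .h ∨ v = .B := by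
  cases v with
  | s => exact Or.inl trivial
  | f => exact Or.inl trivial
  | h => exact Or.inr (Or.inl rfl)
  | B => exact Or.inr (Or.inr rfl)
  | c r i =>
    left
    change r < k
    have : enc (.c r i) = 4 + 8 * r + i := rfl
    omega
  | b r i =>
    left
    change r < k
    have : enc (.b r i) = 8 + 8 * r + i := rfl
    omega

theorem xF_hom (k : ℕ) (v : W) : (xF k v).IsHomogeneous 1 := by
  unfold xF
  split_ifs
  · exact isHomogeneous_X _ _
  · exact isHomogeneous_X _ _

theorem xF_dec (k : ℕ) (j : Fin (8 * k + 4)) : xF k (dec j) = X j := by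
  unfold xF
  rw [dif_pos (by rw [enc_dec]; exact j.2)]
  congr 1
  exact Fin.ext (enc_dec j)

/-- the index set of the generators, `16k + 8` elements -/
abbrev GIx (k : ℕ) : Type := Fin 4 ⊕ (Fin k × Fin 8) ⊕ Fin (8 * k + 4)

/-- the generators -/
def gF (k d : ℕ) : GIx k → MvPolynomial (Fin (8 * k + 4)) ℂ :=
  Sum.elim (fun i => relA (xF k) d i)
    (Sum.elim (fun p => relB (xF k) k p.1 p.2) (fun j => relZ (xF k) k (dec j)))

/-- their degrees -/
def dF (k d : ℕ) : GIx k → ℕ :=
  Sum.elim (fun _ => d + 2) (Sum.elim (fun p => dB k p.1 p.2) (fun j => dZ k (dec j)))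

theorem gF_hom (k d : ℕ) (t : GIx k) : (gF k d t).IsHomogeneous (dF k d t) := by
  rcases t with i | p | j
  · exact relA_hom (xF k) (xF_hom k) d i
  · exact relB_hom (xF k) (xF_hom k) k p.1 p.2
  · exact relZ_hom (xF k) (xF_hom k) k (dec j)

theorem dF_sum (k d : ℕ) :
    ∑ t, dF k d t ≤ 4 * (d + 2) + 8 * k * (k + 3) + (8 * k + 4) * (k + 2) := by
  rw [Fintype.sum_sum_type, Fintype.sum_sum_type]
  have h1 : ∑ i : Fin 4, dF k d (Sum.inl i) = 4 * (d + 2) := by
    simp [dF]
  have h2 : ∑ p : Fin k × Fin 8, dF k d (Sum.inr (Sum.inl p)) ≤ 8 * k * (k + 3) := by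
    calc ∑ p : Fin k × Fin 8, dF k d (Sum.inr (Sum.inl p))
        ≤ ∑ _p : Fin k × Fin 8, (k + 3) :=
          Finset.sum_le_sum fun p _ => dB_le k p.1 p.1.2 p.2
      _ = 8 * k * (k + 3) := by
          simp only [Finset.sum_const, Finset.card_univ, Fintype.card_prod, Fintype.card_fin,
            smul_eq_mul]
          ring
  have h3 : ∑ j : Fin (8 * k + 4), dF k d (Sum.inr (Sum.inr j)) ≤ (8 * k + 4) * (k + 2) := by
    calc ∑ j : Fin (8 * k + 4), dF k d (Sum.inr (Sum.inr j))
        ≤ ∑ _j : Fin (8 * k + 4), (k + 2) :=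
          Finset.sum_le_sum fun j _ => dZ_le k (dec j)
      _ = (8 * k + 4) * (k + 2) := by
          simp only [Finset.sum_const, Finset.card_univ, Fintype.card_fin, smul_eq_mul]
  omega

/-- two systems of variables agreeing on the variables in use -/
theorem FN2_SS {A : Type} [CommRing A] {x y : W → A} (k : ℕ)
    (h : ∀ v, lev k v ∨ v = .h ∨ v = .B → x v = y v) (r : ℕ) (hr : r ≤ k) : SS x r = SS y r := by
  rw [SS, SS, h .s (Or.inl trivial)]
  congr 1
  refine Finset.prod_congr rfl fun q hq => ?_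
  exact h _ (Or.inl (lt_of_lt_of_le (Finset.mem_range.mp hq) hr))

theorem FN2_FF {A : Type} [CommRing A] {x y : W → A} (k : ℕ)
    (h : ∀ v, lev k v ∨ v = .h ∨ v = .B → x v = y v) : ∀ r : ℕ, r ≤ k → FF x r = FF y r
  | 0, _ => h .f (Or.inl trivial)
  | r + 1, hr => by
      rw [FF, FF, FN2_SS k h r (by omega), h (.c r 3) (Or.inl (Nat.lt_of_succ_le hr))]

theorem FN2_relA {A : Type} [CommRing A] {x y : W → A} (k : ℕ) (hk : 1 ≤ k)
    (h : ∀ v, lev k v ∨ v = .h ∨ v = .B → x v = y v) (d : ℕ) (i : Fin 4) : relA x d i = relA y d i := by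
  rw [relA, relA, h .s (Or.inl trivial), h .f (Or.inl trivial), h .h (Or.inr (Or.inl rfl)),
    h (.c 0 i) (Or.inl (Nat.lt_of_succ_le hk)), h (.b 0 i) (Or.inl (Nat.lt_of_succ_le hk))]

theorem FN2_relB {A : Type} [CommRing A] {x y : W → A} (k : ℕ)
    (h : ∀ v, lev k v ∨ v = .h ∨ v = .B → x v = y v) (r : ℕ) (hr : r < k) (t : Fin 8) :
    relB x k r t = relB y k r t := by
  have hS := FN2_SS k h r hr.le
  have hF := FN2_FF k h r hr.le
  have hc : ∀ i, x (.c r i) = y (.c r i) := fun i => h _ (Or.inl hr)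
  have hb : ∀ i, x (.b r i) = y (.b r i) := fun i => h _ (Or.inl hr)
  have hh : x .h = y .h := h _ (Or.inr (Or.inl rfl))
  have hB : x .B = y .B := h _ (Or.inr (Or.inr rfl))
  rw [relB, relB]
  split_ifs with h0 h1 h2 h3 h4
  · rw [rel1, rel1, hS, hF, hc, hc]
  · rw [rel2, rel2, hS, hF, hc, hc]
  · rw [rel3, rel3, hS, hc, hc]
  · rw [rel4, rel4, hF, hc, hc, hb, hb]
  · have hc' : ∀ i, x (.c (r + 1) i) = y (.c (r + 1) i) := fun i => h _ (Or.inl h4)
    have hb' : ∀ i, x (.b (r + 1) i) = y (.b (r + 1) i) := fun i => h _ (Or.inl h4)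
    rw [rel5, rel5, hF, hc, hc', hb, hb, hb', hh]
  · rw [rel6, rel6, hF, hc, hb, hb, hh, hB]

theorem FN2_relZ {A : Type} [CommRing A] {x y : W → A} (k : ℕ)
    (h : ∀ v, lev k v ∨ v = .h ∨ v = .B → x v = y v) (v : W) (hv : lev k v ∨ v = .h ∨ v = .B) :
    relZ x k v = relZ y k v := by
  rw [relZ, relZ, FN2_SS k h k le_rfl, FN2_FF k h k le_rfl, h v hv]

/-- the relations and ring homomorphisms -/
theorem FN2_map_SS {A B : Type} [CommRing A] [CommRing B] (φ : A →+* B) (x : W → A) (r : ℕ) :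
    φ (SS x r) = SS (fun v => φ (x v)) r := by
  rw [SS, SS, map_mul, map_prod]

theorem FN2_map_FF {A B : Type} [CommRing A] [CommRing B] (φ : A →+* B) (x : W → A) : ∀ r : ℕ,
    φ (FF x r) = FF (fun v => φ (x v)) r
  | 0 => rfl
  | r + 1 => by rw [FF, FF, map_mul, FN2_map_SS]

theorem FN2_map_relA {A B : Type} [CommRing A] [CommRing B] (φ : A →+* B) (x : W → A) (d : ℕ) (i : Fin 4) :
    φ (relA x d i) = relA (fun v => φ (x v)) d i := by
  simp only [relA, map_sub, map_mul, map_pow]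

theorem FN2_map_relB {A B : Type} [CommRing A] [CommRing B] (φ : A →+* B) (x : W → A) (k r : ℕ) (t : Fin 8) :
    φ (relB x k r t) = relB (fun v => φ (x v)) k r t := by
  rw [relB, relB]
  split_ifs <;>
    simp only [rel1, rel2, rel3, rel4, rel5, rel6, map_sub, map_mul, FN2_map_SS, FN2_map_FF]

theorem FN2_map_relZ {A B : Type} [CommRing A] [CommRing B] (φ : A →+* B) (x : W → A) (k : ℕ) (v : W) :
    φ (relZ x k v) = relZ (fun v => φ (x v)) k v := by
  rw [relZ, relZ]
  split_ifs
  · rw [FN2_map_FF]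
  · rw [map_mul, FN2_map_SS]

theorem FN2_enc_lt (k : ℕ) (v : W) (hv : lev k v ∨ v = .h ∨ v = .B) : enc v < 8 * k + 4 := by
  rcases hv with hv | rfl | rfl
  · cases v with
    | s => simp [enc]
    | f => simp [enc]
    | h => exact absurd hv (by simp [lev])
    | B => exact absurd hv (by simp [lev])
    | c r i =>
        have h1 : r < k := hv
        have h2 := i.2
        simp only [enc]
        omega
    | b r i =>
        have h1 : r < k := hv
        have h2 := i.2
        simp only [enc]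
        omega
  · simp [enc]
  · simp [enc]

/-- the number of `dec j` is small -/
theorem FN2_dec_lev (k : ℕ) (j : Fin (8 * k + 4)) : lev k (dec j) ∨ dec j = .h ∨ dec j = .B :=
  enc_lev k (dec j) (by rw [enc_dec]; exact j.2)

/-- Map to the ring in all variables by `rename (fun j => dec j)`; there `xF k v` becomes `X v` for `enc v < 8k + 4`, and
the generators are those of `GW k d`. -/
theorem not_mem_F (k d w : ℕ) (hk : 1 ≤ k) (hw : w < eM d k) :
    SS (xF k) k * xF k .h ^ w ∉ Ideal.span (Set.range (gF k d)) := by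
  intro hmem
  set φ : MvPolynomial (Fin (8 * k + 4)) ℂ →+* MvPolynomial W ℂ :=
    (rename (R := ℂ) (fun j : Fin (8 * k + 4) => dec j)).toRingHom with hφ
  have hx : ∀ v, lev k v ∨ v = .h ∨ v = .B → φ (xF k v) = X v := by
    intro v hv
    have h1 := FN2_enc_lt k v hv
    rw [hφ, xF, dif_pos h1]
    change rename (fun j : Fin (8 * k + 4) => dec j) (X ⟨enc v, h1⟩) = X v
    rw [rename_X]
    exact congrArg X (dec_enc v)
  refine not_mem_W k d w hk hw ?_
  have h1 : φ (SS (xF k) k * xF k .h ^ w) = SS (X : W → MvPolynomial W ℂ) k * X .h ^ w := by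
    rw [map_mul, map_pow, FN2_map_SS, hx .h (Or.inr (Or.inl rfl)), FN2_SS k hx k le_rfl]
  rw [← h1]
  have h2 := Ideal.mem_map_of_mem φ hmem
  rw [Ideal.map_span] at h2
  refine Ideal.span_mono ?_ h2
  rintro _ ⟨_, ⟨t, rfl⟩, rfl⟩
  rcases t with i | ⟨r, t⟩ | j
  · left
    refine ⟨i, ?_⟩
    change φ (relA (xF k) d i) = relA X d i
    rw [FN2_map_relA, FN2_relA k hk hx]
  · right; left
    refine ⟨r, t, r.2, ?_⟩
    change φ (relB (xF k) k r t) = relB X k r t
    rw [FN2_map_relB, FN2_relB k hx r r.2]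
  · right; right
    refine ⟨dec j, FN2_dec_lev k j, ?_⟩
    change φ (relZ (xF k) k (dec j)) = relZ X k (dec j)
    rw [FN2_map_relZ, FN2_relZ k hx _ (FN2_dec_lev k j)]

/-- `X j = xF k (dec j)`; for `dec j ≠ h` the product is a multiple of `relZ`; for `h` use `up_top` in the quotient
ring. -/
theorem torsion_F (k d w : ℕ) (hk : 1 ≤ k) (j : Fin (8 * k + 4)) :
    ∃ N : ℕ, X j ^ N * (SS (xF k) k * xF k .h ^ w) ∈ Ideal.span (Set.range (gF k d)) := by
  by_cases hv : dec j = .h
  · refine ⟨wM d k, ?_⟩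
    set I := Ideal.span (Set.range (gF k d)) with hI
    set q : MvPolynomial (Fin (8 * k + 4)) ℂ →+* MvPolynomial (Fin (8 * k + 4)) ℂ ⧸ I := Ideal.Quotient.mk I
      with hq
    have h0 : ∀ t, q (gF k d t) = 0 := fun t =>
      Ideal.Quotient.eq_zero_iff_mem.mpr (Ideal.subset_span ⟨t, rfl⟩)
    have hA : ∀ i, relA (fun v => q (xF k v)) d i = 0 := by
      intro i
      rw [← FN2_map_relA]
      exact h0 (Sum.inl i)
    have hB : ∀ r, r < k → ∀ t, relB (fun v => q (xF k v)) k r t = 0 := by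
      intro r hr t
      rw [← FN2_map_relB]
      exact h0 (Sum.inr (Sum.inl (⟨r, hr⟩, t)))
    have hF : FF (fun v => q (xF k v)) k = 0 := by
      have h1 : q (relZ (xF k) k (dec j)) = 0 := h0 (Sum.inr (Sum.inr j))
      rw [hv, relZ, if_pos rfl, FN2_map_FF] at h1
      exact h1
    have h2 := up_top (fun v => q (xF k v)) k d hk hA hB hF w
    rw [← Ideal.Quotient.eq_zero_iff_mem]
    change q (X j ^ wM d k * (SS (xF k) k * xF k .h ^ w)) = 0
    rw [← xF_dec k j, hv, map_mul, map_mul, map_pow, map_pow, FN2_map_SS]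
    rw [← h2]
    ring
  · refine ⟨1, ?_⟩
    have h1 : relZ (xF k) k (dec j) ∈ Ideal.span (Set.range (gF k d)) :=
      Ideal.subset_span ⟨Sum.inr (Sum.inr j), rfl⟩
    rw [relZ, if_neg hv, xF_dec] at h1
    have h2 : X j ^ 1 * (SS (xF k) k * xF k .h ^ w) = xF k .h ^ w * (SS (xF k) k * X j) := by ring
    rw [h2]
    exact Ideal.mul_mem_left _ _ h1

/-- The family indexed by `Fin (16 * k + 8)`: `Fintype.card (GIx k) = 16 k + 8`, `Fintype.equivFinOfCardEq`. -/
theorem mm_exists (k d : ℕ) (hk : 1 ≤ k) :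
    ∃ (g : Fin (16 * k + 8) → MvPolynomial (Fin (8 * k + 4)) ℂ) (D : Fin (16 * k + 8) → ℕ),
      (∀ j, (g j).IsHomogeneous (D j)) ∧
      ∑ j, D j ≤ 4 * (d + 2) + 8 * k * (k + 3) + (8 * k + 4) * (k + 2) ∧
      ∀ w, w < eM d k → ∃ p : MvPolynomial (Fin (8 * k + 4)) ℂ, p.IsHomogeneous (k + 1 + w) ∧
        p ∉ Ideal.span (Set.range g) ∧ ∀ v, ∃ N : ℕ, X v ^ N * p ∈ Ideal.span (Set.range g) := by
  have hcard : Fintype.card (GIx k) = 16 * k + 8 := by
    simp only [Fintype.card_sum, Fintype.card_prod, Fintype.card_fin]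
    ring
  let e : GIx k ≃ Fin (16 * k + 8) := Fintype.equivFinOfCardEq hcard
  have hr : Set.range (fun j => gF k d (e.symm j)) = Set.range (gF k d) :=
    e.symm.surjective.range_comp (gF k d)
  refine ⟨fun j => gF k d (e.symm j), fun j => dF k d (e.symm j), fun j => gF_hom k d _, ?_, ?_⟩
  · rw [Equiv.sum_comp e.symm (dF k d)]
    exact dF_sum k d
  · intro w hw
    refine ⟨SS (xF k) k * xF k .h ^ w, ?_, ?_, ?_⟩
    · have h1 := (SS_hom (xF k) (xF_hom k) k).mul ((xF_hom k .h).pow w)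
      rw [one_mul] at h1
      exact h1
    · rw [hr]
      exact not_mem_F k d w hk hw
    · intro v
      rw [hr]
      exact torsion_F k d w hk v

end

end Pool.Agent.RegRed
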