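import Mathlib
import Pool.Agent.Lib.MP_724d4c_ag.XMMfin

/-! Row 724i-MM: the generators of the Mayr-Meyer type ideals are nonzero of positive degree. -/

set_option autoImplicit false

namespace Pool.Agent.RegRed

open MvPolynomial

noncomputable section

private theorem MM_ev (k : ℕ) (y : W → ℂ) (v : W) (hv : enc v < 8 * k + 4) :
    eval (fun j : Fin (8 * k + 4) => y (dec j)) (xF k v) = y v := by
  unfold xF
  rw [dif_pos hv, eval_X]
  exact congrArg y (dec_enc v)

private theorem MM_SS (y : W → ℂ) (hs : y .s = 1) (hc : ∀ q, y (.c q 0) = 1) (r : ℕ) :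
    SS y r = 1 := by
  rw [SS, hs, one_mul]
  exact Finset.prod_eq_one fun q _ => hc q

private theorem MM_FF (y : W → ℂ) (hs : y .s = 1) (hf : y .f = 1) (hc : ∀ q, y (.c q 0) = 1)
    (hc3 : ∀ q, y (.c q 3) = 1) : ∀ r : ℕ, FF y r = 1
  | 0 => hf
  | r + 1 => by rw [FF, MM_SS y hs hc, hc3, one_mul]

/-- the point with one coordinate `0` -/
private def MM_y (v0 : W) : W → ℂ := fun v => if v = v0 then 0 else 1

private theorem MM_relB (k r : ℕ) (t : Fin 8) : ∃ y : W → ℂ, relB y k r t = 1 := by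
  have hy : ∀ v0 v : W, v ≠ v0 → MM_y v0 v = 1 := fun v0 v h => if_neg h
  have hy0 : ∀ v0 : W, MM_y v0 v0 = 0 := fun v0 => if_pos rfl
  have hne : ∀ (q q' : ℕ) (i j : Fin 4), i ≠ j → W.c q i ≠ W.c q' j := by
    intro q q' i j hij h
    injection h with _ h2
    exact hij h2
  have hne' : ∀ (q q' : ℕ) (i j : Fin 4), i ≠ j → W.b q i ≠ W.b q' j := by
    intro q q' i j hij h
    injection h with _ h2
    exact hij h2
  by_cases h0 : t.1 = 0
  · refine ⟨MM_y (.c r 1), ?_⟩
    rw [relB, if_pos h0, rel1, MM_FF _ (hy _ _ (by simp)) (hy _ _ (by simp))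
      (fun q => hy _ _ (hne _ _ _ _ (by decide))) (fun q => hy _ _ (hne _ _ _ _ (by decide))),
      hy0, hy _ _ (hne _ _ _ _ (by decide))]
    ring
  by_cases h1 : t.1 = 1
  · refine ⟨MM_y (.c r 2), ?_⟩
    rw [relB, if_neg h0, if_pos h1, rel2, MM_FF _ (hy _ _ (by simp)) (hy _ _ (by simp))
      (fun q => hy _ _ (hne _ _ _ _ (by decide))) (fun q => hy _ _ (hne _ _ _ _ (by decide))),
      hy0, hy _ _ (hne _ _ _ _ (by decide))]
    ring
  by_cases h2 : t.1 = 2
  · refine ⟨MM_y (.c r 1), ?_⟩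
    rw [relB, if_neg h0, if_neg h1, if_pos h2, rel3, MM_SS _ (hy _ _ (by simp))
      (fun q => hy _ _ (hne _ _ _ _ (by decide))),
      hy0, hy _ _ (hne _ _ _ _ (by decide))]
    ring
  by_cases h3 : t.1 = 3
  · refine ⟨MM_y (.c r 2), ?_⟩
    rw [relB, if_neg h0, if_neg h1, if_neg h2, if_pos h3, rel4,
      MM_FF _ (hy _ _ (by simp)) (hy _ _ (by simp))
      (fun q => hy _ _ (hne _ _ _ _ (by decide))) (fun q => hy _ _ (hne _ _ _ _ (by decide))),
      hy0, hy _ _ (hne _ _ _ _ (by decide)), hy _ _ (by simp)]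
    ring
  by_cases h4 : r + 1 < k
  · refine ⟨MM_y (.b r 2), ?_⟩
    rw [relB, if_neg h0, if_neg h1, if_neg h2, if_neg h3, if_pos h4, rel5,
      MM_FF _ (hy _ _ (by simp)) (hy _ _ (by simp))
      (fun q => hy _ _ (by simp)) (fun q => hy _ _ (by simp)),
      hy0, hy _ _ (hne' _ _ _ _ (by decide)), hy _ (.c r 1) (by simp), hy _ (.c (r + 1) _) (by simp),
      hy _ .h (by simp)]
    ring
  · refine ⟨MM_y (.b r 2), ?_⟩
    rw [relB, if_neg h0, if_neg h1, if_neg h2, if_neg h3, if_neg h4, rel6,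
      MM_FF _ (hy _ _ (by simp)) (hy _ _ (by simp))
      (fun q => hy _ _ (by simp)) (fun q => hy _ _ (by simp)),
      hy0, hy _ _ (hne' _ _ _ _ (by decide)), hy _ (.c r 1) (by simp),
      hy _ .h (by simp)]
    ring

/-- Evaluate at a point with coordinates `0` and `1` (all `1` for the monomials; one variable of the second monomial
`0` for the binomials). -/
theorem gF_ne (k d : ℕ) (t : GIx k) : gF k d t ≠ 0 := by
  intro h
  rcases t with i | ⟨r, t⟩ | j
  · have h1 := congrArg (eval (fun j : Fin (8 * k + 4) => MM_y .f (dec j))) h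
    change eval (fun j : Fin (8 * k + 4) => MM_y .f (dec j)) (relA (xF k) d i) = _ at h1
    rw [FN2_map_relA, map_zero, relA, MM_ev k _ .s (by simp [enc]), MM_ev k _ .f (by simp [enc]),
      MM_ev k _ .h (by simp [enc])] at h1
    have hc : eval (fun j : Fin (8 * k + 4) => MM_y .f (dec j)) (xF k (.c 0 i)) = 1 := by
      by_cases hv : enc (.c 0 i) < 8 * k + 4
      · rw [MM_ev k _ _ hv]
        exact if_neg (by simp)
      · unfold xF
        rw [dif_neg hv, eval_X]
        exact if_neg (by simp [dec])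
    have e1 : MM_y .f .s = 1 := if_neg (by simp)
    have e2 : MM_y .f .f = 0 := if_pos rfl
    have e3 : MM_y .f .h = 1 := if_neg (by simp)
    rw [hc, e1, e2, e3] at h1
    simp at h1
  · obtain ⟨y, hy⟩ := MM_relB k r t
    have h1 := congrArg (eval (fun j : Fin (8 * k + 4) => y (dec j))) h
    change eval (fun j : Fin (8 * k + 4) => y (dec j)) (relB (xF k) k r t) = _ at h1
    rw [FN2_map_relB, map_zero, FN2_relB (y := y) k (fun v hv => MM_ev k y v (FN2_enc_lt k v hv))
      r r.2, hy] at h1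
    exact one_ne_zero h1
  · have h1 := congrArg (eval (fun j : Fin (8 * k + 4) => (fun _ : W => (1 : ℂ)) (dec j))) h
    change eval (fun j : Fin (8 * k + 4) => (fun _ : W => (1 : ℂ)) (dec j))
      (relZ (xF k) k (dec j)) = _ at h1
    rw [FN2_map_relZ, map_zero, FN2_relZ (y := fun _ => (1 : ℂ)) k
      (fun v hv => MM_ev k (fun _ => (1 : ℂ)) v (FN2_enc_lt k v hv)) _ (FN2_dec_lev k j), relZ] at h1
    rw [MM_FF (fun _ => (1 : ℂ)) rfl rfl (fun _ => rfl) (fun _ => rfl),
      MM_SS (fun _ => (1 : ℂ)) rfl (fun _ => rfl)] at h1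
    simp at h1

theorem dF_pos (k d : ℕ) (t : GIx k) : 1 ≤ dF k d t := by
  rcases t with i | ⟨r, t⟩ | j
  · change 1 ≤ d + 2
    omega
  · change 1 ≤ dB k r t
    unfold dB
    split_ifs <;> omega
  · change 1 ≤ dZ k (dec j)
    unfold dZ
    split_ifs <;> omega

/-- `mm_exists` with these two facts (same proof). -/
theorem mm_exists' (k d : ℕ) (hk : 1 ≤ k) :
    ∃ (g : Fin (16 * k + 8) → MvPolynomial (Fin (8 * k + 4)) ℂ) (D : Fin (16 * k + 8) → ℕ),
      (∀ j, (g j).IsHomogeneous (D j)) ∧ (∀ j, g j ≠ 0) ∧ (∀ j, 1 ≤ D j) ∧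
      ∑ j, D j ≤ 4 * (d + 2) + 8 * k * (k + 3) + (8 * k + 4) * (k + 2) ∧
      ∀ w, w < eM d k → ∃ p : MvPolynomial (Fin (8 * k + 4)) ℂ, p.IsHomogeneous (k + 1 + w) ∧
        p ∉ Ideal.span (Set.range g) ∧ ∀ v, ∃ N : ℕ, X v ^ N * p ∈ Ideal.span (Set.range g) := by
  have hcard : Fintype.card (GIx k) = 16 * k + 8 := by
    simp only [Fintype.card_sum, Fintype.card_prod, Fintype.card_fin]
    ring
  let e : GIx k ≃ Fin (16 * k + 8) := Fintype.equivFinOfCardEq hcard
  have hr : Set.range (fun j => gF k d (e.symm j)) = Set.range (gF k d) :=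
    e.symm.surjective.range_comp (gF k d)
  refine ⟨fun j => gF k d (e.symm j), fun j => dF k d (e.symm j), fun j => gF_hom k d _,
    fun j => gF_ne k d _, fun j => dF_pos k d _, ?_, ?_⟩
  · rw [Equiv.sum_comp e.symm (dF k d)]
    exact dF_sum k d
  · intro w hw
    refine ⟨SS (xF k) k * xF k .h ^ w, ?_, ?_, ?_⟩
    · have h1 := (SS_hom (xF k) (xF_hom k) k).mul ((xF_hom k .h).pow w)
      rw [one_mul] at h1
      exact h1
    · rw [hr]
      exact not_mem_F k d w hk hw
    · intro v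
      rw [hr]
      exact torsion_F k d w hk v

end

end Pool.Agent.RegRed
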