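import Mathlib
import Pool.Agent.Lib.MP_724d4c_ag.NEm

/-! Row 724i-Glue: the upper bound. -/

set_option autoImplicit false

namespace Pool.Agent.RegRed

open MvPolynomial

noncomputable section

variable {k : ℕ}

/-- Proof. `g` with `δ g` in the intersection: `g - δ a ∈ D`, `g - δ b ∈ I₂` (`b` over `S`), `δ (a - b) ∈ D + (t²)`, so
`a - b - δ l = e + t² s` (`Loc_sup`), `e` in `D`, and `t² s = s'` modulo `D` with `s'` in `I₂` (`Loc_lift` and `hs`).
`h = b + s'`: `g - δ h ∈ I₂`, and `h = a - δ l` modulo `D`, so `g - δ h ∈ D` (`iL_Loc`). -/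
theorem glue_up {D : Ideal (MvPolynomial (Fin (k + 1)) ℂ)} {I2 : Ideal (MvPolynomial (Fin k) ℂ)}
    (hD : IsHomog D) (hI2 : IsHomog I2) {p : ℕ} {d : ℤ}
    (h1 : VanE (imT 1) D (p + 1) d) (h2 : Van I2 (p + 1) d)
    (h3 : VanE (imT 1) (D ⊔ Ideal.span {tt k ^ 2}) p d)
    (hI : ∀ f ∈ I2, em k f ∈ D ⊔ Ideal.span {tt k ^ 2})
    (hs : ∀ q ∈ Ideal.span {tt k ^ 2}, ∃ z ∈ I2, q - em k z ∈ D) :
    Van (D.comap (em k) ⊓ I2) (p + 1) d := by
  intro g hg hδ
  have htt : IsHomog (Ideal.span {tt k ^ 2}) := by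
    apply isHomog_span
    intro f hf
    rw [Set.mem_singleton_iff] at hf
    rw [hf]
    exact ⟨1 * 2, tt_hom.pow 2⟩
  -- the cochain `a`
  obtain ⟨a, ha1, ha2⟩ := h1 (fun T => iL k (g T)) (fun T hT => iL_Loc_top (hg T hT)) (by
    intro T hT
    rw [← iL_delta]
    exact iL_Loc.mpr (Loc_mono inf_le_left (Finset.Subset.refl T) (hδ T hT)))
  -- the cochain `b`
  obtain ⟨b, hb1, hb2⟩ := h2 g hg
    (fun T hT => Loc_mono inf_le_right (Finset.Subset.refl T) (hδ T hT))
  -- the cochain `l`
  obtain ⟨l, hl1, hl2⟩ := h3 (fun T => a T - iL k (b T))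
    (fun T hT => Loc_sub (ha1 T (by omega)) (iL_Loc_top (hb1 T (by omega)))) (by
      intro T hT
      rw [ST_delta_sub, ← iL_delta]
      have e : delta a T - iL k (delta b T) =
          iL k (g T - delta b T) - (iL k (g T) - delta a T) := by
        rw [iL_sub]
        ring
      rw [e]
      refine Loc_sub (iL_Loc.mpr (Loc_mono ?_ (Finset.Subset.refl T) (hb2 T hT)))
        (Loc_mono le_sup_left (Finset.Subset.refl _) (ha2 T hT))
      intro f hf
      exact hI f hf)
  have hdec : ∀ T : Finset (Fin k), ∃ (e : Lau (k + 1)) (y : Lau k), T.card = p →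
      e ∈ Loc D (imT 1 T) d ∧ y ∈ Loc I2 T d ∧ a T - iL k (b T) - delta l T = e + iL k y := by
    intro T
    by_cases hT : T.card = p
    · obtain ⟨e, he, q, hq, heq⟩ := Loc_sup hD htt (hl2 T hT)
      obtain ⟨y, hy, hyq⟩ := Loc_lift hD hI2 hs hq
      refine ⟨e + (q - iL k y), y, fun _ => ⟨Loc_add he hyq, hy, ?_⟩⟩
      rw [heq]
      ring
    · exact ⟨0, 0, fun h => absurd h hT⟩
  choose e y hey using hdec
  refine ⟨fun T => b T + y T, ?_, ?_⟩
  · intro T hT
    have hT' : T.card = p := by omega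
    exact Loc_add (hb1 T hT) (Loc_mono le_top (Finset.Subset.refl T) (hey T hT').2.1)
  · intro T hT
    apply Loc_inf
    · rw [← iL_Loc, iL_sub, iL_delta]
      have e1 : delta (fun T' => iL k (b T' + y T')) T =
          delta (fun T' => a T' - delta l T' - e T') T := by
        refine ST_delta_congr (p := p) (fun T' hT' => ?_) hT
        have h4 := (hey T' hT').2.2
        rw [iL_add]
        linear_combination -h4
      rw [e1, ST_delta_sub, ST_delta_sub]
      have e2 : delta (fun T' => delta l T') T = 0 := delta_delta l T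
      rw [e2]
      have e3 : iL k (g T) - (delta a T - 0 - delta e T) =
          (iL k (g T) - delta a T) + delta e T := by ring
      rw [e3]
      exact Loc_add (ha2 T hT) (deltaE_mem (imT_mono 1) e (fun T' hT' => (hey T' hT').1) T hT)
    · rw [ST_delta_add]
      have e1 : g T - (delta b T + delta y T) = (g T - delta b T) - delta y T := by ring
      rw [e1]
      exact Loc_sub (hb2 T hT) (delta_mem y (fun T' hT' => (hey T' hT').2.1) T hT)

end

end Pool.Agent.RegRed
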