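import Mathlib
import Pool.Agent.Lib.MP_724d4c_ag.NDiv

/-! Row 724i-Low: the lower bound. -/

set_option autoImplicit false

namespace Pool.Agent.RegRed

open MvPolynomial

noncomputable section

variable {k : ℕ}

private theorem nl_delta_mul {N : ℕ} (x : Lau N) (a : Finset (Fin k) → Lau N) (T : Finset (Fin k)) :
    delta (fun T => x * a T) T = x * delta a T := by
  simp only [delta, Finset.mul_sum, mul_smul_comm]

private theorem nl_tt_mem {T : Finset (Fin k)} {d : ℤ} {x : Lau k} (hx : x ∈ Loc ⊤ T (d - 1)) :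
    incl (k + 1) (tt k) * iL k x ∈ Loc ⊤ (imT 1 T) d := by
  have h := Loc_mul (tt_hom (k := k)) (iL_Loc_top hx)
  have e : d - 1 + ((1 : ℕ) : ℤ) = d := by push_cast; ring
  rwa [e] at h

/-- Localized form of `hup`: for `x` of degree `d - 1` in `K` there is `a` of degree `d` with `t x - a ∈ D`
(`Loc_lift` applied to the ideal generated by `t K`, or directly). -/
theorem low_up {D : Ideal (MvPolynomial (Fin (k + 1)) ℂ)} {K : Ideal (MvPolynomial (Fin k) ℂ)}
    (hD : IsHomog D) (hup : ∀ f ∈ K, ∃ y : MvPolynomial (Fin k) ℂ, tt k * em k f - em k y ∈ D)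
    {T : Finset (Fin k)} {d : ℤ} {x : Lau k} (hx : x ∈ Loc K T (d - 1)) :
    ∃ a ∈ Loc ⊤ T d, incl (k + 1) (tt k) * iL k x - iL k a ∈ Loc D (imT 1 T) d := by
  have hx' : x ∈ Loc ⊤ T (d - 1) := Loc_mono le_top (Finset.Subset.refl T) hx
  obtain ⟨hdeg, N, f, hf, hfx⟩ := hx
  set m : Fin k → ℤ := fun i => if i ∈ T then (N : ℤ) else 0 with hm
  have hfdeg := degree_of_incl hdeg hfx
  by_cases hf0 : f = 0
  · have hx0 : x = 0 := by
      apply mono_mul_cancel m
      rw [hfx, hf0, map_zero, mul_zero]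
    refine ⟨0, Loc_zero _ _ _, ?_⟩
    have h0 : iL k (0 : Lau k) = 0 := by
      have := iL_sub (0 : Lau k) 0
      rwa [sub_zero, sub_self] at this
    rw [hx0, h0, mul_zero, sub_zero]
    exact Loc_zero _ _ _
  -- the degree of `f`
  obtain ⟨D', hD'⟩ : ∃ D' : ℕ, (D' : ℤ) = d - 1 + ∑ i, m i := by
    obtain ⟨e₀, he₀⟩ := MvPolynomial.support_nonempty.mpr hf0
    refine ⟨∑ i, e₀ i, ?_⟩
    rw [← hfdeg e₀ he₀]
    push_cast
    rfl
  have hfhom : f.IsHomogeneous D' := by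
    intro e' he'
    rw [weight_one_sum]
    have h1 := hfdeg e' (MvPolynomial.mem_support_iff.mpr he')
    rw [← hD'] at h1
    exact_mod_cast h1
  obtain ⟨y, hy⟩ := hup f hf
  have hy' : tt k * em k f - em k (homogeneousComponent (D' + 1) y) ∈ D := by
    have h1 := hD _ hy (D' + 1)
    have h2 : (tt k * em k f).IsHomogeneous (D' + 1) := by
      have := (tt_hom (k := k)).mul (em_hom.2 hfhom)
      rwa [add_comm 1 D'] at this
    have h3 : homogeneousComponent (D' + 1) (tt k * em k f) = tt k * em k f := by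
      have h3 : tt k * em k f ∈ homogeneousSubmodule (Fin (k + 1)) ℂ (D' + 1) :=
        (mem_homogeneousSubmodule _ _).mpr h2
      rw [homogeneousComponent_of_mem h3, if_pos rfl]
    rwa [map_sub, h3, em_hc] at h1
  have hD1 : ((D' + 1 : ℕ) : ℤ) = d + ∑ i, (if i ∈ T then (N : ℤ) else 0) := by
    have : ∑ i, m i = ∑ i, (if i ∈ T then (N : ℤ) else 0) := rfl
    rw [← this]
    push_cast
    linarith
  obtain ⟨ha, ha'⟩ := Loc_of_homog (J := ⊤) (T := T) (d := d) (N := N)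
    (homogeneousComponent_isHomogeneous (D' + 1) y) Submodule.mem_top hD1
  refine ⟨_, ha, ?_⟩
  set a : Lau k := mono (fun i => -(if i ∈ T then (N : ℤ) else 0)) *
    incl k (homogeneousComponent (D' + 1) y) with ha_def
  have h1 : incl (k + 1) (tt k) * iL k x - iL k a ∈ Loc ⊤ (imT 1 T) d :=
    Loc_sub (nl_tt_mem hx') (iL_Loc_top ha)
  refine LA_mem.mpr ⟨(LA_mem.mp h1).1, N, _, hy', ?_⟩
  have hfx' : mono (LA_ex T N) * x = incl k f := hfx
  have ha'' : mono (LA_ex T N) * a = incl k (homogeneousComponent (D' + 1) y) := ha'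
  rw [mono_imT, mul_sub, mul_left_comm, ← iL_mul, ← iL_mul, hfx', ha'', map_sub, map_mul, incl_em,
    incl_em]

/-- Localized form of `hdown`. -/
theorem low_down {D : Ideal (MvPolynomial (Fin (k + 1)) ℂ)} {K : Ideal (MvPolynomial (Fin k) ℂ)}
    (hdown : ∀ f y : MvPolynomial (Fin k) ℂ, tt k * em k f - em k y ∈ D → f ∈ K)
    {T : Finset (Fin k)} {d : ℤ} {x y : Lau k} (hx : x ∈ Loc ⊤ T (d - 1)) (hy : y ∈ Loc ⊤ T d)
    (h : incl (k + 1) (tt k) * iL k x - iL k y ∈ Loc D (imT 1 T) d) : x ∈ Loc K T (d - 1) := by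
  obtain ⟨hdeg, N1, h1⟩ := LA_mem.mp hx
  obtain ⟨-, N2, h2⟩ := LA_mem.mp hy
  obtain ⟨-, N3, h3⟩ := LA_mem.mp h
  obtain ⟨f, -, hf⟩ := LA_up (N2 + N3) h1
  obtain ⟨g, -, hg⟩ := LA_up (N1 + N3) h2
  obtain ⟨q, hq, hq'⟩ := LA_up (N1 + N2) h3
  have e1 : N2 + N3 + N1 = N1 + N2 + N3 := by ring
  have e2 : N1 + N3 + N2 = N1 + N2 + N3 := by ring
  rw [e1] at hf
  rw [e2] at hg
  refine LA_mem.mpr ⟨hdeg, N1 + N2 + N3, f, hdown f g ?_, hf⟩
  have e3 : tt k * em k f - em k g = q := by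
    apply incl_injective
    rw [← hq', mono_imT, mul_sub, mul_left_comm, ← iL_mul, ← iL_mul, hf, hg, map_sub, map_mul, incl_em,
      incl_em]
  rw [e3]
  exact hq

/-- Proof. `δ g ∈ K` on `p + 1`: `t δ g = a` modulo `D` (`low_up`), `δ a ∈ P = D ∩ S`, so `a - δ b ∈ P`;
`δ (t g - b) ∈ D`, so `t g - b - δ (c₀ + t c₁) ∈ D` (`h2` and `base_decomp`, `t² - c ∈ D`); so
`t (g - δ c₁) - (b + δ c₀) ∈ D` and `g - δ c₁ ∈ K` (`low_down`). -/
theorem glue_low {D : Ideal (MvPolynomial (Fin (k + 1)) ℂ)} {K : Ideal (MvPolynomial (Fin k) ℂ)}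
    {c : MvPolynomial (Fin k) ℂ} (hD : IsHomog D) (hc : c.IsHomogeneous 2)
    (hcD : tt k ^ 2 - em k c ∈ D) {p : ℕ} {d : ℤ}
    (h1 : Van (D.comap (em k)) (p + 1) d) (h2 : VanE (imT 1) D p d)
    (hup : ∀ f ∈ K, ∃ y : MvPolynomial (Fin k) ℂ, tt k * em k f - em k y ∈ D)
    (hdown : ∀ f y : MvPolynomial (Fin k) ℂ, tt k * em k f - em k y ∈ D → f ∈ K) :
    Van K p (d - 1) := by
  intro g hg hδ
  set t : Lau (k + 1) := incl (k + 1) (tt k) with ht
  -- `t δ g = a` modulo `D`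
  have hdec : ∀ T : Finset (Fin k), ∃ a : Lau k, T.card = p + 1 → a ∈ Loc ⊤ T d ∧
      t * iL k (delta g T) - iL k a ∈ Loc D (imT 1 T) d := by
    intro T
    by_cases hT : T.card = p + 1
    · obtain ⟨a, ha, hb⟩ := low_up hD hup (hδ T hT)
      exact ⟨a, fun _ => ⟨ha, hb⟩⟩
    · exact ⟨0, fun h => absurd h hT⟩
  choose a ha using hdec
  have hda : ∀ T, T.card = p + 1 + 1 → delta a T ∈ Loc (D.comap (em k)) T d := by
    intro T hT
    rw [← iL_Loc]
    have h3 := deltaE_mem (imT_mono 1) (fun T => t * iL k (delta g T) - iL k (a T))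
      (fun T hT => (ha T hT).2) T hT
    rw [ST_delta_sub, nl_delta_mul, ← iL_delta, ← iL_delta, delta_delta] at h3
    have h0 : iL k (0 : Lau k) = 0 := by
      have := iL_sub (0 : Lau k) 0
      rwa [sub_zero, sub_self] at this
    rw [h0, mul_zero, zero_sub] at h3
    have h4 := Loc_neg h3
    rwa [neg_neg] at h4
  obtain ⟨b, hb1, hb2⟩ := h1 a (fun T hT => (ha T hT).1) hda
  obtain ⟨H, hH1, hH2⟩ := h2 (fun T => t * iL k (g T) - iL k (b T))
    (fun T hT => Loc_sub (nl_tt_mem (hg T hT)) (iL_Loc_top (hb1 T (by rw [hT])))) (by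
      intro T hT
      rw [ST_delta_sub, nl_delta_mul, ← iL_delta, ← iL_delta]
      have h3 : t * iL k (delta g T) - iL k (delta b T) =
          (t * iL k (delta g T) - iL k (a T)) + iL k (a T - delta b T) := by
        rw [iL_sub]
        ring
      rw [h3]
      exact Loc_add (ha T hT).2 (iL_Loc.2 (hb2 T hT)))
  have hdec2 : ∀ T : Finset (Fin k), ∃ c0 c1 : Lau k, T.card + 1 = p → c0 ∈ Loc ⊤ T d ∧
      c1 ∈ Loc ⊤ T (d - 1) ∧ H T - (iL k c0 + t * iL k c1) ∈ Loc D (imT 1 T) d := by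
    intro T
    by_cases hT : T.card + 1 = p
    · obtain ⟨a, ha, b, hb, hab⟩ := base_decomp hc (hH1 T hT)
      refine ⟨a, b, fun _ => ⟨ha, hb, Loc_mono ?_ (Finset.Subset.refl _) hab⟩⟩
      rw [Ideal.span_singleton_le_iff_mem]
      exact hcD
    · exact ⟨0, 0, fun h => absurd h hT⟩
  choose c0 c1 hcc using hdec2
  refine ⟨c1, fun T hT => (hcc T hT).2.1, fun T hT => ?_⟩
  have hE : delta (fun T => H T - (iL k (c0 T) + t * iL k (c1 T))) T ∈ Loc D (imT 1 T) d := by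
    rcases Nat.eq_zero_or_pos p with hp | hp
    · have hT0 : T = ∅ := Finset.card_eq_zero.1 (by rw [hT, hp])
      rw [hT0]
      simp only [delta, Finset.sum_empty]
      exact Loc_zero _ _ _
    · obtain ⟨r, rfl⟩ : ∃ r, p = r + 1 := ⟨p - 1, by omega⟩
      exact deltaE_mem (imT_mono 1) _ (fun T hT => (hcc T (by rw [hT])).2.2) T hT
  rw [ST_delta_sub, ST_delta_add, nl_delta_mul, ← iL_delta, ← iL_delta] at hE
  have hd0 : delta c0 T ∈ Loc ⊤ T d := by
    rcases Nat.eq_zero_or_pos p with hp | hp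
    · have hT0 : T = ∅ := Finset.card_eq_zero.1 (by rw [hT, hp])
      rw [hT0]
      simp only [delta, Finset.sum_empty]
      exact Loc_zero _ _ _
    · obtain ⟨r, rfl⟩ : ∃ r, p = r + 1 := ⟨p - 1, by omega⟩
      exact delta_mem _ (fun T hT => (hcc T (by rw [hT])).1) T hT
  have hd1 : delta c1 T ∈ Loc ⊤ T (d - 1) := by
    rcases Nat.eq_zero_or_pos p with hp | hp
    · have hT0 : T = ∅ := Finset.card_eq_zero.1 (by rw [hT, hp])
      rw [hT0]
      simp only [delta, Finset.sum_empty]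
      exact Loc_zero _ _ _
    · obtain ⟨r, rfl⟩ : ∃ r, p = r + 1 := ⟨p - 1, by omega⟩
      exact delta_mem _ (fun T hT => (hcc T (by rw [hT])).2.1) T hT
  refine low_down hdown (Loc_sub (hg T hT) hd1) (Loc_add (hb1 T (by rw [hT])) hd0) ?_
  have h5 : incl (k + 1) (tt k) * iL k (g T - delta c1 T) - iL k (b T + delta c0 T) =
      (t * iL k (g T) - iL k (b T) - delta H T) +
        (delta H T - (iL k (delta c0 T) + t * iL k (delta c1 T))) := by
    rw [iL_sub, iL_add, ← ht]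
    ring
  rw [h5]
  exact Loc_add (hH2 T hT) hE

end

end Pool.Agent.RegRed
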