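import Mathlib
import Pool.Agent.Lib.MP_724d4c_ag.NDefs

/-! Row 724i-Free: variables and degrees. -/

set_option autoImplicit false

namespace Pool.Agent.RegRed

open MvPolynomial

noncomputable section

variable {n m : ℕ} {g : ℕ → MvPolynomial (Fin n) ℂ} {d : ℕ → ℕ}

theorem FS_hom (j : ℕ) : (FS n m d j).IsHomogeneous (pa d j + 1) := by
  have h := (isHomogeneous_X ℂ (py n m j)).mul (isHomogeneous_X_pow (R := ℂ) (pv n m j) (pa d j))
  rw [add_comm 1 (pa d j)] at h
  exact h

theorem em_FS (j : ℕ) : em (n + 2 * (m + 2)) (FS n m d j) =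
    X (qy n m j) * X (qv n m j) ^ pa d j := by
  simp [em, FS, qy, qv]

theorem FJ_eq_FS {j : ℕ} (hj : j < m + 2) : FJ n (m + 2) (pa d) j = FS n m d j := by
  unfold FJ FS py pv
  rw [dif_pos hj, dif_pos hj, dif_pos hj]

private theorem NFree_em_lfS_hom (hg : ∀ j, (g j).IsHomogeneous (d j)) (j : ℕ) :
    (tt (n + 2 * (m + 2)) * em (n + 2 * (m + 2)) (lfS n m (g j))).IsHomogeneous (d j + 1) := by
  have h1 : (lfS n m (g j)).IsHomogeneous (d j) := (hg j).rename_isHomogeneous
  have h2 : (em (n + 2 * (m + 2)) (lfS n m (g j))).IsHomogeneous (d j) :=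
    h1.rename_isHomogeneous
  have h3 := (tt_hom (k := n + 2 * (m + 2))).mul h2
  rw [add_comm 1 (d j)] at h3
  exact h3

theorem cD_hom (hg : ∀ j, (g j).IsHomogeneous (d j)) (j : ℕ) :
    (cD n m g j).IsHomogeneous (pa d j + 1) := by
  match j with
  | 0 => exact (tt_hom (k := n + 2 * (m + 2))).pow 2
  | 1 => exact (tt_hom (k := n + 2 * (m + 2))).pow 3
  | j + 2 => exact NFree_em_lfS_hom hg j

theorem cE_hom (hg : ∀ j, (g j).IsHomogeneous (d j)) (j : ℕ) :
    (cE n m g j).IsHomogeneous (pa d j + 1) := by
  match j with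
  | 0 => exact isHomogeneous_zero _ _ _
  | 1 => exact isHomogeneous_zero _ _ _
  | j + 2 => exact NFree_em_lfS_hom hg j

private theorem NFree_tt_vars {r : ℕ} {z : Fin (n + 2 * (m + 2) + 1)}
    (hz : z ∈ (tt (n + 2 * (m + 2)) ^ r).vars) : z.val = n + 2 * (m + 2) := by
  have h1 := vars_pow (tt (n + 2 * (m + 2))) r hz
  unfold tt at h1
  rw [vars_X, Finset.mem_singleton] at h1
  rw [h1]
  simp

private theorem NFree_g_vars {p : MvPolynomial (Fin n) ℂ} {z : Fin (n + 2 * (m + 2) + 1)}
    (hz : z ∈ (tt (n + 2 * (m + 2)) * em (n + 2 * (m + 2)) (lfS n m p)).vars) :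
    z.val < n ∨ z.val = n + 2 * (m + 2) := by
  classical
  have h1 := vars_mul _ _ hz
  rw [Finset.mem_union] at h1
  rcases h1 with h1 | h1
  · right
    have h2 : z ∈ (tt (n + 2 * (m + 2)) ^ 1).vars := by rwa [pow_one]
    exact NFree_tt_vars h2
  · left
    unfold em lfS at h1
    rw [rename_rename] at h1
    have h2 := vars_rename _ _ h1
    rw [Finset.mem_image] at h2
    obtain ⟨w, _, rfl⟩ := h2
    simp

private theorem NFree_cD_vars (i : ℕ) {z : Fin (n + 2 * (m + 2) + 1)}
    (hz : z ∈ (cD n m g i).vars) : z.val < n ∨ z.val = n + 2 * (m + 2) := by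
  match i with
  | 0 => exact Or.inr (NFree_tt_vars hz)
  | 1 => exact Or.inr (NFree_tt_vars hz)
  | i + 2 => exact NFree_g_vars hz

private theorem NFree_cE_vars (i : ℕ) {z : Fin (n + 2 * (m + 2) + 1)}
    (hz : z ∈ (cE n m g i).vars) : z.val < n ∨ z.val = n + 2 * (m + 2) := by
  match i with
  | 0 => simp [cE] at hz
  | 1 => simp [cE] at hz
  | i + 2 => exact NFree_g_vars hz

private theorem NFree_py_val {j : ℕ} (hj : j < m + 2) : (py n m j).val = n + 2 * j := by
  unfold py; rw [dif_pos hj]

private theorem NFree_pv_val {j : ℕ} (hj : j < m + 2) : (pv n m j).val = n + 2 * j + 1 := by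
  unfold pv; rw [dif_pos hj]

private theorem NFree_qy_val {j : ℕ} (hj : j < m + 2) : (qy n m j).val = n + 2 * j := by
  unfold qy; rw [Fin.val_castAdd, NFree_py_val hj]

private theorem NFree_qv_val {j : ℕ} (hj : j < m + 2) : (qv n m j).val = n + 2 * j + 1 := by
  unfold qv; rw [Fin.val_castAdd, NFree_pv_val hj]

/-- (the tower `D`) -/
theorem free_D : PtFree ∅ (qy n m) (qv n m) (cD n m g) (m + 2) := by
  refine ⟨?_, ?_, ?_, ?_, ?_, ?_, ?_⟩
  · intro i j hi hj h
    have := congrArg Fin.val h
    rw [NFree_qy_val hi, NFree_qy_val hj] at this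
    omega
  · intro i j hi hj h
    have := congrArg Fin.val h
    rw [NFree_qv_val hi, NFree_qv_val hj] at this
    omega
  · intro i j hi hj h
    have := congrArg Fin.val h
    rw [NFree_qy_val hi, NFree_qv_val hj] at this
    omega
  · intro g hg; exact absurd hg (Set.notMem_empty g)
  · intro g hg; exact absurd hg (Set.notMem_empty g)
  · intro i hi j hj h
    have := NFree_cD_vars i h
    rw [NFree_qy_val hj] at this
    omega
  · intro i hi j hj h
    have := NFree_cD_vars i h
    rw [NFree_qv_val hj] at this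
    omega

/-- (the tower `E`) -/
theorem free_E : PtFree {tt (n + 2 * (m + 2)) ^ 2} (qy n m) (qv n m) (cE n m g) (m + 2) := by
  refine ⟨?_, ?_, ?_, ?_, ?_, ?_, ?_⟩
  · intro i j hi hj h
    have := congrArg Fin.val h
    rw [NFree_qy_val hi, NFree_qy_val hj] at this
    omega
  · intro i j hi hj h
    have := congrArg Fin.val h
    rw [NFree_qv_val hi, NFree_qv_val hj] at this
    omega
  · intro i j hi hj h
    have := congrArg Fin.val h
    rw [NFree_qy_val hi, NFree_qv_val hj] at this
    omega
  · intro f hf j hj h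
    rw [Set.mem_singleton_iff.1 hf] at h
    have := NFree_tt_vars h
    rw [NFree_qy_val hj] at this
    omega
  · intro f hf j hj h
    rw [Set.mem_singleton_iff.1 hf] at h
    have := NFree_tt_vars h
    rw [NFree_qv_val hj] at this
    omega
  · intro i hi j hj h
    have := NFree_cE_vars i h
    rw [NFree_qy_val hj] at this
    omega
  · intro i hi j hj h
    have := NFree_cE_vars i h
    rw [NFree_qv_val hj] at this
    omega

/-- (the tower `I₂`) -/
theorem free_2 : PtFree ∅ (py n m) (pv n m) (fun _ => (0 : MvPolynomial (Fin (n + 2 * (m + 2))) ℂ))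
    (m + 2) := by
  refine ⟨?_, ?_, ?_, ?_, ?_, ?_, ?_⟩
  · intro i j hi hj h
    have := congrArg Fin.val h
    rw [NFree_py_val hi, NFree_py_val hj] at this
    omega
  · intro i j hi hj h
    have := congrArg Fin.val h
    rw [NFree_pv_val hi, NFree_pv_val hj] at this
    omega
  · intro i j hi hj h
    have := congrArg Fin.val h
    rw [NFree_py_val hi, NFree_pv_val hj] at this
    omega
  · intro g hg; exact absurd hg (Set.notMem_empty g)
  · intro g hg; exact absurd hg (Set.notMem_empty g)
  · intro i hi j hj h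
    rw [vars_0] at h
    exact absurd h (Finset.notMem_empty _)
  · intro i hi j hj h
    rw [vars_0] at h
    exact absurd h (Finset.notMem_empty _)

private theorem NFree_A_vars {z : Fin (n + 2 * (m + 2) + 1)}
    (hz : z ∈ (tt (n + 2 * (m + 2)) ^ 2 - em (n + 2 * (m + 2)) (FS n m d 0)).vars) :
    z.val = n + 2 * (m + 2) ∨ z = qy n m 0 ∨ z = qv n m 0 := by
  classical
  have h1 := vars_sub_subset _ hz
  rw [Finset.mem_union] at h1
  rcases h1 with h1 | h1
  · exact Or.inl (NFree_tt_vars h1)
  · right
    rw [em_FS] at h1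
    have h2 := vars_mul _ _ h1
    rw [Finset.mem_union] at h2
    rcases h2 with h2 | h2
    · left
      rw [vars_X, Finset.mem_singleton] at h2
      exact h2
    · right
      have h3 := vars_pow _ _ h2
      rw [vars_X, Finset.mem_singleton] at h3
      exact h3

/-- (the tower `D` without its first step) -/
theorem free_D' : PtFree {tt (n + 2 * (m + 2)) ^ 2 - em (n + 2 * (m + 2)) (FS n m d 0)}
    (fun j => qy n m (j + 1)) (fun j => qv n m (j + 1)) (fun j => cD n m g (j + 1)) (m + 1) := by
  refine ⟨?_, ?_, ?_, ?_, ?_, ?_, ?_⟩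
  · intro i j hi hj h
    have := congrArg Fin.val h
    rw [NFree_qy_val (by omega), NFree_qy_val (by omega)] at this
    omega
  · intro i j hi hj h
    have := congrArg Fin.val h
    rw [NFree_qv_val (by omega), NFree_qv_val (by omega)] at this
    omega
  · intro i j hi hj h
    have := congrArg Fin.val h
    rw [NFree_qy_val (by omega), NFree_qv_val (by omega)] at this
    omega
  · intro f hf j hj h
    rw [Set.mem_singleton_iff.1 hf] at h
    rcases NFree_A_vars h with h | h | h
    · rw [NFree_qy_val (by omega)] at h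
      omega
    · have := congrArg Fin.val h
      rw [NFree_qy_val (by omega), NFree_qy_val (by omega)] at this
      omega
    · have := congrArg Fin.val h
      rw [NFree_qy_val (by omega), NFree_qv_val (by omega)] at this
      omega
  · intro f hf j hj h
    rw [Set.mem_singleton_iff.1 hf] at h
    rcases NFree_A_vars h with h | h | h
    · rw [NFree_qv_val (by omega)] at h
      omega
    · have := congrArg Fin.val h
      rw [NFree_qv_val (by omega), NFree_qy_val (by omega)] at this
      omega
    · have := congrArg Fin.val h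
      rw [NFree_qv_val (by omega), NFree_qv_val (by omega)] at this
      omega
  · intro i hi j hj h
    have := NFree_cD_vars (i + 1) h
    rw [NFree_qy_val (by omega)] at this
    omega
  · intro i hi j hj h
    have := NFree_cD_vars (i + 1) h
    rw [NFree_qv_val (by omega)] at this
    omega

theorem DD_hom (hg : ∀ j, (g j).IsHomogeneous (d j)) : IsHomog (DD n m g d) :=
  pt_hom (L := m + 2) (fun f hf => absurd hf (Set.notMem_empty f)) (fun i _ => cD_hom hg i) le_rfl

theorem I2n_hom : IsHomog (I2n n m d) :=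
  pt_hom (L := m + 2) (fun f hf => absurd hf (Set.notMem_empty f))
    (fun _ _ => isHomogeneous_zero _ _ _) le_rfl

theorem Pn_hom (hg : ∀ j, (g j).IsHomogeneous (d j)) : IsHomog (Pn n m g d) :=
  comap_hom (DD_hom hg)

theorem II_hom (hg : ∀ j, (g j).IsHomogeneous (d j)) : IsHomog (II n m g d) :=
  fun f hf e => ⟨Pn_hom hg f hf.1 e, I2n_hom f hf.2 e⟩

end

end Pool.Agent.RegRed
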