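import Mathlib
import Pool.Agent.Lib.MP_724d4c_ag.NFree
import Pool.Agent.Lib.MP_724d4c_ag.NDiv

/-! Row 724i-UpI: the hypotheses of `glue_up`. -/

set_option autoImplicit false

namespace Pool.Agent.RegRed

open MvPolynomial

noncomputable section

variable {n m : ℕ} {g : ℕ → MvPolynomial (Fin n) ℂ} {d : ℕ → ℕ}

private theorem UpI_mem {N : ℕ} {A : Set (MvPolynomial (Fin N) ℂ)} {y v : ℕ → Fin N} {a : ℕ → ℕ}
    {c : ℕ → MvPolynomial (Fin N) ℂ} {s : ℕ → ℕ} {k i : ℕ} (hi : i < k) :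
    ptF y v a c i ^ s i ∈ pt A y v a c s k :=
  Ideal.subset_span (Or.inr ⟨i, hi, rfl⟩)

private theorem UpI_le {N : ℕ} {A : Set (MvPolynomial (Fin N) ℂ)} {y v : ℕ → Fin N} {a : ℕ → ℕ}
    {c : ℕ → MvPolynomial (Fin N) ℂ} {s : ℕ → ℕ} {k : ℕ} {J : Ideal (MvPolynomial (Fin N) ℂ)}
    (hA : ∀ f ∈ A, f ∈ J) (h : ∀ i < k, ptF y v a c i ^ s i ∈ J) : pt A y v a c s k ≤ J := by
  refine Ideal.span_le.2 ?_
  rintro p (hp | ⟨i, hi, rfl⟩)
  · exact hA p hp
  · exact h i hi

/-- the generators of `D` -/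
theorem DD_gen {j : ℕ} (hj : j < m + 2) :
    em (n + 2 * (m + 2)) (FS n m d j) - cD n m g j ∈ DD n m g d := by
  have h := UpI_mem (A := ∅) (y := qy n m) (v := qv n m) (a := pa d) (c := cD n m g)
    (s := fun _ => 1) hj
  rw [em_FS]
  rw [pow_one] at h
  exact h

theorem EE_eq : EE n m g d = DD n m g d ⊔ Ideal.span {tt (n + 2 * (m + 2)) ^ 2} := by
  have ht2 : tt (n + 2 * (m + 2)) ^ 2 ∈ DD n m g d ⊔ Ideal.span {tt (n + 2 * (m + 2)) ^ 2} :=
    Ideal.mem_sup_right (Ideal.mem_span_singleton_self _)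
  have ht2' : tt (n + 2 * (m + 2)) ^ 2 ∈ EE n m g d := Ideal.subset_span (Or.inl rfl)
  have hE : ∀ i < m + 2, ptF (qy n m) (qv n m) (pa d) (cE n m g) i ∈ EE n m g d := by
    intro i hi
    have h := UpI_mem (A := {tt (n + 2 * (m + 2)) ^ 2}) (y := qy n m) (v := qv n m) (a := pa d)
      (c := cE n m g) (s := fun _ => 1) hi
    rw [pow_one] at h
    exact h
  have hD : ∀ i < m + 2, ptF (qy n m) (qv n m) (pa d) (cD n m g) i ∈
      DD n m g d ⊔ Ideal.span {tt (n + 2 * (m + 2)) ^ 2} := by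
    intro i hi
    have h := UpI_mem (A := ∅) (y := qy n m) (v := qv n m) (a := pa d)
      (c := cD n m g) (s := fun _ => 1) hi
    rw [pow_one] at h
    exact Ideal.mem_sup_left h
  apply le_antisymm
  · refine UpI_le ?_ ?_
    · rintro f rfl
      exact ht2
    · intro i hi
      rw [pow_one]
      have h := hD i hi
      match i, hi, h with
      | 0, _, h =>
        have e : ptF (qy n m) (qv n m) (pa d) (cE n m g) 0 =
            ptF (qy n m) (qv n m) (pa d) (cD n m g) 0 + tt (n + 2 * (m + 2)) ^ 2 := by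
          simp only [ptF, cE, cD]; ring
        rw [e]
        exact Ideal.add_mem _ h ht2
      | 1, _, h =>
        have e : ptF (qy n m) (qv n m) (pa d) (cE n m g) 1 =
            ptF (qy n m) (qv n m) (pa d) (cD n m g) 1 +
              tt (n + 2 * (m + 2)) * tt (n + 2 * (m + 2)) ^ 2 := by
          simp only [ptF, cE, cD]; ring
        rw [e]
        exact Ideal.add_mem _ h (Ideal.mul_mem_left _ _ ht2)
      | j + 2, _, h => exact h
  · refine sup_le (UpI_le (fun f hf => hf.elim) ?_) ?_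
    · intro i hi
      rw [pow_one]
      have h := hE i hi
      match i, hi, h with
      | 0, _, h =>
        have e : ptF (qy n m) (qv n m) (pa d) (cD n m g) 0 =
            ptF (qy n m) (qv n m) (pa d) (cE n m g) 0 - tt (n + 2 * (m + 2)) ^ 2 := by
          simp only [ptF, cE, cD]; ring
        rw [e]
        exact Ideal.sub_mem _ h ht2'
      | 1, _, h =>
        have e : ptF (qy n m) (qv n m) (pa d) (cD n m g) 1 =
            ptF (qy n m) (qv n m) (pa d) (cE n m g) 1 -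
              tt (n + 2 * (m + 2)) * tt (n + 2 * (m + 2)) ^ 2 := by
          simp only [ptF, cE, cD]; ring
        rw [e]
        exact Ideal.sub_mem _ h (Ideal.mul_mem_left _ _ ht2')
      | j + 2, _, h => exact h
    · exact (Ideal.span_singleton_le_iff_mem _).2 ht2'

/-- `F_0 = t²`, `F_1 = t³`, `F_{j+2}² = t² g_j²` modulo `D`. -/
theorem I2n_em (f : MvPolynomial (Fin (n + 2 * (m + 2))) ℂ) (hf : f ∈ I2n n m d) :
    em (n + 2 * (m + 2)) f ∈ DD n m g d ⊔ Ideal.span {tt (n + 2 * (m + 2)) ^ 2} := by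
  have ht2 : tt (n + 2 * (m + 2)) ^ 2 ∈ DD n m g d ⊔ Ideal.span {tt (n + 2 * (m + 2)) ^ 2} :=
    Ideal.mem_sup_right (Ideal.mem_span_singleton_self _)
  have hle : I2n n m d ≤ (DD n m g d ⊔ Ideal.span {tt (n + 2 * (m + 2)) ^ 2}).comap
      (em (n + 2 * (m + 2))) := by
    refine UpI_le (fun f hf => hf.elim) ?_
    intro i hi
    rw [Ideal.mem_comap, map_pow]
    have e0 : ptF (py n m) (pv n m) (pa d) (fun _ => 0) i = FS n m d i := by
      simp only [ptF, FS, sub_zero]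
    rw [e0]
    have h : em (n + 2 * (m + 2)) (FS n m d i) - cD n m g i ∈
        DD n m g d ⊔ Ideal.span {tt (n + 2 * (m + 2)) ^ 2} :=
      Ideal.mem_sup_left (DD_gen (n := n) (g := g) (d := d) hi)
    match i, hi, h with
    | 0, _, h =>
      have h1 := Ideal.add_mem _ h ht2
      simpa only [cD, sub_add_cancel, s2, Nat.ofNat_pos, if_true, pow_one] using h1
    | 1, _, h =>
      have h1 := Ideal.add_mem _ h (Ideal.mul_mem_left _ (tt (n + 2 * (m + 2))) ht2)
      have e : em (n + 2 * (m + 2)) (FS n m d 1) ^ s2 1 =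
          em (n + 2 * (m + 2)) (FS n m d 1) - cD n m g 1 +
            tt (n + 2 * (m + 2)) * tt (n + 2 * (m + 2)) ^ 2 := by
        simp only [cD, s2, Nat.one_lt_ofNat, if_true, pow_one]; ring
      rw [e]
      exact h1
    | j + 2, _, h =>
      have e : em (n + 2 * (m + 2)) (FS n m d (j + 2)) ^ s2 (j + 2) =
          (em (n + 2 * (m + 2)) (FS n m d (j + 2)) + cD n m g (j + 2)) *
            (em (n + 2 * (m + 2)) (FS n m d (j + 2)) - cD n m g (j + 2)) +
            (em (n + 2 * (m + 2)) (lfS n m (g j))) ^ 2 * tt (n + 2 * (m + 2)) ^ 2 := by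
        have h2 : s2 (j + 2) = 2 := by simp [s2]
        rw [h2]
        simp only [cD]; ring
      rw [e]
      exact Ideal.add_mem _ (Ideal.mul_mem_left _ _ h) (Ideal.mul_mem_left _ _ ht2)
  exact hle hf

/-- `q = t² s`, `s = s_0 + t s_1` modulo `t² - F_0` (`div_tt`), `t² s_0 = F_0 s_0`, `t³ s_1 = F_1 s_1` modulo `D`. -/
theorem tsq_em (q : MvPolynomial (Fin (n + 2 * (m + 2) + 1)) ℂ)
    (hq : q ∈ Ideal.span {tt (n + 2 * (m + 2)) ^ 2}) :
    ∃ z ∈ I2n n m d, q - em (n + 2 * (m + 2)) z ∈ DD n m g d := by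
  obtain ⟨s, rfl⟩ := Ideal.mem_span_singleton'.1 hq
  obtain ⟨s0, s1, hs⟩ := div_tt (FS n m d 0) s
  obtain ⟨w, hw⟩ := Ideal.mem_span_singleton'.1 hs
  have h0 := DD_gen (n := n) (g := g) (d := d) (show 0 < m + 2 by omega)
  have h1 := DD_gen (n := n) (g := g) (d := d) (show 1 < m + 2 by omega)
  have k0 : FS n m d 0 ∈ I2n n m d := by
    have h := UpI_mem (A := ∅) (y := py n m) (v := pv n m) (a := pa d)
      (c := fun _ => (0 : MvPolynomial (Fin (n + 2 * (m + 2))) ℂ)) (s := s2)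
      (show 0 < m + 2 by omega)
    have e : ptF (py n m) (pv n m) (pa d) (fun _ => 0) 0 ^ s2 0 = FS n m d 0 := by
      simp [ptF, FS, s2]
    rw [e] at h
    exact h
  have k1 : FS n m d 1 ∈ I2n n m d := by
    have h := UpI_mem (A := ∅) (y := py n m) (v := pv n m) (a := pa d)
      (c := fun _ => (0 : MvPolynomial (Fin (n + 2 * (m + 2))) ℂ)) (s := s2)
      (show 1 < m + 2 by omega)
    have e : ptF (py n m) (pv n m) (pa d) (fun _ => 0) 1 ^ s2 1 = FS n m d 1 := by
      simp [ptF, FS, s2]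
    rw [e] at h
    exact h
  refine ⟨s0 * FS n m d 0 + s1 * FS n m d 1, Ideal.add_mem _ (Ideal.mul_mem_left _ _ k0)
    (Ideal.mul_mem_left _ _ k1), ?_⟩
  have e : s * tt (n + 2 * (m + 2)) ^ 2 -
      em (n + 2 * (m + 2)) (s0 * FS n m d 0 + s1 * FS n m d 1) =
      (-(em (n + 2 * (m + 2)) s0) - tt (n + 2 * (m + 2)) ^ 2 * w) *
        (em (n + 2 * (m + 2)) (FS n m d 0) - cD n m g 0) +
      (-(em (n + 2 * (m + 2)) s1)) * (em (n + 2 * (m + 2)) (FS n m d 1) - cD n m g 1) := by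
    have hs' : s = w * (tt (n + 2 * (m + 2)) ^ 2 - em (n + 2 * (m + 2)) (FS n m d 0)) +
        (em (n + 2 * (m + 2)) s0 + tt (n + 2 * (m + 2)) * em (n + 2 * (m + 2)) s1) := by
      rw [hw]; ring
    rw [map_add, map_mul, map_mul]
    simp only [cD]
    rw [hs']
    ring
  rw [e]
  exact Ideal.add_mem _ (Ideal.mul_mem_left _ _ h0) (Ideal.mul_mem_left _ _ h1)

end

end Pool.Agent.RegRed
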