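import Mathlib
import Pool.Agent.Lib.MP_724d4c_ag.NUpI

/-! Row 724i-LowI: the hypotheses of `glue_low`. -/

set_option autoImplicit false

namespace Pool.Agent.RegRed

open MvPolynomial

noncomputable section

variable {n m : ℕ} {g : ℕ → MvPolynomial (Fin n) ℂ} {d : ℕ → ℕ}

/-- From `exJ_span`. -/
theorem KK_span : KK n m g d = Ideal.span ({p | ∃ i, i < m ∧ p = lfS n m (g i)} ∪
    {p | ∃ j, j < m + 2 ∧ p = FS n m d j}) := by
  unfold KK gI
  rw [exJ_span]
  congr 1
  ext p
  constructor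
  · rintro (⟨f, ⟨i, hi, rfl⟩, rfl⟩ | ⟨j, hj, rfl⟩)
    · exact Or.inl ⟨i, hi, rfl⟩
    · exact Or.inr ⟨j, hj, FJ_eq_FS hj⟩
  · rintro (⟨i, hi, rfl⟩ | ⟨j, hj, rfl⟩)
    · exact Or.inl ⟨g i, ⟨i, hi, rfl⟩, rfl⟩
    · exact Or.inr ⟨j, hj, (FJ_eq_FS hj).symm⟩

/-- `t g_j = F_{j+2}`, `t F_{j+2} = g_j F_0`, `t F_0 = F_1`, `t F_1 = F_0²` modulo `D`; the set of `f` with
`t f ∈ S + D` is an ideal. -/
theorem KK_up (f : MvPolynomial (Fin (n + 2 * (m + 2))) ℂ) (hf : f ∈ KK n m g d) :
    ∃ y : MvPolynomial (Fin (n + 2 * (m + 2))) ℂ,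
      tt (n + 2 * (m + 2)) * em (n + 2 * (m + 2)) f - em (n + 2 * (m + 2)) y ∈ DD n m g d := by
  rw [KK_span] at hf
  have hD := fun {j : ℕ} (hj : j < m + 2) => DD_gen (n := n) (m := m) (g := g) (d := d) hj
  induction hf using Submodule.span_induction with
  | mem x hx =>
    have h0 := hD (j := 0) (by omega)
    have h1 := hD (j := 1) (by omega)
    simp only [cD] at h0 h1
    rcases hx with ⟨i, hi, rfl⟩ | ⟨j, hj, rfl⟩
    · refine ⟨FS n m d (i + 2), ?_⟩
      have h2 := hD (j := i + 2) (by omega)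
      have h3 := (DD n m g d).neg_mem h2
      rw [neg_sub] at h3
      exact h3
    · match j, hj with
      | 0, _ =>
        refine ⟨FS n m d 1, ?_⟩
        have e1 : tt (n + 2 * (m + 2)) * em (n + 2 * (m + 2)) (FS n m d 0) -
            em (n + 2 * (m + 2)) (FS n m d 1) =
            tt (n + 2 * (m + 2)) * (em (n + 2 * (m + 2)) (FS n m d 0) - tt (n + 2 * (m + 2)) ^ 2) -
            (em (n + 2 * (m + 2)) (FS n m d 1) - tt (n + 2 * (m + 2)) ^ 3) := by ring
        rw [e1]
        exact Ideal.sub_mem _ (Ideal.mul_mem_left _ _ h0) h1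
      | 1, _ =>
        refine ⟨FS n m d 0 ^ 2, ?_⟩
        have e1 : tt (n + 2 * (m + 2)) * em (n + 2 * (m + 2)) (FS n m d 1) -
            em (n + 2 * (m + 2)) (FS n m d 0 ^ 2) =
            tt (n + 2 * (m + 2)) * (em (n + 2 * (m + 2)) (FS n m d 1) - tt (n + 2 * (m + 2)) ^ 3) -
            (em (n + 2 * (m + 2)) (FS n m d 0) + tt (n + 2 * (m + 2)) ^ 2) *
              (em (n + 2 * (m + 2)) (FS n m d 0) - tt (n + 2 * (m + 2)) ^ 2) := by
          rw [map_pow]
          ring
        rw [e1]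
        exact Ideal.sub_mem _ (Ideal.mul_mem_left _ _ h1) (Ideal.mul_mem_left _ _ h0)
      | j + 2, hj =>
        refine ⟨FS n m d 0 * lfS n m (g j), ?_⟩
        have h2 := hD (j := j + 2) hj
        simp only [cD] at h2
        have e1 : tt (n + 2 * (m + 2)) * em (n + 2 * (m + 2)) (FS n m d (j + 2)) -
            em (n + 2 * (m + 2)) (FS n m d 0 * lfS n m (g j)) =
            tt (n + 2 * (m + 2)) * (em (n + 2 * (m + 2)) (FS n m d (j + 2)) -
              tt (n + 2 * (m + 2)) * em (n + 2 * (m + 2)) (lfS n m (g j))) -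
            em (n + 2 * (m + 2)) (lfS n m (g j)) *
              (em (n + 2 * (m + 2)) (FS n m d 0) - tt (n + 2 * (m + 2)) ^ 2) := by
          rw [map_mul]
          ring
        rw [e1]
        exact Ideal.sub_mem _ (Ideal.mul_mem_left _ _ h2) (Ideal.mul_mem_left _ _ h0)
  | zero =>
    refine ⟨0, ?_⟩
    rw [map_zero, mul_zero, sub_zero]
    exact Ideal.zero_mem _
  | add x x' _ _ h1 h2 =>
    obtain ⟨y, hy⟩ := h1
    obtain ⟨y', hy'⟩ := h2
    refine ⟨y + y', ?_⟩
    have e1 : tt (n + 2 * (m + 2)) * em (n + 2 * (m + 2)) (x + x') - em (n + 2 * (m + 2)) (y + y') =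
        (tt (n + 2 * (m + 2)) * em (n + 2 * (m + 2)) x - em (n + 2 * (m + 2)) y) +
        (tt (n + 2 * (m + 2)) * em (n + 2 * (m + 2)) x' - em (n + 2 * (m + 2)) y') := by
      rw [map_add, map_add]
      ring
    rw [e1]
    exact Ideal.add_mem _ hy hy'
  | smul a x _ h1 =>
    obtain ⟨y, hy⟩ := h1
    refine ⟨a * y, ?_⟩
    have e1 : tt (n + 2 * (m + 2)) * em (n + 2 * (m + 2)) (a • x) - em (n + 2 * (m + 2)) (a * y) =
        em (n + 2 * (m + 2)) a *
        (tt (n + 2 * (m + 2)) * em (n + 2 * (m + 2)) x - em (n + 2 * (m + 2)) y) := by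
      rw [smul_eq_mul, map_mul, map_mul]
      ring
    rw [e1]
    exact Ideal.mul_mem_left _ _ hy

/-- The map `S[t] → (S/K)[t]/(t²)` kills `D` (use `DualNumber`). -/
theorem KK_down (f y : MvPolynomial (Fin (n + 2 * (m + 2))) ℂ)
    (h : tt (n + 2 * (m + 2)) * em (n + 2 * (m + 2)) f - em (n + 2 * (m + 2)) y ∈ DD n m g d) :
    f ∈ KK n m g d := by
  set K := KK n m g d with hK
  let φ : MvPolynomial (Fin (n + 2 * (m + 2) + 1)) ℂ →ₐ[ℂ]
      DualNumber (MvPolynomial (Fin (n + 2 * (m + 2))) ℂ ⧸ K) :=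
    aeval (Fin.addCases (fun j => TrivSqZeroExt.inl (Ideal.Quotient.mk K (X j)))
      (fun _ => DualNumber.eps))
  have hem : ∀ q, φ (em (n + 2 * (m + 2)) q) = TrivSqZeroExt.inl (Ideal.Quotient.mk K q) := by
    intro q
    have h1 : φ.comp (em (n + 2 * (m + 2))) =
        (TrivSqZeroExt.inlAlgHom ℂ (MvPolynomial (Fin (n + 2 * (m + 2))) ℂ ⧸ K)
          (MvPolynomial (Fin (n + 2 * (m + 2))) ℂ ⧸ K)).comp (Ideal.Quotient.mkₐ ℂ K) := by
      apply MvPolynomial.algHom_ext
      intro i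
      simp only [AlgHom.comp_apply, em, rename_X, φ, aeval_X, Fin.addCases_left]
      rfl
    exact congrArg (fun ψ => ψ q) h1
  have htt : φ (tt (n + 2 * (m + 2))) = DualNumber.eps := by
    simp only [tt, φ, aeval_X, Fin.addCases_right]
  have heps : (DualNumber.eps : DualNumber (MvPolynomial (Fin (n + 2 * (m + 2))) ℂ ⧸ K)) ^ 2 = 0 := by
    rw [pow_two]
    exact DualNumber.eps_mul_eps
  have hkerD : ∀ q ∈ DD n m g d, φ q = 0 := by
    intro q hq
    have h1 : DD n m g d ≤ RingHom.ker φ.toRingHom := by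
      unfold DD pt ptS
      rw [Ideal.span_le]
      rintro q (hq | ⟨i, hi, rfl⟩)
      · exact absurd hq (Set.notMem_empty q)
      · change φ (ptF (qy n m) (qv n m) (pa d) (cD n m g) i ^ 1) = 0
        rw [pow_one]
        unfold ptF
        rw [← em_FS, map_sub, hem]
        have hFK : FS n m d i ∈ K := by
          rw [hK, KK_span]
          exact Ideal.subset_span (Or.inr ⟨i, hi, rfl⟩)
        rw [Ideal.Quotient.eq_zero_iff_mem.2 hFK, TrivSqZeroExt.inl_zero, zero_sub, neg_eq_zero]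
        match i, hi with
        | 0, _ =>
          simp only [cD]
          rw [map_pow, htt, heps]
        | 1, _ =>
          simp only [cD]
          rw [map_pow, htt, pow_succ, heps, zero_mul]
        | j + 2, hj =>
          simp only [cD]
          have hgK : lfS n m (g j) ∈ K := by
            rw [hK, KK_span]
            exact Ideal.subset_span (Or.inl ⟨j, by omega, rfl⟩)
          rw [map_mul, hem, Ideal.Quotient.eq_zero_iff_mem.2 hgK, TrivSqZeroExt.inl_zero, mul_zero]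
    exact h1 hq
  have h1 := hkerD _ h
  rw [map_sub, map_mul, hem, hem, htt] at h1
  have h2 := congrArg TrivSqZeroExt.snd h1
  rw [TrivSqZeroExt.snd_sub, TrivSqZeroExt.snd_mul, TrivSqZeroExt.snd_inl, TrivSqZeroExt.snd_inl,
    TrivSqZeroExt.snd_zero, TrivSqZeroExt.fst_inl, DualNumber.snd_eps, smul_zero, zero_add,
    sub_zero] at h2
  have h3 : Ideal.Quotient.mk K f = 0 := by
    simpa using h2
  exact Ideal.Quotient.eq_zero_iff_mem.1 h3

end

end Pool.Agent.RegRed
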