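import Mathlib
import Pool.Agent.Lib.MP_724d4c_ag.NTow

/-! Row 724i-Prime: towers of forms `y v^a - c` are prime. -/

set_option autoImplicit false

namespace Pool.Agent.RegRed

open MvPolynomial

noncomputable section

open scoped Classical in
/-- put `b` for the variable `v` -/
private def npSub {σ : Type} (v : σ) (b : MvPolynomial σ ℂ) : MvPolynomial σ ℂ →ₐ[ℂ] MvPolynomial σ ℂ :=
  aeval fun s => if s = v then b else X s

private theorem npSub_self {σ : Type} (v : σ) (b : MvPolynomial σ ℂ) : npSub v b (X v) = b := by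
  simp [npSub]

private theorem npSub_ne {σ : Type} {v s : σ} (h : s ≠ v) (b : MvPolynomial σ ℂ) :
    npSub v b (X s) = X s := by
  simp [npSub, h]

private theorem npSub_fix {σ : Type} {v : σ} (b : MvPolynomial σ ℂ) {g : MvPolynomial σ ℂ}
    (h : v ∉ g.vars) : npSub v b g = g := by
  have h1 : npSub v b g = aeval X g := by
    refine eval₂Hom_congr' rfl (fun i hi _ => ?_) rfl
    rw [if_neg]
    rintro rfl
    exact h hi
  rw [h1, aeval_X_left_apply]

private theorem npSub_mem {σ : Type} {v : σ} (b : MvPolynomial σ ℂ) {A : Set (MvPolynomial σ ℂ)}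
    (hA : ∀ g ∈ A, v ∉ g.vars) {p : MvPolynomial σ ℂ} (hp : p ∈ Ideal.span A) :
    npSub v b p ∈ Ideal.span A := by
  have h1 : Ideal.span A ≤ (Ideal.span A).comap (npSub v b) := by
    rw [Ideal.span_le]
    intro g hg
    rw [SetLike.mem_coe, Ideal.mem_comap, npSub_fix b (hA g hg)]
    exact Ideal.subset_span hg
  exact h1 hp

private theorem npSub_dvd {σ : Type} (v : σ) (q : MvPolynomial σ ℂ) : X v ∣ q - npSub v 0 q := by
  induction q using MvPolynomial.induction_on with
  | C a =>
    rw [show npSub v 0 (C a) = C a from by simp [npSub], sub_self]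
    exact dvd_zero _
  | add p q hp hq =>
    rw [map_add]
    have h1 := dvd_add hp hq
    rwa [show p - npSub v 0 p + (q - npSub v 0 q) = p + q - (npSub v 0 p + npSub v 0 q) by ring] at h1
  | mul_X p s hp =>
    rw [map_mul]
    rcases eq_or_ne s v with h | h
    · subst h
      rw [npSub_self, mul_zero, sub_zero]
      exact dvd_mul_left _ _
    · rw [npSub_ne h, ← sub_mul]
      exact dvd_mul_of_dvd_left hp _

/-- Proof. Let `D' = R/(A)`, a domain, and `Θ : R → Frac D'`, `y ↦ c/v^a`, the other variables to their classes. The kernel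
of `Θ` contains `A` and `y v^a - c`. Conversely let `Θ f = 0`; modulo `y v^a - c`, `v^N f` is a polynomial without `y`, so it
is in `(A)`; and `v` is a nonzerodivisor modulo `(A) + (y v^a - c)` (put `v = 0`). -/
theorem prime_step {σ : Type} (y v : σ) (hyv : y ≠ v) (A : Set (MvPolynomial σ ℂ))
    (hAy : ∀ g ∈ A, y ∉ g.vars) (hAv : ∀ g ∈ A, v ∉ g.vars) (hA : (Ideal.span A).IsPrime)
    (c : MvPolynomial σ ℂ) (hcy : y ∉ c.vars) (hcv : v ∉ c.vars) (hc : c ∉ Ideal.span A) (a : ℕ) :
    (Ideal.span A ⊔ Ideal.span {X y * X v ^ a - c}).IsPrime := by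
  classical
  set P := Ideal.span A with hP
  set F : MvPolynomial σ ℂ := X y * X v ^ a - c with hF
  set Q := P ⊔ Ideal.span {F} with hQ
  have hFQ : F ∈ Q := Ideal.mem_sup_right (Ideal.subset_span rfl)
  have hvP : (X v : MvPolynomial σ ℂ) ∉ P := by
    intro h
    have h1 := npSub_mem 1 hAv h
    rw [npSub_self] at h1
    exact hA.ne_top ((Ideal.eq_top_iff_one _).2 h1)
  have hFP : npSub v 0 F ∉ P := by
    intro h
    have h1 := npSub_mem 0 hAy h
    have h2 : npSub y 0 (npSub v 0 F) = - c := by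
      rw [hF, map_sub, map_mul, map_pow, npSub_ne hyv, npSub_fix _ hcv, map_sub, map_mul, npSub_self,
        npSub_fix _ hcy, zero_mul, zero_sub]
    rw [h2] at h1
    exact hc (neg_mem_iff.1 h1)
  -- `v` is a nonzerodivisor modulo `Q`
  have hv1 : ∀ h : MvPolynomial σ ℂ, X v * h ∈ Q → h ∈ Q := by
    intro h hh
    obtain ⟨p, hp, r, hr, e⟩ := Submodule.mem_sup.1 hh
    obtain ⟨q, rfl⟩ := Ideal.mem_span_singleton'.1 hr
    have h1 : npSub v 0 (p + q * F) = 0 := by
      rw [e, map_mul, npSub_self, zero_mul]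
    rw [map_add, map_mul] at h1
    have h2 : npSub v 0 q * npSub v 0 F ∈ P := by
      rw [← neg_eq_of_add_eq_zero_right h1]
      exact P.neg_mem (npSub_mem 0 hAv hp)
    have h3 : npSub v 0 q ∈ P := (hA.mem_or_mem h2).resolve_right hFP
    obtain ⟨q', hq'⟩ := npSub_dvd v q
    have h4 : X v * (h - q' * F) = p + npSub v 0 q * F := by
      have : q = npSub v 0 q + X v * q' := by rw [← hq']; ring
      rw [mul_sub, ← e]
      conv_lhs => rw [this]
      ring
    have h5 : h - q' * F ∈ P := by
      refine (hA.mem_or_mem ?_).resolve_left hvP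
      rw [h4]
      exact P.add_mem hp (P.mul_mem_right _ h3)
    have h6 : h = (h - q' * F) + q' * F := by ring
    rw [h6]
    exact Q.add_mem (Ideal.mem_sup_left h5) (Q.mul_mem_left _ hFQ)
  have hvN : ∀ (N : ℕ) (h : MvPolynomial σ ℂ), X v ^ N * h ∈ Q → h ∈ Q := by
    intro N
    induction N with
    | zero => intro h hh; simpa using hh
    | succ N ih =>
      intro h hh
      refine hv1 h (ih _ ?_)
      rwa [← mul_assoc, ← pow_succ]
  -- the map
  have : IsDomain (MvPolynomial σ ℂ ⧸ P) := Ideal.Quotient.isDomain P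
  let K := FractionRing (MvPolynomial σ ℂ ⧸ P)
  let μ : MvPolynomial σ ℂ →+* K :=
    (algebraMap (MvPolynomial σ ℂ ⧸ P) K).comp (Ideal.Quotient.mk P)
  have hμ : ∀ g, μ g = 0 → g ∈ P := by
    intro g hg
    have h1 : Ideal.Quotient.mk P g = 0 :=
      (IsFractionRing.injective (MvPolynomial σ ℂ ⧸ P) K) (by rw [map_zero]; exact hg)
    exact Ideal.Quotient.eq_zero_iff_mem.1 h1
  have hμ0 : ∀ g ∈ P, μ g = 0 := by
    intro g hg
    have h1 : Ideal.Quotient.mk P g = 0 := Ideal.Quotient.eq_zero_iff_mem.2 hg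
    show algebraMap _ K (Ideal.Quotient.mk P g) = 0
    rw [h1, map_zero]
  have hμv : μ (X v) ≠ 0 := fun h => hvP (hμ _ h)
  let θ : MvPolynomial σ ℂ →+* K :=
    eval₂Hom (μ.comp C) fun s => if s = y then μ c / μ (X v) ^ a else μ (X s)
  have hθy : θ (X y) = μ c / μ (X v) ^ a := by simp [θ]
  have hθs : ∀ s, s ≠ y → θ (X s) = μ (X s) := by
    intro s hs
    simp [θ, hs]
  have hθC : ∀ z, θ (C z) = μ (C z) := by
    intro z
    simp [θ]
  have hθfix : ∀ g : MvPolynomial σ ℂ, y ∉ g.vars → θ g = μ g := by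
    intro g hg
    have h1 : θ g = eval₂Hom (μ.comp C) (fun s => μ (X s)) g := by
      refine eval₂Hom_congr' rfl (fun i hi _ => ?_) rfl
      rw [if_neg]
      rintro rfl
      exact hg hi
    have h2 : eval₂Hom (μ.comp C) (fun s => μ (X s)) = μ := by
      ext <;> simp
    rw [h1, h2]
  have hQθ : Q ≤ RingHom.ker θ := by
    rw [hQ, sup_le_iff]
    constructor
    · have hle : Ideal.span A ≤ RingHom.ker θ := by
        rw [Ideal.span_le]
        intro g hg
        rw [SetLike.mem_coe, RingHom.mem_ker, hθfix g (hAy g hg)]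
        exact hμ0 g (Ideal.subset_span hg)
      exact hle
    · rw [Ideal.span_singleton_le_iff_mem, RingHom.mem_ker, hF, map_sub, map_mul, map_pow, hθy,
        hθs v hyv.symm, hθfix c hcy, div_mul_cancel₀ _ (pow_ne_zero _ hμv), sub_self]
  have key : ∀ h : MvPolynomial σ ℂ, ∃ (N : ℕ) (h' : MvPolynomial σ ℂ), θ h' = μ h' ∧
      X v ^ N * h - h' ∈ Q := by
    intro h
    induction h using MvPolynomial.induction_on with
    | C z => exact ⟨0, C z, hθC z, by simp⟩
    | add p q hp hq =>
      obtain ⟨N1, p', h1, h2⟩ := hp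
      obtain ⟨N2, q', h3, h4⟩ := hq
      refine ⟨N1 + N2, X v ^ N2 * p' + X v ^ N1 * q', ?_, ?_⟩
      · rw [map_add, map_add, map_mul, map_mul, map_mul, map_mul, map_pow, map_pow, map_pow, map_pow,
          hθs v hyv.symm, h1, h3]
      · have e : X v ^ (N1 + N2) * (p + q) - (X v ^ N2 * p' + X v ^ N1 * q') =
            X v ^ N2 * (X v ^ N1 * p - p') + X v ^ N1 * (X v ^ N2 * q - q') := by ring
        rw [e]
        exact Q.add_mem (Q.mul_mem_left _ h2) (Q.mul_mem_left _ h4)
    | mul_X p s hp =>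
      obtain ⟨N, p', h1, h2⟩ := hp
      rcases eq_or_ne s y with h | h
      · subst h
        refine ⟨N + a, p' * c, ?_, ?_⟩
        · rw [map_mul, map_mul, h1, hθfix c hcy]
        · have e : X v ^ (N + a) * (p * X s) - p' * c =
              X v ^ a * X s * (X v ^ N * p - p') + p' * F := by
            rw [hF]
            ring
          rw [e]
          exact Q.add_mem (Q.mul_mem_left _ h2) (Q.mul_mem_left _ hFQ)
      · refine ⟨N, p' * X s, ?_, ?_⟩
        · rw [map_mul, map_mul, h1, hθs s h]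
        · have e : X v ^ N * (p * X s) - p' * X s = X s * (X v ^ N * p - p') := by ring
          rw [e]
          exact Q.mul_mem_left _ h2
  have hker : Q = RingHom.ker θ := by
    refine le_antisymm hQθ fun h hh => ?_
    obtain ⟨N, h', h1, h2⟩ := key h
    have h3 : θ h' = 0 := by
      have h4 : θ (X v ^ N * h - h') = 0 := hQθ h2
      rw [map_sub, map_mul, RingHom.mem_ker.1 hh, mul_zero, zero_sub, neg_eq_zero] at h4
      exact h4
    have h5 : h' ∈ P := hμ h' (by rw [← h1, h3])
    refine hvN N h ?_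
    have h6 := Q.add_mem h2 (Ideal.mem_sup_left h5)
    rwa [sub_add_cancel] at h6
  rw [hker]
  exact RingHom.ker_isPrime θ

end

end Pool.Agent.RegRed
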