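import Mathlib
import Pool.Agent.Lib.MP_724d4c_ag.NPrime

/-! Row 724i-PrimeT: the tower. -/

set_option autoImplicit false

namespace Pool.Agent.RegRed

open MvPolynomial

noncomputable section

variable {N : ℕ}

/-- the map `y_j ↦ c_j`, `v_j ↦ 1` (`j < L`), which fixes the other variables, kills the tower -/
theorem pt_eval {y v : ℕ → Fin N} {a : ℕ → ℕ} {c : ℕ → MvPolynomial (Fin N) ℂ} {L : ℕ}
    (h : PtFree ∅ y v c L) : ∃ φ : MvPolynomial (Fin N) ℂ →ₐ[ℂ] MvPolynomial (Fin N) ℂ,
      (∀ k, k ≤ L → ∀ f ∈ pt ∅ y v a c (fun _ => 1) k, φ f = 0) ∧ (∀ j, j < L → φ (X (v j)) = 1) ∧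
      ∀ f : MvPolynomial (Fin N) ℂ, (∀ j, j < L → y j ∉ f.vars ∧ v j ∉ f.vars) → φ f = f := by
  classical
  let s : Fin N → MvPolynomial (Fin N) ℂ := fun x =>
    if hx : ∃ j, j < L ∧ x = y j then c hx.choose else if ∃ j, j < L ∧ x = v j then 1 else X x
  have hsy : ∀ j, j < L → s (y j) = c j := by
    intro j hj
    have hx : ∃ i, i < L ∧ y j = y i := ⟨j, hj, rfl⟩
    have h1 : s (y j) = c hx.choose := dif_pos hx
    rw [h1, ← h.yy j hx.choose hj hx.choose_spec.1 hx.choose_spec.2]
  have hsv : ∀ j, j < L → s (v j) = 1 := by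
    intro j hj
    have hx : ¬ ∃ i, i < L ∧ v j = y i := by
      rintro ⟨i, hi, he⟩
      exact h.yv i j hi hj he.symm
    have h1 : s (v j) = if ∃ i, i < L ∧ v j = v i then 1 else X (v j) := dif_neg hx
    rw [h1, if_pos ⟨j, hj, rfl⟩]
  have hsx : ∀ x, (∀ j, j < L → x ≠ y j) → (∀ j, j < L → x ≠ v j) → s x = X x := by
    intro x h1 h2
    have hx : ¬ ∃ i, i < L ∧ x = y i := by
      rintro ⟨i, hi, he⟩
      exact h1 i hi he
    have hx2 : ¬ ∃ i, i < L ∧ x = v i := by
      rintro ⟨i, hi, he⟩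
      exact h2 i hi he
    have h3 : s x = if ∃ i, i < L ∧ x = v i then 1 else X x := dif_neg hx
    rw [h3, if_neg hx2]
  have hfix : ∀ f : MvPolynomial (Fin N) ℂ, (∀ j, j < L → y j ∉ f.vars ∧ v j ∉ f.vars) →
      aeval s f = f := by
    intro f hf
    have h1 : (aeval s : MvPolynomial (Fin N) ℂ →ₐ[ℂ] MvPolynomial (Fin N) ℂ).toRingHom f =
        (RingHom.id (MvPolynomial (Fin N) ℂ)) f := by
      apply MvPolynomial.hom_congr_vars (p₁ := f) (p₂ := f)
      · ext z
        simp
      · intro i hi _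
        have h2 : s i = X i := by
          apply hsx
          · intro j hj he
            exact (hf j hj).1 (he ▸ hi)
          · intro j hj he
            exact (hf j hj).2 (he ▸ hi)
        simpa using h2
      · rfl
    exact h1
  refine ⟨aeval s, ?_, ?_, hfix⟩
  · intro k hk f hf
    have hle : pt ∅ y v a c (fun _ => 1) k ≤
        RingHom.ker (aeval s : MvPolynomial (Fin N) ℂ →ₐ[ℂ] MvPolynomial (Fin N) ℂ) := by
      unfold pt
      rw [Ideal.span_le]
      rintro p (hp | ⟨i, hi, rfl⟩)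
      · exact absurd hp (Set.notMem_empty p)
      · have hiL : i < L := lt_of_lt_of_le hi hk
        have hci : aeval s (c i) = c i :=
          hfix (c i) fun j hj => ⟨h.cy i hiL j hj, h.cv i hiL j hj⟩
        show aeval s (ptF y v a c i ^ 1) = 0
        rw [pow_one]
        unfold ptF
        rw [map_sub, map_mul, map_pow, aeval_X, aeval_X, hsy i hiL, hsv i hiL, hci]
        simp
    exact hle hf
  · intro j hj
    rw [aeval_X]
    exact hsv j hj

/-- Induction with `prime_step`; `c_k` is not in the tower by `pt_eval`. -/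
theorem pt_prime {y v : ℕ → Fin N} {a : ℕ → ℕ} {c : ℕ → MvPolynomial (Fin N) ℂ} {L : ℕ}
    (h : PtFree ∅ y v c L) (hc : ∀ i, i < L → c i ≠ 0) {k : ℕ} (hk : k ≤ L) :
    (pt ∅ y v a c (fun _ => 1) k).IsPrime := by
  obtain ⟨φ, h1, -, h3⟩ := pt_eval (a := a) h
  induction k with
  | zero =>
    rw [pt_zero, Ideal.span_empty]
    exact Ideal.isPrime_bot
  | succ k ih =>
    have hkL : k < L := hk
    have ih' := ih hkL.le
    rw [pt_succ]
    have hfree := ptS_free (a := a) (s := fun _ => 1) h (le_refl k) hkL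
    have hck : c k ∉ Ideal.span (ptS ∅ y v a c (fun _ => 1) k) := by
      intro hmem
      have h4 : φ (c k) = 0 := h1 k hkL.le (c k) hmem
      have h5 : φ (c k) = c k := h3 (c k) fun j hj => ⟨h.cy k hkL j hj, h.cv k hkL j hj⟩
      rw [h5] at h4
      exact hc k hkL h4
    have hp := prime_step (y k) (v k) (h.yv k k hkL hkL) (ptS ∅ y v a c (fun _ => 1) k)
      (fun g hg => (hfree g hg).1) (fun g hg => (hfree g hg).2) ih' (c k)
      (h.cy k hkL k hkL) (h.cv k hkL k hkL) hck (a k)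
    have he : ptF y v a c k ^ (fun _ : ℕ => 1) k = X (y k) * X (v k) ^ a k - c k := by
      show ptF y v a c k ^ 1 = _
      rw [pow_one]
      rfl
    rw [he]
    exact hp

end

end Pool.Agent.RegRed
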