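import Mathlib
import Pool.Agent.Lib.MP_724d4c_ag.NFree
import Pool.Agent.Lib.MP_724d4c_ag.NPrimeT

/-! Row 724i-Rad: `√I = P` is prime. -/

set_option autoImplicit false

namespace Pool.Agent.RegRed

open MvPolynomial

noncomputable section

variable {n m : ℕ} {g : ℕ → MvPolynomial (Fin n) ℂ} {d : ℕ → ℕ}

private theorem NRad_tt_ne : tt (n + 2 * (m + 2)) ≠ 0 := X_ne_zero _

private theorem NRad_cD_ne (hg : ∀ j, j < m → g j ≠ 0) : ∀ i, i < m + 2 → cD n m g i ≠ 0
  | 0, _ => pow_ne_zero _ NRad_tt_ne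
  | 1, _ => pow_ne_zero _ NRad_tt_ne
  | j + 2, h => by
    have h1 : lfS n m (g j) ≠ 0 := by
      intro h0
      apply hg j (by omega)
      apply rename_injective _ (Fin.castAdd_injective n (2 * (m + 2)))
      rw [map_zero]
      exact h0
    have h2 : em (n + 2 * (m + 2)) (lfS n m (g j)) ≠ 0 := by
      intro h0
      apply h1
      apply em_injective
      rw [map_zero]
      exact h0
    exact mul_ne_zero NRad_tt_ne h2

/-- `pt_prime`; the comap of a prime ideal is prime. -/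
theorem Pn_prime (hg : ∀ j, j < m → g j ≠ 0) : (Pn n m g d).IsPrime := by
  have h : (DD n m g d).IsPrime := pt_prime free_D (NRad_cD_ne hg) le_rfl
  unfold Pn
  exact Ideal.comap_isPrime _ _

/-- `t ↦ 0` -/
private def NRadPsi (N : ℕ) : MvPolynomial (Fin (N + 1)) ℂ →ₐ[ℂ] MvPolynomial (Fin N) ℂ :=
  aeval (fun i : Fin (N + 1) => Fin.addCases (motive := fun _ => MvPolynomial (Fin N) ℂ)
    (fun i : Fin N => X i) (fun _ : Fin 1 => 0) i)

private theorem NRadPsi_em (N : ℕ) (f : MvPolynomial (Fin N) ℂ) : NRadPsi N (em N f) = f := by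
  unfold NRadPsi em
  rw [aeval_rename]
  have : ((fun i : Fin (N + 1) => Fin.addCases (motive := fun _ => MvPolynomial (Fin N) ℂ)
    (fun i : Fin N => X i) (fun _ : Fin 1 => 0) i) ∘ Fin.castAdd 1) = X := by
    funext i
    simp only [Function.comp_apply, Fin.addCases_left]
  rw [this]
  exact aeval_X_left_apply f

private theorem NRadPsi_tt (N : ℕ) : NRadPsi N (tt N) = 0 := by
  unfold NRadPsi tt
  rw [aeval_X, Fin.addCases_right]

private theorem NRadPsi_cD : ∀ j, NRadPsi (n + 2 * (m + 2)) (cD n m g j) = 0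
  | 0 => by
    show NRadPsi _ (tt _ ^ 2) = 0
    rw [map_pow, NRadPsi_tt]
    simp
  | 1 => by
    show NRadPsi _ (tt _ ^ 3) = 0
    rw [map_pow, NRadPsi_tt]
    simp
  | j + 2 => by
    show NRadPsi _ (tt _ * _) = 0
    rw [map_mul, NRadPsi_tt, zero_mul]

/-- Put `t = 0`. -/
theorem Pn_le : Pn n m g d ≤ Ideal.span {p | ∃ j, j < m + 2 ∧ p = FS n m d j} := by
  have key : DD n m g d ≤ (Ideal.span {p | ∃ j, j < m + 2 ∧ p = FS n m d j}).comap
      (NRadPsi (n + 2 * (m + 2))) := by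
    unfold DD pt
    rw [Ideal.span_le]
    rintro p (hp | ⟨j, hj, rfl⟩)
    · exact absurd hp (Set.notMem_empty p)
    · have e1 : ptF (qy n m) (qv n m) (pa d) (cD n m g) j =
          em (n + 2 * (m + 2)) (FS n m d j) - cD n m g j := by
        rw [em_FS]
        rfl
      rw [SetLike.mem_coe, Ideal.mem_comap, e1]
      apply Ideal.subset_span
      refine ⟨j, hj, ?_⟩
      rw [pow_one, map_sub, NRadPsi_cD, sub_zero, NRadPsi_em]
  intro f hf
  have h := key (show em (n + 2 * (m + 2)) f ∈ DD n m g d from hf)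
  rw [Ideal.mem_comap, NRadPsi_em] at h
  exact h

/-- `P ⊆ (F_j) ⊆ √I₂`, and `√P = P`. -/
theorem II_radical (hg : ∀ j, j < m → g j ≠ 0) : (II n m g d).radical = Pn n m g d := by
  have hP := Pn_prime (d := d) hg
  have h1 : Ideal.span {p | ∃ j, j < m + 2 ∧ p = FS n m d j} ≤ (I2n n m d).radical := by
    rw [Ideal.span_le]
    rintro p ⟨j, hj, rfl⟩
    refine ⟨s2 j, ?_⟩
    unfold I2n pt
    apply Ideal.subset_span
    right
    refine ⟨j, hj, ?_⟩
    congr 1
    unfold ptF FS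
    rw [sub_zero]
  unfold II
  rw [Ideal.radical_inf, hP.radical]
  exact inf_eq_left.mpr (Pn_le.trans h1)

/-- `v_0 ∉ P` by `pt_eval`. -/
theorem Pn_notMem : X (pv n m 0) ∉ Pn n m g d := by
  intro h
  obtain ⟨φ, h1, h2, -⟩ := pt_eval (a := pa d) (free_D (n := n) (m := m) (g := g))
  have h3 : em (n + 2 * (m + 2)) (X (pv n m 0)) ∈ DD n m g d := h
  have h4 := h1 (m + 2) le_rfl _ h3
  have h5 : em (n + 2 * (m + 2)) (X (pv n m 0)) = X (qv n m 0) := by
    unfold em qv
    rw [rename_X]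
  rw [h5, h2 0 (by omega)] at h4
  exact one_ne_zero h4

end

end Pool.Agent.RegRed
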