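import Mathlib
import Pool.Agent.Lib.MP_724d4c_ag.NFree
import Pool.Agent.Lib.MP_724d4c_ag.NBase
import Pool.Agent.Lib.MP_724d4c_ag.XTowR

/-! Row 724i-VanI: the vanishing for the complete intersections. -/

set_option autoImplicit false

namespace Pool.Agent.RegRed

open MvPolynomial

noncomputable section

variable {n m : ℕ} {g : ℕ → MvPolynomial (Fin n) ℂ} {d : ℕ → ℕ}

private theorem NVanI_neg : ptF (qy n m) (qv n m) (pa d) (cD n m g) 0 ^ 1 =
    -(tt (n + 2 * (m + 2)) ^ 2 - em (n + 2 * (m + 2)) (FS n m d 0)) := by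
  have h1 : ptF (qy n m) (qv n m) (pa d) (cD n m g) 0 =
      X (qy n m 0) * X (qv n m 0) ^ pa d 0 - tt (n + 2 * (m + 2)) ^ 2 := rfl
  rw [h1, em_FS]
  ring

/-- `(F_0 - t²) = (t² - F_0)`, then the other steps. -/
theorem DD_shift : DD n m g d = pt {tt (n + 2 * (m + 2)) ^ 2 - em (n + 2 * (m + 2)) (FS n m d 0)}
    (fun j => qy n m (j + 1)) (fun j => qv n m (j + 1)) (fun j => pa d (j + 1))
    (fun j => cD n m g (j + 1)) (fun _ => 1) (m + 1) := by
  apply le_antisymm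
  · apply Ideal.span_le.2
    rintro p (hp | ⟨i, hi, rfl⟩)
    · exact (Set.notMem_empty p hp).elim
    · rcases i with _ | i
      · rw [NVanI_neg]
        exact Submodule.neg_mem _ (Ideal.subset_span (Or.inl rfl))
      · exact Ideal.subset_span (Or.inr ⟨i, by omega, rfl⟩)
  · apply Ideal.span_le.2
    rintro p (hp | ⟨i, hi, rfl⟩)
    · rw [Set.mem_singleton_iff] at hp
      have h1 : ptF (qy n m) (qv n m) (pa d) (cD n m g) 0 ^ 1 ∈ DD n m g d :=
        Ideal.subset_span (Or.inr ⟨0, by omega, rfl⟩)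
      rw [NVanI_neg] at h1
      have h2 := Submodule.neg_mem _ h1
      rw [neg_neg] at h2
      rw [hp]
      exact h2
    · exact Ideal.subset_span (Or.inr ⟨i + 1, by omega, rfl⟩)

private theorem NVanI_sum1 (d : ℕ → ℕ) (m : ℕ) :
    ∑ i ∈ Finset.range (m + 1), (((1 : ℕ) : ℤ) * ((pa d (i + 1) : ℤ) + 1) - 1) =
      2 + ∑ j ∈ Finset.range m, (d j : ℤ) := by
  rw [Finset.sum_range_succ']
  have h1 : ∀ i, (((1 : ℕ) : ℤ) * ((pa d (i + 1 + 1) : ℤ) + 1) - 1) = (d i : ℤ) := by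
    intro i
    have : pa d (i + 1 + 1) = d i := rfl
    rw [this]
    push_cast
    ring
  have h2 : pa d (0 + 1) = 2 := rfl
  rw [Finset.sum_congr rfl fun i _ => h1 i, h2]
  push_cast
  ring

private theorem NVanI_sum2 (d : ℕ → ℕ) (m : ℕ) :
    ∑ i ∈ Finset.range (m + 2), (((1 : ℕ) : ℤ) * ((pa d i : ℤ) + 1) - 1) =
      3 + ∑ j ∈ Finset.range m, (d j : ℤ) := by
  rw [Finset.sum_range_succ']
  have h1 := NVanI_sum1 d m
  have h2 : pa d 0 = 1 := rfl
  rw [h1, h2]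
  push_cast
  ring

private theorem NVanI_sum3 (d : ℕ → ℕ) (m : ℕ) :
    ∑ i ∈ Finset.range (m + 2), ((s2 i : ℤ) * ((pa d i : ℤ) + 1) - 1) =
      3 + ∑ j ∈ Finset.range m, (2 * (d j : ℤ) + 1) := by
  rw [Finset.sum_range_succ', Finset.sum_range_succ']
  have h1 : ∀ i, ((s2 (i + 1 + 1) : ℤ) * ((pa d (i + 1 + 1) : ℤ) + 1) - 1) =
      2 * (d i : ℤ) + 1 := by
    intro i
    have e1 : pa d (i + 1 + 1) = d i := rfl
    have e2 : s2 (i + 1 + 1) = 2 := by
      unfold s2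
      rw [if_neg (by omega)]
    rw [e1, e2]
    push_cast
    ring
  have h2 : pa d 0 = 1 := rfl
  have h3 : pa d (0 + 1) = 2 := rfl
  have h4 : s2 0 = 1 := rfl
  have h5 : s2 (0 + 1) = 1 := rfl
  rw [Finset.sum_congr rfl fun i _ => h1 i, h2, h3, h4, h5]
  push_cast
  ring

/-- `pt_van` with `vanT_base`, `B = 2`. -/
theorem DD_van (hg : ∀ j, (g j).IsHomogeneous (d j)) {p : ℕ} {q : ℤ}
    (hq : 4 + ∑ j ∈ Finset.range m, (d j : ℤ) ≤ p + q) : VanE (imT 1) (DD n m g d) p q := by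
  have hF : (FS n m d 0).IsHomogeneous 2 := FS_hom 0
  rw [DD_shift]
  refine pt_van (L := m + 1) (imT_mono 1) free_D' (fun i _ => le_rfl) ?_
    (fun i _ => cD_hom hg (i + 1)) (B := 2) (fun p q h => vanT_base (by omega) hF h) le_rfl ?_
  · intro f hf
    rw [Set.mem_singleton_iff] at hf
    refine ⟨2, ?_⟩
    rw [hf]
    have h1 : (tt (n + 2 * (m + 2)) ^ 2).IsHomogeneous (1 * 2) := tt_hom.pow 2
    exact h1.sub (em_hom.2 hF)
  · rw [NVanI_sum1]
    linarith

/-- `pt_van` with `vanT_base` (`c = 0`), `B = 2`. -/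
theorem EE_van (hg : ∀ j, (g j).IsHomogeneous (d j)) {p : ℕ} {q : ℤ}
    (hq : 5 + ∑ j ∈ Finset.range m, (d j : ℤ) ≤ p + q) : VanE (imT 1) (EE n m g d) p q := by
  unfold EE
  refine pt_van (L := m + 2) (imT_mono 1) free_E (fun i _ => le_rfl) ?_
    (fun i _ => cE_hom hg i) (B := 2) (fun p q h => ?_) le_rfl ?_
  · intro f hf
    rw [Set.mem_singleton_iff] at hf
    refine ⟨2, ?_⟩
    rw [hf]
    exact tt_hom.pow 2
  · have h1 := vanT_base (k := n + 2 * (m + 2)) (by omega)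
      (c := 0) (isHomogeneous_zero _ _ 2) (p := p) (d := q) h
    rw [map_zero, sub_zero] at h1
    exact h1
  · rw [NVanI_sum2]
    linarith

/-- `pt_van` with `E = id` and `van_empty`, `B = 1`. -/
theorem I2n_van {p : ℕ} {q : ℤ} (hq : 4 + ∑ j ∈ Finset.range m, (2 * (d j : ℤ) + 1) ≤ p + q) :
    Van (I2n n m d) p q := by
  rw [← vanE_id]
  unfold I2n
  refine pt_van (L := m + 2) (E := id) (fun T T' h => h) free_2 ?_
    (fun g hg => (Set.notMem_empty g hg).elim) (fun i _ => isHomogeneous_zero _ _ _) (B := 1)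
    (fun p q h => vanE_id.2 (van_empty (by omega) h)) le_rfl ?_
  · intro i _
    unfold s2
    split_ifs
    · exact le_rfl
    · omega
  · rw [NVanI_sum3]
    linarith

end

end Pool.Agent.RegRed
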