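import Mathlib
import Pool.Agent.Lib.MP_724d4c_ag.NGlue
import Pool.Agent.Lib.MP_724d4c_ag.NLow
import Pool.Agent.Lib.MP_724d4c_ag.NVanI
import Pool.Agent.Lib.MP_724d4c_ag.NUpI
import Pool.Agent.Lib.MP_724d4c_ag.NLowI
import Pool.Agent.Lib.MP_724d4c_ag.NRad

/-! Row 724i-Transfer: the transfer theorem for integral schemes. -/

set_option autoImplicit false

namespace Pool.Agent.RegRed

open MvPolynomial

noncomputable section

variable {n m : ℕ} {g : ℕ → MvPolynomial (Fin n) ℂ} {d : ℕ → ℕ}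

private theorem NTransfer_sum_le : ∑ j ∈ Finset.range m, (d j : ℤ) ≤
    ∑ j ∈ Finset.range m, (2 * (d j : ℤ) + 1) :=
  Finset.sum_le_sum fun j _ => by
    have : (0 : ℤ) ≤ d j := Int.natCast_nonneg _
    linarith

private theorem NTransfer_sum_nonneg : 0 ≤ ∑ j ∈ Finset.range m, (d j : ℤ) :=
  Finset.sum_nonneg fun _ _ => Int.natCast_nonneg _

/-- `glue_up` -/
theorem II_van (hg : ∀ j, (g j).IsHomogeneous (d j)) {p : ℕ} {q : ℤ}
    (hq : 6 + ∑ j ∈ Finset.range m, (2 * (d j : ℤ) + 1) ≤ (p + 1 : ℕ) + q) :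
    Van (II n m g d) (p + 1) q := by
  have h0 := NTransfer_sum_le (m := m) (d := d)
  push_cast at hq
  refine glue_up (D := DD n m g d) (I2 := I2n n m d) (DD_hom hg) I2n_hom ?_ ?_ ?_ ?_ ?_
  · refine DD_van hg ?_
    push_cast
    linarith
  · refine I2n_van ?_
    push_cast
    linarith
  · rw [← EE_eq]
    refine EE_van hg ?_
    linarith
  · exact I2n_em
  · exact tsq_em

theorem II_reg (hg : ∀ j, (g j).IsHomogeneous (d j)) {q : ℤ}
    (hq : 6 + ∑ j ∈ Finset.range m, (2 * (d j : ℤ) + 1) ≤ q) : IsReg (II n m g d) q := by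
  have h0 := NTransfer_sum_le (m := m) (d := d)
  have h1 := NTransfer_sum_nonneg (m := m) (d := d)
  refine isReg_of_van (s := 6 + ∑ j ∈ Finset.range m, (2 * (d j : ℤ) + 1)) (by linarith) ?_ hq
  intro p c hp hc
  obtain ⟨p', rfl⟩ : ∃ p', p = p' + 1 := ⟨p - 1, by omega⟩
  exact II_van hg hc

private theorem NTransfer_pa : ∑ j ∈ Finset.range (m + 2), ((pa d j : ℤ) - 1) =
    1 + ∑ j ∈ Finset.range m, ((d j : ℤ) - 1) := by
  rw [Finset.sum_range_succ', Finset.sum_range_succ']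
  simp only [pa]
  push_cast
  ring

/-- `ext_iter` and `glue_low`: `Σ_{j < m+2} (a_j - 1) = Σ d_j - m + 1`. -/
theorem low_main (hg : ∀ j, (g j).IsHomogeneous (d j)) (hd : ∀ j, j < m → 1 ≤ d j) (q i : ℕ)
    (h : Van (Pn n m g d) (i + m + 3) ((q : ℤ) - i + 2 + ∑ j ∈ Finset.range m, ((d j : ℤ) - 1))) :
    Van (gI n m g) i ((q : ℤ) - i) := by
  refine ext_iter (a := pa d) (m + 2) ?_ ?_
  · intro j hj
    match j, hj with
    | 0, _ => exact le_rfl
    | 1, _ => exact Nat.le_succ 1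
    | j + 2, hj => exact hd j (by omega)
  · rw [NTransfer_pa]
    have e1 : (q : ℤ) - i + (1 + ∑ j ∈ Finset.range m, ((d j : ℤ) - 1)) =
        ((q : ℤ) - i + 2 + ∑ j ∈ Finset.range m, ((d j : ℤ) - 1)) - 1 := by ring
    rw [e1]
    change Van (KK n m g d) (i + (m + 2)) _
    refine glue_low (D := DD n m g d) (c := FS n m d 0) (DD_hom hg) (FS_hom 0) ?_ ?_ ?_ ?_ ?_
    · have h1 := DD_gen (n := n) (m := m) (g := g) (d := d) (j := 0) (by omega)
      have h2 := (DD n m g d).neg_mem h1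
      rw [neg_sub] at h2
      exact h2
    · exact h
    · refine DD_van hg ?_
      rw [Finset.sum_sub_distrib]
      simp only [Finset.sum_const, Finset.card_range, nsmul_eq_mul, mul_one]
      push_cast
      have : (0 : ℤ) ≤ q := Int.natCast_nonneg _
      linarith
    · exact KK_up
    · exact KK_down

theorem transfer_int (hg : ∀ j, (g j).IsHomogeneous (d j)) (hd : ∀ j, j < m → 1 ≤ d j)
    (hne : ∀ j, j < m → g j ≠ 0) (q : ℕ)
    (h : IsReg (II n m g d).radical (q + 5 + ∑ j ∈ Finset.range m, (d j : ℤ))) (i : ℕ) :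
    Van (gI n m g) i ((q : ℤ) - i) := by
  rw [II_radical hne] at h
  refine low_main hg hd q i ?_
  have h1 := NTransfer_sum_nonneg (m := m) (d := d)
  have h2 := van_of_isReg (p := i + m + 3) (by
    have : (0 : ℤ) ≤ q := Int.natCast_nonneg _
    linarith) h (by omega)
  have e1 : (q : ℤ) + 5 + ∑ j ∈ Finset.range m, (d j : ℤ) - (i + m + 3 : ℕ) =
      (q : ℤ) - i + 2 + ∑ j ∈ Finset.range m, ((d j : ℤ) - 1) := by
    rw [Finset.sum_sub_distrib]
    simp only [Finset.sum_const, Finset.card_range, nsmul_eq_mul, mul_one]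
    push_cast
    ring
  rw [e1] at h2
  exact h2

/-- The version for families indexed by `Fin m`; see `transfer_fin`. -/
theorem transfer_int_fin (n m : ℕ) (g : Fin m → MvPolynomial (Fin n) ℂ) (d : Fin m → ℕ)
    (hg : ∀ j, (g j).IsHomogeneous (d j)) (hd : ∀ j, 1 ≤ d j) (hne : ∀ j, g j ≠ 0) :
    ∃ I : Ideal (MvPolynomial (Fin (n + 2 * (m + 2))) ℂ), IsHomog I ∧ I.radical.IsPrime ∧
      (∃ v, X v ∉ I.radical) ∧
      (∀ q : ℤ, 6 + ∑ j, (2 * (d j : ℤ) + 1) ≤ q → IsReg I q) ∧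
      (∀ q : ℕ, IsReg I.radical (q + 5 + ∑ j, (d j : ℤ)) →
        ∀ i : ℕ, Van (Ideal.span (Set.range g)) i ((q : ℤ) - i)) ∧
      ∀ q : ℕ, Van I.radical (m + 3) ((q : ℤ) + 2 + ∑ j, ((d j : ℤ) - 1)) →
        Van (Ideal.span (Set.range g)) 0 q := by
  set g' : ℕ → MvPolynomial (Fin n) ℂ := fun j => if h : j < m then g ⟨j, h⟩ else 0 with hg'
  set d' : ℕ → ℕ := fun j => if h : j < m then d ⟨j, h⟩ else 0 with hd'
  have hhom : ∀ j, (g' j).IsHomogeneous (d' j) := by
    intro j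
    by_cases h : j < m
    · simp only [hg', hd', h, dif_pos]
      exact hg _
    · simp only [hg', hd', h, dif_neg, not_false_eq_true]
      exact isHomogeneous_zero _ _ _
  have hdp : ∀ j, j < m → 1 ≤ d' j := by
    intro j h
    simp only [hd', h, dif_pos]
    exact hd _
  have hne' : ∀ j, j < m → g' j ≠ 0 := by
    intro j h
    simp only [hg', h, dif_pos]
    exact hne _
  have hI : gI n m g' = Ideal.span (Set.range g) := by
    unfold gI
    congr 1
    ext p
    constructor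
    · rintro ⟨i, hi, rfl⟩
      exact ⟨⟨i, hi⟩, by simp [hg', hi]⟩
    · rintro ⟨i, rfl⟩
      exact ⟨i, i.2, by simp [hg']⟩
  have hsum : ∀ f : ℕ → ℤ, ∑ j ∈ Finset.range m, f (d' j) = ∑ j : Fin m, f (d j) := by
    intro f
    rw [← Fin.sum_univ_eq_sum_range (fun j => f (d' j))]
    refine Finset.sum_congr rfl fun j _ => ?_
    simp [hd']
  have hrad := II_radical (n := n) (m := m) (g := g') (d := d') hne'
  refine ⟨II n m g' d', II_hom hhom, ?_, ⟨pv n m 0, ?_⟩, fun q hq => II_reg hhom ?_,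
    fun q hq i => ?_, fun q hq => ?_⟩
  · rw [hrad]
    exact Pn_prime hne'
  · rw [hrad]
    exact Pn_notMem
  · have := hsum fun t => 2 * (t : ℤ) + 1
    rw [this]
    exact hq
  · rw [← hI]
    refine transfer_int hhom hdp hne' q ?_ i
    have := hsum fun t => (t : ℤ)
    rw [this]
    exact hq
  · rw [← hI]
    have h1 : Van (gI n m g') 0 ((q : ℤ) - (0 : ℕ)) := by
      refine low_main hhom hdp q 0 ?_
      have := hsum fun t => (t : ℤ) - 1
      rw [this]
      rw [hrad] at hq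
      simpa using hq
    simpa using h1

end

end Pool.Agent.RegRed
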