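import Mathlib
import Pool.Agent.Lib.MP_724d4c_ag.Cech
import Pool.Agent.Lib.MP_724d4c_ag.LocB

/-! Row 724x-KO: the Koszul differential on cochains indexed by sets `U`, and its contraction. -/

set_option autoImplicit false

namespace Pool.Agent.RegRed

open MvPolynomial

noncomputable section

variable {n : ℕ}

/-- the variable `x_v` in `Lau n` -/
def xL (v : Fin n) : Lau n := mono (Pi.single v 1)

/-- its inverse -/
def xI (v : Fin n) : Lau n := mono (-Pi.single v 1)

/-- `e_v ∧ c` -/
def ew (v : Fin n) (c : Finset (Fin n) → Lau n) (U : Finset (Fin n)) : Lau n :=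
  if v ∈ U then sgn v U • c (U.erase v) else 0

/-- The Koszul differential `e_v ↦ x_v`. -/
def kos (c : Finset (Fin n) → Lau n) (U : Finset (Fin n)) : Lau n :=
  ∑ v, xL v * kap v c U

/-- `x_v^{-1} e_v ∧ c` -/
def hot (v : Fin n) (c : Finset (Fin n) → Lau n) (U : Finset (Fin n)) : Lau n :=
  xI v * ew v c U

theorem XKos_kap_pos {v : Fin n} {c : Finset (Fin n) → Lau n} {T : Finset (Fin n)} (h : v ∈ T) :
    kap v c T = 0 := if_pos h

theorem XKos_kap_neg {v : Fin n} {c : Finset (Fin n) → Lau n} {T : Finset (Fin n)} (h : v ∉ T) :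
    kap v c T = sgn v (insert v T) • c (insert v T) := if_neg h

theorem XKos_ew_pos {v : Fin n} {c : Finset (Fin n) → Lau n} {T : Finset (Fin n)} (h : v ∈ T) :
    ew v c T = sgn v T • c (T.erase v) := if_pos h

theorem XKos_ew_neg {v : Fin n} {c : Finset (Fin n) → Lau n} {T : Finset (Fin n)} (h : v ∉ T) :
    ew v c T = 0 := if_neg h

theorem XKos_kap_add (v : Fin n) (a b : Finset (Fin n) → Lau n) (U : Finset (Fin n)) :
    kap v (fun U => a U + b U) U = kap v a U + kap v b U := by
  unfold kap
  split_ifs
  · rw [add_zero]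
  · rw [smul_add]

theorem XKos_kap_sub (v : Fin n) (a b : Finset (Fin n) → Lau n) (U : Finset (Fin n)) :
    kap v (fun U => a U - b U) U = kap v a U - kap v b U := by
  unfold kap
  split_ifs
  · rw [sub_zero]
  · rw [smul_sub]

theorem XKos_kap_mul (v : Fin n) (m : Lau n) (a : Finset (Fin n) → Lau n) (U : Finset (Fin n)) :
    kap v (fun U => m * a U) U = m * kap v a U := by
  unfold kap
  split_ifs
  · rw [mul_zero]
  · rw [mul_smul_comm]

theorem XKos_kap_sum {ι : Type} (v : Fin n) (s : Finset ι) (f : ι → Finset (Fin n) → Lau n)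
    (U : Finset (Fin n)) : kap v (fun U => ∑ i ∈ s, f i U) U = ∑ i ∈ s, kap v (f i) U := by
  unfold kap
  split_ifs
  · rw [Finset.sum_const_zero]
  · rw [Finset.smul_sum]

theorem XKos_kap_smul (v : Fin n) (m : ℂ) (a : Finset (Fin n) → Lau n) (U : Finset (Fin n)) :
    kap v (fun U => m • a U) U = m • kap v a U := by
  unfold kap
  split_ifs
  · rw [smul_zero]
  · rw [smul_comm]

theorem XKos_kap_kap (v w : Fin n) (c : Finset (Fin n) → Lau n) (U : Finset (Fin n)) :
    kap v (kap w c) U = - kap w (kap v c) U := by
  by_cases hvw : v = w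
  · subst hvw
    have h : kap v (kap v c) U = 0 := by
      by_cases h1 : v ∈ U
      · rw [XKos_kap_pos h1]
      · rw [XKos_kap_neg h1, XKos_kap_pos (Finset.mem_insert_self v U), smul_zero]
    rw [h, neg_zero]
  · by_cases hv : v ∈ U
    · have h1 : kap v (kap w c) U = 0 := XKos_kap_pos hv
      have h2 : kap w (kap v c) U = 0 := by
        by_cases h3 : w ∈ U
        · rw [XKos_kap_pos h3]
        · rw [XKos_kap_neg h3, XKos_kap_pos (Finset.mem_insert_of_mem hv), smul_zero]
      rw [h1, h2, neg_zero]
    · by_cases hw : w ∈ U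
      · have h1 : kap w (kap v c) U = 0 := XKos_kap_pos hw
        have h2 : kap v (kap w c) U = 0 := by
          rw [XKos_kap_neg hv, XKos_kap_pos (Finset.mem_insert_of_mem hw), smul_zero]
        rw [h1, h2, neg_zero]
      · have hw' : w ∉ insert v U := by
          rw [Finset.mem_insert]
          rintro (h | h)
          · exact hvw h.symm
          · exact hw h
        have hv' : v ∉ insert w U := by
          rw [Finset.mem_insert]
          rintro (h | h)
          · exact hvw h
          · exact hv h
        have hT : insert w (insert v U) = insert v (insert w U) := Finset.insert_comm _ _ _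
        have h1 : kap v (kap w c) U = (sgn v (insert v U) * sgn w (insert w (insert v U))) •
            c (insert w (insert v U)) := by
          rw [XKos_kap_neg hv, XKos_kap_neg hw', smul_smul]
        have h2 : kap w (kap v c) U = (sgn w (insert w U) * sgn v (insert v (insert w U))) •
            c (insert v (insert w U)) := by
          rw [XKos_kap_neg hw, XKos_kap_neg hv', smul_smul]
        rw [h1, h2, ← hT, ← neg_smul]
        congr 1
        have h3 := sgn_erase w v (insert w (insert v U)) (Finset.mem_insert_self _ _)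
          (Finset.mem_insert_of_mem (Finset.mem_insert_self _ _)) (Ne.symm hvw)
        have e1 : (insert w (insert v U)).erase w = insert v U := Finset.erase_insert hw'
        have e2 : (insert w (insert v U)).erase v = insert w U := by
          rw [hT]
          exact Finset.erase_insert hv'
        rw [e1, e2] at h3
        linear_combination h3

/-- `kos ∘ kos = 0`: `kap v ∘ kap w + kap w ∘ kap v = 0` (from `sgn_erase`), `kap v ∘ kap v = 0`. -/
theorem kos_kos (c : Finset (Fin n) → Lau n) (U : Finset (Fin n)) : kos (kos c) U = 0 := by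
  have h1 : kos (kos c) U = ∑ v, ∑ w, xL v * (xL w * kap v (kap w c) U) := by
    unfold kos
    refine Finset.sum_congr rfl fun v _ => ?_
    rw [XKos_kap_sum v Finset.univ (fun w U => xL w * kap w c U) U, Finset.mul_sum]
    refine Finset.sum_congr rfl fun w _ => ?_
    rw [XKos_kap_mul]
  have h2 : kos (kos c) U = - kos (kos c) U := by
    conv_lhs => rw [h1, Finset.sum_comm]
    rw [h1, ← Finset.sum_neg_distrib]
    refine Finset.sum_congr rfl fun v _ => ?_
    rw [← Finset.sum_neg_distrib]
    refine Finset.sum_congr rfl fun w _ => ?_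
    rw [XKos_kap_kap w v]
    ring
  have h3 : (2 : ℂ) • kos (kos c) U = 0 := by
    rw [two_smul]
    exact add_eq_zero_iff_eq_neg.2 h2
  exact (smul_eq_zero.1 h3).resolve_left two_ne_zero

theorem XKos_kap_ew (v w : Fin n) (c : Finset (Fin n) → Lau n) (U : Finset (Fin n)) :
    kap w (ew v c) U + ew v (kap w c) U = if w = v then c U else 0 := by
  by_cases hwv : w = v
  · subst hwv
    rw [if_pos rfl]
    by_cases hv : w ∈ U
    · rw [XKos_kap_pos hv, XKos_ew_pos hv, XKos_kap_neg (Finset.notMem_erase w U),
        Finset.insert_erase hv, smul_smul, sgn_mul_self, one_smul, zero_add]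
    · rw [XKos_kap_neg hv, XKos_ew_neg hv, XKos_ew_pos (Finset.mem_insert_self w U),
        Finset.erase_insert hv, smul_smul, sgn_mul_self, one_smul, add_zero]
  · rw [if_neg hwv]
    by_cases hw : w ∈ U
    · have h1 : kap w (ew v c) U = 0 := XKos_kap_pos hw
      have h2 : ew v (kap w c) U = 0 := by
        by_cases h3 : v ∈ U
        · rw [XKos_ew_pos h3, XKos_kap_pos (Finset.mem_erase.2 ⟨hwv, hw⟩), smul_zero]
        · rw [XKos_ew_neg h3]
      rw [h1, h2, add_zero]
    · by_cases hv : v ∈ U
      · have hv' : v ∈ insert w U := Finset.mem_insert_of_mem hv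
        have hw' : w ∉ U.erase v := fun h => hw (Finset.mem_of_mem_erase h)
        have hT : (insert w U).erase v = insert w (U.erase v) :=
          Finset.erase_insert_of_ne hwv
        have h1 : kap w (ew v c) U = (sgn w (insert w U) * sgn v (insert w U)) •
            c ((insert w U).erase v) := by
          rw [XKos_kap_neg hw, XKos_ew_pos hv', smul_smul]
        have h2 : ew v (kap w c) U = (sgn v U * sgn w ((insert w U).erase v)) •
            c ((insert w U).erase v) := by
          rw [XKos_ew_pos hv, XKos_kap_neg hw', smul_smul, hT]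
        rw [h1, h2, ← add_smul]
        have h3 := sgn_erase w v (insert w U) (Finset.mem_insert_self _ _) hv' hwv
        rw [Finset.erase_insert hw] at h3
        have q1 := sgn_mul_self v U
        have q2 := sgn_mul_self v (insert w U)
        have h4 : sgn w (insert w U) * sgn v (insert w U) +
            sgn v U * sgn w ((insert w U).erase v) = 0 := by
          linear_combination (sgn v U * sgn v (insert w U)) * h3 -
            (sgn w (insert w U) * sgn v (insert w U)) * q1 -
            (sgn v U * sgn w ((insert w U).erase v)) * q2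
        rw [h4, zero_smul]
      · have hv' : v ∉ insert w U := by
          rw [Finset.mem_insert]
          rintro (h | h)
          · exact hwv h.symm
          · exact hv h
        rw [XKos_kap_neg hw, XKos_ew_neg hv, XKos_ew_neg hv', smul_zero, add_zero]

theorem XKos_xI_xL (v : Fin n) : xI v * xL v = (1 : Lau n) := by
  unfold xI xL
  rw [mono_mul_mono, neg_add_cancel]
  exact LA_mono_zero

theorem XKos_ew_sum {ι : Type} (v : Fin n) (s : Finset ι) (f : ι → Finset (Fin n) → Lau n)
    (U : Finset (Fin n)) : ew v (fun U => ∑ i ∈ s, f i U) U = ∑ i ∈ s, ew v (f i) U := by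
  unfold ew
  split_ifs
  · rw [Finset.smul_sum]
  · rw [Finset.sum_const_zero]

theorem XKos_ew_mul (v : Fin n) (m : Lau n) (a : Finset (Fin n) → Lau n) (U : Finset (Fin n)) :
    ew v (fun U => m * a U) U = m * ew v a U := by
  unfold ew
  split_ifs
  · rw [mul_smul_comm]
  · rw [mul_zero]

/-- `kos (hot v c) + hot v (kos c) = c`: `kap w ∘ ew v + ew v ∘ kap w = 0` for `w ≠ v` and
`kap v ∘ ew v + ew v ∘ kap v = id`. -/
theorem kos_hot (v : Fin n) (c : Finset (Fin n) → Lau n) (U : Finset (Fin n)) :
    kos (hot v c) U + hot v (kos c) U = c U := by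
  have h1 : kos (hot v c) U = ∑ w, xL w * (xI v * kap w (ew v c) U) := by
    unfold kos
    refine Finset.sum_congr rfl fun w _ => ?_
    have : hot v c = fun U => xI v * ew v c U := rfl
    rw [this, XKos_kap_mul]
  have h2 : hot v (kos c) U = ∑ w, xL w * (xI v * ew v (kap w c) U) := by
    unfold hot
    have : kos c = fun U => ∑ w, xL w * kap w c U := rfl
    rw [this, XKos_ew_sum v Finset.univ (fun w U => xL w * kap w c U) U, Finset.mul_sum]
    refine Finset.sum_congr rfl fun w _ => ?_
    rw [XKos_ew_mul]
    ring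
  rw [h1, h2, ← Finset.sum_add_distrib]
  have h3 : ∀ w : Fin n, xL w * (xI v * kap w (ew v c) U) + xL w * (xI v * ew v (kap w c) U) =
      if w = v then c U else 0 := by
    intro w
    have h4 : xL w * (xI v * kap w (ew v c) U) + xL w * (xI v * ew v (kap w c) U) =
        (xI v * xL w) * (kap w (ew v c) U + ew v (kap w c) U) := by ring
    rw [h4, XKos_kap_ew]
    split_ifs with h
    · rw [h, XKos_xI_xL, one_mul]
    · rw [mul_zero]
  rw [Finset.sum_congr rfl fun w _ => h3 w, Finset.sum_ite_eq', if_pos (Finset.mem_univ v)]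

/-- Only the values of `c` on the sets with one more element matter. -/
theorem kos_congr {a b : Finset (Fin n) → Lau n} {U : Finset (Fin n)}
    (h : ∀ U' : Finset (Fin n), U'.card = U.card + 1 → a U' = b U') : kos a U = kos b U := by
  unfold kos
  refine Finset.sum_congr rfl fun v _ => ?_
  unfold kap
  split_ifs with hv
  · rfl
  · rw [h _ (Finset.card_insert_of_notMem hv)]

theorem kos_add (a b : Finset (Fin n) → Lau n) (U : Finset (Fin n)) :
    kos (fun U => a U + b U) U = kos a U + kos b U := by
  unfold kos
  rw [← Finset.sum_add_distrib]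
  refine Finset.sum_congr rfl fun v _ => ?_
  rw [XKos_kap_add, mul_add]

theorem kos_sub (a b : Finset (Fin n) → Lau n) (U : Finset (Fin n)) :
    kos (fun U => a U - b U) U = kos a U - kos b U := by
  unfold kos
  rw [← Finset.sum_sub_distrib]
  refine Finset.sum_congr rfl fun v _ => ?_
  rw [XKos_kap_sub, mul_sub]

/-- The Koszul differential (acting on `U`) commutes with the Cech differential (acting on `T`). -/
theorem kos_delta (z : Finset (Fin n) → Finset (Fin n) → Lau n) (T U : Finset (Fin n)) :
    kos (fun U' => delta (fun T' => z T' U') T) U = delta (fun T' => kos (z T') U) T := by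
  have h1 : kos (fun U' => delta (fun T' => z T' U') T) U =
      ∑ v, ∑ i ∈ T, xL v * (sgn i T • kap v (z (T.erase i)) U) := by
    unfold kos
    refine Finset.sum_congr rfl fun v _ => ?_
    have : (fun U' => delta (fun T' => z T' U') T) =
        fun U' => ∑ i ∈ T, sgn i T • z (T.erase i) U' := rfl
    rw [this, XKos_kap_sum v T (fun i U' => sgn i T • z (T.erase i) U') U, Finset.mul_sum]
    refine Finset.sum_congr rfl fun i _ => ?_
    rw [XKos_kap_smul]
  have h2 : delta (fun T' => kos (z T') U) T =
      ∑ i ∈ T, ∑ v, xL v * (sgn i T • kap v (z (T.erase i)) U) := by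
    unfold delta kos
    refine Finset.sum_congr rfl fun i _ => ?_
    rw [Finset.smul_sum]
    refine Finset.sum_congr rfl fun v _ => ?_
    rw [mul_smul_comm]
  rw [h1, h2, Finset.sum_comm]

theorem kos_mem {J : Ideal (MvPolynomial (Fin n) ℂ)} {T : Finset (Fin n)} {d : ℤ}
    {c : Finset (Fin n) → Lau n} {U : Finset (Fin n)}
    (h : ∀ U' : Finset (Fin n), U'.card = U.card + 1 → c U' ∈ Loc J T d) :
    kos c U ∈ Loc J T (d + 1) := by
  unfold kos
  refine Loc_sum _ _ fun v _ => ?_
  have h1 : kap v c U ∈ Loc J T d := by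
    unfold kap
    split_ifs with hv
    · exact Loc_zero J T d
    · exact Loc_smul _ (h _ (Finset.card_insert_of_notMem hv))
  have h2 := Loc_mul (isHomogeneous_X ℂ v) h1
  have h3 : incl n (X v) = xL v := by
    unfold incl xL
    rw [aeval_X]
  rw [h3] at h2
  exact_mod_cast h2

/-- `x_v^{-1}` acts on `Loc J T` for `v ∈ T`. -/
theorem hot_mem {J : Ideal (MvPolynomial (Fin n) ℂ)} {T : Finset (Fin n)} {d : ℤ} {v : Fin n}
    (hv : v ∈ T) {c : Finset (Fin n) → Lau n} {U : Finset (Fin n)}
    (h : ∀ U' : Finset (Fin n), U'.card + 1 = U.card → c U' ∈ Loc J T d) :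
    hot v c U ∈ Loc J T (d - 1) := by
  have h1 : ew v c U ∈ Loc J T d := by
    unfold ew
    split_ifs with hvU
    · exact Loc_smul _ (h _ (Finset.card_erase_add_one hvU))
    · exact Loc_zero J T d
  unfold hot
  obtain ⟨h2, N, g, hg, e⟩ := LA_mem.mp h1
  obtain ⟨q, hq⟩ := LA_incl_ex (T.erase v) 1
  refine LA_mem.mpr ⟨fun e' he' => ?_, N + 1, q * g, J.mul_mem_left q hg, ?_⟩
  · have h3 := mono_mul_coeff (-Pi.single v 1) (e' + Pi.single v 1) (ew v c U)
    have h4 : (-Pi.single v 1 + (e' + Pi.single v 1) : Fin n → ℤ) = e' := by abel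
    rw [h4] at h3
    have h5 : (ew v c U).coeff (e' + Pi.single v 1) ≠ 0 := by
      rw [← h3]
      exact he'
    have h6 := h2 _ h5
    have h7 : ∑ i, (e' + Pi.single v 1 : Fin n → ℤ) i = (∑ i, e' i) + 1 := by
      simp only [Pi.add_apply]
      rw [Finset.sum_add_distrib, Finset.sum_pi_single', if_pos (Finset.mem_univ v)]
    rw [h7] at h6
    linarith
  · have h8 : (LA_ex T 1 : Fin n → ℤ) + -Pi.single v 1 = LA_ex (T.erase v) 1 := by
      funext i
      rw [Pi.add_apply, Pi.neg_apply]
      by_cases hi : i = v
      · subst hi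
        simp [LA_ex, hv]
      · by_cases hiT : i ∈ T
        · simp [LA_ex, hi, hiT]
        · simp [LA_ex, hi, hiT]
    unfold xI
    rw [LA_ex_add, LA_mono_add, map_mul, hq, ← e, ← h8, LA_mono_add]
    ring

end

end Pool.Agent.RegRed
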