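import Mathlib
import Pool.Agent.Lib.MP_724d4c_ag.Step
import Pool.Agent.Lib.MP_724d4c_ag.XKos

/-! Row 724x-MU: an `m`-regular scheme is `(m+1)`-regular (Mumford, Castelnuovo). -/

set_option autoImplicit false

namespace Pool.Agent.RegRed

open MvPolynomial

noncomputable section

variable {n : ℕ}

/-- The statement proved by descending induction on `j` (trivial for `i + j + 1 > n`). For `j = 0` and
`y T U = c T` it is `CohVanish J i (m + 1 - i)`. -/
def MumQ (J : Ideal (MvPolynomial (Fin n) ℂ)) (m : ℤ) (i j : ℕ) : Prop :=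
  ∀ y : Finset (Fin n) → Finset (Fin n) → Lau n,
    (∀ T U, T.card = i + j + 1 → U.card = j → y T U ∈ Loc J T (m + 1 - i - j)) →
    (∀ T U, T.card = i + j + 2 → U.card = j → delta (fun T' => y T' U) T = 0) →
    (∀ T U, T.card = i + j + 1 → U.card + 1 = j → kos (y T) U = 0) →
    ∃ w : Finset (Fin n) → Finset (Fin n) → Lau n,
      (∀ T U, T.card = i + j → U.card = j → w T U ∈ Loc J T (m + 1 - i - j)) ∧
      (∀ T U, T.card = i + j + 1 → U.card = j → delta (fun T' => w T' U) T = y T U) ∧
      (∀ T U, T.card = i + j → U.card + 1 = j → kos (w T) U = 0)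

/-- Proof: `z T = hot (min T) (y T)`, so `kos z = y` (as `kos y = 0`); `δ z` satisfies the hypotheses of
`MumQ J m i (j+1)` (`kos δ z = δ kos z = δ y = 0`), so `δ w' = δ z` with `kos w' = 0`; `z - w'` is a cocycle with
values in `Loc J T (m - (i+j))`, `T.card = i + j + 1`, so `z - w' = δ b` by `CohVanish J (i+j) (m - (i+j))`
(for each `U`); `w = kos b`: `δ w = kos δ b = kos z - kos w' = y`, `kos w = 0` (`kos_kos`). -/
theorem mumQ_step {J : Ideal (MvPolynomial (Fin n) ℂ)} {m : ℤ} (h : IsReg J m) {i j : ℕ}
    (hi : 1 ≤ i) (hj : MumQ J m i (j + 1)) : MumQ J m i j := by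
  classical
  intro y hy1 hy2 hy3
  -- the Koszul primitive of `y`
  let z : Finset (Fin n) → Finset (Fin n) → Lau n := fun T U =>
    if hT : T.Nonempty then hot (T.min' hT) (y T) U else 0
  have hne : ∀ T : Finset (Fin n), T.card = i + j + 1 → T.Nonempty := fun T hT =>
    Finset.card_pos.1 (by omega)
  have hz : ∀ (T U : Finset (Fin n)) (hT : T.card = i + j + 1),
      z T U = hot (T.min' (hne T hT)) (y T) U := by
    intro T U hT
    simp only [z]
    rw [dif_pos (hne T hT)]
  have hz1 : ∀ T U : Finset (Fin n), T.card = i + j + 1 → U.card = j + 1 →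
      z T U ∈ Loc J T (m - (i + j)) := by
    intro T U hT hU
    rw [hz T U hT]
    have h1 := hot_mem (J := J) (T := T) (d := m + 1 - i - j) (v := T.min' (hne T hT))
      (Finset.min'_mem _ _) (c := y T) (U := U) (fun U' hU' => hy1 T U' hT (by omega))
    have h2 : m + 1 - (i : ℤ) - j - 1 = m - (i + j) := by ring
    rwa [h2] at h1
  have hz2 : ∀ T U : Finset (Fin n), T.card = i + j + 1 → U.card = j → kos (z T) U = y T U := by
    intro T U hT hU
    have h1 := kos_hot (T.min' (hne T hT)) (y T) U
    have h2 : hot (T.min' (hne T hT)) (kos (y T)) U = 0 := by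
      unfold hot ew
      by_cases hv : T.min' (hne T hT) ∈ U
      · rw [if_pos hv, hy3 T _ hT (by rw [Finset.card_erase_add_one hv, hU]), smul_zero, mul_zero]
      · rw [if_neg hv, mul_zero]
    rw [h2, add_zero] at h1
    rw [← h1]
    exact kos_congr fun U' _ => hz T U' hT
  -- its coboundary
  obtain ⟨w', h1, h2, h3⟩ := hj (fun T U => delta (fun T' => z T' U) T)
    (by
      intro T U hT hU
      have h1 := delta_mem (J := J) (p := i + j + 1) (d := m - (i + j)) (fun T' => z T' U)
        (fun T' hT' => hz1 T' U hT' hU) T (by omega)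
      have h2 : m + 1 - (i : ℤ) - ((j + 1 : ℕ) : ℤ) = m - (i + j) := by push_cast; ring
      rw [h2]
      exact h1)
    (by
      intro T U _ _
      exact delta_delta (fun T' => z T' U) T)
    (by
      intro T U hT hU
      have h1 := kos_delta z T U
      rw [h1, ← hy2 T U (by omega) (by omega)]
      exact ST_delta_congr (p := i + j + 1) (fun T' hT' => hz2 T' U hT' (by omega)) (by omega))
  have h0 : m + 1 - (i : ℤ) - ((j + 1 : ℕ) : ℤ) = m - (i + j) := by push_cast; ring
  -- the difference is a cocycle
  have hb : ∀ U : Finset (Fin n), ∃ b : Finset (Fin n) → Lau n, U.card = j + 1 →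
      (∀ T, T.card = i + j → b T ∈ Loc J T (m - (i + j))) ∧
      ∀ T, T.card = i + j + 1 → delta b T = z T U - w' T U := by
    intro U
    by_cases hU : U.card = j + 1
    · have hv := h (i + j) (by omega) (fun T => z T U - w' T U)
        (by
          intro T hT
          refine Loc_sub ?_ ?_
          · have := hz1 T U hT hU
            push_cast
            exact this
          · have := h1 T U (by omega) hU
            rw [h0] at this
            push_cast
            exact this)
        (by
          intro T hT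
          rw [ST_delta_sub, h2 T U (by omega) hU, sub_self])
      obtain ⟨b, hb1, hb2⟩ := hv
      refine ⟨b, fun _ => ⟨fun T hT => ?_, hb2⟩⟩
      have := hb1 T hT
      push_cast at this
      exact this
    · exact ⟨fun _ => 0, fun h => absurd h hU⟩
  choose b hb using hb
  refine ⟨fun T => kos (fun U => b U T), ?_, ?_, ?_⟩
  · intro T U hT hU
    have h4 := kos_mem (J := J) (T := T) (d := m - (i + j)) (c := fun U => b U T) (U := U)
      (fun U' hU' => (hb U' (by omega)).1 T hT)
    have h5 : m - ((i : ℤ) + j) + 1 = m + 1 - i - j := by ring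
    rwa [h5] at h4
  · intro T U hT hU
    have h4 := kos_delta (fun T U => b U T) T U
    rw [← h4]
    have h5 : kos (fun U' => delta (fun T' => b U' T') T) U = kos (fun U' => z T U' - w' T U') U :=
      kos_congr fun U' hU' => (hb U' (by omega)).2 T hT
    rw [h5, kos_sub, hz2 T U hT hU, h3 T U (by omega) (by omega), sub_zero]
  · intro T U _ _
    exact kos_kos (fun U => b U T) U

private theorem MU_mumQ {J : Ideal (MvPolynomial (Fin n) ℂ)} {m : ℤ} (h : IsReg J m) {i : ℕ}
    (hi : 1 ≤ i) : ∀ k j : ℕ, n ≤ i + j + k → MumQ J m i j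
  | 0, j, hk => by
      intro y _ _ _
      refine ⟨fun _ _ => 0, fun T U _ _ => Loc_zero _ _ _, fun T U hT _ => ?_, fun T U _ _ => ?_⟩
      · exfalso
        have := Finset.card_le_univ T
        rw [Fintype.card_fin] at this
        omega
      · simp [kos, kap]
  | k + 1, j, hk => mumQ_step h hi (MU_mumQ h hi k (j + 1) (by omega))

private theorem MU_succ {J : Ideal (MvPolynomial (Fin n) ℂ)} {m : ℤ} (h : IsReg J m) :
    IsReg J (m + 1) := by
  intro i hi c hc hδ
  obtain ⟨w, h1, h2, _⟩ := MU_mumQ h hi n 0 (by omega) (fun T _ => c T)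
    (by
      intro T U hT _
      have := hc T (by omega)
      simpa using this)
    (by
      intro T U hT _
      exact hδ T (by omega))
    (by
      intro T U _ hU
      omega)
  refine ⟨fun T => w T ∅, fun T hT => ?_, fun T hT => h2 T ∅ (by omega) rfl⟩
  have := h1 T ∅ (by omega) rfl
  simpa using this

theorem isReg_mono {J : Ideal (MvPolynomial (Fin n) ℂ)} {m m' : ℤ} (h : IsReg J m)
    (hm : m ≤ m') : IsReg J m' := by
  obtain ⟨k, rfl⟩ := Int.le.dest hm
  clear hm
  induction k with
  | zero => simpa using h
  | succ k ih =>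
      have := MU_succ ih
      rwa [add_assoc, ← Nat.cast_succ] at this

end

end Pool.Agent.RegRed
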