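import Mathlib
import Pool.Agent.Lib.MP_724d4c_ag.NTransfer
import Pool.Agent.Lib.MP_724d4c_ag.NMM
import Pool.Agent.Lib.MP_724d4c_ag.XMum

/-! Row 724i-Final: the theorem (compare XFinal.lean). -/

set_option autoImplicit false

namespace Pool.Agent.RegRed

open MvPolynomial

noncomputable section

theorem partA_int (n m : ℕ) (g : Fin m → MvPolynomial (Fin n) ℂ) (d : Fin m → ℕ)
    (hg : ∀ j, (g j).IsHomogeneous (d j)) (hd : ∀ j, 1 ≤ d j) (hne : ∀ j, g j ≠ 0) :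
    ∃ I : Ideal (MvPolynomial (Fin (n + 2 * m + 4)) ℂ), IsHomog I ∧ I.radical.IsPrime ∧
      (∃ v, X v ∉ I.radical) ∧
      (∀ q : ℤ, 6 + ∑ j, (2 * (d j : ℤ) + 1) ≤ q → IsReg I q) ∧
      ∀ q : ℕ, IsReg I.radical (q + 5 + ∑ j, (d j : ℤ)) →
        IsReg (Ideal.span (Set.range g)) q ∧
        ∀ p : MvPolynomial (Fin n) ℂ, p.IsHomogeneous q →
          (∀ v, ∃ N : ℕ, X v ^ N * p ∈ Ideal.span (Set.range g)) →
          p ∈ Ideal.span (Set.range g) := by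
  obtain ⟨I, h1, hp1, hv1, h2, h3, _⟩ := transfer_int_fin n m g d hg hd hne
  have hN : n + 2 * m + 4 = n + 2 * (m + 2) := by ring
  rw [hN]
  refine ⟨I, h1, hp1, hv1, h2, fun q hq => ⟨?_, fun p hp hs => ?_⟩⟩
  · exact isReg_of_van_all (by positivity) fun i _ => h3 q hq i
  · refine sat_of_van (q := q) ?_ p hp hs
    simpa using h3 q hq 0

theorem partB_int (k d : ℕ) (hk : 1 ≤ k) (hd : 2 ≤ d) :
    ∃ I : Ideal (MvPolynomial (Fin (40 * k + 24)) ℂ), IsHomog I ∧ I.radical.IsPrime ∧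
      (∃ v, X v ∉ I.radical) ∧
      (∀ q : ℤ, 8 * (d : ℤ) + 182 * k ^ 2 ≤ q → IsReg I q) ∧
      ∀ q : ℤ, q ≤ (d : ℤ) ^ 2 ^ k → ¬ IsReg I.radical q := by
  obtain ⟨g, D, hg, hne, hpos, hD, hw⟩ := mm_exists' k d hk
  obtain ⟨I, h1, hp1, hv1, h2, h3⟩ := partA_int (8 * k + 4) (16 * k + 8) g D hg hpos hne
  have hN : 40 * k + 24 = 8 * k + 4 + 2 * (16 * k + 8) + 4 := by ring
  rw [hN]
  have hD' : (∑ j, (D j : ℤ)) ≤ 4 * (d + 2) + 8 * k * (k + 3) + (8 * k + 4) * (k + 2) := by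
    exact_mod_cast hD
  have hk' : (1 : ℤ) ≤ k := by exact_mod_cast hk
  refine ⟨I, h1, hp1, hv1, fun q hq => h2 q ?_, fun q hq hr => ?_⟩
  · have e1 : ∑ j : Fin (16 * k + 8), (2 * (D j : ℤ) + 1) = 2 * ∑ j, (D j : ℤ) + (16 * k + 8) := by
      rw [Finset.sum_add_distrib, ← Finset.mul_sum]
      simp
    rw [e1]
    nlinarith
  · have hd' : (2 : ℤ) ≤ d := by exact_mod_cast hd
    have he : 1 ≤ eM d k := by
      rw [eM_eq]
      exact Nat.one_le_pow _ _ (by omega)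
    obtain ⟨p, hp, hpn, hpt⟩ := hw (eM d k - 1) (by omega)
    refine hpn ((h3 (k + 1 + (eM d k - 1)) (isReg_mono hr ?_)).2 p hp hpt)
    have e2 : (d : ℤ) ^ 2 ^ k = (eM d k : ℤ) := by
      rw [eM_eq]
      push_cast
      rfl
    have e3 : ((k + 1 + (eM d k - 1) : ℕ) : ℤ) = k + (eM d k : ℤ) := by
      omega
    have e4 : (0 : ℤ) ≤ ∑ j, (D j : ℤ) := Finset.sum_nonneg fun _ _ => by positivity
    rw [e3]
    linarith

/-- A range of degrees with nonvanishing cohomology in a fixed cohomological degree (for Veronese transforms). -/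
theorem partC_int (k d : ℕ) (hk : 1 ≤ k) (hd : 2 ≤ d) :
    ∃ (I : Ideal (MvPolynomial (Fin (40 * k + 24)) ℂ)) (s : ℤ), IsHomog I ∧ I.radical.IsPrime ∧
      (∃ v, X v ∉ I.radical) ∧
      (∀ q : ℤ, 8 * (d : ℤ) + 182 * k ^ 2 ≤ q → IsReg I q) ∧ 0 ≤ s ∧ s ≤ 4 * (d : ℤ) + 60 * k ^ 2 ∧
      ∀ q : ℤ, s + k + 1 ≤ q → q ≤ s + k + (d : ℤ) ^ 2 ^ k → ¬ Van I.radical (16 * k + 11) q := by
  obtain ⟨g, D, hg, hne, hpos, hD, hw⟩ := mm_exists' k d hk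
  obtain ⟨I, h1, hp1, hv1, h2, _, h4⟩ := transfer_int_fin (8 * k + 4) (16 * k + 8) g D hg hpos hne
  have hN : 40 * k + 24 = 8 * k + 4 + 2 * (16 * k + 8 + 2) := by ring
  rw [hN]
  have hD' : (∑ j, (D j : ℤ)) ≤ 4 * (d + 2) + 8 * k * (k + 3) + (8 * k + 4) * (k + 2) := by
    exact_mod_cast hD
  have hk' : (1 : ℤ) ≤ k := by exact_mod_cast hk
  have e0 : ∑ j : Fin (16 * k + 8), ((D j : ℤ) - 1) = ∑ j, (D j : ℤ) - (16 * k + 8) := by
    rw [Finset.sum_sub_distrib]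
    simp
  refine ⟨I, 2 + ∑ j, ((D j : ℤ) - 1), h1, hp1, hv1, fun q hq => h2 q ?_, ?_, ?_, fun q hq1 hq2 hv => ?_⟩
  · have e1 : ∑ j : Fin (16 * k + 8), (2 * (D j : ℤ) + 1) = 2 * ∑ j, (D j : ℤ) + (16 * k + 8) := by
      rw [Finset.sum_add_distrib, ← Finset.mul_sum]
      simp
    rw [e1]
    nlinarith
  · have e1 : (0 : ℤ) ≤ ∑ j, ((D j : ℤ) - 1) := Finset.sum_nonneg fun j _ => by
      have : (1 : ℤ) ≤ D j := by exact_mod_cast hpos j
      linarith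
    linarith
  · rw [e0]
    nlinarith
  · have e2 : (d : ℤ) ^ 2 ^ k = (eM d k : ℤ) := by
      rw [eM_eq]
      push_cast
      rfl
    rw [e2] at hq2
    obtain ⟨w, hw'⟩ := Int.le.dest (show 2 + ∑ j, ((D j : ℤ) - 1) + k + 1 ≤ q from hq1)
    have hwlt : w < eM d k := by
      have : (w : ℤ) < eM d k := by linarith
      exact_mod_cast this
    obtain ⟨p, hp, hpn, hpt⟩ := hw w hwlt
    refine hpn (sat_of_van (q := k + 1 + w) (h4 (k + 1 + w) ?_) p hp hpt)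
    have e3 : (((k + 1 + w : ℕ) : ℤ) + 2 + ∑ j, ((D j : ℤ) - 1)) = q := by
      rw [← hw']
      push_cast
      ring
    rw [e3]
    exact hv

end

end Pool.Agent.RegRed
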