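import Mathlib
import Pool.Agent.Lib.MP_724d4c_ag.Step

/-! Veronese, part A: enlarging a covering does not change the vanishing of Cech cohomology. -/

set_option autoImplicit false

namespace Pool.Agent.RegRed

noncomputable section

variable {M : ℕ} {L : Type} [AddCommGroup L] [Module ℂ L]

/-- Vanishing in degree `p - 1` of the augmented Cech cohomology of `P / Q` for the members of `B`. -/
def VanOn (P Q : Finset (Fin M) → Submodule ℂ L) (B : Finset (Fin M)) (p : ℕ) : Prop :=
  ∀ g : Finset (Fin M) → L, (∀ T, T ⊆ B → T.card = p → g T ∈ P T) →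
    (∀ T, T ⊆ B → T.card = p + 1 → delta g T ∈ Q T) →
    ∃ h : Finset (Fin M) → L, (∀ T, T ⊆ B → T.card + 1 = p → h T ∈ P T) ∧
      ∀ T, T ⊆ B → T.card = p → g T - delta h T ∈ Q T

/-- Adding the open set `j`, contained in the open set `i`. -/
theorem vanOn_insert {P Q : Finset (Fin M) → Submodule ℂ L} (hP : Monotone P) (hQ : Monotone Q)
    {B : Finset (Fin M)} {i j : Fin M} (hi : i ∈ B) (hj : j ∉ B)
    (H1 : ∀ T, T ⊆ insert j B → j ∈ T → ∀ x ∈ P (insert i T), ∃ y ∈ P T, x - y ∈ Q (insert i T))
    (H2 : ∀ T, T ⊆ insert j B → j ∈ T → ∀ x ∈ P T, x ∈ Q (insert i T) → x ∈ Q T)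
    {p : ℕ} (h : VanOn P Q B p) : VanOn P Q (insert j B) p := by
  classical
  intro g hg hδ
  have hBB : B ⊆ insert j B := Finset.subset_insert j B
  obtain ⟨h0, h0P, h0Q⟩ := h g (fun T hT => hg T (hT.trans hBB)) (fun T hT => hδ T (hT.trans hBB))
  set h0' : Finset (Fin M) → L := fun T => if T ⊆ B then h0 T else 0 with hh0'
  set g1 : Finset (Fin M) → L := fun T => g T - delta h0' T with hg1
  have h0'P : ∀ T, T.card + 1 = p → h0' T ∈ P T := by
    intro T hc
    simp only [hh0']
    split_ifs with h1
    · exact h0P T h1 hc
    · exact Submodule.zero_mem _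
  have hdP : ∀ (f : Finset (Fin M) → L) (T : Finset (Fin M)), T ⊆ insert j B →
      (∀ T', T' ⊆ insert j B → T'.card + 1 = p → f T' ∈ P T') → T.card = p → delta f T ∈ P T := by
    intro f T hTB hf hT
    refine Submodule.sum_mem _ fun a ha => Submodule.smul_mem _ _ ?_
    refine hP (Finset.erase_subset a T) (hf _ ((Finset.erase_subset a T).trans hTB) ?_)
    rw [Finset.card_erase_add_one ha, hT]
  have g1P : ∀ T, T ⊆ insert j B → T.card = p → g1 T ∈ P T := fun T hTB hT =>
    Submodule.sub_mem _ (hg T hTB hT) (hdP h0' T hTB (fun T' _ => h0'P T') hT)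
  have g1Q : ∀ T, T ⊆ B → T.card = p → g1 T ∈ Q T := by
    intro T hTB hT
    have e : delta h0' T = delta h0 T := by
      refine Finset.sum_congr rfl fun a _ => ?_
      simp only [hh0']
      rw [if_pos ((Finset.erase_subset a T).trans hTB)]
    simp only [hg1]
    rw [e]
    exact h0Q T hTB hT
  have g1δ : ∀ T, T ⊆ insert j B → T.card = p + 1 → delta g1 T ∈ Q T := by
    intro T hTB hT
    simp only [hg1]
    rw [ST_delta_sub, delta_delta, sub_zero]
    exact hδ T hTB hT
  have hch : ∀ T : Finset (Fin M), ∃ y : L, (j ∈ T → T ⊆ insert j B → T.card + 1 = p →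
      y ∈ P T ∧ kap i g1 T - y ∈ Q (insert i T)) ∧ (j ∉ T → y = 0) := by
    intro T
    by_cases hjT : j ∈ T
    · by_cases hc : T ⊆ insert j B ∧ T.card + 1 = p
      · by_cases hiT : i ∈ T
        · refine ⟨0, fun _ _ _ => ⟨Submodule.zero_mem _, ?_⟩, fun h => absurd hjT h⟩
          unfold kap
          rw [if_pos hiT, sub_zero]
          exact Submodule.zero_mem _
        · have h1 : kap i g1 T ∈ P (insert i T) := by
            unfold kap
            rw [if_neg hiT]
            refine Submodule.smul_mem _ _ (g1P _ ?_ ?_)
            · exact Finset.insert_subset (hBB hi) hc.1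
            · rw [Finset.card_insert_of_notMem hiT, hc.2]
          obtain ⟨y, hy, hy2⟩ := H1 T hc.1 hjT _ h1
          exact ⟨y, fun _ _ _ => ⟨hy, hy2⟩, fun h => absurd hjT h⟩
      · exact ⟨0, fun _ h1 h2 => absurd ⟨h1, h2⟩ hc, fun h => absurd hjT h⟩
    · exact ⟨0, fun h => absurd h hjT, fun _ => rfl⟩
  choose h1 h1a h1b using hch
  refine ⟨fun T => h0' T + h1 T, ?_, ?_⟩
  · intro T hTB hT
    refine Submodule.add_mem _ (h0'P T hT) ?_
    by_cases hjT : j ∈ T
    · exact (h1a T hjT hTB hT).1
    · rw [h1b T hjT]
      exact Submodule.zero_mem _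
  · intro T hTB hT
    rw [ST_delta_add, ← sub_sub]
    change g1 T - delta h1 T ∈ Q T
    by_cases hjT : j ∈ T
    · refine H2 T hTB hjT _ (Submodule.sub_mem _ (g1P T hTB hT) (hdP h1 T hTB ?_ hT)) ?_
      · intro T' hT'B hT'
        by_cases hjT' : j ∈ T'
        · exact (h1a T' hjT' hT'B hT').1
        · rw [h1b T' hjT']
          exact Submodule.zero_mem _
      · have e1 : g1 T - delta h1 T = kap i (delta g1) T +
            delta (fun T' => kap i g1 T' - h1 T') T := by
          rw [ST_delta_sub]
          conv_lhs => rw [← delta_kap i g1 T]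
          abel
        rw [e1]
        refine Submodule.add_mem _ ?_ ?_
        · unfold kap
          split_ifs with hiT
          · exact Submodule.zero_mem _
          · refine Submodule.smul_mem _ _ (g1δ _ ?_ ?_)
            · exact Finset.insert_subset (hBB hi) hTB
            · rw [Finset.card_insert_of_notMem hiT, hT]
        · refine Submodule.sum_mem _ fun a ha => Submodule.smul_mem _ _ ?_
          have hcard : (T.erase a).card + 1 = p := by rw [Finset.card_erase_add_one ha, hT]
          change kap i g1 (T.erase a) - h1 (T.erase a) ∈ Q (insert i T)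
          by_cases haj : a = j
          · subst haj
            rw [h1b _ (Finset.notMem_erase a T), sub_zero]
            unfold kap
            split_ifs with hiT
            · exact Submodule.zero_mem _
            · have hsub : insert i (T.erase a) ⊆ B := by
                refine Finset.insert_subset hi ?_
                intro x hx
                obtain ⟨hxa, hxT⟩ := Finset.mem_erase.1 hx
                exact (Finset.mem_insert.1 (hTB hxT)).resolve_left hxa
              refine Submodule.smul_mem _ _ (hQ (Finset.insert_subset_insert i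
                (Finset.erase_subset a T)) (g1Q _ hsub ?_))
              rw [Finset.card_insert_of_notMem hiT, hcard]
          · refine hQ (Finset.insert_subset_insert i (Finset.erase_subset a T)) ?_
            exact (h1a _ (Finset.mem_erase.2 ⟨Ne.symm haj, hjT⟩)
              ((Finset.erase_subset a T).trans hTB) hcard).2
    · have e2 : delta h1 T = 0 := by
        refine Finset.sum_eq_zero fun a _ => ?_
        rw [h1b _ (fun h => hjT (Finset.mem_of_mem_erase h)), smul_zero]
      rw [e2, sub_zero]
      refine g1Q T ?_ hT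
      intro x hx
      refine (Finset.mem_insert.1 (hTB hx)).resolve_left ?_
      rintro rfl
      exact hjT hx

end

end Pool.Agent.RegRed
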