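import Mathlib
import Pool.Agent.Lib.MP_724d4c_ag.VerA

/-! Veronese, part B: the Laurent rings. -/

set_option autoImplicit false

namespace Pool.Agent.RegRed

open MvPolynomial

noncomputable section

variable {n M : ℕ}

/-- `z_j ↦ x^{α_j}` -/
def verP (α : Fin M → Fin n → ℕ) : MvPolynomial (Fin M) ℂ →ₐ[ℂ] MvPolynomial (Fin n) ℂ :=
  aeval fun j => monomial (Finsupp.equivFunOnFinite.symm (α j)) 1

/-- The map on exponents. -/
def verE (α : Fin M → Fin n → ℕ) : (Fin M → ℤ) →+ (Fin n → ℤ) where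
  toFun e i := ∑ j, e j * (α j i : ℤ)
  map_zero' := by funext i; simp
  map_add' a b := by funext i; simp [add_mul, Finset.sum_add_distrib]

theorem verE_apply (α : Fin M → Fin n → ℕ) (e : Fin M → ℤ) (i : Fin n) :
    verE α e i = ∑ j, e j * (α j i : ℤ) := rfl

/-- The map of Laurent rings. -/
def verL (α : Fin M → Fin n → ℕ) : Lau M →ₐ[ℂ] Lau n :=
  AddMonoidAlgebra.mapDomainAlgHom ℂ ℂ (verE α)

theorem verL_single (α : Fin M → Fin n → ℕ) (e : Fin M → ℤ) (c : ℂ) :
    verL α (AddMonoidAlgebra.single e c) = AddMonoidAlgebra.single (verE α e) c := by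
  simp [verL]

theorem verL_mono (α : Fin M → Fin n → ℕ) (e : Fin M → ℤ) :
    verL α (mono e) = mono (verE α e) := verL_single α e 1

theorem verL_incl (α : Fin M → Fin n → ℕ) (f : MvPolynomial (Fin M) ℂ) :
    verL α (incl M f) = incl n (verP α f) := by
  have h : (verL α).comp (incl M) = (incl n).comp (verP α) := by
    refine MvPolynomial.algHom_ext fun j => ?_
    rw [AlgHom.comp_apply, AlgHom.comp_apply]
    have h1 : incl M (X j) = mono (Pi.single j 1) := by simp [incl]
    have h2 : verP α (X j) = monomial (Finsupp.equivFunOnFinite.symm (α j)) 1 := by simp [verP]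
    rw [h1, h2, verL_mono, incl_monomial, mono]
    congr 1
    funext i
    rw [verE_apply, Finset.sum_eq_single j]
    · simp
    · intro b _ hb
      simp [hb]
    · intro h
      exact absurd (Finset.mem_univ j) h
  exact DFunLike.congr_fun h f

theorem verL_coeff (α : Fin M → Fin n → ℕ) (f : Lau M) (e' : Fin n → ℤ)
    (h : (verL α f).coeff e' ≠ 0) : ∃ e, f.coeff e ≠ 0 ∧ verE α e = e' := by
  classical
  by_contra hcon
  push Not at hcon
  apply h
  have h1 : f = ∑ e ∈ f.coeff.support, AddMonoidAlgebra.single e (f.coeff e) := by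
    conv_lhs => rw [← AddMonoidAlgebra.sum_coeff_single f]
    rfl
  rw [h1, map_sum, AddMonoidAlgebra.coeff_sum, Finset.sum_apply']
  refine Finset.sum_eq_zero fun e he => ?_
  rw [verL_single, AddMonoidAlgebra.coeff_single, Finsupp.single_apply, if_neg]
  exact hcon e (Finsupp.mem_support_iff.mp he)

theorem verE_sum {α : Fin M → Fin n → ℕ} {v : ℕ} (hα : ∀ j, ∑ i, α j i = v) (e : Fin M → ℤ) :
    ∑ i, verE α e i = v * ∑ j, e j := by
  simp only [verE_apply]
  rw [Finset.sum_comm, Finset.mul_sum]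
  refine Finset.sum_congr rfl fun j _ => ?_
  rw [← Finset.mul_sum, ← Nat.cast_sum, hα j, mul_comm]

/-- The open set `z_T ≠ 0` is the open set `x_A ≠ 0`, `A` the union of the supports of the `α_j`. -/
def verA (α : Fin M → Fin n → ℕ) (T : Finset (Fin M)) : Finset (Fin n) :=
  T.biUnion fun j => Finset.univ.filter fun i => α j i ≠ 0

theorem mem_verA {α : Fin M → Fin n → ℕ} {T : Finset (Fin M)} {i : Fin n} :
    i ∈ verA α T ↔ ∃ j ∈ T, α j i ≠ 0 := by
  simp [verA]

theorem verA_mono {α : Fin M → Fin n → ℕ} {T T' : Finset (Fin M)} (h : T ⊆ T') :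
    verA α T ⊆ verA α T' := by
  intro i hi
  rw [mem_verA] at hi ⊢
  obtain ⟨j, hj, h1⟩ := hi
  exact ⟨j, h hj, h1⟩

theorem verE_ex (α : Fin M → Fin n → ℕ) (T : Finset (Fin M)) (N : ℕ) (i : Fin n) :
    verE α (LA_ex T N) i = ((N * ∑ j ∈ T, α j i : ℕ) : ℤ) := by
  rw [verE_apply]
  push_cast
  rw [Finset.mul_sum, ← Finset.sum_filter_add_sum_filter_not Finset.univ (· ∈ T)]
  rw [Finset.sum_eq_zero (s := Finset.univ.filter (fun x => x ∉ T)), add_zero]
  · rw [Finset.filter_mem_eq_inter, Finset.univ_inter]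
    refine Finset.sum_congr rfl fun j hj => ?_
    simp [LA_ex, hj]
  · intro j hj
    simp [LA_ex, (Finset.mem_filter.1 hj).2]

/-- A monomial times an element of `J`. -/
theorem Loc_of_mono {J : Ideal (MvPolynomial (Fin n) ℂ)} {T : Finset (Fin n)} {d : ℤ}
    {c : Fin n → ℤ} {q : MvPolynomial (Fin n) ℂ} (hq : q ∈ J) (hc : ∀ i, i ∉ T → 0 ≤ c i)
    (hd : ∀ e, (mono c * incl n q).coeff e ≠ 0 → ∑ i, e i = d) :
    mono c * incl n q ∈ Loc J T d := by
  set N : ℕ := ∑ i, (c i).natAbs with hN
  have hnn : ∀ i, 0 ≤ LA_ex T N i + c i := by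
    intro i
    by_cases hi : i ∈ T
    · have h1 : (c i).natAbs ≤ N :=
        Finset.single_le_sum (f := fun i => (c i).natAbs) (fun _ _ => Nat.zero_le _)
          (Finset.mem_univ i)
      have h2 : LA_ex T N i = (N : ℤ) := by simp [LA_ex, hi]
      rw [h2]
      omega
    · have h2 : LA_ex T N i = 0 := by simp [LA_ex, hi]
      rw [h2, zero_add]
      exact hc i hi
  refine LA_mem.mpr ⟨hd, N, monomial (Finsupp.equivFunOnFinite.symm fun i =>
    (LA_ex T N i + c i).toNat) 1 * q, J.mul_mem_left _ hq, ?_⟩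
  rw [← mul_assoc, ← LA_mono_add, map_mul, incl_monomial]
  congr 1
  rw [mono]
  congr 1
  funext i
  rw [Pi.add_apply, Finsupp.equivFunOnFinite_symm_apply_apply, Int.toNat_of_nonneg (hnn i)]

theorem verL_mem {α : Fin M → Fin n → ℕ} {v : ℕ} (hα : ∀ j, ∑ i, α j i = v)
    {K : Ideal (MvPolynomial (Fin n) ℂ)} {T : Finset (Fin M)} {d : ℤ} {f : Lau M}
    (hf : f ∈ Loc (K.comap (verP α)) T d) : verL α f ∈ Loc K (verA α T) (v * d) := by
  obtain ⟨h1, N, g, hg, h2⟩ := LA_mem.mp hf
  have h3 : verL α f = mono (-verE α (LA_ex T N)) * incl n (verP α g) := by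
    rw [← verL_incl, ← h2, map_mul, verL_mono, ← mul_assoc, ← LA_mono_add, neg_add_cancel,
      LA_mono_zero, one_mul]
  rw [h3]
  refine Loc_of_mono hg (fun i hi => ?_) (fun e he => ?_)
  · rw [Pi.neg_apply, verE_ex]
    have : ∑ j ∈ T, α j i = 0 := by
      refine Finset.sum_eq_zero fun j hj => ?_
      by_contra h
      exact hi (mem_verA.mpr ⟨j, hj, h⟩)
    rw [this]
    simp
  · rw [← h3] at he
    obtain ⟨e', he', rfl⟩ := verL_coeff α f e he
    rw [verE_sum hα, h1 e' he']

theorem mem_of_verL {α : Fin M → Fin n → ℕ}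
    {K : Ideal (MvPolynomial (Fin n) ℂ)} {T : Finset (Fin M)} {d d' : ℤ} {f : Lau M}
    (hf : f ∈ Loc ⊤ T d) (hK : verL α f ∈ Loc K (verA α T) d') : f ∈ Loc (K.comap (verP α)) T d := by
  obtain ⟨h1, N, hN⟩ := LA_mem.mp hf
  obtain ⟨_, N', k, hk, h2⟩ := LA_mem.mp hK
  obtain ⟨g, _, h3⟩ := LA_up N' hN
  refine LA_mem.mpr ⟨h1, N' + N, g, ?_, h3⟩
  rw [Ideal.mem_comap]
  have hnn : ∀ i, 0 ≤ verE α (LA_ex T (N' + N)) i - LA_ex (verA α T) N' i := by
    intro i
    rw [verE_ex]
    by_cases hi : i ∈ verA α T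
    · obtain ⟨j, hj, hji⟩ := mem_verA.mp hi
      have h4 : α j i ≤ ∑ j ∈ T, α j i :=
        Finset.single_le_sum (f := fun j => α j i) (fun _ _ => Nat.zero_le _) hj
      have h5 : LA_ex (verA α T) N' i = (N' : ℤ) := by simp [LA_ex, hi]
      rw [h5]
      have h6 : N' ≤ (N' + N) * ∑ j ∈ T, α j i := by
        have : 1 ≤ ∑ j ∈ T, α j i := by omega
        nlinarith
      have : (N' : ℤ) ≤ (((N' + N) * ∑ j ∈ T, α j i : ℕ) : ℤ) := by exact_mod_cast h6
      linarith
    · have h5 : LA_ex (verA α T) N' i = 0 := by simp [LA_ex, hi]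
      rw [h5, sub_zero]
      positivity
  have h7 : incl n (verP α g) = incl n (monomial (Finsupp.equivFunOnFinite.symm fun i =>
      (verE α (LA_ex T (N' + N)) i - LA_ex (verA α T) N' i).toNat) 1 * k) := by
    rw [← verL_incl, ← h3, map_mul, verL_mono, map_mul, ← h2, incl_monomial, ← mul_assoc]
    congr 1
    rw [mono, mono, AddMonoidAlgebra.single_mul_single, one_mul]
    congr 1
    funext i
    rw [Pi.add_apply, Finsupp.equivFunOnFinite_symm_apply_apply, Int.toNat_of_nonneg (hnn i)]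
    ring
  rw [incl_injective h7]
  exact K.mul_mem_left _ hk

/-- Sub-exponents of a given degree. -/
theorem ver_sub (w : Fin n → ℕ) : ∀ v : ℕ, v ≤ ∑ i, w i → ∃ u : Fin n → ℕ, (∀ i, u i ≤ w i) ∧
    ∑ i, u i = v := by
  intro v
  induction v with
  | zero => intro _; exact ⟨0, fun i => Nat.zero_le _, by simp⟩
  | succ v ih =>
    intro hv
    obtain ⟨u, hu, hu2⟩ := ih (by omega)
    obtain ⟨i, hi⟩ : ∃ i, u i < w i := by
      by_contra hcon
      push Not at hcon
      have : ∑ i, w i ≤ ∑ i, u i := Finset.sum_le_sum fun i _ => hcon i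
      omega
    refine ⟨u + Pi.single i 1, fun j => ?_, ?_⟩
    · by_cases hj : j = i
      · subst hj
        simp
        omega
      · simp [hj, hu j]
    · simp [Finset.sum_add_distrib, hu2]

theorem ver_decomp {α : Fin M → Fin n → ℕ} {v : ℕ}
    (hs : ∀ u : Fin n → ℕ, ∑ i, u i = v → ∃ j, α j = u) : ∀ (k : ℕ) (w : Fin n → ℕ),
    ∑ i, w i = v * k → ∃ E : Fin M → ℕ, ∑ j, E j = k ∧ ∀ i, ∑ j, E j * α j i = w i := by
  intro k
  induction k with
  | zero =>
    intro w hw
    refine ⟨0, by simp, fun i => ?_⟩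
    have : w i = 0 := by
      rw [mul_zero] at hw
      exact (Finset.sum_eq_zero_iff.1 hw) i (Finset.mem_univ i)
    simp [this]
  | succ k ih =>
    intro w hw
    obtain ⟨u, hu, hu2⟩ := ver_sub w v (by rw [hw]; nlinarith)
    obtain ⟨j0, hj0⟩ := hs u hu2
    obtain ⟨E, hE, hE2⟩ := ih (fun i => w i - u i) (by
      have h1 : ∑ i, (w i - u i) + ∑ i, u i = ∑ i, w i := by
        rw [← Finset.sum_add_distrib]
        exact Finset.sum_congr rfl fun i _ => Nat.sub_add_cancel (hu i)
      rw [hu2, hw, mul_add, mul_one] at h1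
      omega)
    refine ⟨E + Pi.single j0 1, ?_, fun i => ?_⟩
    · simp [Finset.sum_add_distrib, hE]
    · have h1 : ∑ j, (E + Pi.single j0 1 : Fin M → ℕ) j * α j i =
          ∑ j, E j * α j i + α j0 i := by
        simp only [Pi.add_apply, add_mul, Finset.sum_add_distrib]
        congr 1
        rw [Finset.sum_eq_single j0]
        · simp
        · intro j _ hj
          simp [hj]
        · intro h
          exact absurd (Finset.mem_univ _) h
      rw [h1, hE2, hj0]
      exact Nat.sub_add_cancel (hu i)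

/-- The lifting lemma. -/
theorem verL_lift {α : Fin M → Fin n → ℕ} {v : ℕ} (hv : 1 ≤ v) (hα : ∀ j, ∑ i, α j i = v)
    (hs : ∀ u : Fin n → ℕ, ∑ i, u i = v → ∃ j, α j = u)
    {T : Finset (Fin M)} {d : ℤ} {F : Lau n} (hF : F ∈ Loc ⊤ (verA α T) (v * d)) :
    ∃ f ∈ Loc ⊤ T d, verL α f = F := by
  classical
  have key : ∀ e : Fin n → ℤ, ∃ E : Fin M → ℤ, e ∈ F.coeff.support →
      (∀ j, j ∉ T → 0 ≤ E j) ∧ ∑ j, E j = d ∧ verE α E = e := by
    intro e
    by_cases he : e ∈ F.coeff.support
    · obtain ⟨h1, h2⟩ := mem_Loc_top.mp hF e he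
      set N : ℕ := ∑ i, (e i).natAbs with hN
      have hnn : ∀ i, 0 ≤ e i + verE α (LA_ex T N) i := by
        intro i
        rw [verE_ex]
        by_cases hi : i ∈ verA α T
        · obtain ⟨j, hj, hji⟩ := mem_verA.mp hi
          have h4 : α j i ≤ ∑ j ∈ T, α j i :=
            Finset.single_le_sum (f := fun j => α j i) (fun _ _ => Nat.zero_le _) hj
          have h5 : (e i).natAbs ≤ N :=
            Finset.single_le_sum (f := fun i => (e i).natAbs) (fun _ _ => Nat.zero_le _)
              (Finset.mem_univ i)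
          have h6 : N ≤ N * ∑ j ∈ T, α j i := by
            have : 1 ≤ ∑ j ∈ T, α j i := by omega
            nlinarith
          have : (N : ℤ) ≤ ((N * ∑ j ∈ T, α j i : ℕ) : ℤ) := by exact_mod_cast h6
          omega
        · have := h1 i hi
          positivity
      have hsum : ∑ i, (e i + verE α (LA_ex T N) i) = v * (d + N * T.card) := by
        rw [Finset.sum_add_distrib, h2, verE_sum hα]
        have : ∑ j, LA_ex T N j = N * T.card := by
          simp [LA_ex, mul_comm]
        rw [this]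
        ring
      have hk : 0 ≤ d + N * T.card := by
        by_contra hneg
        push Not at hneg
        have h3 : 0 ≤ ∑ i, (e i + verE α (LA_ex T N) i) := Finset.sum_nonneg fun i _ => hnn i
        rw [hsum] at h3
        have : (1 : ℤ) ≤ v := by exact_mod_cast hv
        nlinarith
      obtain ⟨k, hk2⟩ := Int.eq_ofNat_of_zero_le hk
      obtain ⟨E, hE, hE2⟩ := ver_decomp hs k (fun i => (e i + verE α (LA_ex T N) i).toNat) (by
        zify
        rw [Finset.sum_congr rfl fun i _ => Int.toNat_of_nonneg (hnn i), hsum, hk2])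
      refine ⟨fun j => (E j : ℤ) - LA_ex T N j, fun _ => ⟨fun j hj => ?_, ?_, ?_⟩⟩
      · simp [LA_ex, hj]
      · rw [Finset.sum_sub_distrib]
        have h3 : ∑ j, (E j : ℤ) = k := by exact_mod_cast hE
        have h4 : ∑ j, LA_ex T N j = N * T.card := by
          simp [LA_ex, mul_comm]
        rw [h3, h4]
        have : (k : ℤ) = d + N * T.card := hk2.symm
        linarith
      · funext i
        have h3 : verE α (fun j => (E j : ℤ) - LA_ex T N j) = verE α (fun j => (E j : ℤ)) -
            verE α (LA_ex T N) := by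
          rw [← map_sub]
          rfl
        have h4 : verE α (fun j => (E j : ℤ)) i = e i + verE α (LA_ex T N) i := by
          rw [verE_apply]
          have := hE2 i
          zify at this
          rw [this, Int.toNat_of_nonneg (hnn i)]
        rw [h3, Pi.sub_apply, h4]
        ring
    · exact ⟨0, fun h => absurd h he⟩
  choose E hE using key
  refine ⟨∑ e ∈ F.coeff.support, AddMonoidAlgebra.single (E e) (F.coeff e), ?_, ?_⟩
  · refine Loc_sum _ _ fun e he => LB_single_mem _ _ (hE e he).1 (hE e he).2.1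
  · rw [map_sum]
    conv_rhs => rw [← AddMonoidAlgebra.sum_coeff_single F]
    refine Finset.sum_congr rfl fun e he => ?_
    rw [verL_single, (hE e he).2.2]

end

end Pool.Agent.RegRed
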