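import Mathlib
import Pool.Agent.Lib.MP_724d4c_ag.VerB
import Pool.Agent.Lib.MP_724d4c_ag.XVan

/-! Veronese, part C: the transfer of vanishing. -/

set_option autoImplicit false

namespace Pool.Agent.RegRed

open MvPolynomial

noncomputable section

variable {n M m : ℕ}

/-- `Loc` as a subspace. -/
def LocS (J : Ideal (MvPolynomial (Fin n) ℂ)) (T : Finset (Fin n)) (d : ℤ) :
    Submodule ℂ (Lau n) where
  carrier := Loc J T d
  add_mem' := Loc_add
  zero_mem' := Loc_zero J T d
  smul_mem' c _ h := Loc_smul c h

theorem mem_LocS {J : Ideal (MvPolynomial (Fin n) ℂ)} {T : Finset (Fin n)} {d : ℤ} {f : Lau n} :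
    f ∈ LocS J T d ↔ f ∈ Loc J T d := Iff.rfl

/-- `α` lists the exponents of degree `v`, first those of the pure powers. -/
structure VerData (v : ℕ) (α : Fin (n + m) → Fin n → ℕ) : Prop where
  deg : ∀ j, ∑ i, α j i = v
  surj : ∀ u : Fin n → ℕ, ∑ i, u i = v → ∃ j, α j = u
  pure : ∀ i, α (Fin.castAdd m i) = Pi.single i v

theorem verData_exists (n v : ℕ) : ∃ (m : ℕ) (α : Fin (n + 1 + m) → Fin (n + 1) → ℕ),
    m ≤ (v + 1) ^ n ∧ VerData v α := by
  classical
  set S : Finset (Fin (n + 1) → ℕ) := Finset.piAntidiag Finset.univ v with hS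
  refine ⟨S.card, Fin.append (fun i => Pi.single i v)
    (fun k => (S.equivFin.symm k : Fin (n + 1) → ℕ)), ?_, ⟨?_, ?_, ?_⟩⟩
  · have h1 : S.card ≤ (Fintype.piFinset fun _ : Fin n => Finset.range (v + 1)).card := by
      refine Finset.card_le_card_of_injOn (fun u i => u i.castSucc) ?_ ?_
      · intro u hu
        rw [Finset.mem_coe, Finset.mem_piAntidiag] at hu
        rw [Finset.mem_coe, Fintype.mem_piFinset]
        intro i
        rw [Finset.mem_range]
        change u i.castSucc < v + 1
        have : u i.castSucc ≤ ∑ i, u i :=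
          Finset.single_le_sum (f := u) (fun _ _ => Nat.zero_le _) (Finset.mem_univ _)
        rw [hu.1] at this
        omega
      · intro u hu u' hu' h
        rw [Finset.mem_coe, Finset.mem_piAntidiag] at hu hu'
        have h2 : ∀ i : Fin n, u i.castSucc = u' i.castSucc := fun i => congrFun h i
        have h3 := hu.1.trans hu'.1.symm
        rw [Fin.sum_univ_castSucc, Fin.sum_univ_castSucc, Finset.sum_congr rfl fun i _ => h2 i]
          at h3
        funext i
        refine Fin.lastCases ?_ (fun i => h2 i) i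
        omega
    refine h1.trans_eq ?_
    simp
  · intro j
    refine Fin.addCases (fun i => ?_) (fun k => ?_) j
    · rw [Fin.append_left]
      simp
    · rw [Fin.append_right]
      have := Finset.mem_piAntidiag.1 (S.equivFin.symm k).2
      exact this.1
  · intro u hu
    have hu' : u ∈ S := by
      rw [hS, Finset.mem_piAntidiag]
      exact ⟨hu, fun i _ => Finset.mem_univ i⟩
    refine ⟨Fin.natAdd (n + 1) (S.equivFin ⟨u, hu'⟩), ?_⟩
    rw [Fin.append_right, Equiv.symm_apply_apply]
  · intro i
    rw [Fin.append_left]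

theorem verA_map {v : ℕ} (hv : 1 ≤ v) {α : Fin (n + m) → Fin n → ℕ} (hα : VerData v α)
    (T : Finset (Fin n)) : verA α (T.map (Fin.castAddEmb m)) = T := by
  ext i
  rw [mem_verA]
  constructor
  · rintro ⟨j, hj, h⟩
    obtain ⟨i0, hi0, rfl⟩ := Finset.mem_map.1 hj
    rw [Fin.castAddEmb_apply, hα.pure] at h
    by_cases hi : i = i0
    · rwa [hi]
    · rw [Pi.single_eq_of_ne hi] at h
      exact absurd rfl h
  · intro hi
    refine ⟨Fin.castAdd m i, Finset.mem_map.2 ⟨i, hi, rfl⟩, ?_⟩
    rw [hα.pure, Pi.single_eq_same]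
    omega

theorem delta_map {L : Type} [AddCommGroup L] [Module ℂ L] (g : Finset (Fin (n + m)) → L)
    (T : Finset (Fin n)) :
    delta g (T.map (Fin.castAddEmb m)) = delta (fun T => g (T.map (Fin.castAddEmb m))) T := by
  unfold delta
  rw [Finset.sum_map]
  refine Finset.sum_congr rfl fun i _ => ?_
  have e1 : (T.map (Fin.castAddEmb m)).erase (Fin.castAddEmb m i) =
      (T.erase i).map (Fin.castAddEmb m) := (Finset.map_erase _ _ _).symm
  rw [e1]
  congr 1
  unfold sgn
  congr 1
  rw [Finset.filter_map, Finset.card_map]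
  congr 1

theorem vanOn_base {v : ℕ} (hv : 1 ≤ v) {α : Fin (n + m) → Fin n → ℕ} (hα : VerData v α)
    {K : Ideal (MvPolynomial (Fin n) ℂ)} {e : ℤ} {p : ℕ} (h : Van K p e) :
    VanOn (fun T => LocS ⊤ (verA α T) e) (fun T => LocS K (verA α T) e)
      (Finset.univ.map (Fin.castAddEmb m)) p := by
  classical
  intro g hg hδ
  obtain ⟨h0, h1, h2⟩ := h (fun T => g (T.map (Fin.castAddEmb m)))
    (fun T hT => by
      have := hg (T.map (Fin.castAddEmb m)) (Finset.map_subset_map.2 (Finset.subset_univ T))
        (by rw [Finset.card_map, hT])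
      change _ ∈ Loc _ _ _ at this
      rw [verA_map hv hα] at this
      exact this)
    (fun T hT => by
      have := hδ (T.map (Fin.castAddEmb m)) (Finset.map_subset_map.2 (Finset.subset_univ T))
        (by rw [Finset.card_map, hT])
      change _ ∈ Loc _ _ _ at this
      rw [verA_map hv hα, delta_map] at this
      exact this)
  have hf : ∀ T0 : Finset (Fin n),
      (Finset.univ.filter fun i => Fin.castAddEmb m i ∈ T0.map (Fin.castAddEmb m)) = T0 := by
    intro T0
    ext i
    simp
  refine ⟨fun T => h0 (Finset.univ.filter fun i => Fin.castAddEmb m i ∈ T), ?_, ?_⟩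
  · intro T hTB hT
    obtain ⟨T0, _, rfl⟩ := Finset.subset_map_iff.1 hTB
    rw [Finset.card_map] at hT
    change h0 _ ∈ Loc _ _ _
    rw [hf, verA_map hv hα]
    exact h1 T0 hT
  · intro T hTB hT
    obtain ⟨T0, _, rfl⟩ := Finset.subset_map_iff.1 hTB
    rw [Finset.card_map] at hT
    change _ ∈ Loc _ _ _
    rw [verA_map hv hα, delta_map]
    simp only [hf]
    exact h2 T0 hT

theorem vanOn_univ {v : ℕ} (hv : 1 ≤ v) {α : Fin (n + m) → Fin n → ℕ} (hα : VerData v α)
    {K : Ideal (MvPolynomial (Fin n) ℂ)} {e : ℤ} {p : ℕ}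
    (h : VanOn (fun T => LocS ⊤ (verA α T) e) (fun T => LocS K (verA α T) e)
      (Finset.univ.map (Fin.castAddEmb m)) p) :
    VanOn (fun T => LocS ⊤ (verA α T) e) (fun T => LocS K (verA α T) e) Finset.univ p := by
  classical
  have key : ∀ B : Finset (Fin (n + m)), VanOn (fun T => LocS ⊤ (verA α T) e)
      (fun T => LocS K (verA α T) e) (Finset.univ.map (Fin.castAddEmb m) ∪ B) p := by
    intro B
    induction B using Finset.induction_on with
    | empty => rwa [Finset.union_empty]
    | insert j B _ ih =>
      rw [Finset.union_insert]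
      by_cases hj : j ∈ Finset.univ.map (Fin.castAddEmb m) ∪ B
      · rwa [Finset.insert_eq_of_mem hj]
      · obtain ⟨i0, hi0⟩ : ∃ i0, α j i0 ≠ 0 := by
          by_contra hcon
          push Not at hcon
          have := hα.deg j
          rw [Finset.sum_eq_zero fun i _ => hcon i] at this
          omega
        have hA : ∀ T : Finset (Fin (n + m)), j ∈ T →
            verA α (insert (Fin.castAddEmb m i0) T) = verA α T := by
          intro T hjT
          refine Finset.Subset.antisymm ?_ (verA_mono (Finset.subset_insert _ _))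
          intro i hi
          obtain ⟨j', hj', h'⟩ := mem_verA.1 hi
          rcases Finset.mem_insert.1 hj' with h1 | h1
          · rw [h1, Fin.castAddEmb_apply, hα.pure] at h'
            by_cases hii : i = i0
            · rw [hii]
              exact mem_verA.2 ⟨j, hjT, hi0⟩
            · rw [Pi.single_eq_of_ne hii] at h'
              exact absurd rfl h'
          · exact mem_verA.2 ⟨j', h1, h'⟩
        refine vanOn_insert (fun T T' hT => ?_) (fun T T' hT => ?_)
          (i := Fin.castAddEmb m i0) (Finset.mem_union_left _ (Finset.mem_map.2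
            ⟨i0, Finset.mem_univ _, rfl⟩)) hj ?_ ?_ ih
        · intro x hx
          exact Loc_mono le_rfl (verA_mono hT) hx
        · intro x hx
          exact Loc_mono le_rfl (verA_mono hT) hx
        · intro T _ hjT x hx
          refine ⟨x, ?_, by rw [sub_self]; exact Submodule.zero_mem _⟩
          rw [hA T hjT] at hx
          exact hx
        · intro T _ hjT x _ hx
          rw [hA T hjT] at hx
          exact hx
  have := key Finset.univ
  rwa [Finset.union_eq_right.2 (Finset.subset_univ _)] at this

theorem verL_delta (α : Fin M → Fin n → ℕ) (g : Finset (Fin M) → Lau M) (T : Finset (Fin M)) :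
    verL α (delta g T) = delta (fun T => verL α (g T)) T := by
  unfold delta
  rw [map_sum]
  exact Finset.sum_congr rfl fun i _ => map_smul _ _ _

theorem van_comap {v : ℕ} (hv : 1 ≤ v) {α : Fin (n + m) → Fin n → ℕ} (hα : VerData v α)
    {K : Ideal (MvPolynomial (Fin n) ℂ)} {p : ℕ} {d : ℤ} (h : Van K p (v * d)) :
    Van (K.comap (verP α)) p d := by
  have hU := vanOn_univ hv hα (vanOn_base hv hα h)
  have htop : ∀ {T : Finset (Fin (n + m))} {f : Lau (n + m)}, f ∈ Loc ⊤ T d →
      verL α f ∈ Loc ⊤ (verA α T) (v * d) := by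
    intro T f hf
    refine verL_mem hα.deg ?_
    rwa [Ideal.comap_top]
  intro g hg hδ
  obtain ⟨H, H1, H2⟩ := hU (fun T => verL α (g T)) (fun T _ hT => htop (hg T hT))
    (fun T _ hT => by
      rw [← verL_delta]
      exact verL_mem hα.deg (hδ T hT))
  have hch : ∀ T : Finset (Fin (n + m)), ∃ f : Lau (n + m), T.card + 1 = p →
      f ∈ Loc ⊤ T d ∧ verL α f = H T := by
    intro T
    by_cases hT : T.card + 1 = p
    · obtain ⟨f, hf, hf2⟩ := verL_lift hv hα.deg hα.surj (H1 T (Finset.subset_univ T) hT)
      exact ⟨f, fun _ => ⟨hf, hf2⟩⟩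
    · exact ⟨0, fun h => absurd h hT⟩
  choose h' hh' using hch
  refine ⟨h', fun T hT => (hh' T hT).1, fun T hT => ?_⟩
  have hdel : delta (fun T => verL α (h' T)) T = delta H T := by
    refine Finset.sum_congr rfl fun a ha => ?_
    simp only
    rw [(hh' _ (by rw [Finset.card_erase_add_one ha, hT])).2]
  have hmem : delta h' T ∈ Loc ⊤ T d := by
    refine Loc_sum _ _ fun a ha => Loc_smul _ (Loc_mono le_rfl (Finset.erase_subset a T)
      (hh' _ (by rw [Finset.card_erase_add_one ha, hT])).1)
  refine mem_of_verL (Loc_sub (hg T hT) hmem) (d' := v * d) ?_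
  rw [map_sub, verL_delta, hdel]
  exact H2 T (Finset.subset_univ T) hT

theorem ver_pair {L : Type} [AddCommGroup L] [Module ℂ L] (c : Finset (Fin n) → L)
    {j j' : Fin n} (hjj : j ≠ j') :
    delta c {j, j'} = sgn j {j, j'} • (c {j'} - c {j}) := by
  have e1 : ({j, j'} : Finset (Fin n)).erase j = {j'} := by
    rw [Finset.erase_insert_eq_erase, Finset.erase_eq_of_notMem]
    simpa using hjj
  have e2 : ({j, j'} : Finset (Fin n)).erase j' = {j} := by
    rw [Finset.pair_comm, Finset.erase_insert_eq_erase, Finset.erase_eq_of_notMem]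
    simpa using hjj.symm
  unfold delta
  rw [Finset.sum_pair hjj, e1, e2]
  have h3 := sgn_erase j j' {j, j'} (by simp) (by simp) hjj
  rw [e1, e2] at h3
  have h4 : sgn j' ({j'} : Finset (Fin n)) = 1 := by
    simp [sgn, Finset.filter_singleton]
  have h5 : sgn j ({j} : Finset (Fin n)) = 1 := by
    simp [sgn, Finset.filter_singleton]
  rw [h4, h5, mul_one, mul_one] at h3
  rw [h3, neg_smul, neg_smul, smul_sub, neg_add_eq_sub]
  abel

theorem van_one_of_comap {v : ℕ} (hv : 1 ≤ v) {α : Fin (n + m) → Fin n → ℕ} (hα : VerData v α)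
    {K : Ideal (MvPolynomial (Fin n) ℂ)} {d : ℤ} (h : Van (K.comap (verP α)) 1 d) :
    Van K 1 (v * d) := by
  classical
  intro g hg hδ
  have hne : ∀ j, ∃ i, α j i ≠ 0 := by
    intro j
    by_contra hcon
    push Not at hcon
    have := hα.deg j
    rw [Finset.sum_eq_zero fun i _ => hcon i] at this
    omega
  choose τ hτ using hne
  -- the lifts
  have hch : ∀ j, ∃ f : Lau (n + m), f ∈ Loc ⊤ {j} d ∧ verL α f = g {τ j} := by
    intro j
    refine verL_lift hv hα.deg hα.surj (Loc_mono le_rfl ?_ (hg {τ j} (Finset.card_singleton _)))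
    intro i hi
    rw [Finset.mem_singleton] at hi
    rw [hi]
    exact mem_verA.2 ⟨j, Finset.mem_singleton_self j, hτ j⟩
  choose G hG1 hG2 using hch
  obtain ⟨H, H1, H2⟩ := h (fun T => ∑ j ∈ T, G j) (by
      intro T hT
      obtain ⟨j, rfl⟩ := Finset.card_eq_one.1 hT
      rw [Finset.sum_singleton]
      exact hG1 j) (by
      intro T hT
      refine mem_of_verL (d' := v * d) ?_ ?_
      · refine Loc_sum _ _ fun a ha => Loc_smul _ (Loc_sum _ _ fun j hj => ?_)
        exact Loc_mono le_rfl (Finset.singleton_subset_iff.2 (Finset.mem_of_mem_erase hj)) (hG1 j)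
      · rw [verL_delta]
        simp only [map_sum, hG2]
        obtain ⟨j, j', hjj, rfl⟩ := Finset.card_eq_two.1 (show T.card = 2 from hT)
        have e3 : delta (fun T => ∑ x ∈ T, g {τ x}) {j, j'} =
            sgn j {j, j'} • (g {τ j'} - g {τ j}) := by
          rw [ver_pair _ hjj]
          simp only [Finset.sum_singleton]
        rw [e3]
        refine Loc_smul _ ?_
        by_cases hττ : τ j = τ j'
        · rw [hττ, sub_self]
          exact Loc_zero _ _ _
        · have h3 := hδ {τ j, τ j'} (Finset.card_pair hττ)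
          have e6 : delta g {τ j, τ j'} = sgn (τ j) {τ j, τ j'} • (g {τ j'} - g {τ j}) :=
            ver_pair _ hττ
          rw [e6] at h3
          have h4 := Loc_smul (sgn (τ j) {τ j, τ j'}) h3
          rw [smul_smul, sgn_mul_self, one_smul] at h4
          refine Loc_mono le_rfl ?_ h4
          intro i hi
          rw [Finset.mem_insert, Finset.mem_singleton] at hi
          rcases hi with rfl | rfl
          · exact mem_verA.2 ⟨j, by simp, hτ j⟩
          · exact mem_verA.2 ⟨j', by simp, hτ j'⟩)
  refine ⟨fun _ => verL α (H ∅), ?_, ?_⟩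
  · intro T hT
    have hT0 : T = ∅ := by
      rw [← Finset.card_eq_zero]
      omega
    subst hT0
    have h3 : verL α (H ∅) ∈ Loc ⊤ (verA α ∅) (v * d) := by
      refine verL_mem hα.deg ?_
      rw [Ideal.comap_top]
      exact H1 ∅ (by simp)
    have h4 : verA α (∅ : Finset (Fin (n + m))) = ∅ := by simp [verA]
    rwa [h4] at h3
  · intro T hT
    obtain ⟨i, rfl⟩ := Finset.card_eq_one.1 hT
    rw [VA_delta_singleton]
    have h3 := H2 {Fin.castAdd m i} (Finset.card_singleton _)
    rw [VA_delta_singleton, Finset.sum_singleton] at h3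
    have h4 := verL_mem hα.deg h3
    have h5 : τ (Fin.castAdd m i) = i := by
      by_contra hne
      have := hτ (Fin.castAdd m i)
      rw [hα.pure, Pi.single_eq_of_ne hne] at this
      exact this rfl
    have h6 : verA α {Fin.castAdd m i} = {i} := by
      have := verA_map hv hα {i}
      rwa [Finset.map_singleton] at this
    rw [map_sub, hG2, h5, h6] at h4
    exact h4

end

end Pool.Agent.RegRed
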