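import Mathlib
import Pool.Agent.Lib.MP_724d4c_ag.VerC

/-! Veronese, part D: the cohomology of the structure sheaf of the curves in degrees `≥ 2`. -/

set_option autoImplicit false

namespace Pool.Agent.RegRed

open MvPolynomial

noncomputable section

variable {n : ℕ}

theorem mono_deg {d : ℤ} {c : Fin n → ℤ} {x : Lau n} (hx : ∀ e, x.coeff e ≠ 0 → ∑ i, e i = d)
    (e : Fin n → ℤ) (he : (mono c * x).coeff e ≠ 0) : ∑ i, e i = d + ∑ i, c i := by
  have h1 : c + (e - c) = e := by abel
  rw [← h1, mono_mul_coeff] at he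
  have := hx _ he
  simp only [Pi.sub_apply, Finset.sum_sub_distrib] at this
  linarith

/-- `x_i` divides a monomial in the variables of `T` modulo `I`: surjectivity. -/
theorem ver_H1 {I : Ideal (MvPolynomial (Fin n) ℂ)} {i : Fin n} {T : Finset (Fin n)}
    {m1 m2 : MvPolynomial (Fin n) ℂ} {E1 E2 : Fin n → ℤ} (hm1 : incl n m1 = mono E1)
    (hm2 : incl n m2 = mono E2) (hrel : m1 - X i * m2 ∈ I) (hE1 : ∀ j, j ∉ T → E1 j = 0)
    (hE2 : ∀ j, 0 ≤ E2 j) (hdeg : ∑ j, E1 j = 1 + ∑ j, E2 j) {d : ℤ} {x : Lau n}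
    (hx : x ∈ Loc ⊤ (insert i T) d) :
    ∃ y ∈ Loc ⊤ T d, x - y ∈ Loc I (insert i T) d := by
  by_cases hi : i ∈ T
  · rw [Finset.insert_eq_of_mem hi] at hx ⊢
    exact ⟨x, hx, by rw [sub_self]; exact Loc_zero _ _ _⟩
  obtain ⟨h1, N, g, _, h2⟩ := LA_mem.mp hx
  set s : Fin n → ℤ := Pi.single i 1 with hs
  have hX : incl n (X i) = mono s := by simp [incl, hs]
  have hq : m1 ^ N - (X i * m2) ^ N ∈ I := by
    obtain ⟨r, hr⟩ := sub_dvd_pow_sub_pow m1 (X i * m2) N
    rw [hr]
    exact I.mul_mem_right r hrel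
  have hq2 : incl n (m1 ^ N - (X i * m2) ^ N) = mono (N • E1) - mono (N • (s + E2)) := by
    rw [map_sub, map_pow, map_pow, map_mul, hm1, hm2, hX, ← LA_mono_add, LA_mono_nsmul,
      LA_mono_nsmul]
  have hex : LA_ex (insert i T) N = LA_ex T N + N • s := by
    funext j
    by_cases hj : j = i
    · subst hj
      simp [LA_ex, hi, hs]
    · by_cases hjT : j ∈ T <;> simp [LA_ex, hj, hjT, hs]
  have hxe : x = mono (-LA_ex (insert i T) N) * incl n g := by
    rw [← h2, ← mul_assoc, ← LA_mono_add, neg_add_cancel, LA_mono_zero, one_mul]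
  have hsum : ∑ j, (N • (s + E2) - N • E1) j = 0 := by
    have e1 : ∑ j, s j = 1 := by simp [hs]
    simp only [Pi.sub_apply, Pi.smul_apply, Pi.add_apply, Finset.sum_sub_distrib,
      ← Finset.smul_sum, Finset.sum_add_distrib, e1, hdeg]
    abel
  have hy0 : mono (-LA_ex T N + N • E2 - N • E1) * incl n g = mono (N • (s + E2) - N • E1) * x := by
    rw [hxe, ← mul_assoc, ← LA_mono_add, hex]
    congr 2
    rw [smul_add]
    abel
  have hyd : ∀ e, (mono (-LA_ex T N + N • E2 - N • E1) * incl n g).coeff e ≠ 0 →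
      ∑ i, e i = d := by
    intro e he
    rw [hy0] at he
    have := mono_deg h1 e he
    rwa [hsum, add_zero] at this
  have hy : mono (-LA_ex T N + N • E2 - N • E1) * incl n g ∈ Loc ⊤ T d := by
    refine Loc_of_mono Submodule.mem_top (fun j hj => ?_) hyd
    have h3 := hE2 j
    have h4 : LA_ex T N j = 0 := by simp [LA_ex, hj]
    simp only [Pi.sub_apply, Pi.add_apply, Pi.neg_apply, Pi.smul_apply, h4, hE1 j hj]
    simp only [neg_zero, zero_add, smul_zero, sub_zero]
    positivity
  refine ⟨_, hy, ?_⟩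
  have hdiff : x - mono (-LA_ex T N + N • E2 - N • E1) * incl n g =
      mono (-LA_ex (insert i T) N - N • E1) * incl n ((m1 ^ N - (X i * m2) ^ N) * g) := by
    rw [map_mul, hq2, hxe, ← mul_assoc, mul_sub, ← LA_mono_add, ← LA_mono_add, ← sub_mul]
    congr 1
    congr 2
    · abel
    · rw [hex, smul_add]
      abel
  have hdd := Loc_sub hx (Loc_mono le_rfl (Finset.subset_insert i T) hy)
  rw [hdiff] at hdd ⊢
  refine Loc_of_mono (I.mul_mem_right g hq) (fun j hj => ?_) (LA_mem.mp hdd).1
  have hj' : j ∉ T := fun h => hj (Finset.mem_insert_of_mem h)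
  have h4 : LA_ex (insert i T) N j = 0 := by simp [LA_ex, hj]
  simp [h4, hE1 j hj']

/-- `x_i` divides a monomial in the variables of `T` modulo `I`: injectivity. -/
theorem ver_H2 {I : Ideal (MvPolynomial (Fin n) ℂ)} {i : Fin n} {T : Finset (Fin n)}
    {m1 m2 : MvPolynomial (Fin n) ℂ} {E1 : Fin n → ℤ} (hm1 : incl n m1 = mono E1)
    (hrel : m1 - X i * m2 ∈ I) (hE1 : ∀ j, j ∉ T → E1 j = 0) {d : ℤ} {x : Lau n}
    (hx : x ∈ Loc ⊤ T d) (hx2 : x ∈ Loc I (insert i T) d) : x ∈ Loc I T d := by
  by_cases hi : i ∈ T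
  · rwa [Finset.insert_eq_of_mem hi] at hx2
  obtain ⟨h1, N, hN⟩ := LA_mem.mp hx
  obtain ⟨_, N', hN'⟩ := LA_mem.mp hx2
  obtain ⟨g, _, h2⟩ := LA_up N' hN
  obtain ⟨h, hh, h3⟩ := LA_up N hN'
  rw [add_comm N N'] at h3
  set P := N' + N with hP
  set s : Fin n → ℤ := Pi.single i 1 with hs
  have hX : incl n (X i) = mono s := by simp [incl, hs]
  have hex : LA_ex (insert i T) P = LA_ex T P + P • s := by
    funext j
    by_cases hj : j = i
    · subst hj
      simp [LA_ex, hi, hs]
    · by_cases hjT : j ∈ T <;> simp [LA_ex, hj, hjT, hs]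
  have h4 : X i ^ P * g = h := by
    apply incl_injective
    rw [map_mul, map_pow, hX, LA_mono_nsmul, ← h2, ← h3, hex, ← mul_assoc, ← LA_mono_add,
      add_comm]
  have hq : m1 ^ P - (X i * m2) ^ P ∈ I := by
    obtain ⟨r, hr⟩ := sub_dvd_pow_sub_pow m1 (X i * m2) P
    rw [hr]
    exact I.mul_mem_right r hrel
  have h5 : m1 ^ P * g ∈ I := by
    have e : m1 ^ P * g = (m1 ^ P - (X i * m2) ^ P) * g + m2 ^ P * (X i ^ P * g) := by
      rw [mul_pow]
      ring
    rw [e, h4]
    exact I.add_mem (I.mul_mem_right g hq) (I.mul_mem_left _ hh)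
  have hxe : x = mono (-LA_ex T P - P • E1) * incl n (m1 ^ P * g) := by
    rw [map_mul, map_pow, hm1, LA_mono_nsmul, ← h2, ← mul_assoc, ← mul_assoc, ← LA_mono_add,
      ← LA_mono_add]
    have : -LA_ex T P - P • E1 + P • E1 + LA_ex T P = 0 := by abel
    rw [this, LA_mono_zero, one_mul]
  rw [hxe]
  refine Loc_of_mono h5 (fun j hj => ?_) (by rw [← hxe]; exact h1)
  have h6 : LA_ex T P j = 0 := by simp [LA_ex, hj]
  simp [h6, hE1 j hj]

theorem ver_sum_one (i : Fin n) : ∑ j, (Pi.single i 1 : Fin n → ℤ) j = 1 := by simp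

theorem ver_sum_smul (N : ℕ) (i : Fin n) :
    ∑ j, (N • (Pi.single i 1 : Fin n → ℤ)) j = N := by
  simp only [Pi.smul_apply, ← Finset.smul_sum]
  rw [ver_sum_one]
  simp

/-- Three charts `i0, i1, i2` with `i0 ∩ i2` contained in `i1`. -/
theorem vanOn_three {I : Ideal (MvPolynomial (Fin n) ℂ)} {d : ℤ} {i0 i1 i2 : Fin n}
    (h01 : i0 ≠ i1) (h12 : i1 ≠ i2)
    (H1 : ∀ x ∈ Loc ⊤ (insert i1 {i0, i2}) d, ∃ y ∈ Loc ⊤ ({i0, i2} : Finset (Fin n)) d,
      x - y ∈ Loc I (insert i1 {i0, i2}) d) {p : ℕ} (hp : 3 ≤ p) :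
    VanOn (fun T => LocS ⊤ T d) (fun T => LocS I T d) (insert i1 {i0, i2}) p := by
  classical
  intro g hg _
  have hni : i1 ∉ ({i0, i2} : Finset (Fin n)) := by
    simp [Ne.symm h01, h12]
  have hc2 : ({i0, i2} : Finset (Fin n)).card ≤ 2 := Finset.card_le_two
  have hcard : (insert i1 ({i0, i2} : Finset (Fin n))).card ≤ 3 := by
    rw [Finset.card_insert_of_notMem hni]
    omega
  by_cases hc : (insert i1 ({i0, i2} : Finset (Fin n))).card = p
  · obtain ⟨y, hy, hy2⟩ := H1 _ (hg _ (Finset.Subset.refl _) hc)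
    set h : Finset (Fin n) → Lau n :=
      fun T => if T = {i0, i2} then sgn i1 (insert i1 {i0, i2}) • y else 0 with hh
    have hh1 : h {i0, i2} = sgn i1 (insert i1 {i0, i2}) • y := if_pos rfl
    have hh2 : ∀ T, T ≠ {i0, i2} → h T = 0 := fun T hT => if_neg hT
    refine ⟨h, ?_, ?_⟩
    · intro T _ _
      change _ ∈ Loc _ _ _
      by_cases hT : T = {i0, i2}
      · rw [hT, hh1]
        exact Loc_smul _ hy
      · rw [hh2 T hT]
        exact Loc_zero _ _ _
    · intro T hTB hT
      have hT2 : T = insert i1 {i0, i2} := Finset.eq_of_subset_of_card_le hTB (by omega)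
      subst hT2
      have e : delta h (insert i1 {i0, i2}) = y := by
        unfold delta
        rw [Finset.sum_eq_single i1]
        · rw [Finset.erase_insert hni, hh1, smul_smul, sgn_mul_self, one_smul]
        · intro a _ ha
          rw [hh2, smul_zero]
          intro h
          apply hni
          rw [← h]
          exact Finset.mem_erase.2 ⟨Ne.symm ha, Finset.mem_insert_self _ _⟩
        · intro h
          exact absurd (Finset.mem_insert_self _ _) h
      change _ ∈ Loc _ _ _
      rw [e]
      exact hy2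
  · refine ⟨0, fun T _ _ => Submodule.zero_mem _, fun T hTB hT => ?_⟩
    exfalso
    have := Finset.card_le_card hTB
    omega

theorem curve_van (k a : ℕ) (ha : 1 ≤ a) (b : ℕ → ℕ) (hb : ∀ j, 1 ≤ b j) {p : ℕ} (hp : 3 ≤ p)
    (d : ℤ) : Van (curveIdeal k a b) p d := by
  classical
  set I := curveIdeal k a b with hI
  have hX : ∀ i, incl (k + 3) (X i) = mono (Pi.single i 1) := fun i => by simp [incl]
  have h0w : ∀ j, (0 : Fin (k + 3)) ≠ w k j := fun j => (Fin.succ_ne_zero _).symm
  have h1w : ∀ j, (1 : Fin (k + 3)) ≠ w k j := by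
    intro j h
    have := congrArg Fin.val h
    simp [w] at this
  have h01 : (0 : Fin (k + 3)) ≠ 1 := by
    intro h
    have := congrArg Fin.val h
    simp at this
  have base : VanOn (fun T => LocS ⊤ T d) (fun T => LocS I T d) (insert 1 {0, w k 0}) p := by
    refine vanOn_three h01 (h1w 0) (fun x hx => ?_) hp
    refine ver_H1 (m1 := X (w k 0) ^ a * X 0) (m2 := X 1 ^ (a - 1) * X (w k (Fin.last k)))
      (E1 := a • Pi.single (w k 0) 1 + Pi.single 0 1)
      (E2 := (a - 1) • Pi.single 1 1 + Pi.single (w k (Fin.last k)) 1) ?_ ?_ ?_ ?_ ?_ ?_ hx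
    · rw [map_mul, map_pow, hX, hX, LA_mono_nsmul, ← LA_mono_add]
    · rw [map_mul, map_pow, hX, hX, LA_mono_nsmul, ← LA_mono_add]
    · have h1 : lastForm k a ∈ I := Ideal.subset_span (Set.mem_union_right _ rfl)
      have h2 : X (w k 0) ^ a * X 0 - X 1 * (X 1 ^ (a - 1) * X (w k (Fin.last k))) =
          -lastForm k a := by
        have : (X 1 : MvPolynomial (Fin (k + 3)) ℂ) ^ a = X 1 * X 1 ^ (a - 1) := by
          rw [← pow_succ', Nat.sub_add_cancel ha]
        rw [lastForm, this]
        ring
      rw [h2]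
      exact I.neg_mem h1
    · intro j hj
      rw [Finset.mem_insert, Finset.mem_singleton, not_or] at hj
      simp [hj.1, hj.2]
    · intro j
      have h1 : (0 : ℤ) ≤ (Pi.single (1 : Fin (k + 3)) (1 : ℤ) : Fin (k + 3) → ℤ) j := by
        by_cases h : j = 1
        · subst h; simp
        · simp [h]
      have h2 : (0 : ℤ) ≤ (Pi.single (w k (Fin.last k)) (1 : ℤ) : Fin (k + 3) → ℤ) j := by
        by_cases h : j = w k (Fin.last k)
        · subst h; simp
        · simp [h]
      simp only [Pi.add_apply, Pi.smul_apply]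
      positivity
    · simp only [Pi.add_apply, Finset.sum_add_distrib, ver_sum_smul, ver_sum_one]
      push_cast [Nat.cast_sub ha]
      ring
  have key : ∀ l : ℕ, l ≤ k → VanOn (fun T => LocS ⊤ T d) (fun T => LocS I T d)
      ({0, 1} ∪ (Finset.univ.filter fun j : Fin (k + 1) => j.val ≤ l).image (w k)) p := by
    intro l
    induction l with
    | zero =>
      intro _
      have e : ({0, 1} : Finset (Fin (k + 3))) ∪
          (Finset.univ.filter fun j : Fin (k + 1) => j.val ≤ 0).image (w k) =
          insert 1 {0, w k 0} := by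
        ext x
        simp only [Finset.mem_union, Finset.mem_insert, Finset.mem_singleton, Finset.mem_image,
          Finset.mem_filter, Finset.mem_univ, true_and]
        constructor
        · rintro ((h | h) | ⟨j, hj, rfl⟩)
          · exact Or.inr (Or.inl h)
          · exact Or.inl h
          · right; right
            congr 1
            exact Fin.ext (by simpa using hj)
        · rintro (h | h | h)
          · exact Or.inl (Or.inr h)
          · exact Or.inl (Or.inl h)
          · exact Or.inr ⟨0, by simp, h.symm⟩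
      rw [e]
      exact base
    | succ l ih =>
      intro hl
      have ih' := ih (by omega)
      set j0 : Fin k := ⟨l, by omega⟩ with hj0
      have e : ({0, 1} : Finset (Fin (k + 3))) ∪
          (Finset.univ.filter fun j : Fin (k + 1) => j.val ≤ l + 1).image (w k) =
          insert (w k j0.succ) ({0, 1} ∪
            (Finset.univ.filter fun j : Fin (k + 1) => j.val ≤ l).image (w k)) := by
        ext x
        simp only [Finset.mem_union, Finset.mem_insert, Finset.mem_singleton, Finset.mem_image,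
          Finset.mem_filter, Finset.mem_univ, true_and]
        constructor
        · rintro (h | ⟨j, hj, rfl⟩)
          · exact Or.inr (Or.inl h)
          · rcases Nat.lt_or_ge j.val (l + 1) with h | h
            · exact Or.inr (Or.inr ⟨j, by omega, rfl⟩)
            · left
              congr 1
              exact Fin.ext (by simp [hj0]; omega)
        · rintro (h | h | ⟨j, hj, rfl⟩)
          · exact Or.inr ⟨j0.succ, by simp [hj0], h.symm⟩
          · exact Or.inl h
          · exact Or.inr ⟨j, by omega, rfl⟩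
      rw [e]
      have hnot : w k j0.succ ∉ ({0, 1} : Finset (Fin (k + 3))) ∪
          (Finset.univ.filter fun j : Fin (k + 1) => j.val ≤ l).image (w k) := by
        simp only [Finset.mem_union, Finset.mem_insert, Finset.mem_singleton, Finset.mem_image,
          Finset.mem_filter, Finset.mem_univ, true_and]
        rintro ((h | h) | ⟨j, hj, h⟩)
        · exact h0w _ h.symm
        · exact h1w _ h.symm
        · have h2 : j = j0.succ := Fin.succ_injective _ (Fin.succ_injective _ h)
          rw [h2] at hj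
          simp [hj0] at hj
      have hin : w k j0.castSucc ∈ ({0, 1} : Finset (Fin (k + 3))) ∪
          (Finset.univ.filter fun j : Fin (k + 1) => j.val ≤ l).image (w k) := by
        refine Finset.mem_union_right _ (Finset.mem_image.2 ⟨j0.castSucc, ?_, rfl⟩)
        simp [hj0]
      have hrel : X (w k j0.succ) ^ b l - X (w k j0.castSucc) * X 0 ^ (b l - 1) ∈ I :=
        Ideal.subset_span (Set.mem_union_left _ ⟨j0, rfl⟩)
      have hm1 : incl (k + 3) (X (w k j0.succ) ^ b l) = mono (b l • Pi.single (w k j0.succ) 1) := by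
        rw [map_pow, hX, LA_mono_nsmul]
      have hE1 : ∀ T : Finset (Fin (k + 3)), w k j0.succ ∈ T → ∀ j, j ∉ T →
          (b l • (Pi.single (w k j0.succ) 1 : Fin (k + 3) → ℤ)) j = 0 := by
        intro T hT j hj
        have : j ≠ w k j0.succ := fun h => hj (h ▸ hT)
        simp [this]
      refine vanOn_insert (fun T T' hT => ?_) (fun T T' hT => ?_) hin hnot ?_ ?_ ih'
      · intro x hx
        exact Loc_mono le_rfl hT hx
      · intro x hx
        exact Loc_mono le_rfl hT hx
      · intro T _ hjT x hx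
        refine ver_H1 hm1 (m2 := X 0 ^ (b l - 1)) (E2 := (b l - 1) • Pi.single 0 1) ?_ hrel
          (hE1 T hjT) ?_ ?_ hx
        · rw [map_pow, hX, LA_mono_nsmul]
        · intro j
          have h1 : (0 : ℤ) ≤ (Pi.single (0 : Fin (k + 3)) (1 : ℤ) : Fin (k + 3) → ℤ) j := by
            by_cases h : j = 0
            · subst h; simp
            · simp [h]
          simp only [Pi.smul_apply]
          positivity
        · rw [ver_sum_smul, ver_sum_smul]
          push_cast [Nat.cast_sub (hb l)]
          ring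
      · intro T _ hjT x hx hx2
        exact ver_H2 hm1 hrel (hE1 T hjT) hx hx2
  have huniv : ({0, 1} : Finset (Fin (k + 3))) ∪
      (Finset.univ.filter fun j : Fin (k + 1) => j.val ≤ k).image (w k) = Finset.univ := by
    rw [Finset.eq_univ_iff_forall]
    intro x
    simp only [Finset.mem_union, Finset.mem_insert, Finset.mem_singleton, Finset.mem_image,
      Finset.mem_filter, Finset.mem_univ, true_and]
    induction x using Fin.cases with
    | zero => exact Or.inl (Or.inl rfl)
    | succ x =>
      induction x using Fin.cases with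
      | zero => exact Or.inl (Or.inr rfl)
      | succ x => exact Or.inr ⟨x, by omega, rfl⟩
  have hfin := key k le_rfl
  rw [huniv] at hfin
  intro g hg hδ
  obtain ⟨h, h1, h2⟩ := hfin g (fun T _ hT => hg T hT) (fun T _ hT => hδ T hT)
  exact ⟨h, fun T hT => h1 T (Finset.subset_univ T) hT, fun T hT => h2 T (Finset.subset_univ T) hT⟩

end

end Pool.Agent.RegRed
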