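import Mathlib
import Pool.Agent.Lib.MP_724d4c_ag.VerD
import Pool.Agent.Lib.MP_724d4c_ag.Chain

/-! Veronese, part E: the curves are arithmetically Cohen-Macaulay. -/

set_option autoImplicit false

namespace Pool.Agent.RegRed

open MvPolynomial

noncomputable section

variable {n : ℕ}

/-- `van_seq` in low cohomological degrees, without a condition on `d`. -/
theorem van_seq_low (f : ℕ → MvPolynomial (Fin n) ℂ) (e : ℕ → ℕ)
    (J : ℕ → Ideal (MvPolynomial (Fin n) ℂ)) (m : ℕ) (h0 : J 0 = ⊥)
    (hs : ∀ i, i < m → J (i + 1) = J i ⊔ Ideal.span {f i})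
    (hf : ∀ i, i < m → (f i).IsHomogeneous (e i))
    (hn : ∀ i, i < m → ∀ g, f i * g ∈ J i → g ∈ J i) {p : ℕ} {d : ℤ} (hp : 1 ≤ p)
    (hd : p + m < n) : Van (J m) p d := by
  have hhom : ∀ i, i ≤ m → IsHomog (J i) := by
    intro i
    induction i with
    | zero =>
      intro _
      rw [h0]
      exact ST_isHomog_bot
    | succ i ih =>
      intro hi
      rw [hs i (by omega)]
      exact ST_isHomog_sup (ih (by omega)) (hf i (by omega))
  have key : ∀ k, k ≤ m → ∀ (p : ℕ) (d : ℤ), 1 ≤ p → p + k < n → Van (J k) p d := by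
    intro k
    induction k with
    | zero =>
      intro _ p d hp hd
      rw [h0]
      intro g hg hδ
      obtain ⟨h, h1, h2⟩ := serre hp (fun e => absurd e (by omega)) g hg
        (fun T hT => Loc_bot (hδ T hT))
      refine ⟨h, h1, fun T hT => ?_⟩
      rw [h2 T hT, sub_self]
      exact Loc_zero _ _ _
    | succ k ih =>
      intro hk p d hp hd
      rw [hs k (by omega)]
      exact van_step (hhom k (by omega)) (hf k (by omega)) (hn k (by omega))
        (ih (by omega) _ _ (by omega) (by omega)) (ih (by omega) _ _ hp (by omega))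
  exact key m le_rfl p d hp hd

theorem curve_van_one (k a : ℕ) (ha : 1 ≤ a) (b : ℕ → ℕ) (hb : ∀ j, 1 ≤ b j) (d : ℤ) :
    Van (curveIdeal k a b) 1 d := by
  have hset : chainSet k b k = Set.range (chainForm k b) := by
    ext q
    constructor
    · rintro ⟨j, _, rfl⟩
      exact ⟨j, rfl⟩
    · rintro ⟨j, rfl⟩
      exact ⟨j, j.2, rfl⟩
  have hcur : curveIdeal k a b = Ideal.span (chainSet k b k) ⊔ Ideal.span {lastForm k a} := by
    unfold curveIdeal
    rw [Ideal.span_union, hset]
  have key := van_seq_low (n := k + 3)
    (fun i => if h : i < k then chainForm k b ⟨i, h⟩ else lastForm k a)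
    (fun i => if i < k then b i else a + 1)
    (fun i => if i ≤ k then Ideal.span (chainSet k b i) else curveIdeal k a b) (k + 1)
    (p := 1) (d := d) ?_ ?_ ?_ ?_ le_rfl (by omega)
  · simpa using key
  · have h0 : chainSet k b 0 = ∅ := by
      ext q
      simp [chainSet]
    simp [h0]
  · intro i hi
    rcases Nat.lt_or_ge i k with h | h
    · have e1 : i + 1 ≤ k := h
      have e2 : i ≤ k := h.le
      simp only [e1, e2, h, if_true, dif_pos]
      rw [← Ideal.span_union]
      congr 1
      ext q
      constructor
      · rintro ⟨j, hj, rfl⟩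
        rcases Nat.lt_or_ge (j : ℕ) i with h' | h'
        · exact Or.inl ⟨j, h', rfl⟩
        · refine Or.inr ?_
          have : j = ⟨i, h⟩ := Fin.ext (by simp; omega)
          rw [this]
          rfl
      · rintro (⟨j, hj, rfl⟩ | hq)
        · exact ⟨j, by omega, rfl⟩
        · rw [Set.mem_singleton_iff] at hq
          exact ⟨⟨i, h⟩, by simp, hq⟩
    · have e : i = k := by omega
      subst e
      simp only [le_refl, lt_irrefl, if_true, dif_neg, not_false_eq_true,
        show ¬ (i + 1 ≤ i) by omega, if_false]
      exact hcur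
  · intro i hi
    by_cases h : i < k
    · simp only [h, dif_pos, if_true]
      exact chainForm_hom k b hb ⟨i, h⟩
    · simp only [h, dif_neg, if_false, not_false_eq_true]
      exact lastForm_hom k a
  · intro i hi g hg
    rcases Nat.lt_or_ge i k with h | h
    · have e2 : i ≤ k := h.le
      simp only [e2, h, if_true, dif_pos] at hg ⊢
      exact chain_nzd k b hb ⟨i, h⟩ g hg
    · have e : i = k := by omega
      subst e
      simp only [le_refl, lt_irrefl, if_true, dif_neg, not_false_eq_true, hset] at hg ⊢
      exact last_nzd i a ha b hb g hg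

end

end Pool.Agent.RegRed
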