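import Mathlib
import Pool.Agent.Lib.MP_724d4c_ag.VerC

/-! Veronese, part F: vanishing on the Veronese transform implies vanishing on the scheme, in every
cohomological degree. -/

set_option autoImplicit false

namespace Pool.Agent.RegRed

open MvPolynomial

noncomputable section

section Insert

variable {M : ℕ} {L : Type} [AddCommGroup L] [Module ℂ L]

/-- The cochain `T ↦ g T` for `j ∉ T`, and `± κ_i g (T \ j)` for `j ∈ T`. -/
private def VerF_ext (i j : Fin M) (g : Finset (Fin M) → L) (T : Finset (Fin M)) : L :=
  if j ∈ T then sgn j T • kap i g (T.erase j) else g T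

private theorem VerF_ext_delta_not (i j : Fin M) (g : Finset (Fin M) → L) (T : Finset (Fin M))
    (hj : j ∉ T) : delta (VerF_ext i j g) T = delta g T := by
  refine Finset.sum_congr rfl fun a _ => ?_
  unfold VerF_ext
  rw [if_neg (fun h => hj (Finset.mem_of_mem_erase h))]

private theorem VerF_ext_delta_mem (i j : Fin M) (g : Finset (Fin M) → L) (T : Finset (Fin M))
    (hj : j ∈ T) : delta (VerF_ext i j g) T = sgn j T • kap i (delta g) (T.erase j) := by
  classical
  have h1 : delta (VerF_ext i j g) T = sgn j T • g (T.erase j) +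
      ∑ a ∈ T.erase j, sgn a T • VerF_ext i j g (T.erase a) := by
    unfold delta
    rw [← Finset.add_sum_erase T _ hj]
    congr 1
    unfold VerF_ext
    rw [if_neg (Finset.notMem_erase j T)]
  have h2 : ∑ a ∈ T.erase j, sgn a T • VerF_ext i j g (T.erase a) =
      - (sgn j T • delta (kap i g) (T.erase j)) := by
    unfold delta
    rw [Finset.smul_sum, ← Finset.sum_neg_distrib]
    refine Finset.sum_congr rfl fun a ha => ?_
    obtain ⟨haj, haT⟩ := Finset.mem_erase.1 ha
    unfold VerF_ext
    rw [if_pos (Finset.mem_erase.2 ⟨Ne.symm haj, hj⟩), smul_smul, smul_smul,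
      sgn_erase a j T haT hj haj, Finset.erase_right_comm, neg_smul]
  rw [h1, h2, ← sub_eq_add_neg, ← smul_sub]
  congr 1
  conv_lhs => rw [← delta_kap i g (T.erase j)]
  abel

/-- Removing the open set `j`, contained in the open set `i`. -/
theorem vanOn_of_insert {P Q : Finset (Fin M) → Submodule ℂ L} {B : Finset (Fin M)} {i j : Fin M}
    (hi : i ∈ B) (hj : j ∉ B) (hP : ∀ T, T ⊆ B → P (insert i T) ≤ P (insert j T))
    (hQ : ∀ T, T ⊆ B → Q (insert i T) ≤ Q (insert j T)) {p : ℕ}
    (h : VanOn P Q (insert j B) p) : VanOn P Q B p := by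
  classical
  intro g hg hδ
  have hsub : ∀ T, T ⊆ insert j B → T.erase j ⊆ B := by
    intro T hT x hx
    obtain ⟨hxj, hxT⟩ := Finset.mem_erase.1 hx
    exact (Finset.mem_insert.1 (hT hxT)).resolve_left hxj
  have hnot : ∀ T, T ⊆ insert j B → j ∉ T → T ⊆ B := by
    intro T hT hjT x hx
    refine (Finset.mem_insert.1 (hT hx)).resolve_left ?_
    rintro rfl
    exact hjT hx
  obtain ⟨h0, h1, h2⟩ := h (VerF_ext i j g) (fun T hT hc => by
      by_cases hjT : j ∈ T
      · unfold VerF_ext
        rw [if_pos hjT]
        refine Submodule.smul_mem _ _ ?_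
        unfold kap
        split_ifs with hiT
        · exact Submodule.zero_mem _
        · refine Submodule.smul_mem _ _ ?_
          have h3 := hP (T.erase j) (hsub T hT)
          rw [Finset.insert_erase hjT] at h3
          refine h3 (hg _ (Finset.insert_subset hi (hsub T hT)) ?_)
          rw [Finset.card_insert_of_notMem hiT, Finset.card_erase_add_one hjT, hc]
      · unfold VerF_ext
        rw [if_neg hjT]
        exact hg T (hnot T hT hjT) hc)
    (fun T hT hc => by
      by_cases hjT : j ∈ T
      · rw [VerF_ext_delta_mem i j g T hjT]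
        refine Submodule.smul_mem _ _ ?_
        unfold kap
        split_ifs with hiT
        · exact Submodule.zero_mem _
        · refine Submodule.smul_mem _ _ ?_
          have h3 := hQ (T.erase j) (hsub T hT)
          rw [Finset.insert_erase hjT] at h3
          refine h3 (hδ _ (Finset.insert_subset hi (hsub T hT)) ?_)
          rw [Finset.card_insert_of_notMem hiT, Finset.card_erase_add_one hjT, hc]
      · rw [VerF_ext_delta_not i j g T hjT]
        exact hδ T (hnot T hT hjT) hc)
  refine ⟨h0, fun T hT hc => h1 T (hT.trans (Finset.subset_insert j B)) hc, fun T hT hc => ?_⟩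
  have h3 := h2 T (hT.trans (Finset.subset_insert j B)) hc
  have h4 : VerF_ext i j g T = g T := by
    unfold VerF_ext
    rw [if_neg (fun h => hj (hT h))]
  rwa [h4] at h3

end Insert

variable {n M m : ℕ}

theorem vanOn_of_univ {v : ℕ} (hv : 1 ≤ v) {α : Fin (n + m) → Fin n → ℕ} (hα : VerData v α)
    {K : Ideal (MvPolynomial (Fin n) ℂ)} {e : ℤ} {p : ℕ}
    (h : VanOn (fun T => LocS ⊤ (verA α T) e) (fun T => LocS K (verA α T) e) Finset.univ p) :
    VanOn (fun T => LocS ⊤ (verA α T) e) (fun T => LocS K (verA α T) e)
      (Finset.univ.map (Fin.castAddEmb m)) p := by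
  classical
  have key : ∀ B : Finset (Fin (n + m)), VanOn (fun T => LocS ⊤ (verA α T) e)
      (fun T => LocS K (verA α T) e) (Finset.univ.map (Fin.castAddEmb m) ∪ B) p →
      VanOn (fun T => LocS ⊤ (verA α T) e) (fun T => LocS K (verA α T) e)
      (Finset.univ.map (Fin.castAddEmb m)) p := by
    intro B
    induction B using Finset.induction_on with
    | empty =>
      intro h
      rwa [Finset.union_empty] at h
    | insert j B _ ih =>
      intro h
      rw [Finset.union_insert] at h
      by_cases hj : j ∈ Finset.univ.map (Fin.castAddEmb m) ∪ B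
      · rw [Finset.insert_eq_of_mem hj] at h
        exact ih h
      · obtain ⟨i0, hi0⟩ : ∃ i0, α j i0 ≠ 0 := by
          by_contra hcon
          push Not at hcon
          have := hα.deg j
          rw [Finset.sum_eq_zero fun i _ => hcon i] at this
          omega
        have hA : ∀ T : Finset (Fin (n + m)),
            verA α (insert (Fin.castAddEmb m i0) T) ⊆ verA α (insert j T) := by
          intro T i hi
          obtain ⟨j', hj', h'⟩ := mem_verA.1 hi
          rcases Finset.mem_insert.1 hj' with h1 | h1
          · rw [h1, Fin.castAddEmb_apply, hα.pure] at h'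
            by_cases hii : i = i0
            · rw [hii]
              exact mem_verA.2 ⟨j, Finset.mem_insert_self _ _, hi0⟩
            · rw [Pi.single_eq_of_ne hii] at h'
              exact absurd rfl h'
          · exact mem_verA.2 ⟨j', Finset.mem_insert_of_mem h1, h'⟩
        refine ih (vanOn_of_insert (i := Fin.castAddEmb m i0) (Finset.mem_union_left _
          (Finset.mem_map.2 ⟨i0, Finset.mem_univ _, rfl⟩)) hj ?_ ?_ h)
        · intro T _ x hx
          exact Loc_mono le_rfl (hA T) hx
        · intro T _ x hx
          exact Loc_mono le_rfl (hA T) hx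
  refine key Finset.univ ?_
  rwa [Finset.union_eq_right.2 (Finset.subset_univ _)]

theorem van_of_base {v : ℕ} (hv : 1 ≤ v) {α : Fin (n + m) → Fin n → ℕ} (hα : VerData v α)
    {K : Ideal (MvPolynomial (Fin n) ℂ)} {e : ℤ} {p : ℕ}
    (h : VanOn (fun T => LocS ⊤ (verA α T) e) (fun T => LocS K (verA α T) e)
      (Finset.univ.map (Fin.castAddEmb m)) p) : Van K p e := by
  classical
  intro g hg hδ
  have hf : ∀ T0 : Finset (Fin n),
      (Finset.univ.filter fun i => Fin.castAddEmb m i ∈ T0.map (Fin.castAddEmb m)) = T0 := by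
    intro T0
    ext i
    simp
  obtain ⟨h0, h1, h2⟩ := h (fun T => g (Finset.univ.filter fun i => Fin.castAddEmb m i ∈ T))
    (fun T hTB hT => by
      obtain ⟨T0, _, rfl⟩ := Finset.subset_map_iff.1 hTB
      rw [Finset.card_map] at hT
      change g _ ∈ Loc _ _ _
      rw [hf, verA_map hv hα]
      exact hg T0 hT)
    (fun T hTB hT => by
      obtain ⟨T0, _, rfl⟩ := Finset.subset_map_iff.1 hTB
      rw [Finset.card_map] at hT
      change _ ∈ Loc _ _ _
      rw [verA_map hv hα, delta_map]
      simp only [hf]
      exact hδ T0 hT)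
  refine ⟨fun T => h0 (T.map (Fin.castAddEmb m)), fun T hT => ?_, fun T hT => ?_⟩
  · have := h1 (T.map (Fin.castAddEmb m)) (Finset.map_subset_map.2 (Finset.subset_univ T))
      (by rw [Finset.card_map, hT])
    change _ ∈ Loc _ _ _ at this
    rw [verA_map hv hα] at this
    exact this
  · have := h2 (T.map (Fin.castAddEmb m)) (Finset.map_subset_map.2 (Finset.subset_univ T))
      (by rw [Finset.card_map, hT])
    change _ ∈ Loc _ _ _ at this
    rw [verA_map hv hα, delta_map] at this
    simp only [hf] at this
    exact this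

/-- Vanishing for the Veronese transform of `K` in degree `d` implies vanishing for `K` in degree
`v d`. -/
theorem van_of_comap {v : ℕ} (hv : 1 ≤ v) {α : Fin (n + m) → Fin n → ℕ} (hα : VerData v α)
    {K : Ideal (MvPolynomial (Fin n) ℂ)} {p : ℕ} {d : ℤ} (h : Van (K.comap (verP α)) p d) :
    Van K p (v * d) := by
  refine van_of_base hv hα (vanOn_of_univ hv hα ?_)
  intro g hg hδ
  have hch : ∀ T : Finset (Fin (n + m)), ∃ f : Lau (n + m), T.card = p →
      f ∈ Loc ⊤ T d ∧ verL α f = g T := by
    intro T
    by_cases hT : T.card = p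
    · obtain ⟨f, hf, hf2⟩ := verL_lift hv hα.deg hα.surj (hg T (Finset.subset_univ T) hT)
      exact ⟨f, fun _ => ⟨hf, hf2⟩⟩
    · exact ⟨0, fun h => absurd h hT⟩
  choose G hG using hch
  have hdel : ∀ T : Finset (Fin (n + m)), T.card = p + 1 → verL α (delta G T) = delta g T := by
    intro T hT
    rw [verL_delta]
    refine Finset.sum_congr rfl fun a ha => ?_
    simp only
    rw [(hG _ (by rw [Finset.card_erase_of_mem ha, hT]; rfl)).2]
  obtain ⟨H, H1, H2⟩ := h G (fun T hT => (hG T hT).1) (fun T hT => by
    refine mem_of_verL (d' := v * d) ?_ ?_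
    · refine Loc_sum _ _ fun a ha => Loc_smul _ (Loc_mono le_rfl (Finset.erase_subset a T)
        (hG _ (by rw [Finset.card_erase_of_mem ha, hT]; rfl)).1)
    · rw [hdel T hT]
      exact hδ T (Finset.subset_univ T) hT)
  refine ⟨fun T => verL α (H T), fun T _ hT => ?_, fun T _ hT => ?_⟩
  · change _ ∈ Loc _ _ _
    refine verL_mem hα.deg ?_
    rw [Ideal.comap_top]
    exact H1 T hT
  · change _ ∈ Loc _ _ _
    have h3 := verL_mem hα.deg (H2 T hT)
    rw [map_sub, (hG T hT).2, verL_delta] at h3
    exact h3

end

end Pool.Agent.RegRed
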