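import Mathlib
import Pool.Agent.Lib.MP_724d4c_ag.VerE
import Pool.Agent.Lib.MP_724d4c_ag.XMum
import Pool.Agent.Lib.MP_724d4c_ag.Main

/-! Veronese: the regularity of `X_red` is not bounded by a function of the regularity of `X`. -/

set_option autoImplicit false

namespace Pool.Agent.RegRed

open MvPolynomial

noncomputable section

variable {n m : ℕ}

theorem verP_hom {v : ℕ} {α : Fin (n + m) → Fin n → ℕ} (hα : VerData v α)
    {f : MvPolynomial (Fin (n + m)) ℂ} {d : ℕ} (hf : f.IsHomogeneous d) :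
    (verP α f).IsHomogeneous (v * d) := by
  refine hf.aeval _ fun j => ?_
  refine isHomogeneous_monomial _ ?_
  rw [Finsupp.degree_eq_sum]
  exact hα.deg j

theorem verP_hc {v : ℕ} (hv : 1 ≤ v) {α : Fin (n + m) → Fin n → ℕ} (hα : VerData v α)
    (f : MvPolynomial (Fin (n + m)) ℂ) (d : ℕ) :
    homogeneousComponent (v * d) (verP α f) = verP α (homogeneousComponent d f) := by
  have h1 : verP α f = ∑ i ∈ Finset.range (f.totalDegree + 1),
      verP α (homogeneousComponent i f) := by
    conv_lhs => rw [← sum_homogeneousComponent f]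
    rw [map_sum]
  have h2 : ∀ i, homogeneousComponent (v * d) (verP α (homogeneousComponent i f)) =
      if i = d then verP α (homogeneousComponent d f) else 0 := by
    intro i
    have h3 : verP α (homogeneousComponent i f) ∈ homogeneousSubmodule (Fin n) ℂ (v * i) :=
      (mem_homogeneousSubmodule _ _).mpr (verP_hom hα (homogeneousComponent_isHomogeneous i f))
    rw [homogeneousComponent_of_mem h3]
    by_cases hi : i = d
    · subst hi
      rw [if_pos rfl, if_pos rfl]
    · rw [if_neg hi, if_neg]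
      intro h
      exact hi (Nat.eq_of_mul_eq_mul_left (by omega) h.symm)
  rw [h1, map_sum]
  simp only [h2]
  rw [Finset.sum_ite_eq']
  split_ifs with h
  · rfl
  · rw [Finset.mem_range, not_lt] at h
    rw [homogeneousComponent_eq_zero _ _ (by omega), map_zero]

theorem isHomog_comap {v : ℕ} (hv : 1 ≤ v) {α : Fin (n + m) → Fin n → ℕ} (hα : VerData v α)
    {K : Ideal (MvPolynomial (Fin n) ℂ)} (hK : IsHomog K) : IsHomog (K.comap (verP α)) := by
  intro f hf d
  rw [Ideal.mem_comap] at hf ⊢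
  rw [← verP_hc hv hα]
  exact hK _ hf _

theorem coh_of_van {K : Ideal (MvPolynomial (Fin n) ℂ)} {d : ℤ} (hn : n ≠ 2)
    (h : Van K 1 d) : CohVanish K 1 d := by
  intro c hc hδ
  obtain ⟨k, h1, h2⟩ := serre (p := 2) (d := d) (by omega) (fun e => absurd e.symm hn) c
    (fun T hT => Loc_mono le_top (Finset.Subset.refl T) (hc T hT)) hδ
  obtain ⟨h', h3, h4⟩ := h k
    (fun T hT => h1 T (by rw [hT])) (fun T hT => by rw [h2 T hT]; exact hc T hT)
  refine ⟨fun T => k T - delta h' T, fun T hT => h4 T hT, fun T hT => ?_⟩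
  rw [ST_delta_sub, delta_delta, sub_zero, h2 T hT]

theorem unbounded (k : ℕ) (hk : 1 ≤ k) : ∃ C : ℕ, ∀ N : ℕ, 1 ≤ N →
    ∃ (M : ℕ) (J : Ideal (MvPolynomial (Fin M) ℂ)), M ≤ C * N ^ (k + 2) ∧ IsHomog J ∧
      (∀ q : ℤ, 3 ≤ q → IsReg J q) ∧ (∀ d : ℤ, CohVanish J 1 d) ∧
      ∀ q : ℤ, q ≤ (N : ℤ) ^ k → ¬ IsReg J.radical q := by
  refine ⟨k + 3 + ((k + 1) * (2 * k + 5) + 1) ^ (k + 2), fun N hN => ?_⟩
  set s : ℕ := 2 * (k + 1) * N + 3 with hs
  set v : ℕ := (k + 1) * s with hvdef
  have hkN : 1 ≤ (k + 1) * N := Nat.mul_pos (by omega) hN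
  have hs5 : 5 ≤ s := by
    have : 2 * (k + 1) * N = 2 * ((k + 1) * N) := by ring
    omega
  have hv : 1 ≤ v := Nat.mul_pos (by omega) (by omega)
  set b : ℕ → ℕ := fun _ => s with hb
  have hb1 : ∀ j, 1 ≤ b j := fun _ => by simp only [hb]; omega
  obtain ⟨hI1, hI2, _⟩ := main k s b hk (by omega) hb1 (by simp only [hb]; omega)
  have hreg : ∀ q : ℤ, (v : ℤ) ≤ q → IsReg (curveIdeal k s b) q := by
    intro q hq
    refine hI2 q ?_
    simp only [hb, Finset.sum_const, Finset.card_range, nsmul_eq_mul]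
    simp only [hvdef] at hq
    push_cast at hq ⊢
    have : (1 : ℤ) ≤ k := by exact_mod_cast hk
    nlinarith
  obtain ⟨m, α, hm, hα⟩ := verData_exists (k + 2) v
  refine ⟨k + 2 + 1 + m, (curveIdeal k s b).comap (verP α), ?_, isHomog_comap hv hα hI1,
    ?_, ?_, ?_⟩
  · have h1 : v + 1 ≤ ((k + 1) * (2 * k + 5) + 1) * N := by
      have h2 : 3 ≤ 3 * N := by omega
      have h3 : s ≤ (2 * k + 5) * N := by
        have : (2 * k + 5) * N = 2 * (k + 1) * N + 3 * N := by ring
        omega
      calc v + 1 ≤ (k + 1) * ((2 * k + 5) * N) + N := by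
            have := Nat.mul_le_mul_left (k + 1) h3
            omega
        _ = _ := by ring
    have h2 : m ≤ ((k + 1) * (2 * k + 5) + 1) ^ (k + 2) * N ^ (k + 2) := by
      rw [← mul_pow]
      exact hm.trans (Nat.pow_le_pow_left h1 _)
    have h3 : 1 ≤ N ^ (k + 2) := Nat.one_le_pow _ _ hN
    have h4 : k + 3 ≤ (k + 3) * N ^ (k + 2) := Nat.le_mul_of_pos_right _ h3
    rw [add_mul]
    omega
  · intro q hq
    refine isReg_mono (isReg_of_van_all (q := 3) (by norm_num) fun p hp => ?_) hq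
    refine van_comap hv hα ?_
    have hv1 : (1 : ℤ) ≤ v := by exact_mod_cast hv
    rcases Nat.lt_or_ge p 3 with h | h
    · interval_cases p
      · exact curve_van_one k s (by omega) b hb1 _
      · have h1 := van_of_isReg (m := (v : ℤ) + 2) (by linarith) (hreg _ (by linarith))
          (p := 2) (by norm_num)
        have e : (v : ℤ) * (3 - (2 : ℕ)) = (v : ℤ) + 2 - (2 : ℕ) := by push_cast; ring
        rw [e]
        exact h1
    · exact curve_van k s (by omega) b hb1 h _
  · intro d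
    exact coh_of_van (by omega) (van_comap hv hα (curve_van_one k s (by omega) b hb1 _))
  · intro q hq hr
    have h1 := isReg_mono hr (m' := (N : ℤ) ^ k + 2) (by linarith)
    have hNk : (1 : ℤ) ≤ (N : ℤ) ^ k := one_le_pow₀ (by exact_mod_cast hN)
    have h2 := van_of_isReg (by linarith) h1 (le_refl 1)
    rw [← Ideal.comap_radical] at h2
    have h3 := coh_of_van (by omega) (van_one_of_comap hv hα h2)
    have e : (v : ℤ) * ((N : ℤ) ^ k + 2 - (1 : ℕ)) = v * ((N : ℤ) ^ k + 1) := by push_cast; ring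
    rw [e] at h3
    refine h1_ne k s b hk (by omega) hb1 (by simp only [hb]; omega) 0 _ le_rfl (by omega)
      ?_ ?_ h3
    · have : (1 : ℤ) ≤ v := by exact_mod_cast hv
      nlinarith
    · have hR : (Rr k b 1 : ℤ) = (s : ℤ) ^ (k - 1) := by simp [Rr, hb]
      rw [hR, add_zero]
      have h4 : (s : ℤ) - 3 = 2 * ((k + 1) * N) := by
        simp only [hs]
        push_cast
        ring
      have h5 : ((k : ℤ) + 1) * ((N : ℤ) ^ k + 1) ≤ 2 * ((k + 1) * N) * (s : ℤ) ^ (k - 1) := by
        have h6 : ((N : ℤ)) ^ (k - 1) ≤ (s : ℤ) ^ (k - 1) := by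
          refine pow_le_pow_left₀ (by positivity) ?_ _
          have : N ≤ s := by
            have : N ≤ (k + 1) * N := Nat.le_mul_of_pos_left _ (by omega)
            have h7 : 2 * (k + 1) * N = 2 * ((k + 1) * N) := by ring
            omega
          exact_mod_cast this
        have h8 : (N : ℤ) * (N : ℤ) ^ (k - 1) = (N : ℤ) ^ k := by
          rw [← pow_succ', Nat.sub_add_cancel hk]
        have h9 : (0 : ℤ) ≤ ((k : ℤ) + 1) * N := by positivity
        have h10 : ((k : ℤ) + 1) * N * (N : ℤ) ^ (k - 1) ≤ ((k : ℤ) + 1) * N * (s : ℤ) ^ (k - 1) :=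
          mul_le_mul_of_nonneg_left h6 h9
        have h11 : ((k : ℤ) + 1) * N * (N : ℤ) ^ (k - 1) = ((k : ℤ) + 1) * (N : ℤ) ^ k := by
          rw [mul_assoc, h8]
        nlinarith
      simp only [hb]
      rw [h4]
      simp only [hvdef]
      push_cast
      have hs0 : (0 : ℤ) ≤ s := by positivity
      have h12 := mul_le_mul_of_nonneg_left h5 hs0
      calc ((k : ℤ) + 1) * s * ((N : ℤ) ^ k + 1) = s * (((k : ℤ) + 1) * ((N : ℤ) ^ k + 1)) := by ring
        _ ≤ s * (2 * ((k + 1) * N) * (s : ℤ) ^ (k - 1)) := h12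
        _ = _ := by ring

end

end Pool.Agent.RegRed
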