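import Mathlib
import Pool.Agent.Lib.MP_724d4c_ag.VerF
import Pool.Agent.Lib.MP_724d4c_ag.VerMain
import Pool.Agent.Lib.MP_724d4c_ag.NFinal

/-! Veronese, part G: schemes of bounded regularity with `X_red` a variety of large regularity. -/

set_option autoImplicit false

namespace Pool.Agent.RegRed

open MvPolynomial

noncomputable section

theorem verP_pure {n m v : ℕ} {α : Fin (n + m) → Fin n → ℕ} (hα : VerData v α) (i : Fin n) :
    verP α (X (Fin.castAdd m i)) = X i ^ v := by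
  unfold verP
  rw [aeval_X, hα.pure, X_pow_eq_monomial, Finsupp.equivFunOnFinite_symm_single]

theorem van_of_card {n : ℕ} (K : Ideal (MvPolynomial (Fin n) ℂ)) {p : ℕ} (hp : n < p) (d : ℤ) :
    Van K p d := by
  intro g hg _
  refine ⟨0, fun T hT => Loc_zero _ _ _, fun T hT => ?_⟩
  exfalso
  have := Finset.card_le_univ T
  rw [Fintype.card_fin] at this
  omega

theorem integral_unbounded_A (k d v : ℕ) (hk : 1 ≤ k) (hd : 2 ≤ d) (hv : 8 * d + 182 * k ^ 2 = v)
    (hvd : v ≤ d ^ 2 ^ k) :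
    ∃ (M : ℕ) (J : Ideal (MvPolynomial (Fin M) ℂ)), M ≤ 2 * (v + 1) ^ (40 * k + 23) ∧
      IsHomog J ∧ J.radical.IsPrime ∧ (∃ i, X i ∉ J.radical) ∧
      (∀ q : ℤ, 40 * k + 25 ≤ q → IsReg J q) ∧
      ∀ q : ℤ, v * q ≤ (d : ℤ) ^ 2 ^ k → ¬ IsReg J.radical q := by
  obtain ⟨I, s, h1, h2, ⟨i0, hi0⟩, h3, h4, _, h6⟩ := partC_int k d hk hd
  have hv1 : 1 ≤ v := by omega
  have hvZ : (1 : ℤ) ≤ v := by exact_mod_cast hv1
  have hvE : (8 * (d : ℤ) + 182 * k ^ 2) = v := by exact_mod_cast hv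
  obtain ⟨m, α, hm, hα⟩ := verData_exists (40 * k + 23) v
  have hrad : (I.comap (verP α)).radical = I.radical.comap (verP α) :=
    (Ideal.comap_radical _ _).symm
  refine ⟨40 * k + 23 + 1 + m, I.comap (verP α), ?_, isHomog_comap hv1 hα h1, ?_, ?_, ?_, ?_⟩
  · have e1 : 40 * k + 24 ≤ (v + 1) ^ (40 * k + 23) := by
      have e2 : 40 * k + 23 < 2 ^ (40 * k + 23) := Nat.lt_two_pow_self
      have e3 : 2 ^ (40 * k + 23) ≤ (v + 1) ^ (40 * k + 23) := Nat.pow_le_pow_left (by omega) _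
      omega
    omega
  · rw [hrad]
    exact Ideal.IsPrime.comap _
  · refine ⟨Fin.castAdd m i0, ?_⟩
    rw [hrad, Ideal.mem_comap, verP_pure hα]
    exact fun h => hi0 (h2.mem_of_pow_mem _ h)
  · intro q hq
    refine isReg_of_van_all (by linarith) fun p hp => van_comap hv1 hα ?_
    rcases Nat.lt_or_ge (40 * k + 23 + 1) p with h | h
    · exact van_of_card _ h _
    · have hp' : (p : ℤ) ≤ 40 * k + 24 := by exact_mod_cast h
      have h5 : (v : ℤ) ≤ v * (q - p) + p := by nlinarith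
      have h7 := van_of_isReg (m := (v : ℤ) * (q - p) + p) (by linarith)
        (h3 _ (by rw [hvE]; exact h5)) hp
      rwa [add_sub_cancel_right] at h7
  · intro q hq hr
    set D : ℤ := (d : ℤ) ^ 2 ^ k with hD
    have hvD : (v : ℤ) ≤ D := by
      rw [hD]
      exact_mod_cast hvd
    -- a multiple of `v` in the range
    set t : ℤ := (s + k + D) / v with ht
    have ht1 : v * t ≤ s + k + D := by
      rw [mul_comm]
      exact Int.ediv_mul_le _ (by omega)
    have ht2 : s + k + D < v * t + v := by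
      have := Int.lt_ediv_add_one_mul_self (s + k + D) (by omega : (0 : ℤ) < v)
      rw [← ht] at this
      linarith
    have hqt : q ≤ t + (16 * k + 11 : ℕ) := by
      have h8 : (v : ℤ) * q < v * (t + 1) := by
        have : (0 : ℤ) ≤ k := by positivity
        linarith
      have h9 : q < t + 1 := lt_of_mul_lt_mul_left h8 (by omega)
      push_cast
      have : (0 : ℤ) ≤ k := by positivity
      linarith
    have htpos : 0 ≤ t := Int.ediv_nonneg (by positivity) (by omega)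
    have h10 := van_of_isReg (m := t + (16 * k + 11 : ℕ)) (by push_cast; linarith)
      (isReg_mono hr hqt) (p := 16 * k + 11) (by omega)
    rw [add_sub_cancel_right, hrad] at h10
    refine h6 (v * t) ?_ ht1 (van_of_comap hv1 hα h10)
    linarith

theorem integral_unbounded_B (k : ℕ) (hk : 1 ≤ k) : ∃ C : ℕ, ∀ N : ℕ, 1 ≤ N →
    ∃ (M : ℕ) (J : Ideal (MvPolynomial (Fin M) ℂ)), M ≤ C * N ^ (40 * k + 23) ∧
      IsHomog J ∧ J.radical.IsPrime ∧ (∃ i, X i ∉ J.radical) ∧
      (∀ q : ℤ, 40 * k + 25 ≤ q → IsReg J q) ∧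
      ∀ q : ℤ, q ≤ (N : ℤ) ^ (2 ^ k - 1) → ¬ IsReg J.radical q := by
  set a : ℕ := 8 + 182 * k ^ 2 with ha
  have ha9 : 9 ≤ a := by
    have : 1 ≤ k ^ 2 := Nat.one_le_pow _ _ hk
    omega
  refine ⟨2 * (9 * a + 1) ^ (40 * k + 23), fun N hN => ?_⟩
  have haN : a ≤ a * N := Nat.le_mul_of_pos_right _ hN
  have h2k : 2 ≤ 2 ^ k := by
    calc 2 = 2 ^ 1 := rfl
      _ ≤ 2 ^ k := Nat.pow_le_pow_right (by norm_num) hk
  have hv9 : 8 * (a * N) + 182 * k ^ 2 ≤ 9 * a * N := by
    have : 9 * a * N = 8 * (a * N) + a * N := by ring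
    omega
  have hkey : 9 * a * N * N ^ (2 ^ k - 1) ≤ (a * N) ^ 2 ^ k := by
    have e1 : N * N ^ (2 ^ k - 1) = N ^ 2 ^ k := by
      rw [← pow_succ']
      congr 1
      omega
    have e2 : 9 * a ≤ a ^ 2 ^ k := by
      calc 9 * a ≤ a * a := Nat.mul_le_mul_right _ ha9
        _ = a ^ 2 := by ring
        _ ≤ a ^ 2 ^ k := Nat.pow_le_pow_right (by omega) h2k
    rw [mul_assoc, e1, mul_pow]
    exact Nat.mul_le_mul_right _ e2
  have hN1 : 1 ≤ N ^ (2 ^ k - 1) := Nat.one_le_pow _ _ hN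
  obtain ⟨M, J, h1, h2, h3, h4, h5, h6⟩ := integral_unbounded_A k (a * N)
    (8 * (a * N) + 182 * k ^ 2) hk (by omega) rfl
    (hv9.trans ((Nat.le_mul_of_pos_right _ hN1).trans hkey))
  refine ⟨M, J, h1.trans ?_, h2, h3, h4, h5, fun q hq => h6 q ?_⟩
  · rw [mul_assoc, ← mul_pow]
    refine Nat.mul_le_mul_left _ (Nat.pow_le_pow_left ?_ _)
    have : (9 * a + 1) * N = 9 * a * N + N := by ring
    omega
  · rcases le_or_gt q 0 with h | h
    · have h7 : ((8 * (a * N) + 182 * k ^ 2 : ℕ) : ℤ) * q ≤ 0 :=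
        mul_nonpos_of_nonneg_of_nonpos (by positivity) h
      exact h7.trans (by positivity)
    · have h7 : ((8 * (a * N) + 182 * k ^ 2 : ℕ) : ℤ) * q ≤
          ((9 * a * N : ℕ) : ℤ) * ((N ^ (2 ^ k - 1) : ℕ) : ℤ) := by
        refine mul_le_mul (by exact_mod_cast hv9) (by exact_mod_cast hq) h.le (by positivity)
      refine h7.trans ?_
      have := hkey
      exact_mod_cast this

end

end Pool.Agent.RegRed
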