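import Mathlib
import Pool.Agent.Lib.MP_724d4c_ag.XCap

/-! Row 724x-CA: variables, degrees, homogeneity. -/

set_option autoImplicit false

namespace Pool.Agent.RegRed

open MvPolynomial

noncomputable section

variable {n m : ℕ} {g : ℕ → MvPolynomial (Fin n) ℂ} {d : ℕ → ℕ}

theorem vY_inj (i j : ℕ) (hi : i < m + 1) (hj : j < m + 1) (h : vY n m i = vY n m j) : i = j := by
  unfold vY at h
  rw [dif_pos (by omega), dif_pos (by omega), Fin.ext_iff] at h
  simp only at h
  omega

theorem vY_ne_vH (j : ℕ) : vY n m j ≠ vH n m := by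
  unfold vY vH
  intro h
  split_ifs at h <;> rw [Fin.ext_iff] at h <;> simp only at h <;> omega

theorem vY_ne_vE (j : ℕ) (hj : j < m + 1) : vY n m j ≠ vE n m := by
  unfold vY vE
  intro h
  rw [dif_pos (by omega), Fin.ext_iff] at h
  simp only at h
  omega

theorem ee_pos (i : ℕ) : 1 ≤ ee d i := by
  cases i <;> simp [ee]

theorem ss_pos (i : ℕ) : 1 ≤ ss i := by
  unfold ss
  split_ifs <;> norm_num

theorem CA_X_free {N : ℕ} {a b : Fin N} (h : a ≠ b) (e : ℕ) :
    a ∉ (X b ^ e : MvPolynomial (Fin N) ℂ).vars := by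
  intro ha
  have h1 := vars_pow (X b : MvPolynomial (Fin N) ℂ) e ha
  rw [vars_X, Finset.mem_singleton] at h1
  exact h h1

theorem CA_cc_free {a : Fin (n + (m + 3))} (hE : a ≠ vE n m) (ha : n ≤ a.val) (i : ℕ) :
    a ∉ (cc n m g i).vars := by
  cases i with
  | zero =>
    show a ∉ (X (vE n m) ^ 2 : MvPolynomial (Fin (n + (m + 3))) ℂ).vars
    exact CA_X_free hE 2
  | succ j =>
    show a ∉ (X (vE n m) * lft n m (g j)).vars
    intro h1
    have h2 := vars_mul _ _ h1
    rw [vars_X, Finset.mem_union, Finset.mem_singleton] at h2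
    rcases h2 with h2 | h2
    · exact hE h2
    · have h3 := vars_rename _ _ h2
      rw [Finset.mem_image] at h3
      obtain ⟨k, -, hk⟩ := h3
      have h4 : (Fin.castAdd (m + 3) k).val = a.val := by rw [hk]
      rw [Fin.val_castAdd] at h4
      have := k.isLt
      omega

theorem CA_vY_val (j : ℕ) (hj : j < m + 1) : n ≤ (vY n m j).val := by
  unfold vY
  rw [dif_pos (by omega)]
  simp only
  omega

theorem XH_free (j : ℕ) (e : ℕ) :
    vY n m j ∉ (X (vH n m) ^ e : MvPolynomial (Fin (n + (m + 3))) ℂ).vars :=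
  CA_X_free (vY_ne_vH j) e

/-- Variables of `rename`: `vars_rename`. -/
theorem cc_free (i j : ℕ) (hj : j < m + 1) : vY n m j ∉ (cc n m g i).vars :=
  CA_cc_free (vY_ne_vE j hj) (CA_vY_val j hj) i

theorem CA_vH_ne : vH n m ≠ vE n m := by
  unfold vH vE
  intro h
  rw [Fin.ext_iff] at h
  simp only at h
  omega

theorem cc_free_H (i : ℕ) : vH n m ∉ (cc n m g i).vars :=
  CA_cc_free CA_vH_ne (by unfold vH; simp only; omega) i

theorem HC_free (i j : ℕ) (hj : j < m + 1) (e : ℕ) :
    vY n m j ∉ (X (vH n m) ^ e + cc n m g i).vars := by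
  intro h
  rcases Finset.mem_union.1 (vars_add_subset _ _ h) with h1 | h1
  · exact XH_free j e h1
  · exact cc_free i j hj h1

/-- The coefficient of `h^e` is `1`, e.g. evaluate at `h = 1` and all other variables `0`. -/
theorem HC_ne (i : ℕ) (e : ℕ) : X (vH n m) ^ e + cc n m g i ≠ 0 := by
  intro h
  have h1 := congrArg (eval (fun k => if k = vH n m then (1 : ℂ) else 0)) h
  have h2 : (vE n m : Fin (n + (m + 3))) ≠ vH n m := fun h => CA_vH_ne h.symm
  have h3 : eval (fun k => if k = vH n m then (1 : ℂ) else 0) (cc n m g i) = 0 := by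
    cases i with
    | zero =>
      show eval _ (X (vE n m) ^ 2 : MvPolynomial (Fin (n + (m + 3))) ℂ) = 0
      rw [map_pow, eval_X, if_neg h2]
      norm_num
    | succ j =>
      show eval _ (X (vE n m) * lft n m (g j)) = 0
      rw [map_mul, eval_X, if_neg h2, zero_mul]
  rw [map_add, map_pow, eval_X, if_pos rfl, h3, one_pow, add_zero, map_zero] at h1
  exact one_ne_zero h1

theorem cc_hom (hg : ∀ j, (g j).IsHomogeneous (d j)) (i : ℕ) :
    (cc n m g i).IsHomogeneous (ee d i) := by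
  cases i with
  | zero => exact isHomogeneous_X_pow _ _
  | succ j =>
    show (X (vE n m) * lft n m (g j)).IsHomogeneous (d j + 1)
    rw [add_comm (d j) 1]
    exact (isHomogeneous_X _ _).mul (hg j).rename_isHomogeneous

theorem XH_hom (e : ℕ) :
    (X (vH n m) ^ e : MvPolynomial (Fin (n + (m + 3))) ℂ).IsHomogeneous e :=
  isHomogeneous_X_pow _ _

theorem I1_hom : IsHomog (I1 n m d) :=
  tow_hom (L := m + 1) (by simp) (fun i _ => XH_hom (ee d i)) le_rfl

theorem I1'_hom : IsHomog (I1' n m d) :=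
  tow_hom (L := m + 1) (by simp) (fun i _ => XH_hom (ee d i)) le_rfl

theorem I2_hom (hg : ∀ j, (g j).IsHomogeneous (d j)) : IsHomog (I2 n m g d) :=
  tow_hom (L := m + 1) (by simp) (fun i _ => (XH_hom (ee d i)).add (cc_hom hg i)) le_rfl

theorem CA_XH1 : ∀ f ∈ ({X (vH n m)} : Set (MvPolynomial (Fin (n + (m + 3))) ℂ)), ∃ e, f.IsHomogeneous e := by
  intro f hf
  rw [Set.mem_singleton_iff] at hf
  exact ⟨1, hf ▸ isHomogeneous_X _ _⟩

theorem K1_hom : IsHomog (K1 n m d) :=
  tow_hom (L := m + 1) CA_XH1 (fun _ _ => isHomogeneous_zero _ _ _) le_rfl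

theorem K2_hom (hg : ∀ j, (g j).IsHomogeneous (d j)) : IsHomog (K2 n m g d) :=
  tow_hom (L := m + 1) CA_XH1 (fun i _ => cc_hom hg i) le_rfl

end

end Pool.Agent.RegRed
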