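import Mathlib
import Pool.Agent.Lib.MP_724d4c_ag.XCap

/-! Row 724x-CB: the sums of the ideals (generators on both sides; `Ideal.span_le`, `Ideal.mem_sup_left`,
`Ideal.subset_span`; work modulo the ideal with `Ideal.Quotient.eq_zero_iff_mem` if convenient). -/

set_option autoImplicit false

namespace Pool.Agent.RegRed

open MvPolynomial

noncomputable section

variable {n m : ℕ} {g : ℕ → MvPolynomial (Fin n) ℂ} {d : ℕ → ℕ}

private theorem cb_tow_le {N : ℕ} {A : Set (MvPolynomial (Fin N) ℂ)} {y : ℕ → Fin N} {e : ℕ → ℕ}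
    {u : ℕ → MvPolynomial (Fin N) ℂ} {s : ℕ → ℕ} {k : ℕ} {J : Ideal (MvPolynomial (Fin N) ℂ)}
    (h1 : ∀ a ∈ A, a ∈ J) (h2 : ∀ i, i < k → (X (y i) ^ e i - u i) ^ s i ∈ J) :
    tow A y e u s k ≤ J := by
  refine Ideal.span_le.2 ?_
  rintro p (hp | ⟨i, hi, rfl⟩)
  · exact h1 p hp
  · exact h2 i hi

private theorem cb_memA {N : ℕ} {A : Set (MvPolynomial (Fin N) ℂ)} {y : ℕ → Fin N} {e : ℕ → ℕ}
    {u : ℕ → MvPolynomial (Fin N) ℂ} {s : ℕ → ℕ} {k : ℕ} {a : MvPolynomial (Fin N) ℂ} (h : a ∈ A) :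
    a ∈ tow A y e u s k := Ideal.subset_span (Or.inl h)

private theorem cb_memF {N : ℕ} {A : Set (MvPolynomial (Fin N) ℂ)} {y : ℕ → Fin N} {e : ℕ → ℕ}
    {u : ℕ → MvPolynomial (Fin N) ℂ} {s : ℕ → ℕ} {k : ℕ} {i : ℕ} (h : i < k) :
    (X (y i) ^ e i - u i) ^ s i ∈ tow A y e u s k := Ideal.subset_span (Or.inr ⟨i, h, rfl⟩)

private theorem cb_memF1 {N : ℕ} {A : Set (MvPolynomial (Fin N) ℂ)} {y : ℕ → Fin N} {e : ℕ → ℕ}
    {u : ℕ → MvPolynomial (Fin N) ℂ} {k : ℕ} {i : ℕ} (h : i < k) :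
    X (y i) ^ e i - u i ∈ tow A y e u (fun _ => 1) k := by
  have := cb_memF (A := A) (y := y) (e := e) (u := u) (s := fun _ => 1) h
  simpa using this

private theorem cb_ee_pos (d : ℕ → ℕ) (i : ℕ) : 1 ≤ ee d i := by
  cases i <;> simp [ee]

private theorem cb_pow_mem {N : ℕ} {J : Ideal (MvPolynomial (Fin N) ℂ)} {a : MvPolynomial (Fin N) ℂ} (h : a ∈ J)
    {e : ℕ} (he : 1 ≤ e) : a ^ e ∈ J := by
  obtain ⟨k, rfl⟩ : ∃ k, e = k + 1 := ⟨e - 1, by omega⟩
  rw [pow_succ]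
  exact J.mul_mem_left _ h

theorem I1_sup_H : I1 n m d ⊔ Ideal.span {X (vH n m)} = K1 n m d := by
  have hK : X (vH n m) ∈ K1 n m d := cb_memA (Set.mem_singleton _)
  have hS : X (vH n m) ∈ I1 n m d ⊔ Ideal.span {X (vH n m)} :=
    Ideal.mem_sup_right (Ideal.subset_span (Set.mem_singleton _))
  refine le_antisymm (sup_le (cb_tow_le (fun a ha => ha.elim) (fun i hi => ?_)) ?_) (cb_tow_le ?_ (fun i hi => ?_))
  · rw [pow_one]
    have h1 : X (vY n m i) ^ ee d i - 0 ∈ K1 n m d := cb_memF1 hi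
    have h2 := cb_pow_mem hK (cb_ee_pos d i)
    have := Ideal.sub_mem _ h1 h2
    rwa [sub_zero] at this
  · rw [Ideal.span_le, Set.singleton_subset_iff]
    exact hK
  · rintro a ha
    rw [Set.mem_singleton_iff] at ha
    rw [ha]
    exact hS
  · rw [pow_one, sub_zero]
    have h1 : X (vY n m i) ^ ee d i - X (vH n m) ^ ee d i ∈ I1 n m d ⊔ Ideal.span {X (vH n m)} :=
      Ideal.mem_sup_left (cb_memF1 hi)
    have := Ideal.add_mem _ h1 (cb_pow_mem hS (cb_ee_pos d i))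
    rwa [sub_add_cancel] at this

theorem I2_sup_H : I2 n m g d ⊔ Ideal.span {X (vH n m)} = K2 n m g d := by
  have hK : X (vH n m) ∈ K2 n m g d := cb_memA (Set.mem_singleton _)
  have hS : X (vH n m) ∈ I2 n m g d ⊔ Ideal.span {X (vH n m)} :=
    Ideal.mem_sup_right (Ideal.subset_span (Set.mem_singleton _))
  refine le_antisymm (sup_le (cb_tow_le (fun a ha => ha.elim) (fun i hi => ?_)) ?_) (cb_tow_le ?_ (fun i hi => ?_))
  · rw [pow_one]
    have h1 : X (vY n m i) ^ ee d i - cc n m g i ∈ K2 n m g d := cb_memF1 hi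
    have := Ideal.sub_mem _ h1 (cb_pow_mem hK (cb_ee_pos d i))
    convert this using 1
    ring
  · rw [Ideal.span_le, Set.singleton_subset_iff]
    exact hK
  · rintro a ha
    rw [Set.mem_singleton_iff] at ha
    rw [ha]
    exact hS
  · rw [pow_one]
    have h1 : X (vY n m i) ^ ee d i - (X (vH n m) ^ ee d i + cc n m g i) ∈
        I2 n m g d ⊔ Ideal.span {X (vH n m)} := Ideal.mem_sup_left (cb_memF1 hi)
    have := Ideal.add_mem _ h1 (cb_pow_mem hS (cb_ee_pos d i))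
    convert this using 1
    ring

theorem I1_sup_I2 : I1 n m d ⊔ I2 n m g d = L1 n m g d := by
  refine le_antisymm (sup_le (cb_tow_le (fun a ha => ha.elim) (fun i hi => ?_))
    (cb_tow_le (fun a ha => ha.elim) (fun i hi => ?_))) (cb_tow_le ?_ (fun i hi => ?_))
  · exact cb_memF (s := fun _ => 1) hi
  · rw [pow_one]
    have h1 : X (vY n m i) ^ ee d i - X (vH n m) ^ ee d i ∈ L1 n m g d := cb_memF1 hi
    have h2 : cc n m g i ∈ L1 n m g d := cb_memA ⟨i, hi, rfl⟩
    have := Ideal.sub_mem _ h1 h2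
    convert this using 1
    ring
  · rintro a ⟨i, hi, rfl⟩
    have h1 : X (vY n m i) ^ ee d i - X (vH n m) ^ ee d i ∈ I1 n m d ⊔ I2 n m g d :=
      Ideal.mem_sup_left (cb_memF1 hi)
    have h2 : X (vY n m i) ^ ee d i - (X (vH n m) ^ ee d i + cc n m g i) ∈ I1 n m d ⊔ I2 n m g d :=
      Ideal.mem_sup_right (cb_memF1 hi)
    have := Ideal.sub_mem _ h1 h2
    convert this using 1
    ring
  · exact Ideal.mem_sup_left (cb_memF (s := fun _ => 1) hi)

/-- `(y_j^{e_j} - h^{e_j})² ≡ (ε g_j)² = ε² g_j²` for `j ≥ 1`. -/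
theorem I1'_sup_I2 : I1' n m d ⊔ I2 n m g d = L1' n m g d := by
  have hE : X (vE n m) ^ 2 ∈ L1' n m g d := cb_memA (Set.mem_singleton _)
  have h0 : X (vY n m 0) ^ 2 - X (vH n m) ^ 2 ∈ L1' n m g d := by
    have : X (vY n m 0) ^ ee d 0 - (if (0 : ℕ) = 0 then X (vH n m) ^ 2 else X (vH n m) ^ ee d 0 + cc n m g 0) ∈
      L1' n m g d := cb_memF1 (i := 0) (Nat.succ_pos m)
    simpa [ee] using this
  have hj : ∀ j, j + 1 < m + 1 → X (vY n m (j + 1)) ^ (d j + 1) -
      (X (vH n m) ^ (d j + 1) + X (vE n m) * lft n m (g j)) ∈ L1' n m g d := by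
    intro j hj
    have : X (vY n m (j + 1)) ^ ee d (j + 1) - (if j + 1 = 0 then X (vH n m) ^ 2 else
      X (vH n m) ^ ee d (j + 1) + cc n m g (j + 1)) ∈ L1' n m g d := cb_memF1 hj
    simpa [ee, cc] using this
  have a0 : X (vY n m 0) ^ 2 - X (vH n m) ^ 2 ∈ I1' n m d ⊔ I2 n m g d := by
    have : (X (vY n m 0) ^ ee d 0 - X (vH n m) ^ ee d 0) ^ ss 0 ∈ I1' n m d := cb_memF (Nat.succ_pos m)
    refine Ideal.mem_sup_left ?_
    simpa [ee, ss] using this
  have b0 : X (vY n m 0) ^ 2 - (X (vH n m) ^ 2 + X (vE n m) ^ 2) ∈ I1' n m d ⊔ I2 n m g d := by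
    have : X (vY n m 0) ^ ee d 0 - (X (vH n m) ^ ee d 0 + cc n m g 0) ∈ I2 n m g d := cb_memF1 (Nat.succ_pos m)
    refine Ideal.mem_sup_right ?_
    simpa [ee, cc] using this
  refine le_antisymm (sup_le (cb_tow_le (fun a ha => ha.elim) (fun i hi => ?_))
    (cb_tow_le (fun a ha => ha.elim) (fun i hi => ?_))) (cb_tow_le ?_ (fun i hi => ?_))
  · cases i with
    | zero => simpa [ee, ss] using h0
    | succ j =>
      have h1 := hj j hi
      have h2 : X (vY n m (j + 1)) ^ ee d (j + 1) - X (vH n m) ^ ee d (j + 1) =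
          (X (vY n m (j + 1)) ^ (d j + 1) - (X (vH n m) ^ (d j + 1) + X (vE n m) * lft n m (g j))) +
            X (vE n m) * lft n m (g j) := by
        simp only [ee]
        ring
      have h3 : ss (j + 1) = 2 := by simp [ss]
      rw [h2, h3]
      have h4 := Ideal.add_mem _ (Ideal.mul_mem_left _ (X (vY n m (j + 1)) ^ (d j + 1) -
        (X (vH n m) ^ (d j + 1) + X (vE n m) * lft n m (g j)) + 2 * (X (vE n m) * lft n m (g j))) h1)
        (Ideal.mul_mem_left _ (lft n m (g j) ^ 2) hE)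
      convert h4 using 1
      ring
  · rw [pow_one]
    cases i with
    | zero =>
      have := Ideal.sub_mem _ h0 hE
      convert this using 1
      simp only [ee, cc]
      ring
    | succ j => simpa [ee, cc] using hj j hi
  · intro a ha
    rw [Set.mem_singleton_iff] at ha
    rw [ha]
    have := Ideal.sub_mem _ a0 b0
    convert this using 1
    ring
  · rw [pow_one]
    cases i with
    | zero => simpa [ee] using a0
    | succ j =>
      have : X (vY n m (j + 1)) ^ ee d (j + 1) - (X (vH n m) ^ ee d (j + 1) + cc n m g (j + 1)) ∈ I2 n m g d :=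
        cb_memF1 hi
      refine Ideal.mem_sup_right ?_
      simpa using this

theorem K1_sup_K2 : K1 n m d ⊔ K2 n m g d = MM n m g d := by
  have hH : X (vH n m) ∈ MM n m g d := Ideal.subset_span (Or.inl (Or.inl (Set.mem_singleton _)))
  have hc : ∀ i, i < m + 1 → cc n m g i ∈ MM n m g d := fun i hi =>
    Ideal.subset_span (Or.inl (Or.inr ⟨i, hi, rfl⟩))
  have hy : ∀ i, i < m + 1 → X (vY n m i) ^ ee d i ∈ MM n m g d := fun i hi =>
    Ideal.subset_span (Or.inr ⟨i, hi, rfl⟩)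
  have k1 : ∀ i, i < m + 1 → X (vY n m i) ^ ee d i ∈ K1 n m d ⊔ K2 n m g d := fun i hi => by
    have : X (vY n m i) ^ ee d i - 0 ∈ K1 n m d := cb_memF1 hi
    rw [sub_zero] at this
    exact Ideal.mem_sup_left this
  refine le_antisymm (sup_le (cb_tow_le ?_ (fun i hi => ?_)) (cb_tow_le ?_ (fun i hi => ?_))) ?_
  · intro a ha
    rw [Set.mem_singleton_iff] at ha
    rw [ha]
    exact hH
  · rw [pow_one, sub_zero]
    exact hy i hi
  · intro a ha
    rw [Set.mem_singleton_iff] at ha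
    rw [ha]
    exact hH
  · rw [pow_one]
    exact Ideal.sub_mem _ (hy i hi) (hc i hi)
  · refine Ideal.span_le.2 ?_
    rintro p ((hp | ⟨i, hi, rfl⟩) | ⟨i, hi, rfl⟩)
    · rw [Set.mem_singleton_iff] at hp
      rw [hp]
      exact Ideal.mem_sup_left (cb_memA (Set.mem_singleton _))
    · have h2 : X (vY n m i) ^ ee d i - cc n m g i ∈ K1 n m d ⊔ K2 n m g d := Ideal.mem_sup_right (cb_memF1 hi)
      have := Ideal.sub_mem _ (k1 i hi) h2
      rwa [sub_sub_cancel] at this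
    · exact k1 i hi

end

end Pool.Agent.RegRed
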