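import Mathlib
import Pool.Agent.Lib.MP_724d4c_ag.Step
import Pool.Agent.Lib.MP_724d4c_ag.XLoc

/-! Row 724x-MV: Mayer-Vietoris. -/

set_option autoImplicit false

namespace Pool.Agent.RegRed

open MvPolynomial

noncomputable section

variable {n : ℕ}

/-- coboundaries of cochains of the whole ring, on sets of `p` variables -/
private theorem MV_delta_top {p : ℕ} {d : ℤ} (l : Finset (Fin n) → Lau n)
    (hl : ∀ T, T.card + 1 = p → l T ∈ Loc ⊤ T d) (T : Finset (Fin n)) (hT : T.card = p) :
    delta l T ∈ Loc ⊤ T d := by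
  rcases Nat.eq_zero_or_pos p with h0 | h0
  · have : T = ∅ := Finset.card_eq_zero.mp (hT.trans h0)
    subst this
    simp only [delta, Finset.sum_empty]
    exact Loc_zero _ _ _
  · obtain ⟨q, rfl⟩ := Nat.exists_eq_add_of_le' h0
    exact delta_mem (p := q) l (fun T' hT' => hl T' (by omega)) T hT

/-- Proof: `g - δ h₁ ∈ J`, `g - δ h₂ ∈ K`; `δ (h₁ - h₂) ∈ J + K`, so `h₁ - h₂ - δ l = a + b` with `a` in `J`,
`b` in `K` (`Loc_sup`); `h = h₁ - a - δ l = h₂ + b` has `g - δ h ∈ J ∩ K`. -/
theorem mv_inf {J K : Ideal (MvPolynomial (Fin n) ℂ)} (hJ : IsHomog J) (hK : IsHomog K)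
    {p : ℕ} {d : ℤ} (h1 : Van J (p + 1) d) (h2 : Van K (p + 1) d) (h3 : Van (J ⊔ K) p d) :
    Van (J ⊓ K) (p + 1) d := by
  intro g hg hδ
  obtain ⟨u1, hu1, hv1⟩ := h1 g hg
    (fun T hT => Loc_mono inf_le_left (Finset.Subset.refl T) (hδ T hT))
  obtain ⟨u2, hu2, hv2⟩ := h2 g hg
    (fun T hT => Loc_mono inf_le_right (Finset.Subset.refl T) (hδ T hT))
  obtain ⟨l, hl1, hl2⟩ := h3 (fun T => u1 T - u2 T)
    (fun T hT => Loc_sub (hu1 T (by omega)) (hu2 T (by omega))) (by
      intro T hT
      rw [ST_delta_sub]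
      have e : delta u1 T - delta u2 T = (g T - delta u2 T) - (g T - delta u1 T) := by ring
      rw [e]
      exact Loc_sub (Loc_mono le_sup_right (Finset.Subset.refl T) (hv2 T hT))
        (Loc_mono le_sup_left (Finset.Subset.refl T) (hv1 T hT)))
  have hdec : ∀ T : Finset (Fin n), ∃ a b : Lau n, T.card = p → a ∈ Loc J T d ∧ b ∈ Loc K T d ∧
      u1 T - u2 T - delta l T = a + b := by
    intro T
    by_cases hT : T.card = p
    · obtain ⟨a, ha, b, hb, hab⟩ := Loc_sup hJ hK (hl2 T hT)
      exact ⟨a, b, fun _ => ⟨ha, hb, hab⟩⟩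
    · exact ⟨0, 0, fun h => absurd h hT⟩
  choose a b hab using hdec
  refine ⟨fun T => u1 T - a T - delta l T, ?_, ?_⟩
  · intro T hT
    have hT' : T.card = p := by omega
    exact Loc_sub (Loc_sub (hu1 T hT) (Loc_mono le_top (Finset.Subset.refl T) (hab T hT').1))
      (MV_delta_top l hl1 T hT')
  · intro T hT
    apply Loc_inf
    · rw [ST_delta_sub, ST_delta_sub, delta_delta]
      have e : g T - (delta u1 T - delta a T - 0) = (g T - delta u1 T) + delta a T := by ring
      rw [e]
      exact Loc_add (hv1 T hT) (delta_mem a (fun T hT => (hab T hT).1) T hT)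
    · have e1 : delta (fun T => u1 T - a T - delta l T) T = delta (fun T => u2 T + b T) T := by
        refine ST_delta_congr (p := p) (fun T hT => ?_) hT
        have := (hab T hT).2.2
        calc u1 T - a T - delta l T = (u1 T - u2 T - delta l T) + u2 T - a T := by ring
          _ = u2 T + b T := by rw [this]; ring
      rw [e1, ST_delta_add]
      have e : g T - (delta u2 T + delta b T) = (g T - delta u2 T) - delta b T := by ring
      rw [e]
      exact Loc_sub (hv2 T hT) (delta_mem b (fun T hT => (hab T hT).2.1) T hT)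

/-- Proof: `δ g = a + b` (`Loc_sup`), `δ a = -δ b ∈ J ∩ K`, so `a - δ c ∈ J ∩ K`; then `δ c ∈ J`,
`δ (g - c) = b + (a - δ c) ∈ K`; `c - δ u ∈ J`, `g - c - δ v ∈ K`, so `g - δ (u + v) ∈ J + K`. -/
theorem mv_sup {J K : Ideal (MvPolynomial (Fin n) ℂ)} (hJ : IsHomog J) (hK : IsHomog K)
    {p : ℕ} {d : ℤ} (h1 : Van J p d) (h2 : Van K p d) (h3 : Van (J ⊓ K) (p + 1) d) :
    Van (J ⊔ K) p d := by
  intro g hg hδ
  have hdec : ∀ T : Finset (Fin n), ∃ a b : Lau n, T.card = p + 1 → a ∈ Loc J T d ∧
      b ∈ Loc K T d ∧ delta g T = a + b := by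
    intro T
    by_cases hT : T.card = p + 1
    · obtain ⟨a, ha, b, hb, hab⟩ := Loc_sup hJ hK (hδ T hT)
      exact ⟨a, b, fun _ => ⟨ha, hb, hab⟩⟩
    · exact ⟨0, 0, fun h => absurd h hT⟩
  choose a b hab using hdec
  obtain ⟨c, hc1, hc2⟩ := h3 a
    (fun T hT => Loc_mono le_top (Finset.Subset.refl T) (hab T hT).1) (by
      intro T hT
      have hdd : delta (delta g) T = 0 := delta_delta g T
      have h4 : delta (delta g) T = delta a T + delta b T := by
        rw [ST_delta_congr (b := fun T => a T + b T) (fun T hT => (hab T hT).2.2) hT,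
          ST_delta_add]
      apply Loc_inf
      · exact delta_mem a (fun T hT => (hab T hT).1) T hT
      · have h5 : delta a T = - delta b T := by
          rw [h4] at hdd
          exact eq_neg_of_add_eq_zero_left hdd
        rw [h5]
        exact Loc_neg (delta_mem b (fun T hT => (hab T hT).2.1) T hT))
  obtain ⟨u, hu1, hu2⟩ := h1 c (fun T hT => hc1 T (by omega)) (by
    intro T hT
    have e : delta c T = a T - (a T - delta c T) := by ring
    rw [e]
    exact Loc_sub (hab T hT).1 (Loc_mono inf_le_left (Finset.Subset.refl T) (hc2 T hT)))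
  obtain ⟨v, hv1, hv2⟩ := h2 (fun T => g T - c T)
    (fun T hT => Loc_sub (hg T hT) (hc1 T (by omega))) (by
      intro T hT
      rw [ST_delta_sub, (hab T hT).2.2]
      have e : a T + b T - delta c T = b T + (a T - delta c T) := by ring
      rw [e]
      exact Loc_add (hab T hT).2.1 (Loc_mono inf_le_right (Finset.Subset.refl T) (hc2 T hT)))
  refine ⟨fun T => u T + v T, fun T hT => Loc_add (hu1 T hT) (hv1 T hT), fun T hT => ?_⟩
  rw [ST_delta_add]
  have e : g T - (delta u T + delta v T) = (c T - delta u T) + (g T - c T - delta v T) := by ring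
  rw [e]
  exact Loc_add (Loc_mono le_sup_left (Finset.Subset.refl T) (hu2 T hT))
    (Loc_mono le_sup_right (Finset.Subset.refl T) (hv2 T hT))

end

end Pool.Agent.RegRed
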