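import Mathlib
import Pool.Agent.Lib.MP_724d4c_ag.XCapA
import Pool.Agent.Lib.MP_724d4c_ag.XCapB
import Pool.Agent.Lib.MP_724d4c_ag.XMV

/-! Row 724x-CC: the vanishing for the towers and the regularity of `capI`. -/

set_option autoImplicit false

namespace Pool.Agent.RegRed

open MvPolynomial

noncomputable section

variable {n m : ℕ} {g : ℕ → MvPolynomial (Fin n) ℂ} {d : ℕ → ℕ}

/-- `∑_{i ≤ m} (e_i - 1) = 1 + ∑_{j < m} d_j` -/
theorem sum_ee (d : ℕ → ℕ) (m : ℕ) :
    ∑ i ∈ Finset.range (m + 1), (((1 : ℕ) : ℤ) * ee d i - 1) = 1 + ∑ j ∈ Finset.range m, (d j : ℤ) := by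
  rw [Finset.sum_range_succ', add_comm]
  congr 1
  refine Finset.sum_congr rfl (fun i _ => ?_)
  simp [ee]

/-- `∑_{i ≤ m} (s_i e_i - 1) = 1 + ∑_{j < m} (2 d_j + 1)` -/
theorem sum_sse (d : ℕ → ℕ) (m : ℕ) :
    ∑ i ∈ Finset.range (m + 1), ((ss i : ℤ) * ee d i - 1) =
      1 + ∑ j ∈ Finset.range m, (2 * (d j : ℤ) + 1) := by
  rw [Finset.sum_range_succ', add_comm]
  congr 1
  refine Finset.sum_congr rfl (fun i _ => ?_)
  simp only [ss, ee, Nat.succ_ne_zero, if_false]
  push_cast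
  ring

/-- `tow_van` with `B = 1` (`van_empty`). -/
theorem I1'_van {p : ℕ} {q : ℤ} (hq : 2 + ∑ j ∈ Finset.range m, (2 * (d j : ℤ) + 1) ≤ p + q) :
    Van (I1' n m d) p q := by
  unfold I1'
  refine tow_van (L := m + 1) (fun i j hi hj h => vY_inj i j hi hj h)
    (fun g hg => (Set.notMem_empty g hg).elim) (fun i _ j _ => XH_free j _) (fun i _ => ee_pos i)
    (fun i _ => ss_pos i) (fun g hg => (Set.notMem_empty g hg).elim) (fun i _ => XH_hom _) (B := 1)
    (fun p d hd => van_empty (by omega) hd) le_rfl ?_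
  rw [sum_sse]
  linarith

theorem I2_van (hg : ∀ j, (g j).IsHomogeneous (d j)) {p : ℕ} {q : ℤ}
    (hq : 2 + ∑ j ∈ Finset.range m, (d j : ℤ) ≤ p + q) : Van (I2 n m g d) p q := by
  unfold I2
  refine tow_van (L := m + 1) (fun i j hi hj h => vY_inj i j hi hj h)
    (fun g hg => (Set.notMem_empty g hg).elim) (fun i _ j hj => HC_free i j hj _) (fun i _ => ee_pos i)
    (fun i _ => le_rfl) (fun g hg => (Set.notMem_empty g hg).elim)
    (fun i _ => (XH_hom _).add (cc_hom hg i)) (B := 1)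
    (fun p d hd => van_empty (by omega) hd) le_rfl ?_
  rw [sum_ee]
  linarith

private theorem CC_XH_vars (j : ℕ) :
    ∀ f ∈ ({X (vH n m)} : Set (MvPolynomial (Fin (n + (m + 3))) ℂ)), vY n m j ∉ f.vars := by
  intro f hf
  rw [Set.mem_singleton_iff] at hf
  rw [hf, vars_X, Finset.mem_singleton]
  exact vY_ne_vH j

private theorem CC_XH_hom :
    ∀ f ∈ ({X (vH n m)} : Set (MvPolynomial (Fin (n + (m + 3))) ℂ)), ∃ e, f.IsHomogeneous e := by
  intro f hf
  rw [Set.mem_singleton_iff] at hf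
  rw [hf]
  exact ⟨1, isHomogeneous_X _ _⟩

private theorem CC_XH_B (p : ℕ) (q : ℤ) (hd : (1 : ℤ) ≤ p + q) :
    Van (Ideal.span ({X (vH n m)} : Set (MvPolynomial (Fin (n + (m + 3))) ℂ))) p q :=
  van_single (by omega) (X_ne_zero _) (c := 1) le_rfl (isHomogeneous_X _ _) (by exact_mod_cast hd)

/-- `tow_van` with `B = 1` (`van_single`). -/
theorem K1_van {p : ℕ} {q : ℤ} (hq : 2 + ∑ j ∈ Finset.range m, (d j : ℤ) ≤ p + q) :
    Van (K1 n m d) p q := by
  unfold K1
  refine tow_van (L := m + 1) (fun i j hi hj h => vY_inj i j hi hj h)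
    (fun f hf j _ => CC_XH_vars j f hf) (fun i _ j hj => by simp) (fun i _ => ee_pos i)
    (fun i _ => le_rfl) CC_XH_hom
    (fun i _ => isHomogeneous_zero _ _ _) (B := 1) CC_XH_B le_rfl ?_
  rw [sum_ee]
  linarith

theorem K2_van (hg : ∀ j, (g j).IsHomogeneous (d j)) {p : ℕ} {q : ℤ}
    (hq : 2 + ∑ j ∈ Finset.range m, (d j : ℤ) ≤ p + q) : Van (K2 n m g d) p q := by
  unfold K2
  refine tow_van (L := m + 1) (fun i j hi hj h => vY_inj i j hi hj h)
    (fun f hf j _ => CC_XH_vars j f hf) (fun i _ j hj => cc_free i j hj) (fun i _ => ee_pos i)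
    (fun i _ => le_rfl) CC_XH_hom
    (fun i _ => cc_hom hg i) (B := 1) CC_XH_B le_rfl ?_
  rw [sum_ee]
  linarith

/-- `tow_van` with `B = 2` (`van_single`). -/
theorem L1'_van (hg : ∀ j, (g j).IsHomogeneous (d j)) {p : ℕ} {q : ℤ}
    (hq : 3 + ∑ j ∈ Finset.range m, (d j : ℤ) ≤ p + q) : Van (L1' n m g d) p q := by
  unfold L1'
  refine tow_van (L := m + 1) (fun i j hi hj h => vY_inj i j hi hj h) ?_ ?_ (fun i _ => ee_pos i)
    (fun i _ => le_rfl) ?_ ?_ (B := 2) ?_ le_rfl ?_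
  · intro f hf j hj
    rw [Set.mem_singleton_iff] at hf
    rw [hf]
    intro h
    have h2 := vars_pow (X (vE n m) : MvPolynomial (Fin (n + (m + 3))) ℂ) 2 h
    rw [vars_X, Finset.mem_singleton] at h2
    exact vY_ne_vE j hj h2
  · intro i _ j hj
    by_cases hi : i = 0
    · simp only [if_pos hi]
      exact XH_free j 2
    · simp only [if_neg hi]
      exact HC_free i j hj _
  · intro f hf
    rw [Set.mem_singleton_iff] at hf
    rw [hf]
    exact ⟨2, by simpa using (isHomogeneous_X ℂ (vE n m)).pow 2⟩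
  · intro i _
    by_cases hi : i = 0
    · simp only [if_pos hi]
      rw [hi]
      exact XH_hom 2
    · simp only [if_neg hi]
      exact (XH_hom _).add (cc_hom hg i)
  · intro p q hd
    exact van_single (by omega) (pow_ne_zero 2 (X_ne_zero _)) (c := 2) (by norm_num)
      (by simpa using (isHomogeneous_X ℂ (vE n m)).pow 2) (by exact_mod_cast hd)
  · rw [sum_ee]
    linarith

theorem capI_hom (hg : ∀ j, (g j).IsHomogeneous (d j)) : IsHomog (capI n m g d) := by
  intro f hf e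
  unfold capI at hf ⊢
  rw [Ideal.mem_inf] at hf ⊢
  exact ⟨I1'_hom f hf.1 e, I2_hom hg f hf.2 e⟩

/-- `isReg_of_van_all` and `mv_inf`. -/
theorem capI_reg (hg : ∀ j, (g j).IsHomogeneous (d j)) {q : ℤ}
    (hq : 4 + ∑ j ∈ Finset.range m, (2 * (d j : ℤ) + 1) ≤ q) : IsReg (capI n m g d) q := by
  have h0 : 0 ≤ ∑ j ∈ Finset.range m, (d j : ℤ) := Finset.sum_nonneg (fun i _ => by positivity)
  have h1 : ∑ j ∈ Finset.range m, (d j : ℤ) ≤ ∑ j ∈ Finset.range m, (2 * (d j : ℤ) + 1) :=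
    Finset.sum_le_sum (fun i _ => by
      have : (0 : ℤ) ≤ d i := by positivity
      linarith)
  refine isReg_of_van_all (by linarith) (fun p hp => ?_)
  obtain ⟨p', rfl⟩ : ∃ p', p = p' + 1 := ⟨p - 1, by omega⟩
  unfold capI
  refine mv_inf I1'_hom (I2_hom hg) (I1'_van ?_) (I2_van hg ?_) ?_
  · push_cast
    linarith
  · push_cast
    linarith
  · rw [I1'_sup_I2]
    refine L1'_van hg ?_
    push_cast
    linarith

end

end Pool.Agent.RegRed
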