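import Mathlib
import Pool.Agent.Lib.MP_724d4c_ag.XCapA
import Pool.Agent.Lib.MP_724d4c_ag.XCapB

/-! Row 724x-CD: radicals, and the hyperplane section `h = 0`. -/

set_option autoImplicit false

namespace Pool.Agent.RegRed

open MvPolynomial

noncomputable section

variable {n m : ℕ} {g : ℕ → MvPolynomial (Fin n) ℂ} {d : ℕ → ℕ}

/-- `tow_rad` -/
theorem I1_rad : (I1 n m d).IsRadical :=
  tow_rad (L := m + 1) vY_inj (fun i _ j _ => XH_free j (ee d i)) (fun i _ => pow_ne_zero _ (X_ne_zero _))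
    (fun i _ => ee_pos i) (fun _ _ => rfl) le_rfl

/-- `tow_rad` -/
theorem I2_rad : (I2 n m g d).IsRadical :=
  tow_rad (L := m + 1) vY_inj (fun i _ j hj => HC_free i j hj (ee d i)) (fun i _ => HC_ne i (ee d i))
    (fun i _ => ee_pos i) (fun _ _ => rfl) le_rfl

/-- `I1' ≤ I1` and the generators of `I1` have powers in `I1'`. -/
theorem I1'_radical : (I1' n m d).radical = I1 n m d := by
  apply le_antisymm
  · have h : I1' n m d ≤ I1 n m d := by
      refine Ideal.span_le.mpr ?_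
      rintro p (hp | ⟨i, hi, rfl⟩)
      · exact absurd hp (Set.notMem_empty _)
      · have h1 : towF (vY n m) (ee d) (fun i => X (vH n m) ^ ee d i) i ^ 1 ∈ I1 n m d :=
          Ideal.subset_span (Or.inr ⟨i, hi, rfl⟩)
        rw [pow_one] at h1
        exact Ideal.pow_mem_of_mem _ h1 _ (ss_pos i)
    calc (I1' n m d).radical ≤ (I1 n m d).radical := Ideal.radical_mono h
      _ = I1 n m d := I1_rad.radical
  · refine Ideal.span_le.mpr ?_
    rintro p (hp | ⟨i, hi, rfl⟩)
    · exact absurd hp (Set.notMem_empty _)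
    · refine ⟨ss i, ?_⟩
      rw [pow_one]
      exact Ideal.subset_span (Or.inr ⟨i, hi, rfl⟩)

theorem capI_radical : (capI n m g d).radical = I1 n m d ⊓ I2 n m g d := by
  rw [capI, Ideal.radical_inf, I1'_radical, I2_rad.radical]

private theorem cd_vars (j : ℕ) :
    vY n m j ∉ (X (vH n m) : MvPolynomial (Fin (n + (m + 3))) ℂ).vars := by
  simpa using XH_free (n := n) (m := m) j 1

/-- `h` is a nonzerodivisor modulo `(c_j)` (`nzd_monic` with `v = vH`, `b = 1`, `f0 = 0`), and modulo `L1` by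
`tow_nzd_free`. -/
theorem nzd_L1 (p : MvPolynomial (Fin (n + (m + 3))) ℂ) (hp : X (vH n m) * p ∈ L1 n m g d) :
    p ∈ L1 n m g d := by
  refine tow_nzd_free (L := m + 1) (G := X (vH n m)) vY_inj ?_ (fun i _ j _ => XH_free j (ee d i))
    (fun i _ => ee_pos i) (fun _ _ => rfl) (fun j _ => cd_vars j) ?_ le_rfl p hp
  · rintro _ ⟨i, -, rfl⟩ j hj
    exact cc_free i j hj
  · intro q hq
    refine nzd_monic (vH n m) _ ?_ 0 (by simp) 1 le_rfl q (by simpa using hq)
    rintro _ ⟨i, -, rfl⟩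
    exact cc_free_H i

private theorem cd_bot (q : MvPolynomial (Fin (n + (m + 3))) ℂ)
    (hq : X (vH n m) * q ∈ Ideal.span (∅ : Set (MvPolynomial (Fin (n + (m + 3))) ℂ))) :
    q ∈ Ideal.span (∅ : Set (MvPolynomial (Fin (n + (m + 3))) ℂ)) := by
  rw [Ideal.span_empty, Ideal.mem_bot] at hq ⊢
  exact (mul_eq_zero.mp hq).resolve_left (X_ne_zero _)

/-- `tow_nzd_free` for `I1` and for `I2`. -/
theorem nzd_inf (p : MvPolynomial (Fin (n + (m + 3))) ℂ)
    (hp : X (vH n m) * p ∈ I1 n m d ⊓ I2 n m g d) : p ∈ I1 n m d ⊓ I2 n m g d := by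
  obtain ⟨h1, h2⟩ := hp
  refine ⟨?_, ?_⟩
  · exact tow_nzd_free (L := m + 1) (G := X (vH n m)) vY_inj (fun q hq => absurd hq (Set.notMem_empty _))
      (fun i _ j _ => XH_free j (ee d i))
      (fun i _ => ee_pos i) (fun _ _ => rfl) (fun j _ => cd_vars j) cd_bot le_rfl p h1
  · exact tow_nzd_free (L := m + 1) (G := X (vH n m)) vY_inj (fun q hq => absurd hq (Set.notMem_empty _))
      (fun i _ j hj => HC_free i j hj (ee d i))
      (fun i _ => ee_pos i) (fun _ _ => rfl) (fun j _ => cd_vars j) cd_bot le_rfl p h2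

/-- `inf_sup_span` -/
theorem inf_sup_H :
    (I1 n m d ⊓ I2 n m g d) ⊔ Ideal.span {X (vH n m)} = K1 n m d ⊓ K2 n m g d := by
  rw [inf_sup_span (X (vH n m)) (fun q hq => by
    rw [I1_sup_I2] at hq ⊢
    exact nzd_L1 q hq), I1_sup_H, I2_sup_H]

end

end Pool.Agent.RegRed
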