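import Mathlib
import Pool.Agent.Lib.MP_724d4c_ag.XExtC
import Pool.Agent.Lib.MP_724d4c_ag.Step

/-! Row 724x-E4: the local cohomology of `ℂ[x]/(g)` is a direct summand of that of `R/MM`. -/

set_option autoImplicit false

namespace Pool.Agent.RegRed

open MvPolynomial

noncomputable section

variable {n m : ℕ} {g : ℕ → MvPolynomial (Fin n) ℂ} {d : ℕ → ℕ}

/-- the variables of the small ring in `T'` -/
def XD_pre (m : ℕ) (T' : Finset (Fin (n + (m + 3)))) : Finset (Fin n) :=
  Finset.univ.filter fun i => Fin.castAdd (m + 3) i ∈ T'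

theorem XD_pre_imT (m : ℕ) (T : Finset (Fin n)) : XD_pre m (imT (m + 3) T) = T := by
  ext i
  simp only [XD_pre, imT, Finset.mem_filter, Finset.mem_univ, true_and, Finset.mem_map,
    Fin.castAddEmb_apply]
  constructor
  · rintro ⟨j, hj, h⟩
    have : j = i := Fin.castAdd_injective _ _ h
    rwa [← this]
  · intro h
    exact ⟨i, h, rfl⟩

/-- the extension of a cochain -/
def XD_om (m : ℕ) (d : ℕ → ℕ) (c : Finset (Fin n) → Lau n) (T' : Finset (Fin (n + (m + 3)))) :
    Lau (n + (m + 3)) :=
  if imT (m + 3) (XD_pre m T') = T' then liU (tht m d) (c (XD_pre m T')) else 0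

theorem XD_om_imT (c : Finset (Fin n) → Lau n) (T : Finset (Fin n)) :
    XD_om m d c (imT (m + 3) T) = liU (tht m d) (c T) := by
  unfold XD_om
  rw [XD_pre_imT, if_pos rfl]

theorem XD_om_not (c : Finset (Fin n) → Lau n) {T' : Finset (Fin (n + (m + 3)))}
    (h : ∀ T, T' ≠ imT (m + 3) T) : XD_om m d c T' = 0 := by
  unfold XD_om
  rw [if_neg fun e => h _ e.symm]

theorem XD_om_top {c : Finset (Fin n) → Lau n} {i : ℕ} {D w : ℤ}
    (hw : w = 2 + ∑ j ∈ Finset.range m, (d j : ℤ))
    (hc : ∀ T : Finset (Fin n), T.card = i → c T ∈ Loc ⊤ T D) (T' : Finset (Fin (n + (m + 3))))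
    (hT : T'.card = i) : XD_om m d c T' ∈ Loc ⊤ T' (D + w) := by
  by_cases h : ∃ T, T' = imT (m + 3) T
  · obtain ⟨T, rfl⟩ := h
    rw [XD_om_imT]
    rw [imT_card] at hT
    exact liU_Loc_top hw (hc T hT)
  · push Not at h
    rw [XD_om_not c h]
    exact Loc_zero _ _ _

theorem XD_delta_imT (c : Finset (Fin n) → Lau n) (T : Finset (Fin n)) :
    delta (XD_om m d c) (imT (m + 3) T) = liU (tht m d) (delta c T) := by
  rw [liU_delta]
  unfold delta
  have h : ∀ f : Fin (n + (m + 3)) → Lau (n + (m + 3)),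
      ∑ v ∈ imT (m + 3) T, f v = ∑ i ∈ T, f (Fin.castAdd (m + 3) i) := by
    intro f
    unfold imT
    rw [Finset.sum_map]
    rfl
  rw [h]
  refine Finset.sum_congr rfl fun i _ => ?_
  rw [imT_sgn, imT_erase, XD_om_imT]

/-- Proof: given `c` on the `i`-sets of `Fin n`, let `ω (imT T) = liU θ (c T)` and `ω = 0` on all other sets. Then
`δ ω` is in `MM` on `(i+1)`-sets: `liU_delta`, `liU_Loc_MM` for the sets `imT T`; `liU_Loc_kill` for the sets
`insert v (imT T)`; `0` otherwise. So `ω - δ H ∈ MM`; take `h T = exU θ (H (imT T))`. -/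
theorem extract {i : ℕ} {D w : ℤ} (hw : w = 2 + ∑ j ∈ Finset.range m, (d j : ℤ))
    (h : Van (MM n m g d) i (D + w)) : Van (gI n m g) i D := by
  intro c hc hδ
  obtain ⟨H, hH1, hH2⟩ := h (XD_om m d c) (fun T' hT' => XD_om_top hw hc T' hT') (by
    intro T' hT'
    by_cases h1 : ∃ T, T' = imT (m + 3) T
    · obtain ⟨T, rfl⟩ := h1
      rw [XD_delta_imT]
      rw [imT_card] at hT'
      exact liU_Loc_MM hw (hδ T hT')
    · unfold delta
      refine Loc_sum _ _ fun v hv => Loc_smul _ ?_
      by_cases h2 : ∃ T, T'.erase v = imT (m + 3) T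
      · obtain ⟨T, hT⟩ := h2
        rw [hT, XD_om_imT]
        have hvn : n ≤ (v : ℕ) := by
          by_contra hlt
          push Not at hlt
          apply h1
          refine ⟨insert ⟨v, hlt⟩ T, ?_⟩
          rw [← Finset.insert_erase hv, hT]
          unfold imT
          rw [Finset.map_insert]
          rfl
        have hins : insert v (imT (m + 3) T) = T' := by
          rw [← hT, Finset.insert_erase hv]
        rw [← hins]
        refine liU_Loc_kill hw (hc T ?_) v hvn
        rw [← imT_card (M := m + 3), ← hT, Finset.card_erase_of_mem hv, hT']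
        rfl
      · push Not at h2
        rw [XD_om_not c h2]
        exact Loc_zero _ _ _)
  refine ⟨fun T => exU (tht m d) (H (imT (m + 3) T)), ?_, ?_⟩
  · intro T hT
    refine exU_Loc_top hw (hH1 _ ?_)
    rw [imT_card]; exact hT
  · intro T hT
    have h3 := exU_Loc_MM hw (hH2 (imT (m + 3) T) (by rw [imT_card]; exact hT))
    rw [exU_sub, XD_om_imT, exU_liU, exU_delta] at h3
    exact h3

end

end Pool.Agent.RegRed
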