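import Mathlib
import Pool.Agent.Lib.MP_724d4c_ag.XCapC
import Pool.Agent.Lib.MP_724d4c_ag.XCapD
import Pool.Agent.Lib.MP_724d4c_ag.XExtD

/-! The transfer theorem. -/

set_option autoImplicit false

namespace Pool.Agent.RegRed

open MvPolynomial

noncomputable section

theorem transfer {n m : ℕ} {g : ℕ → MvPolynomial (Fin n) ℂ} {d : ℕ → ℕ}
    (hg : ∀ j, (g j).IsHomogeneous (d j)) (q : ℕ)
    (h : IsReg (capI n m g d).radical (q + 3 + ∑ j ∈ Finset.range m, (d j : ℤ))) (i : ℕ) :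
    Van (gI n m g) i ((q : ℤ) - i) := by
  have hpos : 0 ≤ ∑ j ∈ Finset.range m, (d j : ℤ) := Finset.sum_nonneg fun _ _ => by positivity
  set S : ℤ := ∑ j ∈ Finset.range m, (d j : ℤ) with hS
  rw [capI_radical] at h
  refine extract (d := d) (w := 2 + S) rfl ?_
  rw [← K1_sup_K2]
  refine mv_sup K1_hom (K2_hom hg) (K1_van ?_) (K2_van hg ?_) ?_
  · rw [← hS]; omega
  · rw [← hS]; omega
  · rw [← inf_sup_H]
    have h1 : ∀ p : ℕ, 1 ≤ p → Van (I1 n m d ⊓ I2 n m g d) p ((q : ℤ) + 3 + S - p) :=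
      fun p hp => van_of_isReg (by omega) h hp
    refine van_step (e := 1) (isHomog_inf I1_hom (I2_hom hg)) (isHomogeneous_X _ _) nzd_inf ?_ ?_
    · have := h1 (i + 1 + 1) (by omega)
      have e1 : (q : ℤ) - i + (2 + S) - (1 : ℕ) = (q : ℤ) + 3 + S - (i + 1 + 1 : ℕ) := by
        push_cast
        ring
      rw [e1]
      exact this
    · have := h1 (i + 1) (by omega)
      have e1 : (q : ℤ) - i + (2 + S) = (q : ℤ) + 3 + S - (i + 1 : ℕ) := by
        push_cast
        ring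
      rw [e1]
      exact this

/-- The version for families indexed by `Fin m`. -/
theorem transfer_fin (n m : ℕ) (g : Fin m → MvPolynomial (Fin n) ℂ) (d : Fin m → ℕ)
    (hg : ∀ j, (g j).IsHomogeneous (d j)) :
    ∃ I : Ideal (MvPolynomial (Fin (n + (m + 3))) ℂ), IsHomog I ∧
      (∀ q : ℤ, 4 + ∑ j, (2 * (d j : ℤ) + 1) ≤ q → IsReg I q) ∧
      ∀ q : ℕ, IsReg I.radical (q + 3 + ∑ j, (d j : ℤ)) →
        ∀ i : ℕ, Van (Ideal.span (Set.range g)) i ((q : ℤ) - i) := by
  set g' : ℕ → MvPolynomial (Fin n) ℂ := fun j => if h : j < m then g ⟨j, h⟩ else 0 with hg'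
  set d' : ℕ → ℕ := fun j => if h : j < m then d ⟨j, h⟩ else 0 with hd'
  have hhom : ∀ j, (g' j).IsHomogeneous (d' j) := by
    intro j
    by_cases h : j < m
    · simp only [hg', hd', h, dif_pos]
      exact hg _
    · simp only [hg', hd', h, dif_neg, not_false_eq_true]
      exact isHomogeneous_zero _ _ _
  have hI : gI n m g' = Ideal.span (Set.range g) := by
    unfold gI
    congr 1
    ext p
    constructor
    · rintro ⟨i, hi, rfl⟩
      exact ⟨⟨i, hi⟩, by simp [hg', hi]⟩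
    · rintro ⟨i, rfl⟩
      exact ⟨i, i.2, by simp [hg']⟩
  have hsum : ∀ f : ℕ → ℤ, ∑ j ∈ Finset.range m, f (d' j) = ∑ j : Fin m, f (d j) := by
    intro f
    rw [← Fin.sum_univ_eq_sum_range (fun j => f (d' j))]
    refine Finset.sum_congr rfl fun j _ => ?_
    simp [hd']
  refine ⟨capI n m g' d', capI_hom hhom, fun q hq => capI_reg hhom ?_, fun q hq i => ?_⟩
  · have := hsum fun t => 2 * (t : ℤ) + 1
    rw [this]
    exact hq
  · rw [← hI]
    refine transfer hhom q ?_ i
    have := hsum fun t => (t : ℤ)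
    rw [this]
    exact hq

end

end Pool.Agent.RegRed
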